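import Pool.Agent.NegThr.V

/-!
The hard circuit with few NOT gates: the parity of a staircase together with layered reachability.
-/

namespace Pool.Agent.BoolCirc

/-! ### General building blocks -/

/-- OR of ANDs, built one after the other -/
theorem extN_orand {m : ℕ} (N : ℕ) (f g : ℕ → (Fin m → Bool) → Bool) (d : ℕ) (C : Circuit m)
    (hf : ∀ a < N, Avail C (f a) d) (hg : ∀ a < N, Avail C (g a) d) :
    ∃ C' : Circuit m, ExtN (2 * N) 0 C C' ∧
      Avail C' (fun x => decide (∃ a < N, f a x = true ∧ g a x = true)) (d + N + 1) := by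
  induction N with
  | zero =>
    refine ⟨C, ExtN.refl C, (Avail.const C false _).congr ?_⟩
    intro x
    simp
  | succ N ih =>
    obtain ⟨C1, h1, h2⟩ := ih (fun a ha => hf a (by omega)) (fun a ha => hg a (by omega))
    obtain ⟨C2, h3, h4⟩ := extN_and (h1.1 _ _ (hf N (by omega))) (h1.1 _ _ (hg N (by omega)))
    obtain ⟨C3, h5, h6⟩ := extN_or (h3.1 _ _ h2) h4
    refine ⟨C3, ((h1.trans h3).trans h5).weaken (by omega) (by omega), (h6.mono (by omega)).congr ?_⟩
    intro x
    have : (∃ a < N + 1, f a x = true ∧ g a x = true) ↔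
        (∃ a < N, f a x = true ∧ g a x = true) ∨ (f N x = true ∧ g N x = true) := by
      constructor
      · rintro ⟨a, ha, h⟩
        rcases Nat.lt_succ_iff_lt_or_eq.mp ha with h' | h'
        · exact Or.inl ⟨a, h', h⟩
        · subst h'; exact Or.inr h
      · rintro (⟨a, ha, h⟩ | h)
        · exact ⟨a, by omega, h⟩
        · exact ⟨N, by omega, h⟩
    rw [Bool.eq_iff_iff]
    simp only [decide_eq_true_eq, Bool.or_eq_true, Bool.and_eq_true]
    exact this

/-! ### The staircase -/

/-- the first `j` coordinates of the left part are ones -/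
def zf (m k j : ℕ) (X : Fin (m + k) → Bool) : Bool :=
  decide (∀ i : Fin m, i.1 < j → X (Fin.castAdd k i) = true)

theorem zf_succ (m k j : ℕ) (hj : j < m) (X : Fin (m + k) → Bool) :
    zf m k (j + 1) X = (zf m k j X && X (Fin.castAdd k ⟨j, hj⟩)) := by
  rw [Bool.eq_iff_iff]
  unfold zf
  simp only [decide_eq_true_eq, Bool.and_eq_true]
  constructor
  · intro h
    exact ⟨fun i hi => h i (by omega), h ⟨j, hj⟩ (by simp)⟩
  · rintro ⟨h1, h2⟩ i hi
    rcases Nat.lt_succ_iff_lt_or_eq.mp hi with h | h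
    · exact h1 i h
    · have : i = ⟨j, hj⟩ := Fin.ext h
      rw [this]; exact h2

theorem build_z (m k : ℕ) : ∀ j ≤ m, ∃ C : Circuit (m + k), ExtN j 0 (Circuit.empty (m + k)) C ∧
    ∀ i ≤ j, Avail C (zf m k i) i := by
  intro j
  induction j with
  | zero =>
    intro _
    refine ⟨_, ExtN.refl _, fun i hi => ?_⟩
    obtain rfl : i = 0 := by omega
    refine (Avail.const _ true _).congr ?_
    intro X
    simp [zf]
  | succ j ih =>
    intro hj
    obtain ⟨C, h1, h2⟩ := ih (by omega)
    obtain ⟨C1, h3, h4⟩ := extN_and (h2 j le_rfl) (Avail.input C (Fin.castAdd k ⟨j, by omega⟩) 0)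
    refine ⟨C1, (h1.trans h3).weaken (by omega) (by omega), fun i hi => ?_⟩
    rcases Nat.le_succ_iff.mp hi with h | h
    · exact h3.1 _ _ (h2 i h)
    · subst h
      exact (h4.mono (by omega)).congr (zf_succ m k j (by omega))

/-- the parity of the staircase -/
def pf (m t : ℕ) (x : Fin m → Bool) : Bool :=
  decide (∃ i < 2 ^ t - 1, (∀ r : Fin m, r.1 < 2 * i + 1 → x r = true) ∧
    ¬ ∀ r : Fin m, r.1 < 2 * i + 2 → x r = true)

theorem pf_stair (m t : ℕ) (hm : m + 2 = 2 ^ (t + 1)) (j : ℕ) (hj : j ≤ m) :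
    pf m t (stair j) = decide (Odd j) := by
  have h2 : 2 ^ (t + 1) = 2 * 2 ^ t := by ring
  rw [Bool.eq_iff_iff]
  unfold pf stair
  simp only [decide_eq_true_eq]
  constructor
  · rintro ⟨i, hi, h1, h3⟩
    push Not at h3
    obtain ⟨r, hr1, hr2⟩ := h3
    have hr3 : 2 * i < j := h1 ⟨2 * i, by omega⟩ (by simp)
    have : r.1 = 2 * i + 1 := by
      by_contra hc
      have := h1 r (by omega)
      omega
    refine ⟨i, ?_⟩
    omega
  · rintro ⟨i, hi⟩
    refine ⟨i, by omega, fun r hr => by omega, ?_⟩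
    intro h
    have := h ⟨2 * i + 1, by omega⟩ (by simp)
    simp at this
    omega

/-! ### Layered reachability by dynamic programming -/

/-- the edge variable, `false` for the layers that do not exist -/
def yv {l w m k : ℕ} (emb : EdgeVar l w → Fin k) (i : ℕ) (a b : Fin w) (X : Fin (m + k) → Bool) :
    Bool :=
  if h : i < l + 1 then X (Fin.natAdd m (emb (⟨i, h⟩, a, b))) else false

/-- vertex `b` of layer `i` can be reached -/
def rr {l w m k : ℕ} (emb : EdgeVar l w → Fin k) : ℕ → Fin w → (Fin (m + k) → Bool) → Bool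
  | 0, b, _ => decide (b.1 = 0)
  | i + 1, b, X => decide (∃ a : Fin w, rr emb i a X = true ∧ yv emb i a b X = true)

theorem yv_avail {l w m k : ℕ} (emb : EdgeVar l w → Fin k) (i : ℕ) (a b : Fin w)
    (C : Circuit (m + k)) (d : ℕ) : Avail C (yv emb i a b) d := by
  by_cases h : i < l + 1
  · exact (Avail.input C (Fin.natAdd m (emb (⟨i, h⟩, a, b))) d).congr (fun X => by simp [yv, h])
  · exact (Avail.const C false d).congr (fun X => by simp [yv, h])

theorem rr_iff {l w m k : ℕ} (emb : EdgeVar l w → Fin k) (X : Fin (m + k) → Bool) :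
    ∀ (i : ℕ) (b : Fin w), rr emb i b X = true ↔ ∃ p : ℕ → Fin w, (p 0).1 = 0 ∧ p i = b ∧
      ∀ j < i, yv emb j (p j) (p (j + 1)) X = true := by
  intro i
  induction i with
  | zero =>
    intro b
    simp only [rr, decide_eq_true_eq]
    constructor
    · intro h
      exact ⟨fun _ => b, h, rfl, fun j hj => absurd hj (Nat.not_lt_zero _)⟩
    · rintro ⟨p, h1, h2, -⟩
      rw [← h2]; exact h1
  | succ i ih =>
    intro b
    simp only [rr, decide_eq_true_eq]
    constructor
    · rintro ⟨a, h1, h2⟩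
      obtain ⟨p, h3, h4, h5⟩ := (ih a).1 h1
      refine ⟨fun j => if j ≤ i then p j else b, ?_, ?_, ?_⟩
      · simpa using h3
      · simp
      · intro j hj
        rcases Nat.lt_succ_iff_lt_or_eq.mp hj with h | h
        · have e1 : j ≤ i := h.le
          have e2 : j + 1 ≤ i := h
          simp only [e1, e2, if_true]
          exact h5 j h
        · subst h
          simp only [le_refl, if_true]
          have e3 : ¬ j + 1 ≤ j := by omega
          simp only [e3, if_false]
          rw [h4]; exact h2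
    · rintro ⟨p, h1, h2, h3⟩
      refine ⟨p i, (ih _).2 ⟨p, h1, rfl, fun j hj => h3 j (by omega)⟩, ?_⟩
      rw [← h2]
      exact h3 i (by omega)

theorem reach_eq {l w m k : ℕ} (emb : EdgeVar l w → Fin k) (X : Fin (m + k) → Bool) :
    reach l w (fun e => X (Fin.natAdd m (emb e)))
      = decide (∃ b : Fin w, b.1 = 1 ∧ rr (m := m) emb (l + 1) b X = true) := by
  rw [Bool.eq_iff_iff]
  unfold reach
  simp only [decide_eq_true_eq]
  constructor
  · rintro ⟨p, h0, h1, h2⟩
    refine ⟨p (l + 1), h1, (rr_iff emb X _ _).2 ⟨p, h0, rfl, fun j hj => ?_⟩⟩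
    unfold yv
    rw [dif_pos hj]
    exact h2 ⟨j, hj⟩
  · rintro ⟨b, hb, h⟩
    obtain ⟨p, h0, h1, h2⟩ := (rr_iff emb X _ _).1 h
    refine ⟨p, h0, by rw [h1]; exact hb, fun i => ?_⟩
    have h3 := h2 i.1 i.2
    unfold yv at h3
    rw [dif_pos i.2] at h3
    exact h3

theorem build_rr {l w m k : ℕ} (emb : EdgeVar l w → Fin k) (C : Circuit (m + k)) : ∀ i : ℕ,
    ∃ C' : Circuit (m + k), ExtN (i * (w * (2 * w))) 0 C C' ∧
      ∀ b : Fin w, Avail C' (rr emb i b) (i * (w + 1)) := by
  intro i
  induction i with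
  | zero =>
    refine ⟨C, (ExtN.refl C).weaken (by omega) (by omega), fun b => ?_⟩
    exact (Avail.const C (decide (b.1 = 0)) _).congr (fun X => rfl)
  | succ i ih =>
    obtain ⟨C1, h1, h2⟩ := ih
    have hstep : ∀ b < w, ∀ C' : Circuit (m + k), Ext C1 C' →
        ∃ C'' : Circuit (m + k), ExtN (2 * w) 0 C' C'' ∧
          Avail C'' ((fun (b : ℕ) (X : Fin (m + k) → Bool) =>
            if h : b < w then rr emb (i + 1) ⟨b, h⟩ X else false) b) ((i + 1) * (w + 1)) := by
      intro b hb C' hC'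
      obtain ⟨C2, h3, h4⟩ := extN_orand w
        (fun (a : ℕ) (X : Fin (m + k) → Bool) => if h : a < w then rr emb i ⟨a, h⟩ X else false)
        (fun (a : ℕ) (X : Fin (m + k) → Bool) => if h : a < w then yv emb i ⟨a, h⟩ ⟨b, hb⟩ X else false)
        (i * (w + 1)) C'
        (fun a ha => (hC' _ _ (h2 ⟨a, ha⟩)).congr (fun X => by simp [ha]))
        (fun a ha => (yv_avail emb i ⟨a, ha⟩ ⟨b, hb⟩ C' _).congr (fun X => by simp [ha]))
      refine ⟨C2, h3, (h4.mono (by ring_nf; omega)).congr ?_⟩
      intro X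
      simp only [hb, dif_pos, rr]
      rw [Bool.eq_iff_iff]
      simp only [decide_eq_true_eq]
      constructor
      · rintro ⟨a, ha1, ha2⟩
        refine ⟨a.1, a.2, ?_, ?_⟩
        · simpa using ha1
        · simpa using ha2
      · rintro ⟨a, ha, ha1, ha2⟩
        simp only [ha, dif_pos] at ha1 ha2
        exact ⟨⟨a, ha⟩, ha1, ha2⟩
    obtain ⟨C2, h3, h4⟩ := extN_family w
      (fun (b : ℕ) (X : Fin (m + k) → Bool) => if h : b < w then rr emb (i + 1) ⟨b, h⟩ X else false)
      ((i + 1) * (w + 1)) (2 * w) 0 C1 hstep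
    refine ⟨C2, (h1.trans h3).weaken (by ring_nf; omega) (by omega), fun b => ?_⟩
    exact (h4 b.1 b.2).congr (fun X => by simp)

/-- The hard circuit. -/
theorem hard_circuit (m k t l w : ℕ) (hm : m + 2 = 2 ^ (t + 1)) (emb : EdgeVar l w → Fin k) :
    ∃ (C : Circuit (m + k)) (p : (Fin m → Bool) → Bool),
      (∀ j ≤ m, p (stair j) = decide (Odd j)) ∧
      (∀ x y, C.eval (Fin.append x y) = (p x || reach l w (fun e => y (emb e)))) ∧
      C.nots ≤ t ∧ C.size ≤ 16 * (m + 1) + 4 * (l + 2) * w ^ 2 + 4 := by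
  have h2t : 2 ^ (t + 1) = 2 * 2 ^ t := by ring
  obtain ⟨C1, a1, a2'⟩ := build_z m k m le_rfl
  have a2 : ∀ i ≤ m, Avail C1 (zf m k i) m := fun i hi => (a2' i hi).mono hi
  obtain ⟨C2, b1, b2⟩ := extN_inverter t C1 (fun i => zf m k (2 * i)) m
    (fun i hi1 hi2 => a2 _ (by omega)) (by
      intro i j X hi hij hj h
      unfold zf at h ⊢
      rw [decide_eq_true_eq] at h ⊢
      exact fun r hr => h r (by omega))
  obtain ⟨C3, c1, c2⟩ := extN_orand (2 ^ t - 1) (fun i => zf m k (2 * i + 1))
    (fun i X => ! zf m k (2 * i + 2) X) (m + 4 * t) C2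
    (fun i hi => (b1.1 _ _ (a2 (2 * i + 1) (by omega))).mono (by omega))
    (fun i hi => by
      have := b2 (i + 1) (by omega) (by omega)
      exact this)
  obtain ⟨C4, d1, d2⟩ := build_rr (m := m) emb C3 (l + 1)
  -- the final layer
  have hfin : Avail C4 (fun X => decide (∃ b : Fin w, b.1 = 1 ∧ rr (m := m) emb (l + 1) b X = true))
      ((l + 1) * (w + 1)) := by
    by_cases hw : 1 < w
    · refine (d2 ⟨1, hw⟩).congr ?_
      intro X
      rw [Bool.eq_iff_iff]
      simp only [decide_eq_true_eq]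
      constructor
      · rintro ⟨b, hb, h⟩
        have : b = ⟨1, hw⟩ := Fin.ext hb
        rw [← this]; exact h
      · intro h
        exact ⟨⟨1, hw⟩, rfl, h⟩
    · refine (Avail.const C4 false _).congr ?_
      intro X
      rw [Bool.eq_iff_iff]
      simp only [decide_eq_true_eq, Bool.false_eq_true, iff_false, not_exists, not_and]
      intro b hb
      have := b.2
      omega
  obtain ⟨C5, e1, e2⟩ := extN_or (d1.1 _ _ c2) hfin
  obtain ⟨C6, f1, f2, f3, f4⟩ := e2.exists_circuit_nots
  have hall := ((((a1.trans b1).trans c1).trans d1).trans e1)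
  have hs0 : (Circuit.empty (m + k)).size = 0 := rfl
  have hn0 : (Circuit.empty (m + k)).nots = 0 := by
    unfold Circuit.nots
    rw [Finset.card_eq_zero]
    ext i
    exact i.elim0
  refine ⟨C6, pf m t, fun j hj => pf_stair m t hm j hj, ?_, ?_, ?_⟩
  · intro x y
    rw [f1]
    have hr : reach l w (fun e => y (emb e)) = decide (∃ b : Fin w, b.1 = 1 ∧
        rr (m := m) emb (l + 1) b (Fin.append x y) = true) := by
      rw [← reach_eq]
      congr 1
      funext e
      rw [Fin.append_right]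
    rw [hr]
    congr 1
    rw [Bool.eq_iff_iff]
    unfold pf zf
    simp only [decide_eq_true_eq, Fin.append_left, Bool.not_eq_true', decide_eq_false_iff_not]
  · rw [f4]
    have := hall.2.2
    rw [hn0] at this
    omega
  · rw [f3]
    have h1 := hall.2.1
    rw [hs0] at h1
    have h3 : (l + 1) * (w * (2 * w)) = 2 * ((l + 1) * w ^ 2) := by ring
    have h4 : 4 * (l + 2) * w ^ 2 = 4 * ((l + 1) * w ^ 2) + 4 * w ^ 2 := by ring
    rw [h3] at h1
    rw [h4]
    have h5 : 4 * 2 ^ t = 2 * (m + 2) := by omega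
    omega

end Pool.Agent.BoolCirc
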