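import Pool.Agent.NegThr.RMDefs

/-!
Removing thin fibers: a set with large average degrees contains at least half of its elements in a
subset all of whose fibers are large.
-/

namespace Pool.Agent.BoolCirc

private theorem thick_aux {α ι β : Type} [DecidableEq α] [DecidableEq β] [DecidableEq ι]
    (π : ι → α → β) (I : Finset ι) (d : ℕ) :
    ∀ (k : ℕ) (A : Finset α), A.card = k →
    ∃ A' ⊆ A, A.card + d * ∑ j ∈ I, (A'.image (π j)).card ≤
        A'.card + d * ∑ j ∈ I, (A.image (π j)).card ∧
      ∀ j ∈ I, ∀ a ∈ A', d ≤ (A'.filter (fun a' => π j a' = π j a)).card := by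
  intro k
  induction k using Nat.strong_induction_on with
  | _ k ih =>
    intro A hA
    by_cases hthick : ∀ j ∈ I, ∀ a ∈ A, d ≤ (A.filter (fun a' => π j a' = π j a)).card
    · exact ⟨A, subset_rfl, le_rfl, hthick⟩
    · push Not at hthick
      obtain ⟨j, hj, a, ha, hlt⟩ := hthick
      set A₁ := A.filter (fun a' => ¬ π j a' = π j a) with hA₁
      have hsub : A₁ ⊆ A := Finset.filter_subset _ _
      have hsum : (A.filter (fun a' => π j a' = π j a)).card + A₁.card = A.card :=
        Finset.card_filter_add_card_filter_not _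
      have hpos : 0 < (A.filter (fun a' => π j a' = π j a)).card :=
        Finset.card_pos.mpr ⟨a, Finset.mem_filter.mpr ⟨ha, rfl⟩⟩
      obtain ⟨A', hA', hcard, hth⟩ := ih A₁.card (by omega) A₁ rfl
      refine ⟨A', hA'.trans hsub, ?_, hth⟩
      have himg : ∀ i, (A₁.image (π i)).card ≤ (A.image (π i)).card := fun i =>
        Finset.card_le_card (Finset.image_subset_image hsub)
      have hdrop : (A₁.image (π j)).card + 1 ≤ (A.image (π j)).card := by
        apply Finset.card_lt_card
        refine ⟨Finset.image_subset_image hsub, fun hss => ?_⟩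
        have h1 : π j a ∈ A₁.image (π j) := hss (Finset.mem_image_of_mem _ ha)
        obtain ⟨a', ha', he⟩ := Finset.mem_image.mp h1
        exact (Finset.mem_filter.mp ha').2 he
      have hsm : ∑ i ∈ I, (A₁.image (π i)).card + 1 ≤ ∑ i ∈ I, (A.image (π i)).card := by
        rw [← Finset.add_sum_erase _ _ hj, ← Finset.add_sum_erase I _ hj]
        have := Finset.sum_le_sum (fun i (_ : i ∈ I.erase j) => himg i)
        omega
      have hmul : d * ∑ i ∈ I, (A₁.image (π i)).card + d ≤ d * ∑ i ∈ I, (A.image (π i)).card := by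
        calc d * ∑ i ∈ I, (A₁.image (π i)).card + d
            = d * (∑ i ∈ I, (A₁.image (π i)).card + 1) := by ring
          _ ≤ _ := Nat.mul_le_mul_left _ hsm
      omega

theorem thick_subset {α ι β : Type} [DecidableEq α] [DecidableEq β] [DecidableEq ι]
    (π : ι → α → β) (I : Finset ι)
    (d D : ℕ) (hd : 2 * I.card * d ≤ D) (hD : 0 < D) (A : Finset α)
    (h : ∀ j ∈ I, D * (A.image (π j)).card ≤ A.card) :
    ∃ A' ⊆ A, A.card ≤ 2 * A'.card ∧
      ∀ j ∈ I, ∀ a ∈ A', d ≤ (A'.filter (fun a' => π j a' = π j a)).card := by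
  obtain ⟨A', hA', hcard, hth⟩ := thick_aux π I d A.card A rfl
  refine ⟨A', hA', ?_, hth⟩
  set S := ∑ j ∈ I, (A.image (π j)).card with hS
  have h1 : D * S ≤ I.card * A.card := by
    rw [hS, Finset.mul_sum]
    calc ∑ j ∈ I, D * (A.image (π j)).card ≤ ∑ _j ∈ I, A.card := Finset.sum_le_sum h
      _ = I.card * A.card := by rw [Finset.sum_const, smul_eq_mul]
  have h2 : D * (2 * d * S) ≤ D * A.card := by
    calc D * (2 * d * S) = 2 * d * (D * S) := by ring
      _ ≤ 2 * d * (I.card * A.card) := Nat.mul_le_mul_left _ h1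
      _ = (2 * I.card * d) * A.card := by ring
      _ ≤ D * A.card := Nat.mul_le_mul_right _ hd
  have h3 : 2 * d * S ≤ A.card := Nat.le_of_mul_le_mul_left h2 hD
  have h4 : 2 * d * S = 2 * (d * S) := by ring
  omega

end Pool.Agent.BoolCirc
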