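import Pool.Agent.NegThr.RMDefs

/-!
Module RM3: few bad coordinates in a dense set of assignments.
-/

namespace Pool.Agent.BoolCirc

theorem sum_weights {M : Type} [Fintype M] [DecidableEq M] (b : M → Bool) (S : Finset M) :
    ∑ y : M → Bool, 3 ^ (S.filter (fun e => ¬ y e = b e)).card = 2 ^ Fintype.card M * 2 ^ S.card := by
  have h1 : ∀ y : M → Bool, 3 ^ (S.filter (fun e => ¬ y e = b e)).card =
      ∏ e : M, (if e ∈ S then (if y e = b e then 1 else 3) else 1) := by
    intro y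
    rw [Finset.prod_ite, Finset.prod_const_one, mul_one, Finset.filter_mem_eq_inter,
      Finset.univ_inter, Finset.prod_ite, Finset.prod_const_one, one_mul, Finset.prod_const]
  simp_rw [h1]
  have h2 := Finset.prod_univ_sum (fun _ : M => (Finset.univ : Finset Bool))
    (fun e c => (if e ∈ S then (if c = b e then 1 else 3) else 1 : ℕ))
  rw [Fintype.piFinset_univ] at h2
  rw [← h2]
  have h3 : ∀ e : M, ∑ c : Bool, (if e ∈ S then (if c = b e then 1 else 3) else 1 : ℕ) =
      2 * (if e ∈ S then 2 else 1) := by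
    intro e
    rw [Fintype.sum_bool]
    split_ifs <;> simp_all
  simp_rw [h3]
  rw [Finset.prod_mul_distrib, Finset.prod_const, Finset.card_univ, Finset.prod_ite,
    Finset.prod_const_one, mul_one, Finset.filter_mem_eq_inter, Finset.univ_inter, Finset.prod_const]

theorem bad_coordinates {M : Type} [Fintype M] [DecidableEq M] (Y : Finset (M → Bool)) (Δ : ℕ)
    (hY : 2 ^ Fintype.card M ≤ 2 ^ Δ * Y.card) (b : M → Bool) (S : Finset M)
    (hS : ∀ e ∈ S, 8 * (Y.filter (fun y => y e = b e)).card < Y.card) :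
    S.card ≤ 6 * (Δ + 1) := by
  obtain ⟨s, hs⟩ : ∃ s, s = S.card := ⟨_, rfl⟩
  rw [← hs]
  by_contra hcon
  push Not at hcon
  have hs0 : 0 < s := by omega
  -- the average number of agreements
  have h1 : 8 * ∑ y ∈ Y, (S.filter (fun e => y e = b e)).card ≤ s * Y.card := by
    have e1 : ∑ y ∈ Y, (S.filter (fun e => y e = b e)).card =
        ∑ e ∈ S, (Y.filter (fun y => y e = b e)).card := by
      simp only [Finset.card_filter]
      exact Finset.sum_comm
    rw [e1, Finset.mul_sum, hs, ← smul_eq_mul]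
    exact Finset.sum_le_card_nsmul _ _ _ fun e he => (hS e he).le
  -- the elements with few agreements
  set Y' := Y.filter (fun y => 4 * (S.filter (fun e => y e = b e)).card ≤ s) with hY'
  have h2 : Y.card ≤ 2 * Y'.card := by
    have e1 : Y'.card + (Y.filter (fun y => ¬ 4 * (S.filter (fun e => y e = b e)).card ≤ s)).card =
        Y.card := Finset.card_filter_add_card_filter_not _
    set Z := Y.filter (fun y => ¬ 4 * (S.filter (fun e => y e = b e)).card ≤ s) with hZ
    have e2 : Z.card * s ≤ 4 * ∑ y ∈ Y, (S.filter (fun e => y e = b e)).card := by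
      calc Z.card * s ≤ ∑ y ∈ Z, 4 * (S.filter (fun e => y e = b e)).card := by
            rw [← smul_eq_mul]
            refine Finset.card_nsmul_le_sum _ _ _ fun y hy => ?_
            have := (Finset.mem_filter.mp hy).2
            omega
        _ ≤ ∑ y ∈ Y, 4 * (S.filter (fun e => y e = b e)).card :=
            Finset.sum_le_sum_of_subset (Finset.filter_subset _ _)
        _ = _ := by rw [Finset.mul_sum]
    have e3 : 2 * Z.card * s ≤ Y.card * s := by nlinarith
    have e4 := Nat.le_of_mul_le_mul_right e3 hs0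
    omega
  -- the weights
  have h3 : Y'.card * 3 ^ (s - s / 4) ≤ 2 ^ Fintype.card M * 2 ^ s := by
    rw [hs, ← sum_weights b S, ← hs, ← smul_eq_mul]
    refine (Finset.card_nsmul_le_sum Y' (fun y => 3 ^ (S.filter (fun e => ¬ y e = b e)).card) _
      fun y hy => ?_).trans (Finset.sum_le_sum_of_subset (Finset.subset_univ _))
    have e1 := (Finset.mem_filter.mp hy).2
    have e2 : (S.filter (fun e => y e = b e)).card + (S.filter (fun e => ¬ y e = b e)).card = S.card :=
      Finset.card_filter_add_card_filter_not _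
    exact Nat.pow_le_pow_right (by norm_num) (by omega)
  -- fourth powers
  have h4 : 2 ^ Fintype.card M ≤ 2 ^ (Δ + 1) * Y'.card := by
    calc 2 ^ Fintype.card M ≤ 2 ^ Δ * Y.card := hY
      _ ≤ 2 ^ Δ * (2 * Y'.card) := Nat.mul_le_mul_left _ h2
      _ = 2 ^ (Δ + 1) * Y'.card := by rw [pow_succ]; ring
  have h5 : 3 ^ (s - s / 4) ≤ 2 ^ (Δ + 1) * 2 ^ s := by
    have e1 : 2 ^ Fintype.card M * 3 ^ (s - s / 4) ≤
        2 ^ Fintype.card M * (2 ^ (Δ + 1) * 2 ^ s) := by
      calc 2 ^ Fintype.card M * 3 ^ (s - s / 4)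
          ≤ (2 ^ (Δ + 1) * Y'.card) * 3 ^ (s - s / 4) := Nat.mul_le_mul_right _ h4
        _ = 2 ^ (Δ + 1) * (Y'.card * 3 ^ (s - s / 4)) := by ring
        _ ≤ 2 ^ (Δ + 1) * (2 ^ Fintype.card M * 2 ^ s) := Nat.mul_le_mul_left _ h3
        _ = _ := by ring
    exact Nat.le_of_mul_le_mul_left e1 (by positivity)
  have h6 : 27 ^ s ≤ 16 ^ (Δ + 1 + s) := by
    calc 27 ^ s = 3 ^ (3 * s) := by rw [pow_mul]; norm_num
      _ ≤ 3 ^ (4 * (s - s / 4)) := Nat.pow_le_pow_right (by norm_num) (by omega)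
      _ = (3 ^ (s - s / 4)) ^ 4 := by rw [← pow_mul, mul_comm]
      _ ≤ (2 ^ (Δ + 1) * 2 ^ s) ^ 4 := Nat.pow_le_pow_left h5 4
      _ = 16 ^ (Δ + 1 + s) := by
          rw [← pow_add, ← pow_mul, mul_comm, pow_mul]; norm_num
  have h7 : (27 ^ 6) ^ s ≤ (16 ^ 7) ^ s := by
    calc (27 ^ 6) ^ s = (27 ^ s) ^ 6 := by rw [← pow_mul, ← pow_mul, mul_comm]
      _ ≤ (16 ^ (Δ + 1 + s)) ^ 6 := Nat.pow_le_pow_left h6 6
      _ = 16 ^ (6 * (Δ + 1) + 6 * s) := by rw [← pow_mul]; ring_nf
      _ ≤ 16 ^ (7 * s) := Nat.pow_le_pow_right (by norm_num) (by omega)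
      _ = (16 ^ 7) ^ s := by rw [pow_mul]
  have h8 : (16 ^ 7) ^ s < (27 ^ 6) ^ s := Nat.pow_lt_pow_left (by norm_num) hs0.ne'
  omega

end Pool.Agent.BoolCirc
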