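import Pool.Agent.NegThr.RM3

/-!
Module RM4: the projection lemma.
-/

namespace Pool.Agent.BoolCirc

section RM4

variable {V : Type} [Fintype V] [DecidableEq V] {m : ℕ}

/-- the elements of `B` with the value `b` at all coordinates `(i, e)`, `e ∈ U` -/
def fixB (i : V) (b : Bool) (B : Finset (V → Fin m → Bool)) (U : Finset (Fin m)) :
    Finset (V → Fin m → Bool) :=
  B.filter (fun y => ∀ e ∈ U, y i e = b)

/-- the projections of elements of `A` whose fibers avoid `U` in the coordinate `i` -/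
def avoidW (J : Finset V) (i : V) (A : Finset (V → Fin m)) (U : Finset (Fin m)) :
    Finset (V → Option (Fin m)) :=
  (A.image (msk J)).filter (fun w => ∀ a ∈ A, msk J a = w → a i ∉ U)

theorem card_image_msk (J : Finset V) (A : Finset (V → Fin m)) :
    (A.image (msk J)).card ≤ m ^ J.card := by
  have h1 : A.image (msk J) ⊆ (Finset.univ : Finset (↥J → Fin m)).image
      (fun g v => if h : v ∈ J then some (g ⟨v, h⟩) else none) := by
    intro w hw
    obtain ⟨a, ha, rfl⟩ := Finset.mem_image.mp hw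
    refine Finset.mem_image.mpr ⟨fun v => a v, Finset.mem_univ _, ?_⟩
    funext v
    by_cases hv : v ∈ J
    · simp [msk, hv]
    · simp [msk, hv]
  refine (Finset.card_le_card h1).trans (Finset.card_image_le.trans ?_)
  rw [Finset.card_univ, Fintype.card_fun, Fintype.card_fin, Fintype.card_coe]

omit [Fintype V] [DecidableEq V] in
theorem fixB_insert_image (I : Finset V) (i : V) (hi : i ∈ I) (b : Bool)
    (B : Finset (V → Fin m → Bool)) (U : Finset (Fin m)) (e : Fin m) :
    (fixB i b B (insert e U)).image (bres I) =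
      ((fixB i b B U).image (bres I)).filter (fun z => z (⟨i, hi⟩, e) = b) := by
  ext z
  simp only [fixB, Finset.mem_image, Finset.mem_filter, Finset.mem_insert, forall_eq_or_imp]
  constructor
  · rintro ⟨y, ⟨hy, hye, hyU⟩, rfl⟩
    exact ⟨⟨y, ⟨hy, hyU⟩, rfl⟩, hye⟩
  · rintro ⟨⟨y, ⟨hy, hyU⟩, rfl⟩, hz⟩
    exact ⟨y, ⟨hy, hz, hyU⟩, rfl⟩

/-- the greedy step -/
theorem projection_step (τ u Δ : ℕ) (I : Finset V) (i : V) (hi : i ∈ I) (b : Bool)
    (A : Finset (V → Fin m)) (B : Finset (V → Fin m → Bool)) (hdet : Det I A)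
    (hthick : ∀ a ∈ A, τ ≤ (A.filter (fun a' => AgreeOn (I.erase i) a' a)).card)
    (hτ : 12 * (Δ + 3 * u + 1) ≤ τ) (U : Finset (Fin m)) (hU : U.card ≤ u)
    (hB : 2 ^ (m * I.card) ≤ 2 ^ (Δ + 3 * U.card) * ((fixB i b B U).image (bres I)).card)
    (hW : (avoidW (I.erase i) i A U).Nonempty) :
    ∃ e ∉ U,
      2 * m * (avoidW (I.erase i) i A (insert e U)).card ≤
        (2 * m - τ) * (avoidW (I.erase i) i A U).card ∧
      2 ^ (m * I.card) ≤ 2 ^ (Δ + 3 * (insert e U).card) *
        ((fixB i b B (insert e U)).image (bres I)).card := by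
  classical
  set J := I.erase i with hJ
  set W := avoidW J i A U with hWdef
  set Y := (fixB i b B U).image (bres I) with hYdef
  -- the values of a fiber
  let vals : (V → Option (Fin m)) → Finset (Fin m) := fun w =>
    (A.filter (fun a => msk J a = w)).image (fun a => a i)
  have hvals : ∀ w ∈ W, τ ≤ (vals w).card := by
    intro w hw
    obtain ⟨a, ha, rfl⟩ := Finset.mem_image.mp (Finset.mem_filter.mp hw).1
    have e1 : (vals (msk J a)).card = (A.filter (fun a' => msk J a' = msk J a)).card := by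
      refine Finset.card_image_of_injOn ?_
      intro a₁ h₁ a₂ h₂ h12
      rw [Finset.mem_coe, Finset.mem_filter] at h₁ h₂
      refine hdet a₁ h₁.1 a₂ h₂.1 ?_
      intro v hv
      by_cases hvi : v = i
      · rw [hvi]; exact h12
      · exact (msk_eq_iff J a₁ a₂).mp (h₁.2.trans h₂.2.symm) v (Finset.mem_erase.mpr ⟨hvi, hv⟩)
    rw [e1]
    refine (hthick a ha).trans (Finset.card_le_card ?_)
    intro a' ha'
    rw [Finset.mem_filter] at ha' ⊢
    exact ⟨ha'.1, (msk_eq_iff J a' a).mpr ha'.2⟩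
  -- the bad coordinates
  set bad : Finset (Fin m) := Finset.univ.filter
    (fun e => 8 * (Y.filter (fun z => z (⟨i, hi⟩, e) = b)).card < Y.card) with hbad
  have hbadc : bad.card ≤ 6 * (Δ + 3 * U.card + 1) := by
    have e1 : (bad.image (fun e => ((⟨i, hi⟩, e) : ↥I × Fin m))).card = bad.card :=
      Finset.card_image_of_injective _ (fun x y h => by simpa using h)
    rw [← e1]
    refine bad_coordinates Y (Δ + 3 * U.card) ?_ (fun _ => b) _ ?_
    · rw [Fintype.card_prod, Fintype.card_coe, Fintype.card_fin, mul_comm I.card m]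
      exact hB
    · intro p hp
      obtain ⟨e, he, rfl⟩ := Finset.mem_image.mp hp
      exact (Finset.mem_filter.mp he).2
  have hbad2 : 2 * bad.card ≤ τ := by omega
  -- double counting
  set c : Fin m → ℕ := fun e => (W.filter (fun w => e ∈ vals w)).card with hc
  have hdc : W.card * τ ≤ 2 * ∑ e ∈ badᶜ, c e := by
    have e1 : ∑ e ∈ badᶜ, c e = ∑ w ∈ W, (badᶜ.filter (fun e => e ∈ vals w)).card := by
      simp only [hc, Finset.card_filter]
      exact Finset.sum_comm
    rw [e1, Finset.mul_sum, ← smul_eq_mul]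
    refine Finset.card_nsmul_le_sum _ _ _ fun w hw => ?_
    have e2 : (vals w).card ≤ (badᶜ.filter (fun e => e ∈ vals w)).card + bad.card := by
      refine (Finset.card_le_card ?_).trans (Finset.card_union_le _ _)
      intro e he
      rw [Finset.mem_union, Finset.mem_filter, Finset.mem_compl]
      by_cases hb : e ∈ bad
      · exact Or.inr hb
      · exact Or.inl ⟨hb, he⟩
    have e3 := hvals w hw
    omega
  have hWpos : 0 < W.card := hW.card_pos
  have hτpos : 0 < τ := by omega
  have hgood : (badᶜ).Nonempty := by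
    by_contra hne
    rw [Finset.not_nonempty_iff_eq_empty] at hne
    rw [hne, Finset.sum_empty, mul_zero] at hdc
    have := Nat.mul_pos hWpos hτpos
    omega
  obtain ⟨e, he, hce⟩ : ∃ e ∈ badᶜ, W.card * τ ≤ 2 * m * c e := by
    refine Finset.exists_le_of_sum_le hgood ?_
    rw [Finset.sum_const, smul_eq_mul, ← Finset.mul_sum]
    have e1 : (badᶜ).card ≤ m := by
      refine (Finset.card_le_univ _).trans ?_
      rw [Fintype.card_fin]
    calc (badᶜ).card * (W.card * τ) ≤ m * (W.card * τ) := Nat.mul_le_mul_right _ e1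
      _ ≤ m * (2 * ∑ e ∈ badᶜ, c e) := Nat.mul_le_mul_left _ hdc
      _ = 2 * m * ∑ e ∈ badᶜ, c e := by ring
  have heU : e ∉ U := by
    intro heU
    have e1 : c e = 0 := by
      rw [hc]
      refine Finset.card_eq_zero.mpr (Finset.filter_eq_empty_iff.mpr ?_)
      intro w hw hev
      obtain ⟨a, ha, hae⟩ := Finset.mem_image.mp hev
      rw [Finset.mem_filter] at ha
      exact (Finset.mem_filter.mp hw).2 a ha.1 ha.2 (hae ▸ heU)
    rw [e1, mul_zero] at hce
    have := Nat.mul_pos hWpos hτpos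
    omega
  refine ⟨e, heU, ?_, ?_⟩
  · have e1 : avoidW J i A (insert e U) = W.filter (fun w => ¬ e ∈ vals w) := by
      ext w
      simp only [hWdef, avoidW, Finset.mem_filter, vals, Finset.mem_image, not_exists, not_and,
        Finset.mem_insert, not_or]
      constructor
      · rintro ⟨h1, h2⟩
        exact ⟨⟨h1, fun a ha hw => (h2 a ha hw).2⟩, fun a ha hae => (h2 a ha.1 ha.2).1 hae⟩
      · rintro ⟨⟨h1, h2⟩, h3⟩
        exact ⟨h1, fun a ha hw => ⟨fun hae => h3 a ⟨ha, hw⟩ hae, h2 a ha hw⟩⟩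
    have e2 : c e + (avoidW J i A (insert e U)).card = W.card := by
      rw [e1]
      exact Finset.card_filter_add_card_filter_not _
    have e3 : 2 * m * (avoidW J i A (insert e U)).card + W.card * τ ≤ 2 * m * W.card := by
      calc 2 * m * (avoidW J i A (insert e U)).card + W.card * τ
          ≤ 2 * m * (avoidW J i A (insert e U)).card + 2 * m * c e := Nat.add_le_add_left hce _
        _ = 2 * m * (c e + (avoidW J i A (insert e U)).card) := by ring
        _ = 2 * m * W.card := by rw [e2]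
    rw [Nat.sub_mul, mul_comm τ W.card]
    omega
  · rw [Finset.card_insert_of_notMem heU, fixB_insert_image I i hi b B U e]
    have e1 : ¬ 8 * (Y.filter (fun z => z (⟨i, hi⟩, e) = b)).card < Y.card := by
      have := Finset.mem_compl.mp he
      rw [hbad, Finset.mem_filter] at this
      exact fun h => this ⟨Finset.mem_univ _, h⟩
    calc 2 ^ (m * I.card) ≤ 2 ^ (Δ + 3 * U.card) * Y.card := hB
      _ ≤ 2 ^ (Δ + 3 * U.card) * (8 * (Y.filter (fun z => z (⟨i, hi⟩, e) = b)).card) :=
          Nat.mul_le_mul_left _ (not_lt.mp e1)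
      _ = 2 ^ (Δ + 3 * (U.card + 1)) * (Y.filter (fun z => z (⟨i, hi⟩, e) = b)).card := by
          rw [show Δ + 3 * (U.card + 1) = (Δ + 3 * U.card) + 3 by ring, pow_add]
          ring

theorem projection_loop (τ u Δ : ℕ) (I : Finset V) (i : V) (hi : i ∈ I) (b : Bool)
    (A : Finset (V → Fin m)) (B : Finset (V → Fin m → Bool)) (hdet : Det I A)
    (hthick : ∀ a ∈ A, τ ≤ (A.filter (fun a' => AgreeOn (I.erase i) a' a)).card)
    (hB : 2 ^ (m * I.card) ≤ 2 ^ Δ * (B.image (bres I)).card)
    (hτ : 12 * (Δ + 3 * u + 1) ≤ τ) : ∀ t ≤ u, ∃ U : Finset (Fin m), U.card ≤ t ∧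
      (avoidW (I.erase i) i A U).card * (2 * m) ^ t ≤ (2 * m - τ) ^ t * m ^ (I.card - 1) ∧
      2 ^ (m * I.card) ≤ 2 ^ (Δ + 3 * U.card) * ((fixB i b B U).image (bres I)).card := by
  intro t
  induction t with
  | zero =>
    intro _
    refine ⟨∅, le_rfl, ?_, ?_⟩
    · rw [pow_zero, pow_zero, mul_one, one_mul]
      refine (Finset.card_le_card (Finset.filter_subset _ _)).trans ?_
      rw [← Finset.card_erase_of_mem hi]
      exact card_image_msk _ _
    · simpa [fixB] using hB
  | succ t ih =>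
    intro ht
    obtain ⟨U, h1, h2, h3⟩ := ih (by omega)
    rcases (avoidW (I.erase i) i A U).eq_empty_or_nonempty with he | hne
    · refine ⟨U, by omega, ?_, h3⟩
      rw [he, Finset.card_empty, zero_mul]
      exact Nat.zero_le _
    · obtain ⟨e, heU, h4, h5⟩ := projection_step τ u Δ I i hi b A B hdet hthick hτ U (by omega) h3 hne
      refine ⟨insert e U, ?_, ?_, h5⟩
      · rw [Finset.card_insert_of_notMem heU]
        omega
      · calc (avoidW (I.erase i) i A (insert e U)).card * (2 * m) ^ (t + 1)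
            = (2 * m * (avoidW (I.erase i) i A (insert e U)).card) * (2 * m) ^ t := by
              rw [pow_succ]; ring
          _ ≤ ((2 * m - τ) * (avoidW (I.erase i) i A U).card) * (2 * m) ^ t :=
              Nat.mul_le_mul_right _ h4
          _ = (2 * m - τ) * ((avoidW (I.erase i) i A U).card * (2 * m) ^ t) := by ring
          _ ≤ (2 * m - τ) * ((2 * m - τ) ^ t * m ^ (I.card - 1)) := Nat.mul_le_mul_left _ h2
          _ = (2 * m - τ) ^ (t + 1) * m ^ (I.card - 1) := by rw [pow_succ]; ring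

omit [Fintype V] in
theorem card_fixB_image (I : Finset V) (i : V) (hi : i ∈ I) (b : Bool)
    (B : Finset (V → Fin m → Bool)) (U : Finset (Fin m)) :
    ((fixB i b B U).image (bres I)).card * 2 ^ U.card ≤
      2 ^ m * ((fixB i b B U).image (bres (I.erase i))).card := by
  classical
  set Q : Finset (Fin m → Bool) := Fintype.piFinset (fun e => if e ∈ U then {b} else Finset.univ)
    with hQ
  have hQc : Q.card * 2 ^ U.card = 2 ^ m := by
    rw [hQ, Fintype.card_piFinset]
    have e1 : ∀ e : Fin m, (if e ∈ U then ({b} : Finset Bool) else Finset.univ).card *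
        (if e ∈ U then 2 else 1) = 2 := by
      intro e
      split_ifs <;> simp
    have e2 : (2 : ℕ) ^ U.card = ∏ e : Fin m, (if e ∈ U then 2 else 1) := by
      rw [Finset.prod_ite, Finset.prod_const_one, mul_one, Finset.filter_mem_eq_inter,
        Finset.univ_inter, Finset.prod_const]
    rw [e2, ← Finset.prod_mul_distrib]
    simp_rw [e1]
    simp
  have h1 : ((fixB i b B U).image (bres I)).card ≤
      (Q ×ˢ (fixB i b B U).image (bres (I.erase i))).card := by
    refine Finset.card_le_card_of_injOn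
      (fun z => (fun e => z (⟨i, hi⟩, e), fun p => z (⟨p.1, Finset.mem_of_mem_erase p.1.2⟩, p.2)))
      ?_ ?_
    · intro z hz
      obtain ⟨y, hy, rfl⟩ := Finset.mem_image.mp hz
      rw [Finset.mem_coe, Finset.mem_product]
      refine ⟨?_, Finset.mem_image.mpr ⟨y, hy, rfl⟩⟩
      rw [hQ, Fintype.mem_piFinset]
      intro e
      by_cases he : e ∈ U
      · rw [if_pos he, Finset.mem_singleton]
        exact (Finset.mem_filter.mp hy).2 e he
      · rw [if_neg he]
        exact Finset.mem_univ _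
    · intro z _ z' _ hzz
      simp only [Prod.mk.injEq] at hzz
      funext p
      obtain ⟨⟨v, hv⟩, e⟩ := p
      by_cases hvi : v = i
      · subst hvi
        exact congrFun hzz.1 e
      · exact congrFun hzz.2 (⟨v, Finset.mem_erase.mpr ⟨hvi, hv⟩⟩, e)
  rw [Finset.card_product] at h1
  calc ((fixB i b B U).image (bres I)).card * 2 ^ U.card
      ≤ (Q.card * ((fixB i b B U).image (bres (I.erase i))).card) * 2 ^ U.card :=
        Nat.mul_le_mul_right _ h1
    _ = (Q.card * 2 ^ U.card) * ((fixB i b B U).image (bres (I.erase i))).card := by ring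
    _ = _ := by rw [hQc]

theorem projection (τ u Δ : ℕ)
    (I : Finset V) (i : V) (hi : i ∈ I) (b : Bool) (A : Finset (V → Fin m))
    (B : Finset (V → Fin m → Bool)) (hdet : Det I A)
    (hthick : ∀ a ∈ A, τ ≤ (A.filter (fun a' => AgreeOn (I.erase i) a' a)).card)
    (hB : 2 ^ (m * I.card) ≤ 2 ^ Δ * (B.image (bres I)).card)
    (hu : m ^ (I.card - 1) * (2 * m - τ) ^ u < (2 * m) ^ u)
    (hτ : 12 * (Δ + 3 * u + 1) ≤ τ) :
    ∃ A' ⊆ A, ∃ B' ⊆ B, (∀ a ∈ A, ∃ a' ∈ A', AgreeOn (I.erase i) a' a) ∧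
      Det (I.erase i) A' ∧ (∀ a ∈ A', ∀ y ∈ B', y i (a i) = b) ∧
      2 ^ (m * (I.card - 1)) ≤ 2 ^ (Δ + 2 * u) * (B'.image (bres (I.erase i))).card := by
  classical
  obtain ⟨U, h1, h2, h3⟩ := projection_loop τ u Δ I i hi b A B hdet hthick hB hτ u le_rfl
  have hW : avoidW (I.erase i) i A U = ∅ := by
    by_contra hne
    have e1 : 0 < (avoidW (I.erase i) i A U).card :=
      (Finset.nonempty_iff_ne_empty.mpr hne).card_pos
    have e2 : (2 * m) ^ u ≤ (avoidW (I.erase i) i A U).card * (2 * m) ^ u :=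
      Nat.le_mul_of_pos_left _ e1
    have e3 : (2 * m - τ) ^ u * m ^ (I.card - 1) < (2 * m) ^ u := by rwa [mul_comm]
    omega
  have hch : ∀ w ∈ A.image (msk (I.erase i)), ∃ a ∈ A, msk (I.erase i) a = w ∧ a i ∈ U := by
    intro w hw
    by_contra hcon
    push Not at hcon
    have : w ∈ avoidW (I.erase i) i A U := Finset.mem_filter.mpr ⟨hw, hcon⟩
    rw [hW] at this
    exact absurd this (Finset.notMem_empty _)
  choose g hg1 hg2 hg3 using hch
  refine ⟨(A.image (msk (I.erase i))).attach.image (fun w => g w.1 w.2), ?_, fixB i b B U,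
    Finset.filter_subset _ _, ?_, ?_, ?_, ?_⟩
  · intro a ha
    obtain ⟨w, _, rfl⟩ := Finset.mem_image.mp ha
    exact hg1 w.1 w.2
  · intro a ha
    have hw : msk (I.erase i) a ∈ A.image (msk (I.erase i)) := Finset.mem_image_of_mem _ ha
    exact ⟨g (msk (I.erase i) a) hw, Finset.mem_image.mpr ⟨⟨_, hw⟩, Finset.mem_attach _ _, rfl⟩,
      (msk_eq_iff _ _ _).mp (hg2 _ hw)⟩
  · intro a ha a' ha' hag
    obtain ⟨w, _, rfl⟩ := Finset.mem_image.mp ha
    obtain ⟨w', _, rfl⟩ := Finset.mem_image.mp ha'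
    have e1 := (msk_eq_iff _ _ _).mpr hag
    rw [hg2 w.1 w.2, hg2 w'.1 w'.2] at e1
    rw [Subtype.ext e1]
  · intro a ha y hy
    obtain ⟨w, _, rfl⟩ := Finset.mem_image.mp ha
    exact (Finset.mem_filter.mp hy).2 _ (hg3 w.1 w.2)
  · have e1 := card_fixB_image I i hi b B U
    set P := ((fixB i b B U).image (bres I)).card with hP
    set R := ((fixB i b B U).image (bres (I.erase i))).card with hR
    have hI : 0 < I.card := Finset.card_pos.mpr ⟨i, hi⟩
    have e2 : 2 ^ m * 2 ^ (m * (I.card - 1)) = 2 ^ (m * I.card) := by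
      rw [← pow_add]
      congr 1
      obtain ⟨n, hn⟩ : ∃ n, I.card = n + 1 := ⟨I.card - 1, by omega⟩
      rw [hn, Nat.add_sub_cancel]
      ring
    have e3 : 2 ^ U.card * (2 ^ m * 2 ^ (m * (I.card - 1))) ≤
        2 ^ U.card * (2 ^ m * (2 ^ (Δ + 2 * u) * R)) := by
      calc 2 ^ U.card * (2 ^ m * 2 ^ (m * (I.card - 1))) = 2 ^ U.card * 2 ^ (m * I.card) := by
            rw [e2]
        _ ≤ 2 ^ U.card * (2 ^ (Δ + 3 * U.card) * P) := Nat.mul_le_mul_left _ h3
        _ = 2 ^ (Δ + 3 * U.card) * (P * 2 ^ U.card) := by ring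
        _ ≤ 2 ^ (Δ + 3 * U.card) * (2 ^ m * R) := Nat.mul_le_mul_left _ e1
        _ = 2 ^ U.card * (2 ^ m * (2 ^ (Δ + 2 * U.card) * R)) := by
            rw [show Δ + 3 * U.card = U.card + (Δ + 2 * U.card) by ring, pow_add]
            ring
        _ ≤ 2 ^ U.card * (2 ^ m * (2 ^ (Δ + 2 * u) * R)) := by
            refine Nat.mul_le_mul_left _ (Nat.mul_le_mul_left _ (Nat.mul_le_mul_right _ ?_))
            exact Nat.pow_le_pow_right (by norm_num) (by omega)
    exact Nat.le_of_mul_le_mul_left (Nat.le_of_mul_le_mul_left e3 (by positivity)) (by positivity)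

end RM4

end Pool.Agent.BoolCirc
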