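import Pool.Agent.NegThr.RMDefs

/-!
Numerical facts for the choice of parameters in the simulation.
-/

namespace Pool.Agent.BoolCirc

private theorem rm_bern (y : ℕ) : ∀ n : ℕ, (y + n) * y ^ n ≤ y * (y + 1) ^ n
  | 0 => by simp
  | n + 1 => by
    have ih := rm_bern y n
    calc (y + (n + 1)) * y ^ (n + 1) ≤ (y + 1) * ((y + n) * y ^ n) := by
          have : (y + 1) * ((y + n) * y ^ n) = (y + (n + 1)) * y ^ (n + 1) + n * y ^ n := by ring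
          omega
      _ ≤ (y + 1) * (y * (y + 1) ^ n) := Nat.mul_le_mul_left _ ih
      _ = y * (y + 1) ^ (n + 1) := by ring

private theorem rm_two (y : ℕ) (hy : 0 < y) : 2 * y ^ (y + 1) ≤ (y + 1) ^ (y + 1) := by
  have h := rm_bern y (y + 1)
  have h2 : y * (2 * y ^ (y + 1)) ≤ y * (y + 1) ^ (y + 1) := by
    refine le_trans ?_ h
    have : (y + (y + 1)) * y ^ (y + 1) = y * (2 * y ^ (y + 1)) + y ^ (y + 1) := by ring
    omega
  exact Nat.le_of_mul_le_mul_left h2 hy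

theorem rm_hu (r N m : ℕ) (hr : 4 ≤ r) (hN : N < r) (hm : m = r ^ 20) :
    m ^ N * (2 * m - r ^ 17) ^ (40 * r ^ 5) < (2 * m) ^ (40 * r ^ 5) := by
  obtain ⟨y, hy⟩ : ∃ y, 2 * r ^ 3 = y + 1 :=
    ⟨2 * r ^ 3 - 1, by have : 0 < r ^ 3 := by positivity
                       omega⟩
  have hy0 : 0 < y := by
    have : 1 ≤ r ^ 3 := Nat.one_le_iff_ne_zero.mpr (by positivity)
    omega
  have e1 : 2 * m = r ^ 17 * (y + 1) := by rw [hm, ← hy]; ring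
  have e2 : 2 * m - r ^ 17 = r ^ 17 * y := by
    rw [e1, mul_add, mul_one, Nat.add_sub_cancel]
  have e3 : 40 * r ^ 5 = (y + 1) * (20 * r ^ 2) := by rw [← hy]; ring
  rw [e2, e1, e3]
  have hpos : 0 < (r ^ 17 * y) ^ ((y + 1) * (20 * r ^ 2)) := by positivity
  have hmN : m ^ N < 2 ^ (20 * r ^ 2) := by
    have h1 : m ^ N ≤ 2 ^ (r * (20 * N)) := by
      rw [hm, ← pow_mul, pow_mul 2 r]
      exact Nat.pow_le_pow_left (Nat.lt_two_pow_self).le _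
    refine lt_of_le_of_lt h1 (Nat.pow_lt_pow_right (by norm_num) ?_)
    have : r * N < r * r := Nat.mul_lt_mul_of_pos_left hN (by omega)
    nlinarith
  calc m ^ N * (r ^ 17 * y) ^ ((y + 1) * (20 * r ^ 2))
      < 2 ^ (20 * r ^ 2) * (r ^ 17 * y) ^ ((y + 1) * (20 * r ^ 2)) :=
        Nat.mul_lt_mul_of_pos_right hmN hpos
    _ = ((r ^ 17) ^ (y + 1) * (2 * y ^ (y + 1))) ^ (20 * r ^ 2) := by
        rw [pow_mul (r ^ 17 * y), ← mul_pow, mul_pow (r ^ 17) y]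
        congr 1
        ring
    _ ≤ ((r ^ 17) ^ (y + 1) * (y + 1) ^ (y + 1)) ^ (20 * r ^ 2) :=
        Nat.pow_le_pow_left (Nat.mul_le_mul_left _ (rm_two y hy0)) _
    _ = (r ^ 17 * (y + 1)) ^ ((y + 1) * (20 * r ^ 2)) := by
        rw [← mul_pow, ← pow_mul]

theorem rm_htau (r : ℕ) (hr : 4 ≤ r) : 12 * (r ^ 10 + 3 * (40 * r ^ 5) + 1) ≤ r ^ 17 := by
  have h5 : 1 ≤ r ^ 5 := Nat.one_le_iff_ne_zero.mpr (by positivity)
  have h5' : 1024 ≤ r ^ 5 := by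
    calc 1024 = 4 ^ 5 := by norm_num
      _ ≤ r ^ 5 := Nat.pow_le_pow_left hr 5
  have h10 : 1024 * r ^ 5 ≤ r ^ 10 := by
    calc 1024 * r ^ 5 ≤ r ^ 5 * r ^ 5 := Nat.mul_le_mul_right _ h5'
      _ = r ^ 10 := by ring
  have h7 : 16384 ≤ r ^ 7 := by
    calc 16384 = 4 ^ 7 := by norm_num
      _ ≤ r ^ 7 := Nat.pow_le_pow_left hr 7
  have h17 : 16384 * r ^ 10 ≤ r ^ 17 := by
    calc 16384 * r ^ 10 ≤ r ^ 7 * r ^ 10 := Nat.mul_le_mul_right _ h7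
      _ = r ^ 17 := by ring
  omega

theorem rm_hK (r d n : ℕ) (hr : 4 ≤ r) (hd : d ≤ r ^ 7) (hn : n ≤ r) :
    0 + d + n * (2 * (40 * r ^ 5)) ≤ r ^ 10 := by
  have h1 : n * (2 * (40 * r ^ 5)) ≤ 80 * r ^ 6 := by
    calc n * (2 * (40 * r ^ 5)) ≤ r * (2 * (40 * r ^ 5)) := Nat.mul_le_mul_right _ hn
      _ = 80 * r ^ 6 := by ring
  have h2 : 80 * r ^ 6 ≤ 20 * r ^ 7 := by
    calc 80 * r ^ 6 = 20 * (4 * r ^ 6) := by ring
      _ ≤ 20 * (r * r ^ 6) := Nat.mul_le_mul_left _ (Nat.mul_le_mul_right _ hr)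
      _ = 20 * r ^ 7 := by ring
  have h3 : 64 * r ^ 7 ≤ r ^ 10 := by
    calc 64 * r ^ 7 = 4 ^ 3 * r ^ 7 := by norm_num
      _ ≤ r ^ 3 * r ^ 7 := Nat.mul_le_mul_right _ (Nat.pow_le_pow_left hr 3)
      _ = r ^ 10 := by ring
  omega

theorem rm_h2 (r n : ℕ) (hr : 4 ≤ r) (hn : n ≤ r) : 4 * n * r ^ 17 ≤ r ^ 19 := by
  calc 4 * n * r ^ 17 ≤ r * r * r ^ 17 := Nat.mul_le_mul_right _ (Nat.mul_le_mul hr hn)
    _ = r ^ 19 := by ring

end Pool.Agent.BoolCirc
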