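import Pool.Agent.NegThr.RMDefs
import Pool.Agent.NegThr.RM2
import Pool.Agent.NegThr.RM3
import Pool.Agent.NegThr.RM4
import Pool.Agent.NegThr.RM5b

/-!
Module RM5: the simulation theorem for the index gadget.
-/

namespace Pool.Agent.BoolCirc

section sim

variable {V : Type}

theorem AgreeOn.mono {β : Type} {J J' : Finset V} {a a' : V → β} (h : AgreeOn J a a')
    (hJ : J' ⊆ J) : AgreeOn J' a a' := fun v hv => h v (hJ hv)

theorem AgreeOn.symm {β : Type} {J : Finset V} {a a' : V → β} (h : AgreeOn J a a') :
    AgreeOn J a' a := fun v hv => (h v hv).symm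

theorem AgreeOn.trans {β : Type} {J : Finset V} {a a' a'' : V → β} (h : AgreeOn J a a')
    (h' : AgreeOn J a' a'') : AgreeOn J a a'' := fun v hv => (h v hv).trans (h' v hv)

/-- a set determined by the coordinates in `I` has at most `m ^ |I|` elements -/
theorem Det.card_le [DecidableEq V] {m : ℕ} {I : Finset V} {A : Finset (V → Fin m)}
    (h : Det I A) : A.card ≤ m ^ I.card := by
  classical
  have h1 : A.card ≤ (Finset.univ : Finset (↥I → Fin m)).card := by
    refine Finset.card_le_card_of_injOn (fun a => fun v : ↥I => a v) (fun _ _ => Finset.mem_coe.2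
      (Finset.mem_univ _)) ?_
    intro a ha a' ha' haa
    refine h a ha a' ha' ?_
    intro v hv
    exact congrFun haa ⟨v, hv⟩
  simpa using h1

/-- elements of a fiber over `I.erase v` are determined by their value at `v` -/
theorem fiber_inj [DecidableEq V] {m : ℕ} {I : Finset V} {A : Finset (V → Fin m)}
    (h : Det I A) (v : V) (a₀ a a' : V → Fin m) (ha : a ∈ A) (ha' : a' ∈ A)
    (h1 : AgreeOn (I.erase v) a a₀) (h2 : AgreeOn (I.erase v) a' a₀) (hv : a v = a' v) :
    a = a' := by
  refine h a ha a' ha' ?_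
  intro w hw
  by_cases hwv : w = v
  · rw [hwv]; exact hv
  · rw [h1 w (Finset.mem_erase.2 ⟨hwv, hw⟩), h2 w (Finset.mem_erase.2 ⟨hwv, hw⟩)]

theorem image_bres_nonempty [DecidableEq V] {m Δ : ℕ} {I : Finset V}
    {B : Finset (V → Fin m → Bool)}
    (hB : 2 ^ (m * I.card) ≤ 2 ^ Δ * (B.image (bres I)).card) : (B.image (bres I)).Nonempty := by
  rw [Finset.nonempty_iff_ne_empty]
  intro h0
  rw [h0, Finset.card_empty, mul_zero] at hB
  have := Nat.pos_of_ne_zero (pow_ne_zero (m * I.card) (two_ne_zero (α := ℕ)))
  omega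

theorem Adv.safe {Cl : Type} [DecidableEq V] {cl : Cl → V → Option Bool} {q : ℕ} {I : Finset V}
    {ρ : V → Bool} (h : Adv cl q I ρ) : Safe cl I ρ := by
  cases q with
  | zero => exact h
  | succ q => exact h.1

/-- a leaf of the protocol -/
theorem sim_leaf {Cl : Type} [Fintype V] [DecidableEq V] (cl : Cl → V → Option Bool)
    {m : ℕ} (τ₁ K : ℕ) (hτ : 12 * (K + 1) ≤ τ₁) (I : Finset V) (ρ : V → Bool)
    (A : Finset (V → Fin m)) (B : Finset (V → Fin m → Bool)) (Δ : ℕ)
    (hL : LSolves cl 0 (A : Set (V → Fin m)) (B : Set (V → Fin m → Bool))) (hs : Safe cl I ρ)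
    (hdet : Det I A) (hth : Thick τ₁ I A)
    (hB : 2 ^ (m * I.card) ≤ 2 ^ Δ * (B.image (bres I)).card)
    (hval : ∀ a ∈ A, ∀ y ∈ B, ∀ v ∉ I, y v (a v) = ρ v) (hΔ : Δ ≤ K) : A = ∅ := by
  classical
  by_contra hne
  obtain ⟨a₀, ha₀⟩ := Finset.nonempty_iff_ne_empty.2 hne
  have hYne := image_bres_nonempty hB
  obtain ⟨y₀, hy₀⟩ := Finset.image_nonempty.1 hYne
  obtain ⟨c, hc⟩ := hL
  obtain ⟨v, b, hcv, hvb⟩ := hs c
  have hviol : ∀ a ∈ A, ∀ y ∈ B, y v (a v) = b := by
    intro a ha y hy
    exact hc a (Finset.mem_coe.2 ha) y (Finset.mem_coe.2 hy) v b hcv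
  by_cases hv : v ∈ I
  · set F := A.filter (fun a' => AgreeOn (I.erase v) a' a₀) with hF
    have hFc : τ₁ ≤ F.card := hth v hv a₀ ha₀
    set S : Finset (↥I × Fin m) := F.image (fun a' => (⟨v, hv⟩, a' v)) with hS
    have hSc : S.card = F.card := by
      refine Finset.card_image_of_injOn ?_
      intro a ha a' ha' haa
      have h1 := Finset.mem_filter.1 (Finset.mem_coe.1 ha)
      have h2 := Finset.mem_filter.1 (Finset.mem_coe.1 ha')
      exact fiber_inj hdet v a₀ a a' h1.1 h2.1 h1.2 h2.2 (Prod.mk.inj haa).2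
    have hM : Fintype.card (↥I × Fin m) = m * I.card := by
      rw [Fintype.card_prod, Fintype.card_coe, Fintype.card_fin, mul_comm]
    have hbad := bad_coordinates (M := ↥I × Fin m) (B.image (bres I)) Δ (by rw [hM]; exact hB)
      (fun _ => !b) S (by
        intro e he
        obtain ⟨a, haF, hae⟩ := Finset.mem_image.1 he
        have haA := (Finset.mem_filter.1 haF).1
        have h0 : (B.image (bres I)).filter (fun y => y e = !b) = ∅ := by
          rw [Finset.filter_eq_empty_iff]
          intro y hy hye
          obtain ⟨y', hy', rfl⟩ := Finset.mem_image.1 hy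
          have h1 := hviol a haA y' hy'
          rw [← hae] at hye
          change y' v (a v) = !b at hye
          rw [h1] at hye
          cases b <;> simp at hye
        rw [h0, Finset.card_empty, mul_zero]
        exact Finset.card_pos.2 hYne)
    omega
  · rcases hvb with h | h
    · exact hv h
    · exact h ((hval a₀ ha₀ y₀ hy₀ v hv).symm.trans (hviol a₀ ha₀ y₀ hy₀))

/-- thickness is inherited by the projection -/
theorem thick_proj [DecidableEq V] {m : ℕ} {τ : ℕ} {I : Finset V} {i : V}
    {A A' : Finset (V → Fin m)} (hsub : A' ⊆ A) (hdet : Det I A) (hth : Thick τ I A)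
    (hP : ∀ a ∈ A, ∃ a' ∈ A', AgreeOn (I.erase i) a' a) : Thick τ (I.erase i) A' := by
  classical
  intro j hj a ha
  have hjI : j ∈ I := Finset.mem_of_mem_erase hj
  have hji : j ≠ i := Finset.ne_of_mem_erase hj
  have h1 := hth j hjI a (hsub ha)
  refine h1.trans ?_
  choose! g hg using hP
  refine Finset.card_le_card_of_injOn g ?_ ?_
  · intro x hx
    obtain ⟨hxA, hxa⟩ := Finset.mem_filter.1 (Finset.mem_coe.1 hx)
    obtain ⟨hgx, hgx'⟩ := hg x hxA
    refine Finset.mem_coe.2 (Finset.mem_filter.2 ⟨hgx, ?_⟩)
    intro w hw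
    have hw1 := Finset.mem_erase.1 hw
    have hw2 := Finset.mem_erase.1 hw1.2
    rw [hgx' w hw1.2]
    exact hxa w (Finset.mem_erase.2 ⟨hw1.1, hw2.2⟩)
  · intro x hx x' hx' hxx
    obtain ⟨hxA, hxa⟩ := Finset.mem_filter.1 (Finset.mem_coe.1 hx)
    obtain ⟨hxA', hxa'⟩ := Finset.mem_filter.1 (Finset.mem_coe.1 hx')
    obtain ⟨-, hgx⟩ := hg x hxA
    obtain ⟨-, hgx'⟩ := hg x' hxA'
    refine fiber_inj hdet j a x x' hxA hxA' hxa hxa' ?_
    rw [← hgx j hj, ← hgx' j hj, hxx]

end sim

theorem simulation {V Cl : Type} [Fintype V] [DecidableEq V] (cl : Cl → V → Option Bool)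
    {m : ℕ} (r u τ₁ τ₂ K : ℕ) (hr : 1 ≤ r) (hm : r * τ₂ ≤ m)
    (hu : ∀ N < Fintype.card V, m ^ N * (2 * m - τ₁) ^ u < (2 * m) ^ u)
    (hτ : 12 * (K + 3 * u + 1) ≤ τ₁) (hτ₂ : 4 * Fintype.card V * τ₁ ≤ τ₂) :
    ∀ (d q : ℕ) (I : Finset V) (ρ : V → Bool) (A : Finset (V → Fin m))
      (B : Finset (V → Fin m → Bool)) (Δ : ℕ),
      LSolves cl d (A : Set (V → Fin m)) (B : Set (V → Fin m → Bool)) → Adv cl q I ρ →
      Det I A → Thick τ₁ I A → 2 ^ (m * I.card) ≤ 2 ^ Δ * (B.image (bres I)).card →
      (∀ a ∈ A, ∀ y ∈ B, ∀ v ∉ I, y v (a v) = ρ v) →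
      Δ + d + I.card * (2 * u) ≤ K →
      r ^ q * A.card ≤ 4 ^ d * m ^ I.card := by
  classical
  intro d
  induction d with
  | zero =>
    intro q I ρ A B Δ hL hadv hdet hth hB hval hK
    have hA := sim_leaf cl τ₁ K (by omega) I ρ A B Δ hL hadv.safe hdet hth hB hval (by omega)
    rw [hA, Finset.card_empty, mul_zero]
    exact Nat.zero_le _
  | succ d ihd =>
    intro q I
    induction hn : I.card using Nat.strong_induction_on generalizing q I with
    | _ n ihI =>
    intro ρ A B Δ hL hadv hdet hth hB hval hK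
    subst hn
    rcases q with _ | q
    · have h1 := hdet.card_le
      have h2 : 1 ≤ 4 ^ (d + 1) := Nat.one_le_pow _ _ (by norm_num)
      rw [pow_zero, one_mul]
      nlinarith [Nat.zero_le (m ^ I.card)]
    rcases hL with ⟨A₁, A₂, hAA, hL1, hL2⟩ | ⟨B₁, B₂, hBB, hL1, hL2⟩
    · by_cases hproj : ∃ i ∈ I, A.card < τ₂ * (A.image (msk (I.erase i))).card
      · -- projection
        obtain ⟨i, hi, hlt⟩ := hproj
        obtain ⟨-, hadv'⟩ := hadv
        obtain ⟨b, hadvb⟩ := hadv' i hi
        have hIcard : 1 ≤ I.card := Finset.card_pos.2 ⟨i, hi⟩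
        have hIV : I.card ≤ Fintype.card V := Finset.card_le_univ I
        obtain ⟨A', hA', B', hB', hP1, hP2, hP3, hP4⟩ := projection τ₁ u Δ I i hi b A B hdet
          (hth i hi) hB (hu (I.card - 1) (by omega)) (by omega)
        have hcard : (I.erase i).card = I.card - 1 := Finset.card_erase_of_mem hi
        have hrec := ihI (I.erase i).card (by rw [hcard]; omega) q (I.erase i) rfl
          (Function.update ρ i b) A' B' (Δ + 2 * u)
          (LSolves.mono (Or.inl ⟨A₁, A₂, hAA, hL1, hL2⟩)
            (by exact_mod_cast hA') (by exact_mod_cast hB')) hadvb hP2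
          (thick_proj hA' hdet hth hP1) (by rw [hcard]; exact hP4) (by
            intro a ha y hy v hv
            by_cases hvi : v = i
            · subst hvi
              rw [Function.update_self]
              exact hP3 a ha y hy
            · rw [Function.update_of_ne hvi]
              refine hval a (hA' ha) y (hB' hy) v ?_
              intro hvI
              exact hv (Finset.mem_erase.2 ⟨hvi, hvI⟩)) (by
            have h3 : (I.erase i).card * (2 * u) + 2 * u = I.card * (2 * u) := by
              rw [hcard]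
              obtain ⟨k, hk⟩ := Nat.exists_eq_add_of_le hIcard
              rw [hk, Nat.add_sub_cancel_left]
              ring
            omega)
        have himg : (A.image (msk (I.erase i))).card ≤ A'.card := by
          have h1 : A.image (msk (I.erase i)) ⊆ A'.image (msk (I.erase i)) := by
            intro w hw
            obtain ⟨a, ha, rfl⟩ := Finset.mem_image.1 hw
            obtain ⟨a', ha', haa⟩ := hP1 a ha
            exact Finset.mem_image.2 ⟨a', ha', (msk_eq_iff _ _ _).2 haa⟩
          exact (Finset.card_le_card h1).trans Finset.card_image_le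
        have hpow : m * m ^ (I.card - 1) = m ^ I.card := by
          rw [← pow_succ', Nat.sub_add_cancel hIcard]
        rw [hcard] at hrec
        calc r ^ (q + 1) * A.card ≤ r ^ (q + 1) * (τ₂ * A'.card) :=
              Nat.mul_le_mul_left _ (hlt.le.trans (Nat.mul_le_mul_left _ himg))
          _ = (r * τ₂) * (r ^ q * A'.card) := by ring
          _ ≤ m * (4 ^ (d + 1) * m ^ (I.card - 1)) := Nat.mul_le_mul hm hrec
          _ = 4 ^ (d + 1) * (m * m ^ (I.card - 1)) := by ring
          _ = 4 ^ (d + 1) * m ^ I.card := by rw [hpow]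
      · -- the first player's bit
        push Not at hproj
        have hhalf : ∃ A₀ ⊆ A, A.card ≤ 2 * A₀.card ∧
            LSolves cl d (A₀ : Set (V → Fin m)) (B : Set (V → Fin m → Bool)) := by
          have hcov : A ⊆ A.filter (fun a => a ∈ A₁) ∪ A.filter (fun a => a ∈ A₂) := by
            intro a ha
            rcases hAA (Finset.mem_coe.2 ha) with h | h
            · exact Finset.mem_union_left _ (Finset.mem_filter.2 ⟨ha, h⟩)
            · exact Finset.mem_union_right _ (Finset.mem_filter.2 ⟨ha, h⟩)
          have hc := (Finset.card_le_card hcov).trans (Finset.card_union_le _ _)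
          rcases le_total (A.filter (fun a => a ∈ A₁)).card
            (A.filter (fun a => a ∈ A₂)).card with h | h
          · refine ⟨A.filter (fun a => a ∈ A₂), Finset.filter_subset _ _, by omega, ?_⟩
            exact hL2.mono (fun a ha => (Finset.mem_filter.1 (Finset.mem_coe.1 ha)).2) subset_rfl
          · refine ⟨A.filter (fun a => a ∈ A₁), Finset.filter_subset _ _, by omega, ?_⟩
            exact hL1.mono (fun a ha => (Finset.mem_filter.1 (Finset.mem_coe.1 ha)).2) subset_rfl
        obtain ⟨A₀, hA₀, hA₀c, hL₀⟩ := hhalf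
        obtain ⟨D, hD0, hD1, hD2⟩ : ∃ D : ℕ, 0 < D ∧ 2 * I.card * τ₁ ≤ D ∧
            (I.Nonempty → 2 * D ≤ τ₂) := by
          rcases I.eq_empty_or_nonempty with h | h
          · refine ⟨1, one_pos, by rw [h]; simp, ?_⟩
            intro h'
            rw [h] at h'
            exact absurd h' Finset.not_nonempty_empty
          · have hIc : 1 ≤ I.card := Finset.card_pos.2 h
            have hIV : I.card ≤ Fintype.card V := Finset.card_le_univ I
            have hτpos : 1 ≤ τ₁ := by omega
            have h1 : 2 * (2 * I.card * τ₁) ≤ τ₂ := by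
              calc 2 * (2 * I.card * τ₁) = 4 * I.card * τ₁ := by ring
                _ ≤ 4 * Fintype.card V * τ₁ := by gcongr
                _ ≤ τ₂ := hτ₂
            refine ⟨2 * I.card * τ₁, by positivity, le_rfl, fun _ => h1⟩
        obtain ⟨A', hA', hA'c, hA'th⟩ := thick_subset (fun j => msk (β := Fin m) (I.erase j)) I τ₁ D
          hD1 hD0 A₀ (by
            intro j hj
            have h1 := hproj j hj
            have h2 : (A₀.image (msk (I.erase j))).card ≤ (A.image (msk (I.erase j))).card :=
              Finset.card_le_card (Finset.image_subset_image hA₀)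
            have h3 := hD2 ⟨j, hj⟩
            have h4 : 2 * (D * (A₀.image (msk (I.erase j))).card) ≤ 2 * A₀.card := by
              calc 2 * (D * (A₀.image (msk (I.erase j))).card)
                  = (2 * D) * (A₀.image (msk (I.erase j))).card := by ring
                _ ≤ τ₂ * (A.image (msk (I.erase j))).card := Nat.mul_le_mul h3 h2
                _ ≤ A.card := h1
                _ ≤ 2 * A₀.card := hA₀c
            omega)
        have hrec := ihd (q + 1) I ρ A' B Δ (hL₀.mono (by exact_mod_cast hA') subset_rfl) hadv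
          (fun a ha a' ha' => hdet a (hA₀ (hA' ha)) a' (hA₀ (hA' ha'))) (by
            intro j hj a ha
            have h1 := hA'th j hj a ha
            refine h1.trans (le_of_eq ?_)
            congr 1
            apply Finset.filter_congr
            intro a' _
            exact msk_eq_iff _ _ _) hB
          (fun a ha y hy v hv => hval a (hA₀ (hA' ha)) y hy v hv) (by omega)
        have h5 : A.card ≤ 4 * A'.card := by omega
        calc r ^ (q + 1) * A.card ≤ r ^ (q + 1) * (4 * A'.card) := Nat.mul_le_mul_left _ h5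
          _ = 4 * (r ^ (q + 1) * A'.card) := by ring
          _ ≤ 4 * (4 ^ d * m ^ I.card) := Nat.mul_le_mul_left _ hrec
          _ = 4 ^ (d + 1) * m ^ I.card := by ring
    · -- the second player's bit
      have hhalf : ∃ B₀ ⊆ B, (B.image (bres I)).card ≤ 2 * (B₀.image (bres I)).card ∧
          LSolves cl d (A : Set (V → Fin m)) (B₀ : Set (V → Fin m → Bool)) := by
        have hcov : B ⊆ B.filter (fun a => a ∈ B₁) ∪ B.filter (fun a => a ∈ B₂) := by
          intro a ha
          rcases hBB (Finset.mem_coe.2 ha) with h | h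
          · exact Finset.mem_union_left _ (Finset.mem_filter.2 ⟨ha, h⟩)
          · exact Finset.mem_union_right _ (Finset.mem_filter.2 ⟨ha, h⟩)
        have hc : (B.image (bres I)).card ≤ ((B.filter (fun a => a ∈ B₁)).image (bres I)).card +
            ((B.filter (fun a => a ∈ B₂)).image (bres I)).card := by
          refine le_trans (Finset.card_le_card (Finset.image_subset_image hcov)) ?_
          rw [Finset.image_union]
          exact Finset.card_union_le _ _
        rcases le_total ((B.filter (fun a => a ∈ B₁)).image (bres I)).card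
          ((B.filter (fun a => a ∈ B₂)).image (bres I)).card with h | h
        · refine ⟨B.filter (fun a => a ∈ B₂), Finset.filter_subset _ _, by omega, ?_⟩
          exact hL2.mono subset_rfl (fun a ha => (Finset.mem_filter.1 (Finset.mem_coe.1 ha)).2)
        · refine ⟨B.filter (fun a => a ∈ B₁), Finset.filter_subset _ _, by omega, ?_⟩
          exact hL1.mono subset_rfl (fun a ha => (Finset.mem_filter.1 (Finset.mem_coe.1 ha)).2)
      obtain ⟨B₀, hB₀, hB₀c, hL₀⟩ := hhalf
      have hrec := ihd (q + 1) I ρ A B₀ (Δ + 1) hL₀ hadv hdet hth (by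
          calc 2 ^ (m * I.card) ≤ 2 ^ Δ * (B.image (bres I)).card := hB
            _ ≤ 2 ^ Δ * (2 * (B₀.image (bres I)).card) := Nat.mul_le_mul_left _ hB₀c
            _ = 2 ^ (Δ + 1) * (B₀.image (bres I)).card := by ring)
        (fun a ha y hy v hv => hval a ha y (hB₀ hy) v hv) (by omega)
      calc r ^ (q + 1) * A.card ≤ 4 ^ d * m ^ I.card := hrec
        _ ≤ 4 ^ (d + 1) * m ^ I.card :=
          Nat.mul_le_mul_right _ (Nat.pow_le_pow_right (by norm_num) (by omega))

/-- the map `bres univ` is injective -/
theorem bres_univ_injective {V : Type} [Fintype V] {m : ℕ} :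
    Function.Injective (bres (m := m) (Finset.univ : Finset V)) := by
  intro y y' h
  funext v e
  exact congrFun h (⟨v, Finset.mem_univ v⟩, e)

theorem lifting {V Cl : Type} [Fintype V] [DecidableEq V] (cl : Cl → V → Option Bool)
    {m : ℕ} (r q d : ℕ) (hm : m = r ^ 20) (hr : 4 ≤ r) (hV : Fintype.card V ≤ r) (hq : q ≤ r)
    (hadv : Adv cl q Finset.univ (fun _ => false))
    (h : LSolves cl d (Set.univ : Set (V → Fin m)) Set.univ) : q ≤ d := by
  classical
  rcases Nat.lt_or_ge (r ^ 7) d with hd | hd
  · have h1 : r ≤ r ^ 7 := Nat.le_self_pow (by norm_num) r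
    omega
  have hmpos : 0 < m := by rw [hm]; positivity
  have hsim := simulation cl (m := m) r (40 * r ^ 5) (r ^ 17) (r ^ 19) (r ^ 10) (by omega)
    (by rw [hm]; exact le_of_eq (by ring))
    (fun N hN => rm_hu r N m hr (lt_of_lt_of_le hN hV) hm) (rm_htau r hr)
    (rm_h2 r _ hr hV) d q Finset.univ (fun _ => false) Finset.univ Finset.univ 0
    (by rw [Finset.coe_univ, Finset.coe_univ]; exact h) hadv
    (by
      intro a _ a' _ haa
      funext v
      exact haa v (Finset.mem_univ v))
    (by
      intro i _ a _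
      have h1 : r ^ 17 ≤ (Finset.univ : Finset (Fin m)).card := by
        rw [Finset.card_univ, Fintype.card_fin, hm]
        exact Nat.pow_le_pow_right (by omega) (by norm_num)
      refine h1.trans (Finset.card_le_card_of_injOn (fun e => Function.update a i e) ?_ ?_)
      · intro e _
        refine Finset.mem_coe.2 (Finset.mem_filter.2 ⟨Finset.mem_univ _, ?_⟩)
        intro w hw
        exact Function.update_of_ne (Finset.ne_of_mem_erase hw) _ _
      · intro e _ e' _ hee
        have := congrFun hee i
        simpa using this)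
    (by
      rw [pow_zero, one_mul, Finset.card_image_of_injective _ bres_univ_injective,
        Finset.card_univ, Finset.card_univ, Fintype.card_fun, Fintype.card_fun,
        Fintype.card_bool, Fintype.card_fin, ← pow_mul])
    (by
      intro a _ y _ v hv
      exact absurd (Finset.mem_univ v) hv)
    (by
      rw [Finset.card_univ]
      exact rm_hK r d _ hr hd hV)
  have h2 : r ^ q ≤ 4 ^ d := by
    rw [Finset.card_univ, Finset.card_univ, Fintype.card_fun, Fintype.card_fin] at hsim
    exact Nat.le_of_mul_le_mul_right hsim (by positivity)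
  have h3 : 4 ^ q ≤ 4 ^ d := (Nat.pow_le_pow_left hr q).trans h2
  exact (Nat.pow_le_pow_iff_right (by norm_num)).1 h3

end Pool.Agent.BoolCirc
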