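import Pool.Agent.NegThr.RMDefs

/-!
From monotone formulas for the lifted pyramid function to the lifted search problem.
-/

namespace Pool.Agent.BoolCirc

section

variable {H m : ℕ}

/-- the true input given by the pointers `x` -/
def rmAlice (x : PNode H → Fin m) : RVar H m → Bool
  | Sum.inl (v, a, a₁, a₂) =>
      decide (a = x v ∧ a₁ = x (v.1 + 1, v.2) ∧ a₂ = x (v.1 + 1, v.2 + 1))
  | Sum.inr a => decide (a = x (0, 0))

/-- the false input given by the tables `y` -/
def rmBob (y : PNode H → Fin m → Bool) : RVar H m → Bool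
  | Sum.inl (v, a, a₁, a₂) =>
      decide (¬ (y v a = false ∧ (v.1.1 < H →
        y (v.1 + 1, v.2) a₁ = true ∧ y (v.1 + 1, v.2 + 1) a₂ = true)))
  | Sum.inr a => ! (y (0, 0) a)

theorem rm_ofNat_succ {k : ℕ} (hk : k + 1 ≤ H) :
    (Fin.ofNat (H + 1) (H - (k + 1)) + 1 : Fin (H + 1)) = Fin.ofNat (H + 1) (H - k) := by
  apply Fin.ext
  have h1 : (Fin.ofNat (H + 1) (H - (k + 1)) : Fin (H + 1)).1 = H - (k + 1) := by
    simp only [Fin.ofNat]
    exact Nat.mod_eq_of_lt (by omega)
  have h2 : (Fin.ofNat (H + 1) (H - k) : Fin (H + 1)).1 = H - k := by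
    simp only [Fin.ofNat]
    exact Nat.mod_eq_of_lt (by omega)
  have h3 : (1 : Fin (H + 1)).1 = 1 := by
    rw [Fin.val_one']
    exact Nat.mod_eq_of_lt (by omega)
  rw [Fin.val_add, h1, h2, h3, Nat.mod_eq_of_lt (by omega)]
  omega

theorem rm_ofNat_last : (Fin.ofNat (H + 1) (H - 0) : Fin (H + 1)) = Fin.last H := by
  apply Fin.ext
  simp only [Fin.ofNat, Nat.sub_zero, Fin.val_last]
  exact Nat.mod_eq_of_lt (by omega)

theorem rm_ofNat_self : (Fin.ofNat (H + 1) (H - H) : Fin (H + 1)) = 0 := by
  apply Fin.ext
  simp [Fin.ofNat]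

theorem gad_alice (x : PNode H → Fin m) : gad H m (rmAlice x) = true := by
  have key : ∀ k, k ≤ H → ∀ i : Fin (H + 1),
      der (rmAlice x) k i (x (Fin.ofNat (H + 1) (H - k), i)) = true := by
    intro k
    induction k with
    | zero =>
      intro _ i
      simp only [der, decide_eq_true_iff, rmAlice]
      rw [rm_ofNat_last]
      exact ⟨x ((Fin.last H) + 1, i), x ((Fin.last H) + 1, i + 1), by simp⟩
    | succ k ih =>
      intro hk i
      simp only [der, decide_eq_true_iff, rmAlice]
      refine ⟨x (Fin.ofNat (H + 1) (H - (k + 1)) + 1, i),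
        x (Fin.ofNat (H + 1) (H - (k + 1)) + 1, i + 1), by simp, ?_, ?_⟩
      · rw [rm_ofNat_succ hk]; exact ih (by omega) i
      · rw [rm_ofNat_succ hk]; exact ih (by omega) (i + 1)
  have h := key H le_rfl 0
  rw [rm_ofNat_self] at h
  simp only [gad, decide_eq_true_iff]
  exact ⟨x (0, 0), by simp [rmAlice], h⟩

theorem gad_bob (y : PNode H → Fin m → Bool) : gad H m (rmBob y) = false := by
  have key : ∀ k, k ≤ H → ∀ (i : Fin (H + 1)) (a : Fin m),
      der (rmBob y) k i a = true → y (Fin.ofNat (H + 1) (H - k), i) a = true := by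
    intro k
    induction k with
    | zero =>
      intro _ i a h
      simp only [der, decide_eq_true_iff, rmBob] at h
      obtain ⟨_, _, h⟩ := h
      rw [rm_ofNat_last]
      by_contra hc
      rw [Bool.not_eq_true] at hc
      exact h ⟨hc, fun hl => absurd hl (by simp)⟩
    | succ k ih =>
      intro hk i a h
      simp only [der, decide_eq_true_iff, rmBob] at h
      obtain ⟨a₁, a₂, h, h1, h2⟩ := h
      have h1' := ih (by omega) i a₁ h1
      have h2' := ih (by omega) (i + 1) a₂ h2
      rw [← rm_ofNat_succ hk] at h1' h2'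
      by_contra hc
      rw [Bool.not_eq_true] at hc
      exact h ⟨hc, fun _ => ⟨h1', h2'⟩⟩
  rw [gad, decide_eq_false_iff_not]
  rintro ⟨a, h1, h2⟩
  simp only [rmBob] at h1
  have h3 := key H le_rfl 0 a h2
  rw [rm_ofNat_self] at h3
  rw [h3] at h1
  exact absurd h1 (by simp)

theorem lsolves_aux (F : MF (RVar H m)) :
    ∀ (A : Set (PNode H → Fin m)) (B : Set (PNode H → Fin m → Bool)),
    (∀ x ∈ A, F.eval (rmAlice x) = true) → (∀ y ∈ B, F.eval (rmBob y) = false) →
    LSolves (pcl (H := H)) F.depth A B := by
  induction F with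
  | inp e =>
    intro A B hA hB
    rcases e with ⟨v, a, a₁, a₂⟩ | a
    · refine ⟨some v, fun x hx y hy => ?_⟩
      have h1 := hA x hx
      have h2 := hB y hy
      simp only [MF.eval, rmAlice, decide_eq_true_iff] at h1
      simp only [MF.eval, rmBob, decide_eq_false_iff_not, not_not] at h2
      obtain ⟨ha, ha1, ha2⟩ := h1
      obtain ⟨hb, hb2⟩ := h2
      intro u b hu
      simp only [pcl] at hu
      split_ifs at hu with h3 h4
      · have : b = false := by simpa using hu.symm
        subst h3
        change y u (x u) = b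
        rw [this, ← ha]
        exact hb
      · have : b = true := by simpa using hu.symm
        obtain ⟨h5, h6, h7⟩ := h4
        obtain ⟨hb3, hb4⟩ := hb2 h5
        rw [this]
        rcases h7 with h7 | h7
        · have hu' : u = (v.1 + 1, v.2) := Prod.ext h6 h7
          change y u (x u) = true
          rw [hu', ← ha1]
          exact hb3
        · have hu' : u = (v.1 + 1, v.2 + 1) := Prod.ext h6 h7
          change y u (x u) = true
          rw [hu', ← ha2]
          exact hb4
    · refine ⟨none, fun x hx y hy => ?_⟩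
      have h1 := hA x hx
      have h2 := hB y hy
      simp only [MF.eval, rmAlice, decide_eq_true_iff] at h1
      simp only [MF.eval, rmBob, Bool.not_eq_false'] at h2
      intro u b hu
      simp only [pcl] at hu
      split_ifs at hu with h3
      have : b = true := by simpa using hu.symm
      change y u (x u) = b
      rw [this, h3, ← h1]
      exact h2
  | cst b =>
    intro A B hA hB
    cases b with
    | true =>
      have : B = ∅ := by
        ext v; constructor
        · intro hv; have := hB v hv; simp [MF.eval] at this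
        · intro h; exact absurd h (Set.notMem_empty _)
      rw [this]
      exact lsolves_empty_right _ _
    | false =>
      have : A = ∅ := by
        ext v; constructor
        · intro hv; have := hA v hv; simp [MF.eval] at this
        · intro h; exact absurd h (Set.notMem_empty _)
      rw [this]
      exact lsolves_empty_left _ _
  | and a b iha ihb =>
    intro A B hA hB
    simp only [MF.eval, Bool.and_eq_true] at hA
    refine Or.inr ⟨{y ∈ B | a.eval (rmBob y) = false}, {y ∈ B | b.eval (rmBob y) = false},
      ?_, ?_, ?_⟩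
    · intro v hv
      have := hB v hv
      simp only [MF.eval, Bool.and_eq_false_iff] at this
      rcases this with h | h
      · exact Or.inl ⟨hv, h⟩
      · exact Or.inr ⟨hv, h⟩
    · exact (iha A _ (fun u hu => (hA u hu).1) (fun v hv => hv.2)).of_le (le_max_left _ _)
    · exact (ihb A _ (fun u hu => (hA u hu).2) (fun v hv => hv.2)).of_le (le_max_right _ _)
  | or a b iha ihb =>
    intro A B hA hB
    simp only [MF.eval, Bool.or_eq_false_iff] at hB
    refine Or.inl ⟨{x ∈ A | a.eval (rmAlice x) = true}, {x ∈ A | b.eval (rmAlice x) = true},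
      ?_, ?_, ?_⟩
    · intro u hu
      have := hA u hu
      simp only [MF.eval, Bool.or_eq_true] at this
      rcases this with h | h
      · exact Or.inl ⟨hu, h⟩
      · exact Or.inr ⟨hu, h⟩
    · exact (iha _ B (fun v hv => hv.2) (fun v hv => (hB v hv).1)).of_le (le_max_left _ _)
    · exact (ihb _ B (fun v hv => hv.2) (fun v hv => (hB v hv).2)).of_le (le_max_right _ _)

end

theorem lsolves_of_mf {H m : ℕ} (F : MF (RVar H m)) (hF : ∀ w, F.eval w = gad H m w) :
    LSolves (pcl (H := H)) F.depth (Set.univ : Set (PNode H → Fin m)) Set.univ := by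
  refine lsolves_aux F _ _ (fun x _ => ?_) (fun y _ => ?_)
  · rw [hF]; exact gad_alice x
  · rw [hF]; exact gad_bob y

end Pool.Agent.BoolCirc
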