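import Pool.Agent.NegThr.B1

/-!
Module B2: families of functions and large disjunctions.
-/

namespace Pool.Agent.BoolCirc

section B
variable {m : ℕ}

/-- iteration: if every function of a family can be added to every extension, then all can be
added at once -/
theorem extN_family (N : ℕ) (f : ℕ → (Fin m → Bool) → Bool) (d s t : ℕ) (C : Circuit m)
    (h : ∀ i < N, ∀ C' : Circuit m, Ext C C' →
      ∃ C'' : Circuit m, ExtN s t C' C'' ∧ Avail C'' (f i) d) :
    ∃ C' : Circuit m, ExtN (N * s) (N * t) C C' ∧ ∀ i < N, Avail C' (f i) d := by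
  induction N with
  | zero => exact ⟨C, (ExtN.refl C).weaken (Nat.zero_le _) (Nat.zero_le _), fun i hi => absurd hi (by omega)⟩
  | succ N ih =>
    obtain ⟨C1, h1, h2⟩ := ih (fun i hi => h i (by omega))
    obtain ⟨C2, h3, h4⟩ := h N (by omega) C1 h1.1
    refine ⟨C2, (h1.trans h3).weaken (by ring_nf; exact le_rfl) (by ring_nf; exact le_rfl), ?_⟩
    intro i hi
    rcases Nat.lt_succ_iff_lt_or_eq.mp hi with h5 | h5
    · exact h3.1 _ _ (h2 i h5)
    · rw [h5]; exact h4

theorem extN_bigor_aux (p : ℕ) : ∀ (N : ℕ) (_ : N ≤ 2 ^ p) (f : ℕ → (Fin m → Bool) → Bool) (d : ℕ)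
    (C : Circuit m) (_ : ∀ i < N, Avail C (f i) d),
    ∃ C' : Circuit m, ExtN (2 ^ p - 1) 0 C C' ∧
      Avail C' (fun x => decide (∃ i < N, f i x = true)) (d + p) := by
  induction p with
  | zero =>
    intro N hN f d C h
    rcases Nat.eq_zero_or_pos N with h0 | h0
    · subst h0
      refine ⟨C, (ExtN.refl C).weaken (Nat.zero_le _) le_rfl, (Avail.const C false _).congr ?_⟩
      intro x
      simp
    · have hN1 : N = 1 := by
        have : N ≤ 1 := by simpa using hN
        omega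
      subst hN1
      refine ⟨C, (ExtN.refl C).weaken (Nat.zero_le _) le_rfl, ((h 0 (by omega)).mono (by omega)).congr ?_⟩
      intro x
      simp
  | succ p ih =>
    intro N hN f d C h
    have hp : 2 ^ (p + 1) = 2 * 2 ^ p := by rw [pow_succ]; ring
    have hpos : 0 < 2 ^ p := by positivity
    obtain ⟨N1, hN1⟩ : ∃ N1, N1 = min N (2 ^ p) := ⟨_, rfl⟩
    have hN1a : N1 ≤ 2 ^ p := by omega
    have hN1b : N1 ≤ N := by omega
    obtain ⟨C1, h1, h2⟩ := ih N1 hN1a f d C (fun i hi => h i (by omega))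
    obtain ⟨C2, h3, h4⟩ := ih (N - N1) (by omega) (fun i => f (N1 + i)) d C1
      (fun i hi => h1.1 _ _ (h (N1 + i) (by omega)))
    obtain ⟨C3, h5, h6⟩ := extN_or (h3.1 _ _ h2) h4
    refine ⟨C3, ((h1.trans h3).trans h5).weaken (by omega) (by omega), (h6.mono (by omega)).congr ?_⟩
    intro x
    rw [Bool.eq_iff_iff]
    simp only [decide_eq_true_eq, Bool.or_eq_true]
    constructor
    · rintro ⟨i, hi, hx⟩
      rcases lt_or_ge i N1 with h7 | h7
      · exact Or.inl ⟨i, h7, hx⟩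
      · refine Or.inr ⟨i - N1, by omega, ?_⟩
        rw [Nat.add_sub_cancel' h7]
        exact hx
    · rintro (⟨i, hi, hx⟩ | ⟨i, hi, hx⟩)
      · exact ⟨i, by omega, hx⟩
      · exact ⟨N1 + i, by omega, hx⟩

theorem extN_bigor (p N : ℕ) (hN : N ≤ 2 ^ p) (f : ℕ → (Fin m → Bool) → Bool) (d : ℕ)
    (C : Circuit m) (h : ∀ i < N, Avail C (f i) d) :
    ∃ C' : Circuit m, ExtN (2 ^ p) 0 C C' ∧
      Avail C' (fun x => decide (∃ i < N, f i x = true)) (d + p) := by
  obtain ⟨C', h1, h2⟩ := extN_bigor_aux p N hN f d C h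
  exact ⟨C', h1.weaken (Nat.sub_le _ _) le_rfl, h2⟩

end B

end Pool.Agent.BoolCirc
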