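import Pool.Agent.NegThr.RMDefs
import Pool.Agent.NegThr.B2

/-!
Small monotone circuits for the lifted pyramid function.
-/

namespace Pool.Agent.BoolCirc

/-- the function is available at some depth -/
def AvE {n : ℕ} (C : Circuit n) (f : (Fin n → Bool) → Bool) : Prop := ∃ d, Avail C f d

theorem AvE.ext {n : ℕ} {C C' : Circuit n} {f : (Fin n → Bool) → Bool} (h : AvE C f)
    (hC : Ext C C') : AvE C' f := by
  obtain ⟨d, hd⟩ := h
  exact ⟨d, hC _ _ hd⟩

theorem AvE.congr {n : ℕ} {C : Circuit n} {f g : (Fin n → Bool) → Bool} (h : AvE C f)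
    (hfg : ∀ x, f x = g x) : AvE C g := by
  obtain rfl : f = g := funext hfg
  exact h

theorem avE_and {n : ℕ} {C : Circuit n} {f g : (Fin n → Bool) → Bool} (hf : AvE C f)
    (hg : AvE C g) : ∃ C' : Circuit n, ExtN 1 0 C C' ∧ AvE C' (fun x => f x && g x) := by
  obtain ⟨d, hd⟩ := hf
  obtain ⟨e, he⟩ := hg
  obtain ⟨C', h1, h2⟩ := extN_and hd he
  exact ⟨C', h1, _, h2⟩

theorem avE_or {n : ℕ} {C : Circuit n} {f g : (Fin n → Bool) → Bool} (hf : AvE C f)
    (hg : AvE C g) : ∃ C' : Circuit n, ExtN 1 0 C C' ∧ AvE C' (fun x => f x || g x) := by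
  obtain ⟨d, hd⟩ := hf
  obtain ⟨e, he⟩ := hg
  obtain ⟨C', h1, h2⟩ := extN_or hd he
  exact ⟨C', h1, _, h2⟩

/-- OR of triple ANDs over a list -/
theorem avE_list_or3 {n : ℕ} {ι : Type} (f g h : ι → (Fin n → Bool) → Bool) (C : Circuit n)
    (hf : ∀ a, AvE C (f a)) (hg : ∀ a, AvE C (g a)) (hh : ∀ a, AvE C (h a)) (L : List ι) :
    ∃ C' : Circuit n, ExtN (3 * L.length) 0 C C' ∧
      AvE C' (fun x => decide (∃ a ∈ L, f a x = true ∧ g a x = true ∧ h a x = true)) := by
  induction L with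
  | nil =>
    refine ⟨C, ExtN.refl C, 0, (Avail.const C false _).congr ?_⟩
    intro x
    simp
  | cons a L ih =>
    obtain ⟨C1, h1, h2⟩ := ih
    obtain ⟨C2, h3, h4⟩ := avE_and ((hg a).ext h1.1) ((hh a).ext h1.1)
    obtain ⟨C3, h5, h6⟩ := avE_and (((hf a).ext h1.1).ext h3.1) h4
    obtain ⟨C4, h7, h8⟩ := avE_or h6 ((h2.ext h3.1).ext h5.1)
    refine ⟨C4, (((h1.trans h3).trans h5).trans h7).weaken
      (by simp only [List.length_cons]; omega) (by omega), h8.congr ?_⟩
    intro x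
    rw [Bool.eq_iff_iff]
    simp only [decide_eq_true_eq, Bool.or_eq_true, Bool.and_eq_true, List.mem_cons,
      exists_eq_or_imp]

/-- OR of triple ANDs over a finite type -/
theorem avE_or3 {n : ℕ} {ι : Type} [Fintype ι] (f g h : ι → (Fin n → Bool) → Bool)
    (C : Circuit n) (hf : ∀ a, AvE C (f a)) (hg : ∀ a, AvE C (g a)) (hh : ∀ a, AvE C (h a)) :
    ∃ C' : Circuit n, ExtN (3 * Fintype.card ι) 0 C C' ∧
      AvE C' (fun x => decide (∃ a, f a x = true ∧ g a x = true ∧ h a x = true)) := by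
  obtain ⟨C', h1, h2⟩ := avE_list_or3 f g h C hf hg hh (Finset.univ : Finset ι).toList
  refine ⟨C', ?_, h2.congr ?_⟩
  · rw [Finset.length_toList, Finset.card_univ] at h1
    exact h1
  · intro x
    simp

/-- families over a list -/
theorem avE_list_family {n : ℕ} {ι : Type} (F : ι → (Fin n → Bool) → Bool) (s : ℕ)
    (C : Circuit n) (L : List ι)
    (h : ∀ i, ∀ C' : Circuit n, Ext C C' → ∃ C'' : Circuit n, ExtN s 0 C' C'' ∧ AvE C'' (F i)) :
    ∃ C' : Circuit n, ExtN (L.length * s) 0 C C' ∧ ∀ i ∈ L, AvE C' (F i) := by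
  induction L with
  | nil => exact ⟨C, (ExtN.refl C).weaken (by omega) (by omega), by simp⟩
  | cons a L ih =>
    obtain ⟨C1, h1, h2⟩ := ih
    obtain ⟨C2, h3, h4⟩ := h a C1 h1.1
    refine ⟨C2, (h1.trans h3).weaken (by simp only [List.length_cons]; ring_nf; exact le_rfl)
      (by omega), ?_⟩
    intro i hi
    rcases List.mem_cons.mp hi with h5 | h5
    · rw [h5]; exact h4
    · exact (h2 i h5).ext h3.1

/-- families over a finite type -/
theorem avE_family {n : ℕ} {ι : Type} [Fintype ι] (F : ι → (Fin n → Bool) → Bool) (s : ℕ)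
    (C : Circuit n)
    (h : ∀ i, ∀ C' : Circuit n, Ext C C' → ∃ C'' : Circuit n, ExtN s 0 C' C'' ∧ AvE C'' (F i)) :
    ∃ C' : Circuit n, ExtN (Fintype.card ι * s) 0 C C' ∧ ∀ i, AvE C' (F i) := by
  obtain ⟨C', h1, h2⟩ := avE_list_family F s C (Finset.univ : Finset ι).toList h
  rw [Finset.length_toList, Finset.card_univ] at h1
  exact ⟨C', h1, fun i => h2 i (by simp)⟩

/-- the facts derivable in the rows `H - k`, ..., `H` -/
theorem build_der {n : ℕ} (H m : ℕ) (emb : RVar H m → Fin n) (C : Circuit n) : ∀ k : ℕ,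
    ∃ C' : Circuit n, ExtN ((k + 1) * (((H + 1) * m) * (3 * m ^ 2))) 0 C C' ∧
      ∀ (i : Fin (H + 1)) (a : Fin m), AvE C' (fun X => der (fun e => X (emb e)) k i a) := by
  have hcard : Fintype.card (Fin (H + 1) × Fin m) = (H + 1) * m := by simp
  have hcard2 : Fintype.card (Fin m × Fin m) = m ^ 2 := by simp [sq]
  intro k
  induction k with
  | zero =>
    obtain ⟨C1, h1, h2⟩ := avE_family (ι := Fin (H + 1) × Fin m)
      (fun p X => der (fun e => X (emb e)) 0 p.1 p.2) (3 * m ^ 2) C (by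
        intro p C' _
        obtain ⟨C'', h3, h4⟩ := avE_or3 (ι := Fin m × Fin m)
          (fun q X => X (emb (Sum.inl ((Fin.last H, p.1), p.2, q.1, q.2))))
          (fun _ _ => true) (fun _ _ => true) C'
          (fun q => ⟨0, Avail.input C' _ 0⟩) (fun _ => ⟨0, Avail.const C' true 0⟩)
          (fun _ => ⟨0, Avail.const C' true 0⟩)
        rw [hcard2] at h3
        refine ⟨C'', h3, h4.congr ?_⟩
        intro X
        simp only [der, Prod.exists, and_true])
    rw [hcard] at h1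
    exact ⟨C1, h1.weaken (by ring_nf; exact le_rfl) le_rfl, fun i a => h2 (i, a)⟩
  | succ k ih =>
    obtain ⟨C0, g1, g2⟩ := ih
    obtain ⟨C1, h1, h2⟩ := avE_family (ι := Fin (H + 1) × Fin m)
      (fun p X => der (fun e => X (emb e)) (k + 1) p.1 p.2) (3 * m ^ 2) C0 (by
        intro p C' hC'
        obtain ⟨C'', h3, h4⟩ := avE_or3 (ι := Fin m × Fin m)
          (fun q X => X (emb (Sum.inl ((Fin.ofNat (H + 1) (H - (k + 1)), p.1), p.2, q.1, q.2))))
          (fun q X => der (fun e => X (emb e)) k p.1 q.1)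
          (fun q X => der (fun e => X (emb e)) k (p.1 + 1) q.2) C'
          (fun q => ⟨0, Avail.input C' _ 0⟩) (fun q => (g2 _ _).ext hC')
          (fun q => (g2 _ _).ext hC')
        rw [hcard2] at h3
        refine ⟨C'', h3, h4.congr ?_⟩
        intro X
        simp only [der, Prod.exists])
    rw [hcard] at h1
    exact ⟨C1, (g1.trans h1).weaken (by ring_nf; exact le_rfl) le_rfl, fun i a => h2 (i, a)⟩

theorem gad_circuit {n : ℕ} (H m : ℕ) (emb : RVar H m → Fin n) (C : Circuit n) :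
    ∃ C' : Circuit n, ExtN (4 * ((H + 1) ^ 2 * m ^ 3 + m)) 0 C C' ∧
      ∃ d, Avail C' (fun X => gad H m (fun e => X (emb e))) d := by
  obtain ⟨C1, h1, h2⟩ := build_der H m emb C H
  obtain ⟨C2, h3, h4⟩ := avE_or3 (ι := Fin m)
    (fun a X => X (emb (Sum.inr a))) (fun a X => der (fun e => X (emb e)) H 0 a)
    (fun _ _ => true) C1
    (fun q => ⟨0, Avail.input C1 _ 0⟩) (fun q => h2 _ _) (fun _ => ⟨0, Avail.const C1 true 0⟩)
  rw [Fintype.card_fin] at h3
  refine ⟨C2, (h1.trans h3).weaken ?_ (by omega), h4.congr ?_⟩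
  · have e1 : (H + 1) * ((H + 1) * m * (3 * m ^ 2)) = 3 * ((H + 1) ^ 2 * m ^ 3) := by ring
    rw [e1]
    omega
  · intro X
    simp only [gad, and_true]

end Pool.Agent.BoolCirc
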