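import Pool.Agent.NegThr.RM1
import Pool.Agent.NegThr.RM5
import Pool.Agent.NegThr.RM6
import Pool.Agent.NegThr.RM7
import Pool.Agent.NegThr.H

/-!
Assembly of the lower bound for monotone formulas of the lifted pyramid function and of the hard
circuit.
-/

namespace Pool.Agent.BoolCirc

/-- monotone formulas for the lifted pyramid function are deep (RM1, RM5, RM6) -/
theorem gad_lower (H : ℕ) (hH : 1 ≤ H) (F : MF (RVar H ((H + 1) ^ 40)))
    (hF : ∀ w, F.eval w = gad H ((H + 1) ^ 40) w) : H ≤ F.depth := by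
  have h2 : 2 ^ 2 ≤ (H + 1) ^ 2 := Nat.pow_le_pow_left (by omega) 2
  refine lifting (pcl (H := H)) ((H + 1) ^ 2) H F.depth (by rw [← pow_mul]) (by omega) ?_ ?_
    (pyramid_adv H) (lsolves_of_mf F hF)
  · simp only [PNode, Fintype.card_prod, Fintype.card_fin]
    rw [sq]
  · nlinarith

/-- the hard circuit (RM7, as in module H) -/
theorem hard_circuit_rm (m k t H p : ℕ) (hm : m + 2 = 2 ^ (t + 1)) (emb : RVar H p → Fin k) :
    ∃ (C : Circuit (m + k)) (f : (Fin m → Bool) → Bool),
      (∀ j ≤ m, f (stair j) = decide (Odd j)) ∧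
      (∀ x y, C.eval (Fin.append x y) = (f x || gad H p (fun e => y (emb e)))) ∧
      C.nots ≤ t ∧ C.size ≤ 16 * (m + 1) + 4 * ((H + 1) ^ 2 * p ^ 3 + p) + 4 := by
  have h2t : 2 ^ (t + 1) = 2 * 2 ^ t := by ring
  obtain ⟨C1, a1, a2'⟩ := build_z m k m le_rfl
  have a2 : ∀ i ≤ m, Avail C1 (zf m k i) m := fun i hi => (a2' i hi).mono hi
  obtain ⟨C2, b1, b2⟩ := extN_inverter t C1 (fun i => zf m k (2 * i)) m
    (fun i hi1 hi2 => a2 _ (by omega)) (by
      intro i j X hi hij hj h
      unfold zf at h ⊢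
      rw [decide_eq_true_eq] at h ⊢
      exact fun r hr => h r (by omega))
  obtain ⟨C3, c1, c2⟩ := extN_orand (2 ^ t - 1) (fun i => zf m k (2 * i + 1))
    (fun i X => ! zf m k (2 * i + 2) X) (m + 4 * t) C2
    (fun i hi => (b1.1 _ _ (a2 (2 * i + 1) (by omega))).mono (by omega))
    (fun i hi => by
      have := b2 (i + 1) (by omega) (by omega)
      exact this)
  obtain ⟨C4, d1, d, hfin⟩ := gad_circuit H p (fun e => Fin.natAdd m (emb e)) C3
  obtain ⟨C5, e1, e2⟩ := extN_or (d1.1 _ _ c2) hfin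
  obtain ⟨C6, f1, f2, f3, f4⟩ := e2.exists_circuit_nots
  have hall := ((((a1.trans b1).trans c1).trans d1).trans e1)
  have hs0 : (Circuit.empty (m + k)).size = 0 := rfl
  have hn0 : (Circuit.empty (m + k)).nots = 0 := by
    unfold Circuit.nots
    rw [Finset.card_eq_zero]
    ext i
    exact i.elim0
  refine ⟨C6, pf m t, fun j hj => pf_stair m t hm j hj, ?_, ?_, ?_⟩
  · intro x y
    rw [f1]
    simp only [Fin.append_right]
    congr 1
    rw [Bool.eq_iff_iff]
    unfold pf zf
    simp only [decide_eq_true_eq, Fin.append_left, Bool.not_eq_true', decide_eq_false_iff_not]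
  · rw [f4]
    have := hall.2.2
    rw [hn0] at this
    omega
  · rw [f3]
    have h1 := hall.2.1
    rw [hs0] at h1
    have h5 : 4 * 2 ^ t = 2 * (m + 2) := by omega
    omega

end Pool.Agent.BoolCirc
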