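import Pool.Agent.NegThr.ForkDefs

/-!
From monotone formulas for layered reachability to the fork game of Grigni and Sipser.
-/

namespace Pool.Agent.BoolCirc

section

variable {l w : ℕ}

/-- the whole sequence of vertices of a path with inner vertices `u`, start `s` and end `e` -/
def fullPath (s e : Fin w) (u : Fin l → Fin w) (i : ℕ) : Fin w :=
  if i = 0 then s else if h : i - 1 < l then u ⟨i - 1, h⟩ else e

theorem fullPath_zero (s e : Fin w) (u : Fin l → Fin w) : fullPath s e u 0 = s := by
  simp [fullPath]

theorem fullPath_succ (s e : Fin w) (u : Fin l → Fin w) (j : Fin l) :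
    fullPath s e u (j.1 + 1) = u j := by
  simp [fullPath, j.2]

theorem fullPath_last (s e : Fin w) (u : Fin l → Fin w) : fullPath s e u (l + 1) = e := by
  simp [fullPath]

/-- the edges of the path with inner vertices `u` from `s` to `e` -/
def aliceG (s e : Fin w) (u : Fin l → Fin w) : EdgeVar l w → Bool :=
  fun x => decide (fullPath s e u x.1.1 = x.2.1 ∧ fullPath s e u (x.1.1 + 1) = x.2.2)

/-- all edges except those leaving the path with inner vertices `v` from `s` to `s` -/
def bobG (s : Fin w) (v : Fin l → Fin w) : EdgeVar l w → Bool :=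
  fun x => decide (x.2.1 = fullPath s s v x.1.1 → x.2.2 = fullPath s s v (x.1.1 + 1))

theorem reach_eq_true_iff (E : EdgeVar l w → Bool) : reach l w E = true ↔ ReachP l w E := by
  classical
  simp [reach]

theorem reach_alice (s e : Fin w) (hs : s.1 = 0) (he : e.1 = 1) (u : Fin l → Fin w) :
    reach l w (aliceG s e u) = true := by
  rw [reach_eq_true_iff]
  refine ⟨fullPath s e u, ?_, ?_, ?_⟩
  · rw [fullPath_zero, hs]
  · rw [fullPath_last, he]
  · intro i
    simp [aliceG]

theorem reach_bob (s : Fin w) (hs : s.1 = 0) (v : Fin l → Fin w) :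
    reach l w (bobG s v) = false := by
  rw [← Bool.not_eq_true, reach_eq_true_iff]
  rintro ⟨p, h0, h1, hp⟩
  have key : ∀ i, i ≤ l + 1 → p i = fullPath s s v i := by
    intro i
    induction i with
    | zero =>
      intro _
      rw [fullPath_zero]
      exact Fin.ext (h0.trans hs.symm)
    | succ i ih =>
      intro hi
      have h2 := hp ⟨i, by omega⟩
      simp only [bobG, decide_eq_true_iff] at h2
      exact h2 (ih (by omega))
  have h3 := key (l + 1) le_rfl
  rw [fullPath_last] at h3
  rw [h3, hs] at h1
  omega

theorem solves_aux (s e : Fin w) (F : MF (EdgeVar l w)) : ∀ (A B : Set (Fin l → Fin w)),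
    (∀ u ∈ A, F.eval (aliceG s e u) = true) → (∀ v ∈ B, F.eval (bobG s v) = false) →
    Solves F.depth A B := by
  induction F with
  | inp x =>
    intro A B hA hB
    refine ⟨x.1.1, fun u hu v hv => ?_⟩
    have h1 := hA u hu
    have h2 := hB v hv
    simp only [MF.eval, aliceG, decide_eq_true_iff] at h1
    simp only [MF.eval, bobG, decide_eq_false_iff_not, Classical.not_imp] at h2
    refine ⟨by have := x.1.2; omega, fun j hj => ?_, fun j hj hne => ?_⟩
    · have h3 : fullPath s e u x.1.1 = fullPath s s v x.1.1 := h1.1.trans h2.1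
      rw [← hj, fullPath_succ, fullPath_succ] at h3
      exact h3
    · apply h2.2
      rw [← h1.2, ← hj, fullPath_succ, fullPath_succ, hne]
  | cst b =>
    intro A B hA hB
    cases b with
    | true =>
      have : B = ∅ := by
        ext v; constructor
        · intro hv; have := hB v hv; simp [MF.eval] at this
        · intro h; exact absurd h (Set.notMem_empty _)
      rw [this]
      exact solves_empty_right _ _
    | false =>
      have : A = ∅ := by
        ext v; constructor
        · intro hv; have := hA v hv; simp [MF.eval] at this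
        · intro h; exact absurd h (Set.notMem_empty _)
      rw [this]
      exact solves_empty_left _ _
  | and a b iha ihb =>
    intro A B hA hB
    simp only [MF.eval, Bool.and_eq_true] at hA
    refine Or.inr ⟨{v ∈ B | a.eval (bobG s v) = false}, {v ∈ B | b.eval (bobG s v) = false},
      ?_, ?_, ?_⟩
    · intro v hv
      have := hB v hv
      simp only [MF.eval, Bool.and_eq_false_iff] at this
      rcases this with h | h
      · exact Or.inl ⟨hv, h⟩
      · exact Or.inr ⟨hv, h⟩
    · exact (iha A _ (fun u hu => (hA u hu).1) (fun v hv => hv.2)).of_le (le_max_left _ _)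
    · exact (ihb A _ (fun u hu => (hA u hu).2) (fun v hv => hv.2)).of_le (le_max_right _ _)
  | or a b iha ihb =>
    intro A B hA hB
    simp only [MF.eval, Bool.or_eq_false_iff] at hB
    refine Or.inl ⟨{u ∈ A | a.eval (aliceG s e u) = true}, {u ∈ A | b.eval (aliceG s e u) = true},
      ?_, ?_, ?_⟩
    · intro u hu
      have := hA u hu
      simp only [MF.eval, Bool.or_eq_true] at this
      rcases this with h | h
      · exact Or.inl ⟨hu, h⟩
      · exact Or.inr ⟨hu, h⟩
    · exact (iha _ B (fun v hv => hv.2) (fun v hv => (hB v hv).1)).of_le (le_max_left _ _)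
    · exact (ihb _ B (fun v hv => hv.2) (fun v hv => (hB v hv).2)).of_le (le_max_right _ _)

end

theorem solves_of_mf {l w : ℕ} (hw : 2 ≤ w) (F : MF (EdgeVar l w))
    (hF : ∀ E, F.eval E = reach l w E) :
    Solves F.depth (Set.univ : Set (Fin l → Fin w)) Set.univ := by
  refine solves_aux ⟨0, by omega⟩ ⟨1, by omega⟩ F _ _ (fun u _ => ?_) (fun v _ => ?_)
  · rw [hF]; exact reach_alice _ _ rfl rfl u
  · rw [hF]; exact reach_bob _ rfl v

end Pool.Agent.BoolCirc
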