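import Pool.Agent.NegThr.PLDefs

/-!
From monotone formulas for the lifted pebbling function to the lifted search problem.
-/

namespace Pool.Agent.BoolCirc

section

variable {V : Type} {m : ℕ}

open Classical in
/-- the true input given by the pointers `x` -/
noncomputable def pl1Alice (G : PDag V) (t : V) (x : V → Fin m) : DVar V m → Bool
  | Sum.inl (v, a, a₁, a₂) =>
      decide (a = x v ∧ ∀ p, G.pr v = some p → a₁ = x p.1 ∧ a₂ = x p.2)
  | Sum.inr a => decide (a = x t)

open Classical in
/-- the false input given by the tables `y` -/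
noncomputable def pl1Bob (G : PDag V) (t : V) (y : V → Fin m → Bool) : DVar V m → Bool
  | Sum.inl (v, a, a₁, a₂) =>
      decide (¬ (y v a = false ∧ ∀ p, G.pr v = some p → y p.1 a₁ = true ∧ y p.2 a₂ = true))
  | Sum.inr a => ! (y t a)

theorem pl1_alice (G : PDag V) (t : V) (x : V → Fin m) : dgad G t (pl1Alice G t x) = true := by
  have key : ∀ k, ∀ v, G.rk v = k → Derives G (pl1Alice G t x) v (x v) := by
    intro k
    induction k using Nat.strong_induction_on with
    | _ k ih =>
    intro v hv
    rcases hp : G.pr v with _ | p
    · refine Derives.src v (x v) (x v) (x v) hp ?_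
      simp [pl1Alice, hp]
    · have hrk := G.rk_lt v p hp
      refine Derives.node v (x v) (x p.1) (x p.2) p hp ?_ (ih (G.rk p.1) (by omega) p.1 rfl)
        (ih (G.rk p.2) (by omega) p.2 rfl)
      rw [pl1Alice, decide_eq_true_iff]
      refine ⟨rfl, ?_⟩
      intro p' hp'
      rw [hp, Option.some.injEq] at hp'
      subst hp'
      exact ⟨rfl, rfl⟩
  simp only [dgad, decide_eq_true_iff]
  exact ⟨x t, by simp [pl1Alice], key _ t rfl⟩

theorem pl1_bob (G : PDag V) (t : V) (y : V → Fin m → Bool) :
    dgad G t (pl1Bob G t y) = false := by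
  have key : ∀ v a, Derives G (pl1Bob G t y) v a → y v a = true := by
    intro v a h
    induction h with
    | src v a a₁ a₂ hp hw =>
      simp only [pl1Bob, decide_eq_true_iff] at hw
      by_contra hc
      rw [Bool.not_eq_true] at hc
      exact hw ⟨hc, fun p hp' => by rw [hp] at hp'; exact absurd hp' (by simp)⟩
    | node v a a₁ a₂ p hp hw _ _ ih1 ih2 =>
      simp only [pl1Bob, decide_eq_true_iff] at hw
      by_contra hc
      rw [Bool.not_eq_true] at hc
      refine hw ⟨hc, fun p' hp' => ?_⟩
      rw [hp, Option.some.injEq] at hp'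
      subst hp'
      exact ⟨ih1, ih2⟩
  rw [dgad, decide_eq_false_iff_not]
  rintro ⟨a, h1, h2⟩
  simp only [pl1Bob] at h1
  rw [key t a h2] at h1
  exact absurd h1 (by simp)

theorem pl1_aux [DecidableEq V] (G : PDag V) (t : V) (F : MF (DVar V m)) :
    ∀ (A : Set (V → Fin m)) (B : Set (V → Fin m → Bool)),
    (∀ x ∈ A, F.eval (pl1Alice G t x) = true) → (∀ y ∈ B, F.eval (pl1Bob G t y) = false) →
    LSolves (dcl G t) F.depth A B := by
  induction F with
  | inp e =>
    intro A B hA hB
    rcases e with ⟨v, a, a₁, a₂⟩ | a
    · refine ⟨some v, fun x hx y hy => ?_⟩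
      have h1 := hA x hx
      have h2 := hB y hy
      simp only [MF.eval, pl1Alice, decide_eq_true_iff] at h1
      simp only [MF.eval, pl1Bob, decide_eq_false_iff_not, not_not] at h2
      obtain ⟨ha, ha2⟩ := h1
      obtain ⟨hb, hb2⟩ := h2
      intro u b hu
      simp only [dcl] at hu
      split_ifs at hu with h3 h4
      · have : b = false := by simpa using hu.symm
        subst h3
        change y u (x u) = b
        rw [this, ← ha]
        exact hb
      · have : b = true := by simpa using hu.symm
        obtain ⟨p, h5, h6⟩ := h4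
        rw [Option.mem_def] at h5
        obtain ⟨hb3, hb4⟩ := hb2 p h5
        obtain ⟨ha3, ha4⟩ := ha2 p h5
        rw [this]
        rcases h6 with h6 | h6
        · change y u (x u) = true
          rw [h6, ← ha3]
          exact hb3
        · change y u (x u) = true
          rw [h6, ← ha4]
          exact hb4
    · refine ⟨none, fun x hx y hy => ?_⟩
      have h1 := hA x hx
      have h2 := hB y hy
      simp only [MF.eval, pl1Alice, decide_eq_true_iff] at h1
      simp only [MF.eval, pl1Bob, Bool.not_eq_false'] at h2
      intro u b hu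
      simp only [dcl] at hu
      split_ifs at hu with h3
      have : b = true := by simpa using hu.symm
      change y u (x u) = b
      rw [this, h3, ← h1]
      exact h2
  | cst b =>
    intro A B hA hB
    cases b with
    | true =>
      have : B = ∅ := by
        ext v; constructor
        · intro hv; have := hB v hv; simp [MF.eval] at this
        · intro h; exact absurd h (Set.notMem_empty _)
      rw [this]
      exact lsolves_empty_right _ _
    | false =>
      have : A = ∅ := by
        ext v; constructor
        · intro hv; have := hA v hv; simp [MF.eval] at this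
        · intro h; exact absurd h (Set.notMem_empty _)
      rw [this]
      exact lsolves_empty_left _ _
  | and a b iha ihb =>
    intro A B hA hB
    simp only [MF.eval, Bool.and_eq_true] at hA
    refine Or.inr ⟨{y ∈ B | a.eval (pl1Bob G t y) = false},
      {y ∈ B | b.eval (pl1Bob G t y) = false}, ?_, ?_, ?_⟩
    · intro v hv
      have := hB v hv
      simp only [MF.eval, Bool.and_eq_false_iff] at this
      rcases this with h | h
      · exact Or.inl ⟨hv, h⟩
      · exact Or.inr ⟨hv, h⟩
    · exact (iha A _ (fun u hu => (hA u hu).1) (fun v hv => hv.2)).of_le (le_max_left _ _)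
    · exact (ihb A _ (fun u hu => (hA u hu).2) (fun v hv => hv.2)).of_le (le_max_right _ _)
  | or a b iha ihb =>
    intro A B hA hB
    simp only [MF.eval, Bool.or_eq_false_iff] at hB
    refine Or.inl ⟨{x ∈ A | a.eval (pl1Alice G t x) = true},
      {x ∈ A | b.eval (pl1Alice G t x) = true}, ?_, ?_, ?_⟩
    · intro u hu
      have := hA u hu
      simp only [MF.eval, Bool.or_eq_true] at this
      rcases this with h | h
      · exact Or.inl ⟨hu, h⟩
      · exact Or.inr ⟨hu, h⟩
    · exact (iha _ B (fun v hv => hv.2) (fun v hv => (hB v hv).1)).of_le (le_max_left _ _)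
    · exact (ihb _ B (fun v hv => hv.2) (fun v hv => (hB v hv).2)).of_le (le_max_right _ _)

end

theorem lsolves_of_mf_dag {V : Type} [DecidableEq V] {m : ℕ} (G : PDag V) (t : V)
    (F : MF (DVar V m)) (hF : ∀ w, F.eval w = dgad G t w) :
    LSolves (dcl G t) F.depth (Set.univ : Set (V → Fin m)) Set.univ := by
  refine pl1_aux G t F _ _ (fun x _ => ?_) (fun y _ => ?_)
  · rw [hF]; exact pl1_alice G t x
  · rw [hF]; exact pl1_bob G t y

end Pool.Agent.BoolCirc
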