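import Pool.Agent.NegThr.PLDefs
import Pool.Agent.NegThr.RM7

/-!
Small monotone circuits for the lifted pebbling function of a directed acyclic graph.
-/

namespace Pool.Agent.BoolCirc

theorem pl2_derives_none {V : Type} {m : ℕ} (G : PDag V) (w : DVar V m → Bool) {v : V}
    (h : G.pr v = none) (a : Fin m) :
    Derives G w v a ↔ ∃ q : Fin m × Fin m, w (Sum.inl (v, a, q.1, q.2)) = true := by
  constructor
  · intro hd
    cases hd with
    | src _ _ a₁ a₂ _ hw => exact ⟨(a₁, a₂), hw⟩
    | node _ _ a₁ a₂ p hp _ _ _ => rw [h] at hp; exact absurd hp (by simp)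
  · rintro ⟨q, hq⟩
    exact Derives.src v a q.1 q.2 h hq

theorem pl2_derives_some {V : Type} {m : ℕ} (G : PDag V) (w : DVar V m → Bool) {v : V} {p : V × V}
    (h : G.pr v = some p) (a : Fin m) :
    Derives G w v a ↔ ∃ q : Fin m × Fin m, w (Sum.inl (v, a, q.1, q.2)) = true ∧
      Derives G w p.1 q.1 ∧ Derives G w p.2 q.2 := by
  constructor
  · intro hd
    cases hd with
    | src _ _ a₁ a₂ hn _ => rw [h] at hn; exact absurd hn (by simp)
    | node _ _ a₁ a₂ p' hp hw h1 h2 =>
      rw [h] at hp
      obtain rfl : p = p' := by simpa using hp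
      exact ⟨(a₁, a₂), hw, h1, h2⟩
  · rintro ⟨q, hq, h1, h2⟩
    exact Derives.node v a q.1 q.2 p h hq h1 h2

open Classical in
/-- the facts for all vertices of rank less than `r` -/
theorem pl2_build {V : Type} [Fintype V] {n : ℕ} (G : PDag V) (m : ℕ)
    (emb : DVar V m → Fin n) (C : Circuit n) : ∀ r : ℕ,
    ∃ C' : Circuit n, ExtN ((Finset.univ.filter (fun v => G.rk v < r)).card * (3 * m ^ 3)) 0 C C' ∧
      ∀ (v : V) (a : Fin m), G.rk v < r →
        AvE C' (fun X => decide (Derives G (fun e => X (emb e)) v a)) := by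
  have hcard2 : Fintype.card (Fin m × Fin m) = m ^ 2 := by simp [sq]
  intro r
  induction r with
  | zero =>
    exact ⟨C, (ExtN.refl C).weaken (Nat.zero_le _) le_rfl, fun v a h => absurd h (by omega)⟩
  | succ r ih =>
    obtain ⟨C0, g1, g2⟩ := ih
    obtain ⟨C1, h1, h2⟩ := avE_family (ι := {v : V // G.rk v = r} × Fin m)
      (fun p X => decide (Derives G (fun e => X (emb e)) p.1.1 p.2)) (3 * m ^ 2) C0 (by
        rintro ⟨⟨v, hv⟩, a⟩ C' hC'
        rcases hp : G.pr v with _ | p
        · obtain ⟨C'', h3, h4⟩ := avE_or3 (ι := Fin m × Fin m)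
            (fun q X => X (emb (Sum.inl (v, a, q.1, q.2))))
            (fun _ _ => true) (fun _ _ => true) C'
            (fun q => ⟨0, Avail.input C' _ 0⟩) (fun _ => ⟨0, Avail.const C' true 0⟩)
            (fun _ => ⟨0, Avail.const C' true 0⟩)
          rw [hcard2] at h3
          refine ⟨C'', h3, h4.congr ?_⟩
          intro X
          rw [Bool.eq_iff_iff]
          simp only [decide_eq_true_eq, and_true]
          exact (pl2_derives_none G (fun e => X (emb e)) hp a).symm
        · have hr := G.rk_lt v p hp
          obtain ⟨C'', h3, h4⟩ := avE_or3 (ι := Fin m × Fin m)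
            (fun q X => X (emb (Sum.inl (v, a, q.1, q.2))))
            (fun q X => decide (Derives G (fun e => X (emb e)) p.1 q.1))
            (fun q X => decide (Derives G (fun e => X (emb e)) p.2 q.2)) C'
            (fun q => ⟨0, Avail.input C' _ 0⟩)
            (fun q => (g2 p.1 q.1 (by rw [← hv]; exact hr.1)).ext hC')
            (fun q => (g2 p.2 q.2 (by rw [← hv]; exact hr.2)).ext hC')
          rw [hcard2] at h3
          refine ⟨C'', h3, h4.congr ?_⟩
          intro X
          rw [Bool.eq_iff_iff]
          simp only [decide_eq_true_eq]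
          exact (pl2_derives_some G (fun e => X (emb e)) hp a).symm)
    have hc : Fintype.card ({v : V // G.rk v = r} × Fin m) =
        (Finset.univ.filter (fun v => G.rk v = r)).card * m := by
      rw [Fintype.card_prod, Fintype.card_fin, Fintype.card_subtype]
    have hs : (Finset.univ.filter (fun v => G.rk v < r + 1)).card =
        (Finset.univ.filter (fun v => G.rk v < r)).card +
          (Finset.univ.filter (fun v => G.rk v = r)).card := by
      rw [← Finset.card_union_of_disjoint]
      · congr 1
        ext v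
        simp only [Finset.mem_filter, Finset.mem_univ, true_and, Finset.mem_union]
        omega
      · rw [Finset.disjoint_left]
        intro v hv hv'
        simp only [Finset.mem_filter, Finset.mem_univ, true_and] at hv hv'
        omega
    refine ⟨C1, (g1.trans h1).weaken ?_ (by omega), ?_⟩
    · rw [hc, hs]
      exact le_of_eq (by ring)
    · intro v a hv
      rcases Nat.lt_succ_iff_lt_or_eq.mp hv with h | h
      · exact (g2 v a h).ext h1.1
      · exact h2 (⟨v, h⟩, a)

theorem dgad_circuit {V : Type} [Fintype V] [DecidableEq V] {n : ℕ} (G : PDag V) (t : V) (m : ℕ)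
    (emb : DVar V m → Fin n) (C : Circuit n) :
    ∃ C' : Circuit n, ExtN (4 * (Fintype.card V * m ^ 3 + m)) 0 C C' ∧
      ∃ d, Avail C' (fun X => dgad G t (fun e => X (emb e))) d := by
  classical
  obtain ⟨C1, h1, h2⟩ := pl2_build G m emb C (Finset.univ.sup G.rk + 1)
  have hall : ∀ v : V, G.rk v < Finset.univ.sup G.rk + 1 := fun v =>
    Nat.lt_succ_of_le (Finset.le_sup (Finset.mem_univ v))
  obtain ⟨C2, h3, h4⟩ := avE_or3 (ι := Fin m)
    (fun a X => X (emb (Sum.inr a)))
    (fun a X => decide (Derives G (fun e => X (emb e)) t a))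
    (fun _ _ => true) C1
    (fun q => ⟨0, Avail.input C1 _ 0⟩) (fun q => (h2 t q (hall t)).congr (fun X => by congr))
    (fun _ => ⟨0, Avail.const C1 true 0⟩)
  rw [Fintype.card_fin] at h3
  refine ⟨C2, (h1.trans h3).weaken ?_ (by omega), h4.congr ?_⟩
  · have e1 : (Finset.univ.filter (fun v => G.rk v < Finset.univ.sup G.rk + 1)).card ≤
        Fintype.card V := Finset.card_le_univ _
    have e2 := Nat.mul_le_mul_right (3 * m ^ 3) e1
    have e3 : Fintype.card V * (3 * m ^ 3) = 3 * (Fintype.card V * m ^ 3) := by ring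
    convert (show (Finset.univ.filter (fun v => G.rk v < Finset.univ.sup G.rk + 1)).card *
      (3 * m ^ 3) + 3 * m ≤ 4 * (Fintype.card V * m ^ 3 + m) by omega) using 4
  · intro X
    rw [Bool.eq_iff_iff]
    simp only [dgad, decide_eq_true_eq, and_true]

theorem dgad_const_false {V : Type} (m : ℕ) (G : PDag V) (t : V) :
    dgad (m := m) G t (fun _ => false) = false := by
  simp [dgad]

end Pool.Agent.BoolCirc
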