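import Pool.Agent.NegThr.PLDefs

/-!
The matrix of a family of configurations on the rectangles of the leaves.
-/

namespace Pool.Agent.BoolCirc

/-- one term of the matrix -/
def pl3b_term {V : Type} [Fintype V] [DecidableEq V] (z : V → Bool) (P : Finset V) : ℚ :=
  ∏ v ∈ Pᶜ, ((if z v = true then (1 : ℚ) else 0) - 1)

theorem pl3b_term_zero {V : Type} [Fintype V] [DecidableEq V] (z : V → Bool) (P : Finset V)
    (v : V) (hv : v ∉ P) (hz : z v = true) : pl3b_term z P = 0 := by
  unfold pl3b_term
  apply Finset.prod_eq_zero (Finset.mem_compl.mpr hv)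
  rw [if_pos hz, sub_self]

theorem pl3b_term_insert {V : Type} [Fintype V] [DecidableEq V] (z : V → Bool) (P : Finset V)
    (u : V) (hu : u ∉ P) (hz : z u = false) : pl3b_term z P + pl3b_term z (insert u P) = 0 := by
  unfold pl3b_term
  have h1 : Pᶜ = insert u (insert u P)ᶜ := by
    ext w
    simp only [Finset.mem_compl, Finset.mem_insert, not_or]
    constructor
    · intro h
      by_cases hw : w = u
      · exact Or.inl hw
      · exact Or.inr ⟨hw, h⟩
    · rintro (h | h)
      · rw [h]; exact hu
      · exact h.2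
  have h2 : u ∉ (insert u P)ᶜ := by
    simp
  rw [h1, Finset.prod_insert h2, hz]
  simp

theorem pl3b_ready_mono {V : Type} {G : PDag V} {P Q : Finset V} {u : V} (h : G.Ready P u)
    (hPQ : P ⊆ Q) : G.Ready Q u := fun p hp => ⟨hPQ (h p hp).1, hPQ (h p hp).2⟩

/-- the sum over the family reduces to the configurations with `q` pebbles -/
theorem pl3b_sum {V : Type} [Fintype V] [DecidableEq V] (G : PDag V) (t : V) (q : ℕ)
    (R : Finset (Finset V)) (hR : PebFam G t q R) (u : V) (z : V → Bool) (hu : z u = false)
    (hp : ∀ p, G.pr u = some p → z p.1 = true ∧ z p.2 = true)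
    (R' : Finset (Finset V)) (hR' : ∀ P, P ∈ R' ↔ P ∈ R ∧ G.Ready P u ∧ u ∉ P ∧ P.card = q) :
    ∑ P ∈ R, pl3b_term z P = ∑ P ∈ R', pl3b_term z P := by
  classical
  obtain ⟨hR0, hR1, hR2⟩ := hR
  have hsub : R' ⊆ R := fun P hP => ((hR' P).mp hP).1
  rw [← Finset.sum_sdiff hsub]
  have hzero : ∑ P ∈ R \ R', pl3b_term z P = 0 := by
    -- the terms which are not ready vanish
    rw [← Finset.sum_filter_add_sum_filter_not (R \ R') (fun P => G.Ready P u)]
    have h1 : ∑ P ∈ (R \ R').filter (fun P => ¬ G.Ready P u), pl3b_term z P = 0 := by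
      apply Finset.sum_eq_zero
      intro P hP
      have h2 := (Finset.mem_filter.mp hP).2
      unfold PDag.Ready at h2
      push Not at h2
      obtain ⟨p, hpu, h3⟩ := h2
      by_cases h4 : p.1 ∈ P
      · exact pl3b_term_zero z P p.2 (h3 h4) (hp p hpu).2
      · exact pl3b_term_zero z P p.1 h4 (hp p hpu).1
    rw [h1, add_zero]
    -- involution
    have hne : ∀ p, G.pr u = some p → p.1 ≠ u ∧ p.2 ≠ u := by
      intro p hpu
      have h2 := G.rk_lt u p hpu
      constructor
      · intro h3
        rw [h3] at h2
        exact lt_irrefl _ h2.1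
      · intro h3
        rw [h3] at h2
        exact lt_irrefl _ h2.2
    have hmem : ∀ P, P ∈ (R \ R').filter (fun P => G.Ready P u) ↔
        P ∈ R ∧ G.Ready P u ∧ (u ∈ P ∨ P.card + 1 ≤ q) := by
      intro P
      rw [Finset.mem_filter, Finset.mem_sdiff, hR']
      constructor
      · rintro ⟨⟨h2, h3⟩, h4⟩
        refine ⟨h2, h4, ?_⟩
        by_contra h5
        push Not at h5
        have h6 := (hR1 P h2).2
        exact h3 ⟨h2, h4, h5.1, by omega⟩
      · rintro ⟨h2, h3, h4⟩
        refine ⟨⟨h2, ?_⟩, h3⟩
        rintro ⟨_, _, h5, h6⟩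
        rcases h4 with h4 | h4
        · exact h5 h4
        · omega
    have herase : ∀ P, P ∈ (R \ R').filter (fun P => G.Ready P u) → u ∈ P →
        P.erase u ∈ (R \ R').filter (fun P => G.Ready P u) := by
      intro P hP hu'
      rw [hmem] at hP ⊢
      obtain ⟨h2, h3, -⟩ := hP
      have hcard : (P.erase u).card + 1 = P.card := Finset.card_erase_add_one hu'
      have hq := (hR1 P h2).2
      have hready : G.Ready (P.erase u) u := fun p hpu =>
        ⟨Finset.mem_erase.mpr ⟨(hne p hpu).1, (h3 p hpu).1⟩,
          Finset.mem_erase.mpr ⟨(hne p hpu).2, (h3 p hpu).2⟩⟩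
      have h5 := hR2 (P.erase u) u (Finset.notMem_erase u P) hready (by omega)
      rw [Finset.insert_erase hu'] at h5
      exact ⟨h5.mpr h2, hready, Or.inr (by omega)⟩
    have hinsert : ∀ P, P ∈ (R \ R').filter (fun P => G.Ready P u) → u ∉ P →
        insert u P ∈ (R \ R').filter (fun P => G.Ready P u) := by
      intro P hP hu'
      rw [hmem] at hP ⊢
      obtain ⟨h2, h3, h4⟩ := hP
      rcases h4 with h4 | h4
      · exact absurd h4 hu'
      · exact ⟨(hR2 P u hu' h3 h4).mp h2, pl3b_ready_mono h3 (Finset.subset_insert _ _),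
          Or.inl (Finset.mem_insert_self _ _)⟩
    refine Finset.sum_involution
      (fun P _ => if u ∈ P then P.erase u else insert u P) ?_ ?_ ?_ ?_
    · intro P hP
      by_cases h2 : u ∈ P
      · simp only [if_pos h2]
        have h3 := pl3b_term_insert z (P.erase u) u (Finset.notMem_erase u P) hu
        rw [Finset.insert_erase h2] at h3
        rw [add_comm]
        exact h3
      · simp only [if_neg h2]
        exact pl3b_term_insert z P u h2 hu
    · intro P hP _
      by_cases h2 : u ∈ P
      · simp only [if_pos h2]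
        intro h3
        rw [← h3] at h2
        exact Finset.notMem_erase u P h2
      · simp only [if_neg h2]
        intro h3
        apply h2
        rw [← h3]
        exact Finset.mem_insert_self _ _
    · intro P hP
      by_cases h2 : u ∈ P
      · simp only [if_pos h2]
        exact herase P hP h2
      · simp only [if_neg h2]
        exact hinsert P hP h2
    · intro P hP
      by_cases h2 : u ∈ P
      · simp only [if_pos h2, if_neg (Finset.notMem_erase u P)]
        exact Finset.insert_erase h2
      · simp only [if_neg h2, if_pos (Finset.mem_insert_self u P)]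
        exact Finset.erase_insert h2
  rw [hzero, zero_add]

theorem fac_leaf {V : Type} [Fintype V] [DecidableEq V] {m : ℕ} (G : PDag V) (t : V) (q : ℕ)
    (R : Finset (Finset V)) (hR : PebFam G t q R) (c : Option V) (A : Set (V → Fin m))
    (B : Set (V → Fin m → Bool))
    (h : ∀ x ∈ A, ∀ y ∈ B, Viol (dcl G t c) (fun v => y v (x v))) :
    Fac (pmat (m := m) R) ((Fintype.card V).choose q * m ^ (Fintype.card V - q)) A B := by
  classical
  cases c with
  | none =>
    refine ⟨Empty, inferInstance, fun _ => Empty.elim, Empty.elim, by simp, fun x hx y hy => ?_⟩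
    have h1 := h x hx y hy t true (by simp [dcl])
    simp only at h1
    rw [Finset.univ_eq_empty, Finset.sum_empty]
    unfold pmat
    apply Finset.sum_eq_zero
    intro P hP
    exact pl3b_term_zero (fun v => y v (x v)) P t (hR.2.1 P hP).1 h1
  | some u =>
    set R' : Finset (Finset V) := R.filter (fun P => G.Ready P u ∧ u ∉ P ∧ P.card = q) with hR'def
    have hR' : ∀ P, P ∈ R' ↔ P ∈ R ∧ G.Ready P u ∧ u ∉ P ∧ P.card = q := fun P => by
      rw [hR'def, Finset.mem_filter]
    refine ⟨(P : {P // P ∈ R'}) × ({v // v ∈ P.1ᶜ} → Fin m), inferInstance,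
      fun x i => if i.2 = (fun v => x v.1) then 1 else 0,
      fun i y => ∏ v : {v // v ∈ i.1.1ᶜ}, ((if y v.1 (i.2 v) = true then (1 : ℚ) else 0) - 1),
      ?_, fun x hx y hy => ?_⟩
    · rw [Fintype.card_sigma]
      have h1 : ∀ P : {P // P ∈ R'}, Fintype.card ({v // v ∈ P.1ᶜ} → Fin m) =
          m ^ (Fintype.card V - q) := by
        intro P
        rw [Fintype.card_fun, Fintype.card_fin, Fintype.card_coe, Finset.card_compl,
          ((hR' P.1).mp P.2).2.2.2]
      rw [Finset.sum_congr rfl (fun P _ => h1 P), Finset.sum_const, Finset.card_univ,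
        Fintype.card_coe, smul_eq_mul]
      apply Nat.mul_le_mul_right
      have h2 : R' ⊆ Finset.powersetCard q Finset.univ := by
        intro P hP
        rw [Finset.mem_powersetCard]
        exact ⟨Finset.subset_univ _, ((hR' P).mp hP).2.2.2⟩
      have h3 := Finset.card_le_card h2
      rwa [Finset.card_powersetCard, Finset.card_univ] at h3
    · have hv := h x hx y hy
      have hu : y u (x u) = false := hv u false (by simp [dcl])
      have hpp : ∀ p, G.pr u = some p → y p.1 (x p.1) = true ∧ y p.2 (x p.2) = true := by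
        intro p hpu
        have h2 := G.rk_lt u p hpu
        have hn1 : p.1 ≠ u := by
          intro h3
          rw [h3] at h2
          exact lt_irrefl _ h2.1
        have hn2 : p.2 ≠ u := by
          intro h3
          rw [h3] at h2
          exact lt_irrefl _ h2.2
        constructor
        · apply hv p.1 true
          simp only [dcl]
          rw [if_neg hn1, if_pos ⟨p, hpu, Or.inl rfl⟩]
        · apply hv p.2 true
          simp only [dcl]
          rw [if_neg hn2, if_pos ⟨p, hpu, Or.inr rfl⟩]
      have hsum := pl3b_sum G t q R hR u (fun v => y v (x v)) hu hpp R' hR'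
      have e1 : pmat R x y = ∑ P ∈ R, pl3b_term (fun v => y v (x v)) P := rfl
      rw [e1, hsum, Fintype.sum_sigma, ← Finset.sum_coe_sort R']
      refine Finset.sum_congr rfl (fun P _ => ?_)
      simp only [ite_mul, one_mul, zero_mul]
      rw [Finset.sum_ite_eq' Finset.univ (fun v : {v // v ∈ P.1ᶜ} => x v.1), if_pos (Finset.mem_univ _)]
      unfold pl3b_term
      rw [← Finset.prod_coe_sort P.1ᶜ]

end Pool.Agent.BoolCirc
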