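import Pool.Agent.NegThr.PL3a
import Pool.Agent.NegThr.PL3b

/-!
Protocols and sums of products: a protocol with few bits for the lifted search problem writes the
matrix of a family of configurations as a sum of few products.
-/

namespace Pool.Agent.BoolCirc

theorem fac_split_left {X Y : Type} {M : Matrix X Y ℚ} {r₁ r₂ : ℕ} {A A₁ A₂ : Set X} {B : Set Y}
    (h : A ⊆ A₁ ∪ A₂) (h1 : Fac M r₁ A₁ B) (h2 : Fac M r₂ A₂ B) : Fac M (r₁ + r₂) A B := by
  classical
  obtain ⟨ι₁, i1, f₁, g₁, c₁, e₁⟩ := h1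
  obtain ⟨ι₂, i2, f₂, g₂, c₂, e₂⟩ := h2
  refine ⟨ι₁ ⊕ ι₂, inferInstance, fun x => Sum.elim (fun i => if x ∈ A₁ then f₁ x i else 0)
    (fun i => if x ∈ A₁ then 0 else f₂ x i), Sum.elim g₁ g₂, ?_, ?_⟩
  · rw [Fintype.card_sum]
    exact add_le_add c₁ c₂
  · intro x hx y hy
    rw [Fintype.sum_sum_type]
    by_cases hx1 : x ∈ A₁
    · simp only [Sum.elim_inl, Sum.elim_inr, if_pos hx1, zero_mul, Finset.sum_const_zero,
        add_zero]
      exact e₁ x hx1 y hy
    · have hx2 : x ∈ A₂ := by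
        rcases h hx with h' | h'
        · exact absurd h' hx1
        · exact h'
      simp only [Sum.elim_inl, Sum.elim_inr, if_neg hx1, zero_mul, Finset.sum_const_zero,
        zero_add]
      exact e₂ x hx2 y hy

theorem fac_split_right {X Y : Type} {M : Matrix X Y ℚ} {r₁ r₂ : ℕ} {A : Set X} {B B₁ B₂ : Set Y}
    (h : B ⊆ B₁ ∪ B₂) (h1 : Fac M r₁ A B₁) (h2 : Fac M r₂ A B₂) : Fac M (r₁ + r₂) A B := by
  classical
  obtain ⟨ι₁, i1, f₁, g₁, c₁, e₁⟩ := h1
  obtain ⟨ι₂, i2, f₂, g₂, c₂, e₂⟩ := h2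
  refine ⟨ι₁ ⊕ ι₂, inferInstance, fun x => Sum.elim (f₁ x) (f₂ x),
    Sum.elim (fun i y => if y ∈ B₁ then g₁ i y else 0)
      (fun i y => if y ∈ B₁ then 0 else g₂ i y), ?_, ?_⟩
  · rw [Fintype.card_sum]
    exact add_le_add c₁ c₂
  · intro x hx y hy
    rw [Fintype.sum_sum_type]
    by_cases hy1 : y ∈ B₁
    · simp only [Sum.elim_inl, Sum.elim_inr, if_pos hy1, mul_zero, Finset.sum_const_zero,
        add_zero]
      exact e₁ x hx y hy1
    · have hy2 : y ∈ B₂ := by
        rcases h hy with h' | h'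
        · exact absurd h' hy1
        · exact h'
      simp only [Sum.elim_inl, Sum.elim_inr, if_neg hy1, mul_zero, Finset.sum_const_zero,
        zero_add]
      exact e₂ x hx y hy2

theorem pl3c_fac {V : Type} [Fintype V] [DecidableEq V] {m : ℕ} (G : PDag V)
    (t : V) (q : ℕ) (R : Finset (Finset V)) (hR : PebFam G t q R) (d : ℕ) :
    ∀ (A : Set (V → Fin m)) (B : Set (V → Fin m → Bool)), LSolves (dcl G t) d A B →
      Fac (pmat (m := m) R)
        (2 ^ d * ((Fintype.card V).choose q * m ^ (Fintype.card V - q))) A B := by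
  induction d with
  | zero =>
    rintro A B ⟨c, hc⟩
    rw [pow_zero, one_mul]
    exact fac_leaf G t q R hR c A B hc
  | succ d ih =>
    rintro A B (⟨A₁, A₂, h, h1, h2⟩ | ⟨B₁, B₂, h, h1, h2⟩)
    · have h3 := fac_split_left h (ih A₁ B h1) (ih A₂ B h2)
      rw [← two_mul, ← mul_assoc, ← pow_succ'] at h3
      exact h3
    · have h3 := fac_split_right h (ih A B₁ h1) (ih A B₂ h2)
      rw [← two_mul, ← mul_assoc, ← pow_succ'] at h3
      exact h3

theorem rank_lifting {V : Type} [Fintype V] [DecidableEq V] {m : ℕ} (hm : 1 ≤ m) (G : PDag V)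
    (t : V) (q d : ℕ) (R : Finset (Finset V)) (hR : PebFam G t q R)
    (h : LSolves (dcl G t) d (Set.univ : Set (V → Fin m)) Set.univ) :
    m ^ q ≤ 2 ^ d * (Fintype.card V).choose q := by
  have h1 := pl3c_fac G t q R hR d _ _ h
  obtain ⟨B, hB⟩ := pmat_right_inv (m := m) R hR.1
  have h2 := fac_univ_card _ B hB _ h1
  rw [Fintype.card_fun, Fintype.card_fin] at h2
  rcases le_or_gt q (Fintype.card V) with hq | hq
  · have h3 : m ^ (Fintype.card V) = m ^ q * m ^ (Fintype.card V - q) := by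
      rw [← pow_add]
      congr 1
      omega
    rw [h3, ← mul_assoc] at h2
    exact Nat.le_of_mul_le_mul_right h2 (Nat.pow_pos (by omega))
  · rw [Nat.choose_eq_zero_of_lt hq, zero_mul, mul_zero] at h2
    have h3 : 0 < m ^ Fintype.card V := Nat.pow_pos (by omega)
    omega

end Pool.Agent.BoolCirc
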