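import Mathlib

/-!
Numerics for the pebbling lower bound.
-/

namespace Pool.Agent.BoolCirc

theorem pl4_self_pow (q : ℕ) : q ^ q ≤ 3 ^ q * q.factorial := by
  have h1 : (q : ℝ) ^ q / (q.factorial : ℝ) ≤ Real.exp q :=
    Real.pow_div_factorial_le_exp (q : ℝ) (Nat.cast_nonneg q) q
  have h2 : Real.exp (q : ℝ) ≤ 3 ^ q := by
    have h3 : Real.exp (q : ℝ) = (Real.exp 1) ^ q := by
      rw [← Real.exp_nat_mul, mul_one]
    rw [h3]
    exact pow_le_pow_left₀ (Real.exp_pos 1).le (by have := Real.exp_one_lt_d9; linarith) q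
  have h4 : (0 : ℝ) < (q.factorial : ℝ) := by exact_mod_cast Nat.factorial_pos q
  have h5 : (q : ℝ) ^ q ≤ 3 ^ q * (q.factorial : ℝ) := by
    rw [div_le_iff₀ h4] at h1
    exact h1.trans (mul_le_mul_of_nonneg_right h2 h4.le)
  exact_mod_cast h5

theorem pl4_choose (N q : ℕ) : N.choose q * q ^ q ≤ (3 * N) ^ q := by
  have h1 : q.factorial * N.choose q ≤ N ^ q := by
    rw [← Nat.descFactorial_eq_factorial_mul_choose]
    exact Nat.descFactorial_le_pow N q
  calc N.choose q * q ^ q ≤ N.choose q * (3 ^ q * q.factorial) :=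
        Nat.mul_le_mul_left _ (pl4_self_pow q)
    _ = 3 ^ q * (q.factorial * N.choose q) := by ring
    _ ≤ 3 ^ q * N ^ q := Nat.mul_le_mul_left _ h1
    _ = (3 * N) ^ q := by rw [mul_pow]

theorem peb_numeric (m N q d : ℕ) (hm1 : 1 ≤ m) (hm : 6 * N ≤ m * q)
    (h : m ^ q ≤ 2 ^ d * N.choose q) : q ≤ d := by
  rcases Nat.eq_zero_or_pos q with hq | hq
  · omega
  rcases Nat.eq_zero_or_pos N with hN | hN
  · subst hN
    rw [Nat.choose_eq_zero_of_lt hq, mul_zero] at h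
    have : 0 < m ^ q := Nat.pow_pos hm1
    omega
  have h1 : (m * q) ^ q ≤ 2 ^ d * (3 * N) ^ q := by
    calc (m * q) ^ q = m ^ q * q ^ q := mul_pow _ _ _
      _ ≤ 2 ^ d * N.choose q * q ^ q := Nat.mul_le_mul_right _ h
      _ = 2 ^ d * (N.choose q * q ^ q) := by ring
      _ ≤ 2 ^ d * (3 * N) ^ q := Nat.mul_le_mul_left _ (pl4_choose N q)
  have h2 : 2 ^ q * (3 * N) ^ q ≤ (m * q) ^ q := by
    rw [← mul_pow]
    apply Nat.pow_le_pow_left
    omega
  have h3 : 0 < (3 * N) ^ q := Nat.pow_pos (by omega)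
  have h4 : 2 ^ q ≤ 2 ^ d := Nat.le_of_mul_le_mul_right (h2.trans h1) h3
  exact (Nat.pow_le_pow_iff_right (by norm_num)).1 h4

end Pool.Agent.BoolCirc
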