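import Pool.Agent.NegThr.PLDefs

/-!
Families of configurations from a lower bound for the number of pebbles.
-/

namespace Pool.Agent.BoolCirc

theorem pebfam_of_lower {V : Type} [Fintype V] [DecidableEq V] (G : PDag V) (t : V) (q : ℕ)
    (h : ∀ P : ℕ → Finset V, G.Legal P → P 0 = ∅ → (∀ τ, (P τ).card ≤ q) → ∀ τ, t ∉ P τ) :
    ∃ R : Finset (Finset V), PebFam G t q R := by
  classical
  let R : Finset (Finset V) := Finset.univ.filter (fun Q => ∃ S : ℕ → Finset V,
    G.Legal S ∧ S 0 = ∅ ∧ (∀ τ, (S τ).card ≤ q) ∧ ∃ τ, S τ = Q)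
  have hR : ∀ Q, Q ∈ R ↔ ∃ S : ℕ → Finset V,
      G.Legal S ∧ S 0 = ∅ ∧ (∀ τ, (S τ).card ≤ q) ∧ ∃ τ, S τ = Q := by
    intro Q
    simp [R]
  -- one more move
  have hext : ∀ Q ∈ R, ∀ Q' : Finset V, (∀ v ∈ Q', v ∈ Q ∨ G.Ready Q v) → Q'.card ≤ q →
      Q' ∈ R := by
    intro Q hQ Q' hQ' hc
    obtain ⟨S, hS, h0, hS2, τ, hτ⟩ := (hR Q).1 hQ
    rw [hR]
    refine ⟨fun τ' => if τ' ≤ τ then S τ' else Q', ?_, by simp [h0], ?_, τ + 1, by simp⟩
    · intro τ' v hv
      by_cases h1 : τ' + 1 ≤ τ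
      · have h2 : τ' ≤ τ := by omega
        simp only [if_pos h1] at hv
        simp only [if_pos h2]
        exact hS τ' v hv
      · simp only [if_neg h1] at hv
        by_cases h2 : τ' ≤ τ
        · simp only [if_pos h2]
          have h3 : τ' = τ := by omega
          rw [h3, hτ]
          exact hQ' v hv
        · simp only [if_neg h2]
          exact Or.inl hv
    · intro τ'
      by_cases h1 : τ' ≤ τ
      · simp only [if_pos h1]; exact hS2 τ'
      · simp only [if_neg h1]; exact hc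
  refine ⟨R, ?_, ?_, ?_⟩
  · rw [hR]
    exact ⟨fun _ => ∅, fun τ v hv => absurd hv (Finset.notMem_empty v), rfl,
      fun _ => by simp, 0, rfl⟩
  · intro P hP
    obtain ⟨S, hS, h0, hS2, τ, rfl⟩ := (hR P).1 hP
    exact ⟨h S hS h0 hS2 τ, hS2 τ⟩
  · intro P v hv hr hc
    constructor
    · intro hP
      refine hext P hP _ ?_ ?_
      · intro v' hv'
        rcases Finset.mem_insert.1 hv' with h1 | h1
        · rw [h1]; exact Or.inr hr
        · exact Or.inl h1
      · rw [Finset.card_insert_of_notMem hv]; exact hc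
    · intro hP
      refine hext _ hP P ?_ (by omega)
      intro v' hv'
      exact Or.inl (Finset.mem_insert_of_mem hv')

end Pool.Agent.BoolCirc
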