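import Pool.Agent.NegThr.PLDefs

/-!
Module PL8a: the parts of the recursive net.
-/

namespace Pool.Agent.BoolCirc

/-- the part of a configuration in the range of `f` -/
def res {X Y : Type} [Fintype X] [DecidableEq Y] (f : X → Y) (P : Finset Y) : Finset X :=
  Finset.univ.filter (fun x => f x ∈ P)

theorem mem_res {X Y : Type} [Fintype X] [DecidableEq Y] {f : X → Y} {P : Finset Y} {x : X} :
    x ∈ res f P ↔ f x ∈ P := by simp [res]

section parts

variable {I WC WG : Type} [Fintype I] [Fintype WC] [Fintype WG] [DecidableEq I] [DecidableEq WC]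
  [DecidableEq WG]

/-- part `c1` -/
def pC1 (P : Finset ((I × Bool) ⊕ PtcW I WC WG)) : Finset (I ⊕ WC) :=
  res (fun x => Sum.inr (PtcW.c1 x)) P

/-- part `g1` -/
def pG1 (P : Finset ((I × Bool) ⊕ PtcW I WC WG)) : Finset (I ⊕ WG) :=
  res (fun x => Sum.inr (PtcW.g1 x)) P

/-- part `g2` -/
def pG2 (P : Finset ((I × Bool) ⊕ PtcW I WC WG)) : Finset (I ⊕ WG) :=
  res (fun x => Sum.inr (PtcW.g2 x)) P

/-- part `c2` -/
def pC2 (P : Finset ((I × Bool) ⊕ PtcW I WC WG)) : Finset (I ⊕ WC) :=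
  res (fun x => Sum.inr (PtcW.c2 x)) P

theorem parts_card (P : Finset ((I × Bool) ⊕ PtcW I WC WG)) :
    (pC1 P).card + (pG1 P).card + (pG2 P).card + (pC2 P).card ≤ P.card := by
  classical
  have h1 : ((pC1 P).image (fun x => (Sum.inr (PtcW.c1 x) : (I × Bool) ⊕ PtcW I WC WG))).card =
      (pC1 P).card := Finset.card_image_of_injective _ (fun x y h => by simpa using h)
  have h2 : ((pG1 P).image (fun x => (Sum.inr (PtcW.g1 x) : (I × Bool) ⊕ PtcW I WC WG))).card =
      (pG1 P).card := Finset.card_image_of_injective _ (fun x y h => by simpa using h)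
  have h3 : ((pG2 P).image (fun x => (Sum.inr (PtcW.g2 x) : (I × Bool) ⊕ PtcW I WC WG))).card =
      (pG2 P).card := Finset.card_image_of_injective _ (fun x y h => by simpa using h)
  have h4 : ((pC2 P).image (fun x => (Sum.inr (PtcW.c2 x) : (I × Bool) ⊕ PtcW I WC WG))).card =
      (pC2 P).card := Finset.card_image_of_injective _ (fun x y h => by simpa using h)
  rw [← h1, ← h2, ← h3, ← h4]
  rw [← Finset.card_union_of_disjoint, ← Finset.card_union_of_disjoint,
    ← Finset.card_union_of_disjoint]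
  · apply Finset.card_le_card
    intro v hv
    simp only [Finset.mem_union, Finset.mem_image] at hv
    rcases hv with ((⟨x, hx, rfl⟩ | ⟨x, hx, rfl⟩) | ⟨x, hx, rfl⟩) | ⟨x, hx, rfl⟩
    · exact (Finset.mem_filter.1 hx).2
    · exact (Finset.mem_filter.1 hx).2
    · exact (Finset.mem_filter.1 hx).2
    · exact (Finset.mem_filter.1 hx).2
  · rw [Finset.disjoint_left]
    intro v hv hv'
    simp only [Finset.mem_union, Finset.mem_image] at hv hv'
    obtain ⟨y, -, rfl⟩ := hv'
    rcases hv with (⟨x, hx, h⟩ | ⟨x, hx, h⟩) | ⟨x, hx, h⟩ <;> simp at h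
  · rw [Finset.disjoint_left]
    intro v hv hv'
    simp only [Finset.mem_union, Finset.mem_image] at hv hv'
    obtain ⟨y, -, rfl⟩ := hv'
    rcases hv with ⟨x, hx, h⟩ | ⟨x, hx, h⟩ <;> simp at h
  · rw [Finset.disjoint_left]
    intro v hv hv'
    simp only [Finset.mem_image] at hv hv'
    obtain ⟨y, -, rfl⟩ := hv'
    obtain ⟨x, hx, h⟩ := hv
    simp at h

variable (C : CNet I WC) (G : CNet I WG)

theorem legal_c1 {P : ℕ → Finset ((I × Bool) ⊕ PtcW I WC WG)} (hP : (C.ptc G).Legal P) :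
    C.Legal (fun τ => pC1 (P τ)) := by
  intro τ w h
  simp only [pC1, mem_res] at h ⊢
  exact hP τ (PtcW.c1 (Sum.inr w)) h

theorem legal_g1 {P : ℕ → Finset ((I × Bool) ⊕ PtcW I WC WG)} (hP : (C.ptc G).Legal P) :
    G.Legal (fun τ => pG1 (P τ)) := by
  intro τ w h
  simp only [pG1, mem_res] at h ⊢
  exact hP τ (PtcW.g1 (Sum.inr w)) h

theorem legal_g2 {P : ℕ → Finset ((I × Bool) ⊕ PtcW I WC WG)} (hP : (C.ptc G).Legal P) :
    G.Legal (fun τ => pG2 (P τ)) := by
  intro τ w h
  simp only [pG2, mem_res] at h ⊢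
  exact hP τ (PtcW.g2 (Sum.inr w)) h

theorem legal_c2 {P : ℕ → Finset ((I × Bool) ⊕ PtcW I WC WG)} (hP : (C.ptc G).Legal P) :
    C.Legal (fun τ => pC2 (P τ)) := by
  intro τ w h
  simp only [pC2, mem_res] at h ⊢
  exact hP τ (PtcW.c2 (Sum.inr w)) h

end parts

end Pool.Agent.BoolCirc
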