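import Pool.Agent.NegThr.PL7
import Pool.Agent.NegThr.PL8a

/-!
Look-back lemmas for the recursive net: each of them loses only nodes that carry pebbles at the
start of the interval.
-/

namespace Pool.Agent.BoolCirc

theorem pl8b_remove {α V : Type} [DecidableEq V] (f : α → V) (hf : Function.Injective f)
    (S : Finset α) (Q : Finset V) :
    S.card ≤ (S.filter (fun x => f x ∉ Q)).card + Q.card := by
  classical
  have h1 := Finset.card_filter_add_card_filter_not (s := S) (fun x => f x ∈ Q)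
  have h2 : (S.filter (fun x => f x ∈ Q)).card ≤ Q.card :=
    Finset.card_le_card_of_injOn f (fun x hx => by
      have hx' := (Finset.mem_filter.1 (Finset.mem_coe.1 hx)).2
      exact Finset.mem_coe.2 hx') hf.injOn
  omega

/-- removing the indices for which one of two nodes with different values is in `Q` -/
theorem pl8b_remove₂ {α V W : Type} [DecidableEq V] [DecidableEq W] (f : α → V) (g : α → W)
    (hf : Function.Injective f) (hg : Function.Injective g) (S : Finset α) (Q : Finset (V ⊕ W)) :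
    S.card ≤ (S.filter (fun x => Sum.inl (f x) ∉ Q ∧ Sum.inr (g x) ∉ Q)).card + Q.card := by
  classical
  have h0 : (Q.filter (fun v => v.isLeft = true)).card +
      (Q.filter (fun v => ¬ v.isLeft = true)).card = Q.card :=
    Finset.card_filter_add_card_filter_not (s := Q) (fun v => v.isLeft = true)
  have h1 := pl8b_remove (fun x => (Sum.inl (f x) : V ⊕ W))
    (fun x y h => hf (Sum.inl_injective h)) S (Q.filter (fun v => v.isLeft = true))
  have h2 := pl8b_remove (fun x => (Sum.inr (g x) : V ⊕ W))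
    (fun x y h => hg (Sum.inr_injective h))
    (S.filter (fun x => (Sum.inl (f x) : V ⊕ W) ∉ Q.filter (fun v => v.isLeft = true)))
    (Q.filter (fun v => ¬ v.isLeft = true))
  rw [Finset.filter_filter] at h2
  have h3 : (S.filter (fun x => (Sum.inl (f x) : V ⊕ W) ∉ Q.filter (fun v => v.isLeft = true) ∧
      (Sum.inr (g x) : V ⊕ W) ∉ Q.filter (fun v => ¬ v.isLeft = true))) =
      S.filter (fun x => Sum.inl (f x) ∉ Q ∧ Sum.inr (g x) ∉ Q) := by
    apply Finset.filter_congr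
    intro x _
    simp [Finset.mem_filter]
  rw [h3] at h2
  omega

section parts

variable {I WC WG : Type} [Fintype I] [Fintype WC] [Fintype WG] [DecidableEq I] [DecidableEq WC]
  [DecidableEq WG]

theorem pl8b_mem_c1 (Q : Finset ((I × Bool) ⊕ PtcW I WC WG)) (x : I ⊕ WC) :
    x ∈ pC1 Q ↔ Sum.inr (PtcW.c1 x) ∈ Q := by
  simp [pC1, res]

theorem pl8b_mem_g1 (Q : Finset ((I × Bool) ⊕ PtcW I WC WG)) (x : I ⊕ WG) :
    x ∈ pG1 Q ↔ Sum.inr (PtcW.g1 x) ∈ Q := by
  simp [pG1, res]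

theorem pl8b_mem_g2 (Q : Finset ((I × Bool) ⊕ PtcW I WC WG)) (x : I ⊕ WG) :
    x ∈ pG2 Q ↔ Sum.inr (PtcW.g2 x) ∈ Q := by
  simp [pG2, res]

theorem pl8b_mem_c2 (Q : Finset ((I × Bool) ⊕ PtcW I WC WG)) (x : I ⊕ WC) :
    x ∈ pC2 Q ↔ Sum.inr (PtcW.c2 x) ∈ Q := by
  simp [pC2, res]

variable (C : CNet I WC) (G : CNet I WG)

/-- a node that appears and does not carry a pebble at the start was placed, so its predecessors
appear -/
theorem pl8b_back {I' W : Type} {N : CNet I' W} {P : ℕ → Finset (I' ⊕ W)} (hP : N.Legal P)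
    {a c : ℕ} {w : W} (h : App P a c (Sum.inr w)) (hw : Sum.inr w ∉ P a) :
    App P a (c - 1) (N.pr w).1 ∧ App P a (c - 1) (N.pr w).2 := by
  have hac : a ≤ c := by
    obtain ⟨τ, h1, h2, _⟩ := h
    omega
  rcases (app_iff hac).1 h with h' | h'
  · exact absurd h' hw
  · exact ⟨(hP.plc h').2.1, (hP.plc h').2.2⟩

/-- if more outputs of the first copy of `C` than pebbles on it at time `a` appear, then many
inputs receive pebbles -/
theorem pl8b_core (hC : C.Conn) {P : ℕ → Finset ((I × Bool) ⊕ PtcW I WC WG)}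
    (hP : (C.ptc G).Legal P) (a c : ℕ) (J : Finset I)
    (hJ : ∀ j ∈ J, App P a c (Sum.inr (PtcW.c1 (Sum.inr (C.out j)))))
    (h : (pC1 (P a)).card < J.card) :
    ∃ J' : Finset (I × Bool),
      2 * Fintype.card I ≤ J'.card + 4 * (pC1 (P a)).card + (P a).card ∧
      ∀ j ∈ J', Plc P a c (Sum.inl j) := by
  have hac : a ≤ c := by
    have hne : J.Nonempty := by
      rw [← Finset.card_pos]
      omega
    obtain ⟨j, hj⟩ := hne
    obtain ⟨τ, h1, h2, _⟩ := hJ j hj
    omega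
  obtain ⟨X, hX1, hX2⟩ := hC.app (legal_c1 C G hP) a c J (by
    intro j hj
    obtain ⟨τ, h1, h2, h3⟩ := hJ j hj
    exact ⟨τ, h1, h2, (pl8b_mem_c1 _ _).2 h3⟩) h
  have hX3 := pl8b_remove (fun x : I => (Sum.inl x : I ⊕ WC)) Sum.inl_injective X (pC1 (P a))
  set X2 := X.filter (fun x => (Sum.inl x : I ⊕ WC) ∉ pC1 (P a)) with hX2def
  have hX4 : ∀ x ∈ X2, ∀ b : Bool, App P a (c - 1) (Sum.inl (x, b)) := by
    intro x hx b
    rw [hX2def, Finset.mem_filter] at hx
    obtain ⟨hxX, hxP⟩ := hx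
    rw [pl8b_mem_c1] at hxP
    have hxA : App P a c (Sum.inr (PtcW.c1 (Sum.inl x))) := by
      obtain ⟨τ, h1, h2, h3⟩ := hX2 x hxX
      exact ⟨τ, h1, h2, (pl8b_mem_c1 _ _).1 h3⟩
    have hb := pl8b_back hP hxA hxP
    cases b
    · exact hb.1
    · exact hb.2
  have hJ3 := pl8b_remove (fun j : I × Bool => (Sum.inl j : (I × Bool) ⊕ PtcW I WC WG))
    Sum.inl_injective (X2 ×ˢ (Finset.univ : Finset Bool)) (P a)
  refine ⟨(X2 ×ˢ (Finset.univ : Finset Bool)).filter
    (fun j => (Sum.inl j : (I × Bool) ⊕ PtcW I WC WG) ∉ P a), ?_, ?_⟩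
  · rw [Finset.card_product] at hJ3
    have h2 : (Finset.univ : Finset Bool).card = 2 := rfl
    rw [h2] at hJ3
    have hX1' : Fintype.card I ≤ X.card + (pC1 (P a)).card := hX1
    omega
  · rintro ⟨x, b⟩ hj
    rw [Finset.mem_filter, Finset.mem_product] at hj
    obtain ⟨⟨hx, _⟩, hj2⟩ := hj
    have hA : App P a c (Sum.inl (x, b)) := (hX4 x hx b).mono le_rfl (by omega)
    rcases (app_iff hac).1 hA with h' | h'
    · exact absurd h' hj2
    · exact h'

/-- if more outputs of the first copy of `G` than pebbles at time `a` appear, then many inputs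
receive pebbles -/
theorem look_g1_out (hC : C.Conn) (hG : G.Direct) {P : ℕ → Finset ((I × Bool) ⊕ PtcW I WC WG)}
    (hP : (C.ptc G).Legal P) (a c B : ℕ) (hB : (P a).card ≤ B) (J : Finset I)
    (hJ : ∀ j ∈ J, App P a c (Sum.inr (PtcW.g1 (Sum.inr (G.out j))))) (h : B < J.card) :
    ∃ J' : Finset (I × Bool), 2 * Fintype.card I ≤ J'.card + 5 * B ∧
      ∀ j ∈ J', Plc P a c (Sum.inl j) := by
  have hpc := parts_card (P a)
  have h1 := pl8b_remove₂ (fun x : I => x) G.out (fun x y h => h) G.out_inj J (pG1 (P a))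
  obtain ⟨J', hJ1, hJ2⟩ := pl8b_core C G hC hP a c
    (J.filter (fun x => (Sum.inl x : I ⊕ WG) ∉ pG1 (P a) ∧ Sum.inr (G.out x) ∉ pG1 (P a)))
    (by
      intro j hj
      rw [Finset.mem_filter] at hj
      obtain ⟨hj0, hj1, hj2⟩ := hj
      rw [pl8b_mem_g1] at hj1 hj2
      have hb := (pl8b_back hP (hJ j hj0) hj2).1
      have hb' : App P a (c - 1) (Sum.inr (PtcW.g1 (G.pr (G.out j)).1)) := hb
      rw [hG j] at hb'
      have hb2 : App P a (c - 1 - 1) (Sum.inr (PtcW.c1 (Sum.inr (C.out j)))) :=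
        (pl8b_back hP hb' hj1).1
      exact hb2.mono le_rfl (by omega))
    (by omega)
  exact ⟨J', by omega, hJ2⟩

/-- the same for the inputs of the first copy of `G` -/
theorem look_g1_in (hC : C.Conn) {P : ℕ → Finset ((I × Bool) ⊕ PtcW I WC WG)}
    (hP : (C.ptc G).Legal P) (a c B : ℕ) (hB : (P a).card ≤ B) (J : Finset I)
    (hJ : ∀ j ∈ J, App P a c (Sum.inr (PtcW.g1 (Sum.inl j)))) (h : B < J.card) :
    ∃ J' : Finset (I × Bool), 2 * Fintype.card I ≤ J'.card + 5 * B ∧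
      ∀ j ∈ J', Plc P a c (Sum.inl j) := by
  have hpc := parts_card (P a)
  have h1 := pl8b_remove (fun x : I => (Sum.inl x : I ⊕ WG)) Sum.inl_injective J (pG1 (P a))
  obtain ⟨J', hJ1, hJ2⟩ := pl8b_core C G hC hP a c
    (J.filter (fun x => (Sum.inl x : I ⊕ WG) ∉ pG1 (P a)))
    (by
      intro j hj
      rw [Finset.mem_filter] at hj
      obtain ⟨hj0, hj1⟩ := hj
      rw [pl8b_mem_g1] at hj1
      have hb2 : App P a (c - 1) (Sum.inr (PtcW.c1 (Sum.inr (C.out j)))) :=
        (pl8b_back hP (hJ j hj0) hj1).1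
      exact hb2.mono le_rfl (by omega))
    (by omega)
  exact ⟨J', by omega, hJ2⟩

/-- if more outputs of the second copy of `C` than pebbles at time `a` appear, then many outputs
of the second copy of `G` appear -/
theorem look_c2_out (hC : C.Conn) {P : ℕ → Finset ((I × Bool) ⊕ PtcW I WC WG)}
    (hP : (C.ptc G).Legal P) (a c B : ℕ) (hB : (P a).card ≤ B) (J : Finset I)
    (hJ : ∀ j ∈ J, App P a c (Sum.inr (PtcW.c2 (Sum.inr (C.out j))))) (h : B < J.card) :
    ∃ J' : Finset I, Fintype.card I ≤ J'.card + 2 * B ∧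
      ∀ j ∈ J', App P a c (Sum.inr (PtcW.g2 (Sum.inr (G.out j)))) := by
  have hpc := parts_card (P a)
  obtain ⟨X, hX1, hX2⟩ := hC.app (legal_c2 C G hP) a c J (by
    intro j hj
    obtain ⟨τ, h1, h2, h3⟩ := hJ j hj
    exact ⟨τ, h1, h2, (pl8b_mem_c2 _ _).2 h3⟩) (by
      have : (pC2 (P a)).card < J.card := by omega
      exact this)
  have hX1' : Fintype.card I ≤ X.card + (pC2 (P a)).card := hX1
  have hX3 := pl8b_remove (fun x : I => (Sum.inl x : I ⊕ WC)) Sum.inl_injective X (pC2 (P a))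
  refine ⟨X.filter (fun x => (Sum.inl x : I ⊕ WC) ∉ pC2 (P a)), by omega, ?_⟩
  intro x hx
  rw [Finset.mem_filter] at hx
  obtain ⟨hxX, hxP⟩ := hx
  rw [pl8b_mem_c2] at hxP
  have hxA : App P a c (Sum.inr (PtcW.c2 (Sum.inl x))) := by
    obtain ⟨τ, h1, h2, h3⟩ := hX2 x hxX
    exact ⟨τ, h1, h2, (pl8b_mem_c2 _ _).1 h3⟩
  have hb : App P a (c - 1) (Sum.inr (PtcW.g2 (Sum.inr (G.out x)))) := (pl8b_back hP hxA hxP).1
  exact hb.mono le_rfl (by omega)

/-- if outputs of the second copy of `G` appear, then most of the corresponding outputs of the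
first copy appear -/
theorem look_g2_out (hG : G.Direct) {P : ℕ → Finset ((I × Bool) ⊕ PtcW I WC WG)}
    (hP : (C.ptc G).Legal P) (a c B : ℕ) (hB : (P a).card ≤ B) (J : Finset I)
    (hJ : ∀ j ∈ J, App P a c (Sum.inr (PtcW.g2 (Sum.inr (G.out j))))) :
    ∃ J' : Finset I, J.card ≤ J'.card + B ∧
      ∀ j ∈ J', App P a c (Sum.inr (PtcW.g1 (Sum.inr (G.out j)))) := by
  have hpc := parts_card (P a)
  have h1 := pl8b_remove₂ (fun x : I => x) G.out (fun x y h => h) G.out_inj J (pG2 (P a))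
  refine ⟨J.filter (fun x => (Sum.inl x : I ⊕ WG) ∉ pG2 (P a) ∧
    Sum.inr (G.out x) ∉ pG2 (P a)), by omega, ?_⟩
  intro j hj
  rw [Finset.mem_filter] at hj
  obtain ⟨hj0, hj1, hj2⟩ := hj
  rw [pl8b_mem_g2] at hj1 hj2
  have hb := (pl8b_back hP (hJ j hj0) hj2).1
  have hb' : App P a (c - 1) (Sum.inr (PtcW.g2 (G.pr (G.out j)).1)) := hb
  rw [hG j] at hb'
  have hb2 : App P a (c - 1 - 1) (Sum.inr (PtcW.g1 (Sum.inr (G.out j)))) :=
    (pl8b_back hP hb' hj1).1
  exact hb2.mono le_rfl (by omega)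

/-- outputs of the net and outputs of the second copy of `C` -/
theorem look_t {P : ℕ → Finset ((I × Bool) ⊕ PtcW I WC WG)}
    (hP : (C.ptc G).Legal P) (a c B : ℕ) (hB : (P a).card ≤ B) (J : Finset (I × Bool))
    (hJ : ∀ j ∈ J, App P a (c + 1) (Sum.inr (PtcW.t j))) :
    ∃ J' : Finset I, J.card ≤ 2 * J'.card + B ∧
      ∀ j ∈ J', App P a c (Sum.inr (PtcW.c2 (Sum.inr (C.out j)))) := by
  have h1 := pl8b_remove (fun x : I × Bool => (Sum.inr (PtcW.t x) : (I × Bool) ⊕ PtcW I WC WG))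
    (by
      intro x y h
      have h' := Sum.inr_injective h
      injection h') J (P a)
  set J2 := J.filter (fun x => (Sum.inr (PtcW.t x) : (I × Bool) ⊕ PtcW I WC WG) ∉ P a) with hJ2
  have h2 : J2 ⊆ (J2.image Prod.fst) ×ˢ (Finset.univ : Finset Bool) := by
    rintro ⟨x, b⟩ hx
    rw [Finset.mem_product]
    exact ⟨Finset.mem_image.2 ⟨(x, b), hx, rfl⟩, Finset.mem_univ _⟩
  have h3 := Finset.card_le_card h2
  rw [Finset.card_product] at h3
  have h4 : (Finset.univ : Finset Bool).card = 2 := rfl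
  rw [h4] at h3
  refine ⟨J2.image Prod.fst, by omega, ?_⟩
  intro j hj
  obtain ⟨⟨x, b⟩, hx, hxj⟩ := Finset.mem_image.1 hj
  have hxj' : x = j := hxj
  subst hxj'
  rw [hJ2, Finset.mem_filter] at hx
  have hb : App P a (c + 1 - 1) (Sum.inr (PtcW.c2 (Sum.inr (C.out x)))) :=
    (pl8b_back hP (hJ _ hx.1) hx.2).2
  exact hb.mono le_rfl (by omega)

end parts

end Pool.Agent.BoolCirc
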