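import Pool.Agent.NegThr.PLDefs

/-!
Module PL8c1: last times.
-/

namespace Pool.Agent.BoolCirc

/-- a general form for predicates `A τ j` -/
theorem exists_last_time_aux {α : Type} (A : ℕ → α → Prop) (J : Finset α) (a c N : ℕ)
    (hac : a ≤ c) (hJ : ∀ j ∈ J, A c j)
    (h0 : ∀ J' ⊆ J, (∀ j ∈ J', A a j) → J'.card < N) (hN : N ≤ J.card) :
    ∃ τ, a ≤ τ ∧ τ < c ∧ (∀ J' ⊆ J, (∀ j ∈ J', A τ j) → J'.card < N) ∧
      ∃ J' ⊆ J, N ≤ J'.card ∧ ∀ j ∈ J', A (τ + 1) j := by
  classical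
  -- the first time `a + k` at which `N` objects have appeared
  have hex : ∃ k, ∃ J' ⊆ J, N ≤ J'.card ∧ ∀ j ∈ J', A (a + k) j :=
    ⟨c - a, J, Finset.Subset.refl _, hN, by rw [show a + (c - a) = c by omega]; exact hJ⟩
  have hspec := Nat.find_spec hex
  have hmin := fun k (hk : k < Nat.find hex) => Nat.find_min hex hk
  have hle : Nat.find hex ≤ c - a := Nat.find_min' hex
    ⟨J, Finset.Subset.refl _, hN, by rw [show a + (c - a) = c by omega]; exact hJ⟩
  have hpos : 0 < Nat.find hex := by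
    rcases Nat.eq_zero_or_pos (Nat.find hex) with h | h
    · exfalso
      rw [h] at hspec
      obtain ⟨J', h1, h2, h3⟩ := hspec
      have := h0 J' h1 h3
      omega
    · exact h
  refine ⟨a + (Nat.find hex - 1), by omega, by omega, ?_, ?_⟩
  · intro J' h1 h2
    by_contra h3
    push Not at h3
    exact hmin (Nat.find hex - 1) (by omega) ⟨J', h1, h3, h2⟩
  · rw [show a + (Nat.find hex - 1) + 1 = a + Nat.find hex by omega]
    exact hspec

/-- the last time `τ ≤ c` at which fewer than `N` objects have appeared since time `a` -/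
theorem exists_last_time {V : Type} (P : ℕ → Finset V) {α : Type} (f : α → V) (J : Finset α)
    (a c N : ℕ) (hac : a ≤ c) (hJ : ∀ j ∈ J, App P a c (f j)) (h0 : (P a).card < N)
    (hf : Function.Injective f) (hN : N ≤ J.card) :
    ∃ τ, a ≤ τ ∧ τ < c ∧ (∀ J' ⊆ J, (∀ j ∈ J', App P a τ (f j)) → J'.card < N) ∧
      ∃ J' ⊆ J, N ≤ J'.card ∧ ∀ j ∈ J', App P a (τ + 1) (f j) := by
  refine exists_last_time_aux (fun τ j => App P a τ (f j)) J a c N hac hJ ?_ hN
  intro J' _ h2
  refine lt_of_le_of_lt ?_ h0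
  refine Finset.card_le_card_of_injOn f ?_ hf.injOn
  intro j hj
  obtain ⟨τ, h3, h4, h5⟩ := h2 j hj
  have : τ = a := by omega
  exact this ▸ h5

/-- the same for receiving pebbles -/
theorem exists_last_time_plc {V : Type} (P : ℕ → Finset V) {α : Type} (f : α → V) (J : Finset α)
    (a c N : ℕ) (hac : a ≤ c) (hJ : ∀ j ∈ J, Plc P a c (f j)) (h0 : 1 ≤ N) (hN : N ≤ J.card) :
    ∃ τ, a ≤ τ ∧ τ < c ∧ (∀ J' ⊆ J, (∀ j ∈ J', Plc P a τ (f j)) → J'.card < N) ∧
      ∃ J' ⊆ J, N ≤ J'.card ∧ ∀ j ∈ J', Plc P a (τ + 1) (f j) := by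
  refine exists_last_time_aux (fun τ j => Plc P a τ (f j)) J a c N hac hJ ?_ hN
  intro J' _ h2
  have : J' = ∅ := by
    rw [Finset.eq_empty_iff_forall_notMem]
    intro j hj
    obtain ⟨τ, h3, h4, _⟩ := h2 j hj
    omega
  rw [this, Finset.card_empty]
  omega

/-- the last time `τ ≤ c` with fewer than `b` pebbles -/
theorem exists_last_low {V : Type} (P : ℕ → Finset V) (s c b : ℕ) (hsc : s ≤ c)
    (hs : (P s).card < b) : ∃ s', s ≤ s' ∧ s' ≤ c ∧ (P s').card < b ∧
      ∀ τ, s' < τ → τ ≤ c → b ≤ (P τ).card := by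
  induction c, hsc using Nat.le_induction with
  | base => exact ⟨s, le_rfl, le_rfl, hs, fun τ h1 h2 => by omega⟩
  | succ c hc ih =>
    by_cases h : (P (c + 1)).card < b
    · exact ⟨c + 1, by omega, le_rfl, h, fun τ h1 h2 => by omega⟩
    · obtain ⟨s', h1, h2, h3, h4⟩ := ih
      refine ⟨s', h1, by omega, h3, fun τ h5 h6 => ?_⟩
      rcases Nat.lt_or_ge c τ with h7 | h7
      · have : τ = c + 1 := by omega
        subst this
        omega
      · exact h4 τ h5 h7

theorem ptc_direct {I WC WG : Type} (C : CNet I WC) (G : CNet I WG) : (C.ptc G).Direct := by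
  rintro ⟨j, b⟩
  rfl

end Pool.Agent.BoolCirc
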