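import Pool.Agent.NegThr.PL7
import Pool.Agent.NegThr.PL8a
import Pool.Agent.NegThr.PL8b
import Pool.Agent.NegThr.PL8c1

/-!
Module PL8c: the inductive step for the pebbling property.
-/

namespace Pool.Agent.BoolCirc

section

variable {I WC WG : Type} [Fintype I] [Fintype WG] [DecidableEq I]
    [DecidableEq WC] [DecidableEq WG]

theorem pl8c_app_g1 {P : ℕ → Finset ((I × Bool) ⊕ PtcW I WC WG)} {a c : ℕ} {x : I ⊕ WG}
    (h : App P a c (Sum.inr (PtcW.g1 x))) : App (fun τ => pG1 (P τ)) a c x := by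
  obtain ⟨τ, h1, h2, h3⟩ := h
  exact ⟨τ, h1, h2, by simpa [pG1, res] using h3⟩

theorem pl8c_app_g2 {P : ℕ → Finset ((I × Bool) ⊕ PtcW I WC WG)} {a c : ℕ} {x : I ⊕ WG}
    (h : App P a c (Sum.inr (PtcW.g2 x))) : App (fun τ => pG2 (P τ)) a c x := by
  obtain ⟨τ, h1, h2, h3⟩ := h
  exact ⟨τ, h1, h2, by simpa [pG2, res] using h3⟩

theorem pl8c_plc_g1 {P : ℕ → Finset ((I × Bool) ⊕ PtcW I WC WG)} {a c : ℕ} {x : I ⊕ WG}
    (h : Plc (fun τ => pG1 (P τ)) a c x) : Plc P a c (Sum.inr (PtcW.g1 x)) := by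
  obtain ⟨τ, h1, h2, h3, h4⟩ := h
  exact ⟨τ, h1, h2, by simpa [pG1, res] using h3, by simpa [pG1, res] using h4⟩

theorem pl8c_plc_g2 {P : ℕ → Finset ((I × Bool) ⊕ PtcW I WC WG)} {a c : ℕ} {x : I ⊕ WG}
    (h : Plc (fun τ => pG2 (P τ)) a c x) : Plc P a c (Sum.inr (PtcW.g2 x)) := by
  obtain ⟨τ, h1, h2, h3, h4⟩ := h
  exact ⟨τ, h1, h2, by simpa [pG2, res] using h3, by simpa [pG2, res] using h4⟩

theorem pl8c_app_split {V : Type} {P : ℕ → Finset V} {a s c : ℕ} {v : V} (h : App P a c v)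
    (hn : ¬ App P a s v) : App P s c v := by
  obtain ⟨τ, h1, h2, h3⟩ := h
  refine ⟨τ, ?_, h2, h3⟩
  by_contra hlt
  exact hn ⟨τ, h1, by omega, h3⟩

theorem pl8c_plc_split {V : Type} {P : ℕ → Finset V} {a s c : ℕ} {v : V} (h : Plc P a c v)
    (hn : ¬ Plc P a s v) : Plc P s c v := by
  obtain ⟨τ, h1, h2, h3, h4⟩ := h
  refine ⟨τ, ?_, h2, h3, h4⟩
  by_contra hlt
  exact hn ⟨τ, h1, by omega, h3, h4⟩

theorem pl8c_diff {α : Type} (J : Finset α) (p : α → Prop) :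
    ∃ Jr ⊆ J, (∀ j ∈ Jr, ¬ p j) ∧ ∃ Jp ⊆ J, (∀ j ∈ Jp, p j) ∧ J.card ≤ Jr.card + Jp.card := by
  classical
  refine ⟨J.filter (fun j => ¬ p j), Finset.filter_subset _ _,
    fun j hj => (Finset.mem_filter.1 hj).2, J.filter p, Finset.filter_subset _ _,
    fun j hj => (Finset.mem_filter.1 hj).2, ?_⟩
  have := Finset.card_filter_add_card_filter_not (s := J) p
  omega

end

theorem ptc_peb {I WC WG : Type} [Fintype I] [Fintype WC] [Fintype WG] [DecidableEq I]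
    [DecidableEq WC] [DecidableEq WG] (C : CNet I WC) (G : CNet I WG) (hC : C.Conn)
    (hG : G.Direct) (e : ℕ) (he : 1 ≤ e) (hI : Fintype.card I = 32 * e) (hp : G.Peb e) :
    (C.ptc G).Peb (2 * e) := by
  classical
  intro P hP a c J hac hPa hJc hJ
  have hfinj : Function.Injective
      (fun j : I × Bool => (Sum.inr (PtcW.t j) : (I × Bool) ⊕ PtcW I WC WG)) := by
    intro j j' h
    simpa using h
  obtain ⟨t, hat, htc, hlow, J1, hJ1, hJ1c, hJ1a⟩ := exists_last_time P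
    (fun j : I × Bool => (Sum.inr (PtcW.t j) : (I × Bool) ⊕ PtcW I WC WG)) J a c (12 * e + 2) hac
    hJ (by omega) hfinj (by omega)
  by_cases hcase : ∀ τ, a < τ → τ ≤ t → 2 * e ≤ (P τ).card
  · -- Case I
    obtain ⟨J2, hJ2c, hJ2⟩ := look_t C G hP a t (4 * e) (by omega) J1 hJ1a
    obtain ⟨J3, hJ3c, hJ3⟩ := look_c2_out C G hC hP a t (4 * e) (by omega) J2 hJ2 (by omega)
    obtain ⟨J4, hJ4c, hJ4⟩ := look_g2_out C G hG hP a t (4 * e) (by omega) J3 hJ3
    obtain ⟨J5, hJ5c, hJ5⟩ := look_g1_out C G hC hG hP a t (4 * e) (by omega) J4 hJ4 (by omega)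
    exact ⟨a, t, J5, le_rfl, hat, htc.le, by omega, hJ5, hcase⟩
  · -- Case II
    push Not at hcase
    obtain ⟨s, has, hst, hsb⟩ := hcase
    obtain ⟨Jr, hJr, hJrn, Jp, hJp, hJpa, hJrp⟩ := pl8c_diff J
      (fun j => App P a s (Sum.inr (PtcW.t j)))
    have hJrc : 12 * e - 1 ≤ Jr.card := by
      have h2 := hlow Jp hJp (fun j hj => (hJpa j hj).mono le_rfl hst)
      omega
    obtain ⟨J2, hJ2c, hJ2⟩ := look_t C G hP s (c - 1) (2 * e) (by omega) Jr (fun j hj => by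
      rw [show c - 1 + 1 = c by omega]
      exact pl8c_app_split (hJ j (hJr hj)) (hJrn j hj))
    obtain ⟨J3, hJ3c, hJ3⟩ := look_c2_out C G hC hP s (c - 1) (2 * e - 1) (by omega) J2 hJ2
      (by omega)
    obtain ⟨a1, c1, J4, ha1, hac1, hc1, hJ4c, hJ4, hJ4b⟩ := hp (fun τ => pG2 (P τ))
      (legal_g2 C G hP) s (c - 1) J3 (by omega) (by
        have := parts_card (P s)
        show (pG2 (P s)).card ≤ _
        omega) (by omega) (fun j hj => pl8c_app_g2 (hJ3 j hj))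
    obtain ⟨t2, hat2, htc2, hlow2, J5, hJ5, hJ5c, hJ5a⟩ := exists_last_time_plc P
      (fun j : I => (Sum.inr (PtcW.g2 (Sum.inl j)) : (I × Bool) ⊕ PtcW I WC WG)) J4 a1 c1
      (6 * e + 1) hac1 (fun j hj => pl8c_plc_g2 (hJ4 j hj)) (by omega) (by omega)
    by_cases hcase2 : ∀ τ, a1 < τ → τ ≤ t2 → 2 * e ≤ (P τ).card
    · -- Case II.1
      obtain ⟨s', h1, h2, h3, h4⟩ := exists_last_low P s t2 (2 * e) (by omega) hsb
      have hs'a1 : s' ≤ a1 := by
        by_contra hlt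
        have := hcase2 s' (by omega) h2
        omega
      obtain ⟨J6, hJ6c, hJ6⟩ := look_g1_out C G hC hG hP s' t2 (2 * e) (by omega) J5 (fun j hj => by
        have h5 := (hP.plc (hJ5a j hj)).2.1
        rw [Nat.add_sub_cancel] at h5
        exact h5.mono hs'a1 le_rfl) (by omega)
      exact ⟨s', t2, J6, by omega, h2, by omega, by omega, hJ6, h4⟩
    · -- Case II.2
      push Not at hcase2
      obtain ⟨s2, has2, hst2, hsb2⟩ := hcase2
      obtain ⟨Jq, hJq, hJqn, Jp', hJp', hJpa', hJqp⟩ := pl8c_diff J4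
        (fun j => Plc P a1 s2 (Sum.inr (PtcW.g2 (Sum.inl j))))
      have hJqc : 12 * e ≤ Jq.card := by
        have h2 := hlow2 Jp' hJp' (fun j hj => (hJpa' j hj).mono le_rfl hst2)
        omega
      have hJqa : ∀ j ∈ Jq, App P s2 (c1 - 1) (Sum.inr (PtcW.g1 (Sum.inr (G.out j)))) := by
        intro j hj
        exact (hP.plc (pl8c_plc_split (pl8c_plc_g2 (hJ4 j (hJq hj))) (hJqn j hj))).2.1
      obtain ⟨a3, c3, J7, ha3, hac3, hc3, hJ7c, hJ7, hJ7b⟩ := hp (fun τ => pG1 (P τ))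
        (legal_g1 C G hP) s2 (c1 - 1) Jq (by omega) (by
          have := parts_card (P s2)
          show (pG1 (P s2)).card ≤ _
          omega) (by omega) (fun j hj => pl8c_app_g1 (hJqa j hj))
      obtain ⟨s3, h1, h2, h3, h4⟩ := exists_last_low P s2 a3 (2 * e) (by omega) hsb2
      obtain ⟨J8, hJ8c, hJ8⟩ := look_g1_in C G hC hP s3 c3 (2 * e) (by omega) J7 (fun j hj =>
        (pl8c_plc_g1 (hJ7 j hj)).app.mono h2 le_rfl) (by omega)
      refine ⟨s3, c3, J8, by omega, by omega, by omega, by omega, hJ8, ?_⟩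
      intro τ hτ1 hτ2
      by_cases hτ : τ ≤ a3
      · exact h4 τ hτ1 hτ
      · have h5 : e ≤ (pG1 (P τ)).card := hJ7b τ (by omega) hτ2
        have h6 : e ≤ (pG2 (P τ)).card := hJ4b τ (by omega) (by omega)
        have h7 := parts_card (P τ)
        omega

end Pool.Agent.BoolCirc
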