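import Pool.Agent.NegThr.PL7
import Pool.Agent.NegThr.PL8a
import Pool.Agent.NegThr.PL8c1

/-!
PL8d: the base case of the recursive nets.
-/

namespace Pool.Agent.BoolCirc

theorem ptc0_direct {I WC : Type} (C : CNet I WC) : C.ptc0.Direct := fun _ => rfl

section base

variable {I WC : Type} [Fintype I] [Fintype WC] [DecidableEq I] [DecidableEq WC]

/-- the part of a configuration in `C` -/
def pl8d_pC (P : Finset (I ⊕ Ptc0W I WC)) : Finset (I ⊕ WC) :=
  res (fun x => Sum.inr (Sum.inl x)) P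

theorem pl8d_mem (P : Finset (I ⊕ Ptc0W I WC)) (x : I ⊕ WC) :
    x ∈ pl8d_pC P ↔ Sum.inr (Sum.inl x) ∈ P := by
  simp [pl8d_pC, res]

theorem pl8d_card (P : Finset (I ⊕ Ptc0W I WC)) : (pl8d_pC P).card ≤ P.card := by
  apply Finset.card_le_card_of_injOn (fun x => Sum.inr (Sum.inl x))
  · intro x hx
    exact (pl8d_mem P x).1 hx
  · intro x _ y _ h
    simpa using h

theorem pl8d_legal (C : CNet I WC) {P : ℕ → Finset (I ⊕ Ptc0W I WC)} (hP : C.ptc0.Legal P) :
    C.Legal (fun τ => pl8d_pC (P τ)) := by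
  intro τ w hw
  rw [pl8d_mem] at hw
  rcases hP τ _ hw with h | ⟨h1, h2⟩
  · exact Or.inl ((pl8d_mem _ _).2 h)
  · exact Or.inr ⟨(pl8d_mem _ _).2 h1, (pl8d_mem _ _).2 h2⟩

theorem pl8d_app (P : ℕ → Finset (I ⊕ Ptc0W I WC)) (a c : ℕ) (x : I ⊕ WC) :
    App (fun τ => pl8d_pC (P τ)) a c x ↔ App P a c (Sum.inr (Sum.inl x)) := by
  constructor
  · rintro ⟨τ, h1, h2, h3⟩
    exact ⟨τ, h1, h2, (pl8d_mem _ _).1 h3⟩
  · rintro ⟨τ, h1, h2, h3⟩
    exact ⟨τ, h1, h2, (pl8d_mem _ _).2 h3⟩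

/-- remove the elements whose images carry pebbles at time `a` -/
theorem pl8d_remove {V α : Type} [DecidableEq V] [DecidableEq α] (P : ℕ → Finset V) (f : α → V)
    (hf : Function.Injective f) (J : Finset α) (a c : ℕ) (hac : a ≤ c)
    (hJ : ∀ j ∈ J, App P a c (f j)) :
    ∃ J' ⊆ J, J.card ≤ J'.card + (P a).card ∧ ∀ j ∈ J', Plc P a c (f j) := by
  refine ⟨J.filter (fun j => f j ∉ P a), Finset.filter_subset _ _, ?_, ?_⟩
  · have h1 : (J.filter (fun j => f j ∈ P a)).card ≤ (P a).card := by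
      apply Finset.card_le_card_of_injOn f
      · intro j hj
        exact (Finset.mem_filter.1 hj).2
      · exact hf.injOn
    have h2 := Finset.card_filter_add_card_filter_not (s := J) (fun j => f j ∈ P a)
    omega
  · intro j hj
    rw [Finset.mem_filter] at hj
    rcases (app_iff hac).1 (hJ j hj.1) with h | h
    · exact absurd h hj.2
    · exact h

theorem ptc0_peb (C : CNet I WC) (hC : C.Conn) (hI : Fintype.card I = 32) : C.ptc0.Peb 1 := by
  intro P hP a c J hac hPa hJ hout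
  have hout' : ∀ j ∈ J, App P a c (Sum.inr (Sum.inr j)) := hout
  have hinj : Function.Injective (fun j : I => (Sum.inr (Sum.inr j) : I ⊕ Ptc0W I WC)) := by
    intro x y h
    simpa using h
  have hinj2 : Function.Injective (fun j : I => (Sum.inr (Sum.inl (Sum.inl j)) : I ⊕ Ptc0W I WC)) := by
    intro x y h
    simpa using h
  have hinj3 : Function.Injective (fun j : I => (Sum.inl j : I ⊕ Ptc0W I WC)) := by
    intro x y h
    simpa using h
  obtain ⟨t, hat, htc, hfew, J1, hJ1, hJ1c, hJ1a⟩ :=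
    exists_last_time P (fun j : I => (Sum.inr (Sum.inr j) : I ⊕ Ptc0W I WC)) J a c 5 hac hout'
      (by omega) hinj (by omega)
  by_cases hcase : ∀ τ, a < τ → τ ≤ t → 1 ≤ (P τ).card
  · -- many pebbles all the time
    obtain ⟨J2, _, hJ2c, hJ2⟩ := pl8d_remove P _ hinj J1 a (t + 1) (by omega) hJ1a
    have h3 : ∀ j ∈ J2, App (fun τ => pl8d_pC (P τ)) a t (Sum.inr (C.out j)) := by
      intro j hj
      rw [pl8d_app]
      exact (CNet.Legal.plc hP (hJ2 j hj)).2.2
    have h4 := pl8d_card (P a)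
    obtain ⟨X, hXc, hX⟩ := hC.app (pl8d_legal C hP) a t J2 h3 (by
      show (pl8d_pC (P a)).card < J2.card
      omega)
    have hXc' : Fintype.card I ≤ X.card + (pl8d_pC (P a)).card := hXc
    have hX' : ∀ x ∈ X, App P a t (Sum.inr (Sum.inl (Sum.inl x))) := fun x hx =>
      (pl8d_app P a t _).1 (hX x hx)
    obtain ⟨X2, _, hX2c, hX2⟩ := pl8d_remove P _ hinj2 X a t hat hX'
    have h5 : ∀ x ∈ X2, App P a t (Sum.inl x) := fun x hx =>
      (CNet.Legal.plc hP (hX2 x hx)).2.1.mono (le_refl a) (by omega)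
    obtain ⟨X3, _, hX3c, hX3⟩ := pl8d_remove P _ hinj3 X2 a t hat h5
    exact ⟨a, t, X3, le_refl a, hat, by omega, by omega, hX3, hcase⟩
  · push Not at hcase
    obtain ⟨s, has, hst, hs⟩ := hcase
    -- an output which has not yet appeared
    have hj : ∃ j ∈ J, ¬ App P a s (Sum.inr (Sum.inr j)) := by
      by_contra hcon
      push Not at hcon
      have := hfew J (le_refl J) (fun j hj => (hcon j hj).mono (le_refl a) hst)
      omega
    obtain ⟨j, hj, hns⟩ := hj
    obtain ⟨τ, hτa, hτc, hτ⟩ := hout' j hj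
    have hsτ : s ≤ τ := by
      by_contra hlt
      exact hns ⟨τ, hτa, by omega, hτ⟩
    have hpl : Plc P s c (Sum.inr (Sum.inr j)) := by
      rcases (app_iff (hsτ.trans hτc)).1 ⟨τ, hsτ, hτc, hτ⟩ with h | h
      · exact absurd ⟨s, has.le, le_refl s, h⟩ hns
      · exact h
    obtain ⟨τ₀, h1, h2, h3, h4⟩ := hpl
    have h5 : Sum.inr (Sum.inl (Sum.inr (C.out j))) ∈ P τ₀ := by
      rcases hP τ₀ _ h4 with h | ⟨_, h⟩
      · exact absurd h h3
      · exact h
    obtain ⟨s', hss', hs'τ, hs'0, hs'⟩ := exists_last_low P s τ₀ 1 h1 hs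
    have h6 := pl8d_card (P s')
    obtain ⟨X, hXc, hX⟩ := hC.app (pl8d_legal C hP) s' τ₀ {j} (by
      intro i hi
      rw [Finset.mem_singleton] at hi
      subst hi
      rw [pl8d_app]
      exact ⟨τ₀, hs'τ, le_refl _, h5⟩) (by
      show (pl8d_pC (P s')).card < _
      rw [Finset.card_singleton]
      omega)
    have hXc' : Fintype.card I ≤ X.card + (pl8d_pC (P s')).card := hXc
    have hX' : ∀ x ∈ X, App P s' τ₀ (Sum.inr (Sum.inl (Sum.inl x))) := fun x hx =>
      (pl8d_app P s' τ₀ _).1 (hX x hx)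
    obtain ⟨X2, _, hX2c, hX2⟩ := pl8d_remove P _ hinj2 X s' τ₀ hs'τ hX'
    have h7 : ∀ x ∈ X2, App P s' τ₀ (Sum.inl x) := fun x hx =>
      (CNet.Legal.plc hP (hX2 x hx)).2.1.mono (le_refl s') (by omega)
    obtain ⟨X3, _, hX3c, hX3⟩ := pl8d_remove P _ hinj3 X2 s' τ₀ hs'τ h7
    exact ⟨s', τ₀, X3, by omega, hs'τ, by omega, by omega, hX3, hs'⟩

end base

end Pool.Agent.BoolCirc
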