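import Pool.Agent.NegThr.PL6
import Pool.Agent.NegThr.PL8c
import Pool.Agent.NegThr.PL8d

/-!
The recursive nets, module PL8e.
-/

namespace Pool.Agent.BoolCirc

/-- the size of the recursive nets -/
private theorem pl8e_arith (k w : ℕ) (h : w ≤ 500 * 2 ^ k * (k + 1) ^ 2) :
    6 * 2 ^ (k + 5) + 2 * (2 ^ (k + 5) * (1 + 2 * (k + 5))) + 2 * w ≤
      500 * 2 ^ (k + 1) * (k + 1 + 1) ^ 2 := by
  have e5 : 2 ^ (k + 5) = 2 ^ k * 32 := by rw [pow_add]; norm_num
  have e1 : 2 ^ (k + 1) = 2 ^ k * 2 := by rw [pow_succ]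
  rw [e5, e1]
  generalize 2 ^ k = p at *
  nlinarith [Nat.zero_le (p * k), Nat.zero_le p]

theorem exists_ptc : ∃ K, ∀ k : ℕ, ∃ (W : Type) (_ : Fintype W) (_ : DecidableEq W)
    (N : CNet (Ix (k + 5)) W), N.Direct ∧ N.Peb (2 ^ k) ∧
      Fintype.card W ≤ K * 2 ^ k * (k + 1) ^ 2 := by
  refine ⟨500, fun k => ?_⟩
  induction k with
  | zero =>
    obtain ⟨WC, i1, i2, C, hC, hcard⟩ := exists_conn 5
    refine ⟨Ptc0W (Ix 5) WC, inferInstance, inferInstance, C.ptc0, ptc0_direct C, ?_, ?_⟩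
    · have h := ptc0_peb C hC (by rw [Ix.card]; norm_num)
      simpa using h
    · have h : Fintype.card (Ptc0W (Ix 5) WC) =
          Fintype.card (Ix 5) + Fintype.card WC + Fintype.card (Ix 5) := by
        simp only [Fintype.card_sum]
      rw [h, hcard, Ix.card]
      norm_num
  | succ k ih =>
    obtain ⟨WG, i1, i2, G, hd, hp, hcG⟩ := ih
    obtain ⟨WC, j1, j2, C, hC, hcard⟩ := exists_conn (k + 5)
    refine ⟨PtcW (Ix (k + 5)) WC WG, inferInstance, inferInstance, C.ptc G, ptc_direct C G, ?_, ?_⟩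
    · have h := ptc_peb C G hC hd (2 ^ k) Nat.one_le_two_pow
        (by rw [Ix.card, pow_add]; ring) hp
      rw [show 2 ^ (k + 1) = 2 * 2 ^ k by ring]
      exact h
    · rw [PtcW.card_eq, hcard, Ix.card]
      exact pl8e_arith k _ hcG

end Pool.Agent.BoolCirc
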