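import Pool.Agent.NegThr.PLDefs
import Pool.Agent.NegThr.PL5
import Pool.Agent.NegThr.PL8e

/-!
PL9: the chain over the outputs of the recursive net.
-/

namespace Pool.Agent.BoolCirc

/-- a vertex that carries a pebble was ready before -/
theorem pl9_ready_of_mem {V : Type} {G : PDag V} {P : ℕ → Finset V} (hP : G.Legal P)
    (h0 : P 0 = ∅) (v : V) : ∀ τ, v ∈ P τ → ∃ σ, σ < τ ∧ G.Ready (P σ) v := by
  intro τ
  induction τ with
  | zero =>
    intro h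
    rw [h0] at h
    simp at h
  | succ τ ih =>
    intro h
    rcases hP τ v h with h1 | h1
    · obtain ⟨σ, hσ, hr⟩ := ih h1
      exact ⟨σ, Nat.lt_succ_of_lt hσ, hr⟩
    · exact ⟨τ, Nat.lt_succ_self τ, h1⟩

theorem chain_lower {I W : Type} [Fintype I] [Fintype W] [DecidableEq I] [DecidableEq W]
    (N : CNet I W) (e : ℕ) (he : 1 ≤ e) (hI : Fintype.card I = 32 * e) (hp : N.Peb e) (n : ℕ)
    (o : ℕ → W) (ho : ∀ i, ∃ k ≤ n, o k = N.out i) (q : ℕ) (hq : q < e)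
    (P : ℕ → Finset ((I ⊕ W) ⊕ Fin (n + 1))) (hP : (N.chain n o).Legal P) (h0 : P 0 = ∅)
    (hc : ∀ τ, (P τ).card ≤ q) (τ : ℕ) : Sum.inr (Fin.last n) ∉ P τ := by
  intro hτ
  -- all nodes of the chain carry a pebble at some time
  have hch : ∀ j, ∀ (hj : j ≤ n), ∃ σ, σ ≤ τ ∧
      (Sum.inr ⟨n - j, Nat.lt_succ_of_le (Nat.sub_le n j)⟩ : (I ⊕ W) ⊕ Fin (n + 1)) ∈ P σ := by
    intro j
    induction j with
    | zero =>
      intro _
      exact ⟨τ, le_refl τ, hτ⟩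
    | succ j ih =>
      intro hj
      obtain ⟨σ, hσ, hm⟩ := ih (by omega)
      obtain ⟨σ', hσ', hr⟩ := pl9_ready_of_mem hP h0 _ σ hm
      have hpr : (N.chain n o).pr
          (Sum.inr ⟨n - j, Nat.lt_succ_of_le (Nat.sub_le n j)⟩) =
          some (Sum.inr ⟨n - (j + 1), Nat.lt_succ_of_le (Nat.sub_le n (j + 1))⟩,
            Sum.inl (Sum.inr (o (n - j)))) := by
        have hk : ∃ k, n - j = k + 1 := ⟨n - (j + 1), by omega⟩
        obtain ⟨k, hk⟩ := hk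
        have hk' : n - (j + 1) = k := by omega
        simp only [hk, hk']
        rfl
      exact ⟨σ', by omega, (hr _ hpr).1⟩
  have hnode : ∀ k, k ≤ n → ∃ σ, σ ≤ τ ∧
      (Sum.inl (Sum.inr (o k)) : (I ⊕ W) ⊕ Fin (n + 1)) ∈ P σ := by
    intro k hk
    obtain ⟨σ, hσ, hm⟩ := hch (n - k) (by omega)
    have e1 : n - (n - k) = k := by omega
    simp only [e1] at hm
    obtain ⟨σ', hσ', hr⟩ := pl9_ready_of_mem hP h0 _ σ hm
    rcases k with _ | k
    · exact ⟨σ', by omega, (hr _ rfl).1⟩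
    · exact ⟨σ', by omega, (hr _ rfl).2⟩
  -- the restriction to the net
  set Q : ℕ → Finset (I ⊕ W) := fun σ => Finset.univ.filter (fun x => Sum.inl x ∈ P σ) with hQ
  have hmemQ : ∀ σ x, x ∈ Q σ ↔ Sum.inl x ∈ P σ := by
    intro σ x
    simp [hQ]
  have hcard : ∀ σ, (Q σ).card ≤ q := by
    intro σ
    refine le_trans ?_ (hc σ)
    refine Finset.card_le_card_of_injOn Sum.inl ?_ ?_
    · intro x hx
      exact (hmemQ σ x).1 hx
    · intro x _ y _ hxy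
      exact Sum.inl_injective hxy
  have hlegal : N.Legal Q := by
    intro σ w hw
    rw [hmemQ] at hw
    rcases hP σ _ hw with h1 | h1
    · left
      rw [hmemQ]
      exact h1
    · right
      have := h1 _ rfl
      rw [hmemQ, hmemQ]
      exact this
  obtain ⟨a', c', J', ha', hac', hc', hJ', hpl, hlow⟩ :=
    hp Q hlegal 0 τ Finset.univ (Nat.zero_le τ) (by
      have := hcard 0
      omega) (by
      rw [Finset.card_univ, hI]
      omega) (by
      intro j _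
      obtain ⟨k, hk, hok⟩ := ho j
      obtain ⟨σ, hσ, hm⟩ := hnode k hk
      refine ⟨σ, Nat.zero_le σ, hσ, ?_⟩
      rw [hmemQ, ← hok]
      exact hm)
  have hne : J'.Nonempty := by
    rw [← Finset.card_pos]
    omega
  obtain ⟨j, hj⟩ := hne
  obtain ⟨σ, hσ1, hσ2, _, _⟩ := hpl j hj
  have h1 := hlow c' (by omega) (le_refl c')
  have h2 := hcard c'
  omega

/-- an enumeration of the outputs -/
theorem pl9_enum {I W : Type} [Fintype I] (f : I → W) (n : ℕ) (h : Fintype.card I = n + 1) :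
    ∃ o : ℕ → W, ∀ i, ∃ k ≤ n, o k = f i := by
  classical
  let e : I ≃ Fin (n + 1) := Fintype.equivFinOfCardEq h
  refine ⟨fun k => if hk : k < n + 1 then f (e.symm ⟨k, hk⟩) else f (e.symm 0), ?_⟩
  intro i
  have hlt : ((e i : Fin (n + 1)) : ℕ) < n + 1 := (e i).2
  refine ⟨(e i).1, by omega, ?_⟩
  simp only [hlt, dite_true, Fin.eta, Equiv.symm_apply_apply]

theorem exists_hard_dag : ∃ K, ∀ i : ℕ, ∃ (V : Type) (_ : Fintype V) (_ : DecidableEq V)
    (G : PDag V) (t : V), Fintype.card V ≤ K * 2 ^ i * (i + 1) ^ 2 ∧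
      ∃ R : Finset (Finset V), PebFam G t (2 ^ i) R := by
  obtain ⟨K, hK⟩ := exists_ptc
  refine ⟨128 + 8 * K, ?_⟩
  intro i
  obtain ⟨W, fW, dW, N, _, hpeb, hcW⟩ := hK (i + 1)
  have hcI : Fintype.card (Ix (i + 1 + 5)) = 32 * 2 ^ (i + 1) := by
    rw [Ix.card, pow_add]
    ring
  have hpos : 1 ≤ 2 ^ (i + 1) := Nat.one_le_two_pow
  obtain ⟨n, hn⟩ : ∃ n, Fintype.card (Ix (i + 1 + 5)) = n + 1 :=
    ⟨Fintype.card (Ix (i + 1 + 5)) - 1, by omega⟩
  obtain ⟨o, ho⟩ := pl9_enum N.out n hn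
  refine ⟨(Ix (i + 1 + 5) ⊕ W) ⊕ Fin (n + 1), inferInstance, inferInstance, N.chain n o,
    Sum.inr (Fin.last n), ?_, ?_⟩
  · rw [Fintype.card_sum, Fintype.card_sum, Fintype.card_fin, ← hn, hcI]
    have h2 : (i + 1 + 1) ^ 2 ≤ 4 * (i + 1) ^ 2 := by
      have e1 : (i + 1 + 1) ^ 2 = i ^ 2 + 4 * i + 4 := by ring
      have e2 : 4 * (i + 1) ^ 2 = 4 * i ^ 2 + 8 * i + 4 := by ring
      rw [e1, e2]
      omega
    have h3 : K * 2 ^ (i + 1) * (i + 1 + 1) ^ 2 ≤ K * 2 ^ (i + 1) * (4 * (i + 1) ^ 2) :=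
      Nat.mul_le_mul_left _ h2
    have h4 : 1 ≤ (i + 1) ^ 2 := Nat.one_le_pow _ _ (Nat.succ_pos i)
    have h5 : 2 ^ (i + 1) = 2 * 2 ^ i := by rw [pow_succ]; ring
    have h6 : 128 * 2 ^ i * 1 ≤ 128 * 2 ^ i * (i + 1) ^ 2 := Nat.mul_le_mul_left _ h4
    rw [h5] at h3 hcW
    calc 32 * 2 ^ (i + 1) + Fintype.card W + 32 * 2 ^ (i + 1)
        ≤ 128 * 2 ^ i * 1 + K * (2 * 2 ^ i) * (4 * (i + 1) ^ 2) := by
          rw [h5]
          have := le_trans hcW h3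
          omega
      _ ≤ 128 * 2 ^ i * (i + 1) ^ 2 + K * (2 * 2 ^ i) * (4 * (i + 1) ^ 2) :=
          Nat.add_le_add_right h6 _
      _ = (128 + 8 * K) * 2 ^ i * (i + 1) ^ 2 := by ring
  · refine pebfam_of_lower _ _ _ ?_
    intro P hP h0 hc τ
    refine chain_lower N (2 ^ (i + 1)) hpos hcI hpeb n o ho (2 ^ i) ?_ P hP h0 hc τ
    rw [pow_succ]
    have : 1 ≤ 2 ^ i := Nat.one_le_two_pow
    omega

end Pool.Agent.BoolCirc
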