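import Pool.Agent.NegThr.PLDefs
import Pool.Agent.NegThr.PL1
import Pool.Agent.NegThr.PL2
import Pool.Agent.NegThr.PL3c
import Pool.Agent.NegThr.PL4
import Pool.Agent.NegThr.PL9

/-!
Module PL10: a monotone function with small monotone circuits and without shallow monotone
formulas.
-/

namespace Pool.Agent.BoolCirc

/-- monotone formulas for the lifted function of a graph with hard pebbling are deep -/
theorem pl10_lower {V : Type} [Fintype V] [DecidableEq V] {m k : ℕ} (hm : 1 ≤ m) (G : PDag V)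
    (t : V) (q : ℕ) (R : Finset (Finset V)) (hR : PebFam G t q R)
    (hmq : 6 * Fintype.card V ≤ m * q) (emb : DVar V m → Fin k) (hemb : Function.Injective emb)
    (F : MF (Fin k)) (hF : ∀ y, F.eval y = dgad G t (fun e => y (emb e))) : q ≤ F.depth := by
  classical
  set g : Fin k → MF (DVar V m) := fun i =>
    if h : ∃ e, emb e = i then MF.inp h.choose else MF.cst false with hgdef
  have hg0 : ∀ i, (g i).depth ≤ 0 := by
    intro i
    simp only [hgdef]
    split_ifs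
    · exact le_rfl
    · exact le_rfl
  have hge : ∀ (E : DVar V m → Bool) e, (g (emb e)).eval E = E e := by
    intro E e
    have h : ∃ e', emb e' = emb e := ⟨e, rfl⟩
    simp only [hgdef]
    rw [dif_pos h]
    show E h.choose = E e
    rw [hemb h.choose_spec]
  have h2 := lsolves_of_mf_dag G t (F.bind g) (fun E => by
    rw [MF.eval_bind, hF]
    congr 1
    funext e
    exact hge E e)
  have h3 := rank_lifting hm G t q _ R hR h2
  have h4 := peb_numeric m (Fintype.card V) q _ hm hmq h3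
  have h5 := MF.depth_bind_le g 0 hg0 F
  omega

theorem pl10_card (V : Type) [Fintype V] (m : ℕ) :
    Fintype.card (DVar V m) = Fintype.card V * m ^ 3 + m := by
  simp only [DVar, Fintype.card_sum, Fintype.card_prod, Fintype.card_fin]
  ring

theorem strong_mono : ∃ K, ∀ i k : ℕ, K * 2 ^ i * (i + 1) ^ 8 ≤ k →
    ∃ g : (Fin k → Bool) → Bool, g (fun _ => false) = false ∧
      (∀ F : MF (Fin k), (∀ y, F.eval y = g y) → 2 ^ i ≤ F.depth) ∧
      ∀ (n : ℕ) (emb : Fin k → Fin n) (C : Circuit n), ∃ C' : Circuit n, ExtN (4 * k) 0 C C' ∧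
        ∃ d, Avail C' (fun X => g (fun e => X (emb e))) d := by
  classical
  obtain ⟨K1, hK1⟩ := exists_hard_dag
  refine ⟨(K1 + 1) * (6 * (K1 + 1)) ^ 3 + 6 * (K1 + 1), ?_⟩
  intro i k hk
  obtain ⟨V, hV1, hV2, G, t, hN, R, hR⟩ := hK1 i
  obtain ⟨K0, hK0⟩ : ∃ K0, K0 = K1 + 1 := ⟨_, rfl⟩
  rw [← hK0] at hk
  have hN' : Fintype.card V ≤ K0 * 2 ^ i * (i + 1) ^ 2 := by
    refine hN.trans ?_
    rw [hK0]
    gcongr
    omega
  obtain ⟨m, hm⟩ : ∃ m, m = 6 * K0 * (i + 1) ^ 2 := ⟨_, rfl⟩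
  have hm1 : 1 ≤ m := by
    rw [hm, hK0]
    have : 1 ≤ (i + 1) ^ 2 := Nat.one_le_pow _ _ (by omega)
    nlinarith
  have hsz : Fintype.card V * m ^ 3 + m ≤ k := by
    refine le_trans ?_ hk
    have e1 : Fintype.card V * m ^ 3 ≤ (K0 * 2 ^ i * (i + 1) ^ 2) * (6 * K0 * (i + 1) ^ 2) ^ 3 := by
      rw [hm]
      exact Nat.mul_le_mul_right _ hN'
    have e2 : (K0 * 2 ^ i * (i + 1) ^ 2) * (6 * K0 * (i + 1) ^ 2) ^ 3 =
        K0 * (6 * K0) ^ 3 * (2 ^ i * (i + 1) ^ 8) := by ring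
    have e3 : m ≤ 6 * K0 * (2 ^ i * (i + 1) ^ 8) := by
      rw [hm]
      apply Nat.mul_le_mul_left
      calc (i + 1) ^ 2 ≤ (i + 1) ^ 8 := Nat.pow_le_pow_right (by omega) (by norm_num)
        _ = 1 * (i + 1) ^ 8 := (one_mul _).symm
        _ ≤ 2 ^ i * (i + 1) ^ 8 := Nat.mul_le_mul_right _ Nat.one_le_two_pow
    calc Fintype.card V * m ^ 3 + m
        ≤ K0 * (6 * K0) ^ 3 * (2 ^ i * (i + 1) ^ 8) + 6 * K0 * (2 ^ i * (i + 1) ^ 8) :=
          Nat.add_le_add (e1.trans e2.le) e3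
      _ = (K0 * (6 * K0) ^ 3 + 6 * K0) * 2 ^ i * (i + 1) ^ 8 := by ring
  obtain ⟨emb0⟩ : Nonempty (DVar V m ↪ Fin k) := by
    apply Function.Embedding.nonempty_of_card_le
    rw [pl10_card, Fintype.card_fin]
    exact hsz
  refine ⟨fun X => dgad G t (fun e => X (emb0 e)), dgad_const_false m G t, ?_, ?_⟩
  · intro F hF
    refine pl10_lower hm1 G t (2 ^ i) R hR ?_ emb0 emb0.injective F hF
    calc 6 * Fintype.card V ≤ 6 * (K0 * 2 ^ i * (i + 1) ^ 2) := Nat.mul_le_mul_left 6 hN'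
      _ = m * 2 ^ i := by rw [hm]; ring
  · intro n emb C
    obtain ⟨C', h1, h2⟩ := dgad_circuit G t m (fun e => emb (emb0 e)) C
    exact ⟨C', h1.weaken (Nat.mul_le_mul_left 4 hsz) le_rfl, h2⟩

end Pool.Agent.BoolCirc
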