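import Pool.Agent.NegThr.Defs

/-!
Module B1: builder with a count of the NOT gates.
-/

namespace Pool.Agent.BoolCirc

theorem Gate.isNot_map {n i k : ℕ} (f : Fin i → Fin k) (g : Gate n i) :
    (g.map f).isNot = g.isNot := by
  cases g <;> rfl

theorem Circuit.nots_eq_sum {n : ℕ} (C : Circuit n) :
    C.nots = ∑ i : Fin C.size, if (C.gate i).isNot = true then 1 else 0 := by
  unfold Circuit.nots
  rw [Finset.card_filter]

theorem Circuit.nots_snoc {n : ℕ} (C : Circuit n) (g : Gate n C.size) :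
    (C.snoc g).nots = C.nots + (if g.isNot = true then 1 else 0) := by
  rw [Circuit.nots_eq_sum, Circuit.nots_eq_sum]
  show (∑ i : Fin (C.size + 1), if ((C.snoc g).gate i).isNot = true then 1 else 0) = _
  rw [Fin.sum_univ_castSucc]
  congr 1
  · refine Finset.sum_congr rfl fun i _ => ?_
    have : (C.snoc g).gate i.castSucc = C.gate i := by
      show (if h : i.1 < C.size then C.gate ⟨i.1, h⟩ else g.map _) = C.gate i
      rw [dif_pos i.2]
    rw [this]
  · have : ((C.snoc g).gate (Fin.last C.size)).isNot = g.isNot := by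
      show (if h : C.size < C.size then C.gate ⟨C.size, h⟩ else g.map _).isNot = g.isNot
      rw [dif_neg (lt_irrefl _), Gate.isNot_map]
    rw [this]

section B
variable {m : ℕ} {C C' C'' : Circuit m} {f g : (Fin m → Bool) → Bool} {d e s t s' t' : ℕ}

theorem ExtN.refl (C : Circuit m) : ExtN 0 0 C C := ⟨Ext.refl C, le_rfl, le_rfl⟩

theorem ExtN.trans (h : ExtN s t C C') (h' : ExtN s' t' C' C'') :
    ExtN (s + s') (t + t') C C'' := by
  refine ⟨h.1.trans h'.1, ?_, ?_⟩
  · have := h.2.1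
    have := h'.2.1
    omega
  · have := h.2.2
    have := h'.2.2
    omega

theorem ExtN.weaken (h : ExtN s t C C') (hs : s ≤ s') (ht : t ≤ t') : ExtN s' t' C C' := by
  refine ⟨h.1, ?_, ?_⟩
  · have := h.2.1
    omega
  · have := h.2.2
    omega

theorem Avail.exists_circuit_nots (h : Avail C f d) : ∃ C' : Circuit m, (∀ x, C'.eval x = f x) ∧
    C'.depth ≤ d ∧ C'.size = C.size ∧ C'.nots = C.nots := by
  obtain ⟨o, h1, h2⟩ := h
  have hval : ∀ (x : Fin m → Bool) (i : ℕ) (hi : i < C.size),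
      Circuit.val (⟨C.size, C.gate, o⟩ : Circuit m) x ⟨i, hi⟩ = C.val x ⟨i, hi⟩ := by
    intro x i
    induction i using Nat.strong_induction_on with
    | _ i ih =>
      intro hi
      rw [Circuit.val, Circuit.val]
      congr 1
      funext j
      exact ih j.1 j.2 (j.2.trans hi)
  have hdep : ∀ (i : ℕ) (hi : i < C.size),
      Circuit.gateDepth (⟨C.size, C.gate, o⟩ : Circuit m) ⟨i, hi⟩ = C.gateDepth ⟨i, hi⟩ := by
    intro i
    induction i using Nat.strong_induction_on with
    | _ i ih =>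
      intro hi
      rw [Circuit.gateDepth, Circuit.gateDepth]
      congr 1
      funext j
      exact ih j.1 j.2 (j.2.trans hi)
  refine ⟨⟨C.size, C.gate, o⟩, fun x => ?_, ?_, rfl, rfl⟩
  · rw [← h1 x]
    unfold Circuit.eval
    congr 1
    funext j
    exact hval x j.1 j.2
  · refine le_trans (le_of_eq ?_) h2
    unfold Circuit.depth
    congr 1
    funext j
    exact hdep j.1 j.2

theorem extN_snoc (C : Circuit m) (g : Gate m C.size) (t : ℕ)
    (ht : (if g.isNot = true then 1 else 0) ≤ t) : ExtN 1 t C (C.snoc g) :=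
  ⟨ext_snoc C g, le_rfl, by rw [Circuit.nots_snoc]; omega⟩

theorem extN_and (hf : Avail C f d) (hg : Avail C g e) : ∃ C' : Circuit m, ExtN 1 0 C C' ∧
    Avail C' (fun x => f x && g x) (max d e + 1) := by
  obtain ⟨o, h1, h2⟩ := hf
  obtain ⟨p, h3, h4⟩ := hg
  refine ⟨C.snoc (Gate.and o p), extN_snoc C _ 0 (by simp [Gate.isNot]), ?_⟩
  refine ((avail_snoc C (Gate.and o p)).mono ?_).congr ?_
  · simp only [Gate.depth]; omega
  · intro x; simp only [Gate.eval, h1, h3]

theorem extN_or (hf : Avail C f d) (hg : Avail C g e) : ∃ C' : Circuit m, ExtN 1 0 C C' ∧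
    Avail C' (fun x => f x || g x) (max d e + 1) := by
  obtain ⟨o, h1, h2⟩ := hf
  obtain ⟨p, h3, h4⟩ := hg
  refine ⟨C.snoc (Gate.or o p), extN_snoc C _ 0 (by simp [Gate.isNot]), ?_⟩
  refine ((avail_snoc C (Gate.or o p)).mono ?_).congr ?_
  · simp only [Gate.depth]; omega
  · intro x; simp only [Gate.eval, h1, h3]

theorem extN_not (hf : Avail C f d) : ∃ C' : Circuit m, ExtN 1 1 C C' ∧
    Avail C' (fun x => ! f x) (d + 1) := by
  obtain ⟨o, h1, h2⟩ := hf
  refine ⟨C.snoc (Gate.not o), extN_snoc C _ 1 (by simp [Gate.isNot]), ?_⟩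
  refine ((avail_snoc C (Gate.not o)).mono ?_).congr ?_
  · simp only [Gate.depth]; omega
  · intro x; simp only [Gate.eval, h1]

/-- the sharper form: `2 ^ depth - 1` gates -/
theorem extN_mf_aux {ι : Type} (F : MF ι) (g : ι → (Fin m → Bool) → Bool) (d : ℕ) :
    ∀ C : Circuit m, (∀ i, Avail C (g i) d) → ∃ C' : Circuit m, ExtN (2 ^ F.depth - 1) 0 C C' ∧
      Avail C' (fun x => F.eval (fun i => g i x)) (d + F.depth) := by
  induction F with
  | inp i => exact fun C h => ⟨C, (ExtN.refl C).weaken (Nat.zero_le _) le_rfl, h i⟩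
  | cst b => exact fun C _ => ⟨C, (ExtN.refl C).weaken (Nat.zero_le _) le_rfl, Avail.const C b _⟩
  | and a b iha ihb =>
    intro C h
    obtain ⟨C1, h1, h2⟩ := iha C h
    obtain ⟨C2, h3, h4⟩ := ihb C1 (fun i => h1.1 _ _ (h i))
    obtain ⟨C3, h5, h6⟩ := extN_and (h3.1 _ _ h2) h4
    refine ⟨C3, ((h1.trans h3).trans h5).weaken ?_ (by omega), h6.mono ?_⟩
    · have e1 : 2 ^ a.depth ≤ 2 ^ (max a.depth b.depth) :=
        Nat.pow_le_pow_right (by norm_num) (le_max_left _ _)
      have e2 : 2 ^ b.depth ≤ 2 ^ (max a.depth b.depth) :=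
        Nat.pow_le_pow_right (by norm_num) (le_max_right _ _)
      have e3 : 0 < 2 ^ a.depth := by positivity
      have e4 : 0 < 2 ^ b.depth := by positivity
      have e5 : 2 ^ (MF.and a b).depth = 2 * 2 ^ (max a.depth b.depth) := by
        simp only [MF.depth]; rw [pow_succ]; ring
      omega
    · simp only [MF.depth]; omega
  | or a b iha ihb =>
    intro C h
    obtain ⟨C1, h1, h2⟩ := iha C h
    obtain ⟨C2, h3, h4⟩ := ihb C1 (fun i => h1.1 _ _ (h i))
    obtain ⟨C3, h5, h6⟩ := extN_or (h3.1 _ _ h2) h4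
    refine ⟨C3, ((h1.trans h3).trans h5).weaken ?_ (by omega), h6.mono ?_⟩
    · have e1 : 2 ^ a.depth ≤ 2 ^ (max a.depth b.depth) :=
        Nat.pow_le_pow_right (by norm_num) (le_max_left _ _)
      have e2 : 2 ^ b.depth ≤ 2 ^ (max a.depth b.depth) :=
        Nat.pow_le_pow_right (by norm_num) (le_max_right _ _)
      have e3 : 0 < 2 ^ a.depth := by positivity
      have e4 : 0 < 2 ^ b.depth := by positivity
      have e5 : 2 ^ (MF.or a b).depth = 2 * 2 ^ (max a.depth b.depth) := by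
        simp only [MF.depth]; rw [pow_succ]; ring
      omega
    · simp only [MF.depth]; omega

theorem extN_mf {ι : Type} (F : MF ι) (g : ι → (Fin m → Bool) → Bool) (d : ℕ) (C : Circuit m)
    (h : ∀ i, Avail C (g i) d) : ∃ C' : Circuit m, ExtN (2 ^ F.depth) 0 C C' ∧
      Avail C' (fun x => F.eval (fun i => g i x)) (d + F.depth) := by
  obtain ⟨C', h1, h2⟩ := extN_mf_aux F g d C h
  exact ⟨C', h1.weaken (Nat.sub_le _ _) le_rfl, h2⟩

end B

end Pool.Agent.BoolCirc
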