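import Pool.Agent.BoolCirc.Build

/-!
Circuits with a bounded number of NOT gates: definitions shared by all modules.
-/

namespace Pool.Agent.BoolCirc

/-- the gate is a NOT gate -/
def Gate.isNot {n i : ℕ} : Gate n i → Bool
  | .and _ _ => false
  | .or _ _ => false
  | .not _ => true

/-- number of NOT gates -/
def Circuit.nots {n : ℕ} (C : Circuit n) : ℕ :=
  (Finset.univ.filter (fun i : Fin C.size => (C.gate i).isNot = true)).card

/-- the node is the input `v` -/
def Src.isInput {n i : ℕ} (v : Fin n) : Src n i → Bool
  | .input j => decide (j = v)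
  | .const _ => false
  | .gate _ => false

/-- the inputs read by the gates or by the output of a circuit -/
def Circuit.reads {n : ℕ} (C : Circuit n) : Finset (Fin n) :=
  Finset.univ.filter (fun v => C.out.isInput v = true ∨
    ∃ i : Fin C.size, ∃ o ∈ (C.gate i).operands, o.isInput v = true)

/-- monotone formulas over the variables `ι` -/
inductive MF (ι : Type) : Type
  | inp (i : ι) : MF ι
  | cst (b : Bool) : MF ι
  | and (a b : MF ι) : MF ι
  | or (a b : MF ι) : MF ι

namespace MF

variable {ι κ : Type}

/-- value of a monotone formula -/
def eval (x : ι → Bool) : MF ι → Bool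
  | inp i => x i
  | cst b => b
  | and a b => a.eval x && b.eval x
  | or a b => a.eval x || b.eval x

/-- depth of a monotone formula -/
def depth : MF ι → ℕ
  | inp _ => 0
  | cst _ => 0
  | and a b => max a.depth b.depth + 1
  | or a b => max a.depth b.depth + 1

/-- substitution of formulas for variables -/
def bind (g : ι → MF κ) : MF ι → MF κ
  | inp i => g i
  | cst b => cst b
  | and a b => and (a.bind g) (b.bind g)
  | or a b => or (a.bind g) (b.bind g)

theorem eval_bind (g : ι → MF κ) (x : κ → Bool) (F : MF ι) :
    (F.bind g).eval x = F.eval (fun i => (g i).eval x) := by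
  induction F with
  | inp i => rfl
  | cst b => rfl
  | and a b iha ihb => simp only [bind, eval, iha, ihb]
  | or a b iha ihb => simp only [bind, eval, iha, ihb]

theorem depth_bind_le (g : ι → MF κ) (d : ℕ) (h : ∀ i, (g i).depth ≤ d) (F : MF ι) :
    (F.bind g).depth ≤ F.depth + d := by
  induction F with
  | inp i => simpa [bind, depth] using h i
  | cst b => simp [bind, depth]
  | and a b iha ihb => simp only [bind, depth]; omega
  | or a b iha ihb => simp only [bind, depth]; omega

theorem eval_mono {x y : ι → Bool} (h : ∀ i, x i = true → y i = true) (F : MF ι) :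
    F.eval x = true → F.eval y = true := by
  induction F with
  | inp i => exact h i
  | cst b => exact id
  | and a b iha ihb => simp only [eval, Bool.and_eq_true]; exact fun hh => ⟨iha hh.1, ihb hh.2⟩
  | or a b iha ihb =>
    simp only [eval, Bool.or_eq_true]
    exact fun hh => hh.imp iha ihb

end MF

/-- Hamming weight on a set of positions -/
def wt {n : ℕ} (R : Finset (Fin n)) (x : Fin n → Bool) : ℕ := (R.filter (fun i => x i = true)).card

/-- `C'` extends `C` by at most `s` gates, at most `t` of them NOT gates -/
def ExtN {m : ℕ} (s t : ℕ) (C C' : Circuit m) : Prop :=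
  Ext C C' ∧ C'.size ≤ C.size + s ∧ C'.nots ≤ C.nots + t

/-- the staircase input: the first `j` coordinates are ones -/
def stair {m : ℕ} (j : ℕ) : Fin m → Bool := fun i => decide (i.1 < j)

/-- vertices of the layered graph are pairs (layer, number); the edge variable `(i, a, b)` joins
vertex `a` of layer `i` to vertex `b` of layer `i + 1`; layers are `0, ..., l + 1` -/
abbrev EdgeVar (l w : ℕ) : Type := Fin (l + 1) × Fin w × Fin w

/-- there is a directed path from vertex `0` of layer `0` to vertex `1` of layer `l + 1` -/
def ReachP (l w : ℕ) (E : EdgeVar l w → Bool) : Prop :=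
  ∃ p : ℕ → Fin w, (p 0).1 = 0 ∧ (p (l + 1)).1 = 1 ∧
    ∀ i : Fin (l + 1), E (i, p i.1, p (i.1 + 1)) = true

open Classical in
/-- layered reachability as a Boolean function -/
noncomputable def reach (l w : ℕ) (E : EdgeVar l w → Bool) : Bool := decide (ReachP l w E)

end Pool.Agent.BoolCirc
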