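import Pool.Agent.NegThr.Defs

/-!
The fork game of Grigni and Sipser: definitions and the easy closure properties.
-/

namespace Pool.Agent.BoolCirc

/-- `u` and `v` fork at position `i ≤ l`: they agree at coordinate `i - 1` (no condition for
`i = 0`, the common start) and differ at coordinate `i` (no condition for `i = l`, the two
different ends) -/
def ForkAt {l w : ℕ} (i : ℕ) (u v : Fin l → Fin w) : Prop :=
  i ≤ l ∧ (∀ j : Fin l, j.1 + 1 = i → u j = v j) ∧ (∀ j : Fin l, j.1 = i → u j ≠ v j)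

/-- there is a protocol with `d` bits that finds a fork position for all `u ∈ A`, `v ∈ B` -/
def Solves {l w : ℕ} : ℕ → Set (Fin l → Fin w) → Set (Fin l → Fin w) → Prop
  | 0, A, B => ∃ i : ℕ, ∀ u ∈ A, ∀ v ∈ B, ForkAt i u v
  | d + 1, A, B =>
    (∃ A₁ A₂, A ⊆ A₁ ∪ A₂ ∧ Solves d A₁ B ∧ Solves d A₂ B) ∨
    (∃ B₁ B₂, B ⊆ B₁ ∪ B₂ ∧ Solves d A B₁ ∧ Solves d A B₂)

theorem Solves.mono {l w : ℕ} {d : ℕ} : ∀ {A A' B B' : Set (Fin l → Fin w)},
    Solves d A B → A' ⊆ A → B' ⊆ B → Solves d A' B' := by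
  induction d with
  | zero =>
    rintro A A' B B' ⟨i, hi⟩ hA hB
    exact ⟨i, fun u hu v hv => hi u (hA hu) v (hB hv)⟩
  | succ d ih =>
    rintro A A' B B' (⟨A₁, A₂, h, h1, h2⟩ | ⟨B₁, B₂, h, h1, h2⟩) hA hB
    · exact Or.inl ⟨A₁, A₂, hA.trans h, ih h1 subset_rfl hB, ih h2 subset_rfl hB⟩
    · exact Or.inr ⟨B₁, B₂, hB.trans h, ih h1 hA subset_rfl, ih h2 hA subset_rfl⟩

theorem solves_empty_left {l w : ℕ} (d : ℕ) (B : Set (Fin l → Fin w)) : Solves d ∅ B := by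
  induction d with
  | zero => exact ⟨0, fun u hu => absurd hu (Set.notMem_empty _)⟩
  | succ d ih => exact Or.inl ⟨∅, ∅, by simp, ih, ih⟩

theorem solves_empty_right {l w : ℕ} (d : ℕ) (A : Set (Fin l → Fin w)) : Solves d A ∅ := by
  induction d with
  | zero => exact ⟨0, fun u _ v hv => absurd hv (Set.notMem_empty _)⟩
  | succ d ih => exact Or.inr ⟨∅, ∅, by simp, ih, ih⟩

theorem Solves.succ {l w d : ℕ} {A B : Set (Fin l → Fin w)} (h : Solves d A B) :
    Solves (d + 1) A B := Or.inl ⟨A, ∅, by simp, h, solves_empty_left d B⟩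

theorem Solves.of_le {l w d d' : ℕ} {A B : Set (Fin l → Fin w)} (h : Solves d A B)
    (hd : d ≤ d') : Solves d' A B := by
  induction hd with
  | refl => exact h
  | step _ ih => exact ih.succ

/-- transfer of protocols along maps of the inputs -/
theorem Solves.transfer {l l' w w' d : ℕ} {A B : Set (Fin l → Fin w)}
    {A' B' : Set (Fin l' → Fin w')} (φ ψ : (Fin l' → Fin w') → (Fin l → Fin w)) (pos : ℕ → ℕ)
    (hA : ∀ u ∈ A', φ u ∈ A) (hB : ∀ v ∈ B', ψ v ∈ B)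
    (hf : ∀ i, ∀ u ∈ A', ∀ v ∈ B', ForkAt i (φ u) (ψ v) → ForkAt (pos i) u v)
    (h : Solves d A B) : Solves d A' B' := by
  induction d generalizing A B A' B' with
  | zero =>
    obtain ⟨i, hi⟩ := h
    exact ⟨pos i, fun u hu v hv => hf i u hu v hv (hi _ (hA u hu) _ (hB v hv))⟩
  | succ d ih =>
    rcases h with ⟨A₁, A₂, h, h1, h2⟩ | ⟨B₁, B₂, h, h1, h2⟩
    · refine Or.inl ⟨{u ∈ A' | φ u ∈ A₁}, {u ∈ A' | φ u ∈ A₂}, ?_, ?_, ?_⟩
      · intro u hu
        rcases h (hA u hu) with h' | h'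
        · exact Or.inl ⟨hu, h'⟩
        · exact Or.inr ⟨hu, h'⟩
      · exact ih (fun u hu => hu.2) hB (fun i u hu v hv => hf i u hu.1 v hv) h1
      · exact ih (fun u hu => hu.2) hB (fun i u hu v hv => hf i u hu.1 v hv) h2
    · refine Or.inr ⟨{v ∈ B' | ψ v ∈ B₁}, {v ∈ B' | ψ v ∈ B₂}, ?_, ?_, ?_⟩
      · intro v hv
        rcases h (hB v hv) with h' | h'
        · exact Or.inl ⟨hv, h'⟩
        · exact Or.inr ⟨hv, h'⟩
      · exact ih hA (fun v hv => hv.2) (fun i u hu v hv => hf i u hu v hv.1) h1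
      · exact ih hA (fun v hv => hv.2) (fun i u hu v hv => hf i u hu v hv.1) h2

end Pool.Agent.BoolCirc
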