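import Pool.Agent.NegThr.ForkDefs

/-!
Second moment estimate for random diagonals.
-/

namespace Pool.Agent.BoolCirc

/-- the vector `(a_j * i + c_j)_j` -/
def diag {k p : ℕ} (θ : Fin k → ZMod p × ZMod p) (i : ZMod p) : Fin k → ZMod p :=
  fun j => (θ j).1 * i + (θ j).2

namespace ForkG1

open Classical

variable {k p : ℕ} [Fact p.Prime]

/-- the sample space -/
noncomputable def Om (k p : ℕ) [Fact p.Prime] : Finset (Fin k → ZMod p × ZMod p) :=
  Finset.univ.filter (fun θ : Fin k → ZMod p × ZMod p => ∀ j, (θ j).1 ≠ 0)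

theorem card_one (V : Finset (Fin k → ZMod p)) (i : ZMod p) :
    ((Om k p).filter (fun θ => diag θ i ∈ V)).card = (p - 1) ^ k * V.card := by
  have h0 : (Fintype.piFinset (fun _ : Fin k => (Finset.univ.erase 0 : Finset (ZMod p)))).card
      = (p - 1) ^ k := by
    rw [Fintype.card_piFinset]
    simp only [Finset.prod_const, Finset.card_univ, Fintype.card_fin]
    rw [Finset.card_erase_of_mem (Finset.mem_univ _), Finset.card_univ, ZMod.card]
  rw [← h0, ← Finset.card_product]
  refine Finset.card_bij' (fun θ _ => ((fun j => (θ j).1), diag θ i))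
    (fun ac _ => fun j => (ac.1 j, ac.2 j - ac.1 j * i)) ?_ ?_ ?_ ?_
  · intro θ hθ
    simp only [Om, Finset.mem_filter, Finset.mem_univ, true_and] at hθ
    simp only [Finset.mem_product, Fintype.mem_piFinset, Finset.mem_erase, Finset.mem_univ,
      and_true]
    exact hθ
  · intro ac hac
    simp only [Finset.mem_product, Fintype.mem_piFinset, Finset.mem_erase, Finset.mem_univ,
      and_true] at hac
    simp only [Om, Finset.mem_filter, Finset.mem_univ, true_and]
    refine ⟨hac.1, ?_⟩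
    have : diag (fun j => (ac.1 j, ac.2 j - ac.1 j * i)) i = ac.2 := by
      funext j; simp [diag]
    rw [this]; exact hac.2
  · intro θ _
    funext j
    simp [diag]
  · intro ac _
    refine Prod.ext rfl ?_
    funext j
    simp [diag]

theorem card_two (V : Finset (Fin k → ZMod p)) {i i' : ZMod p} (hne : i ≠ i') :
    ((Om k p).filter (fun θ => diag θ i ∈ V ∧ diag θ i' ∈ V)).card ≤ V.card * V.card := by
  rw [← Finset.card_product]
  refine Finset.card_le_card_of_injOn (fun θ => (diag θ i, diag θ i')) ?_ ?_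
  · intro θ hθ
    simp only [Finset.coe_filter, Set.mem_ofPred_eq] at hθ
    simp only [Finset.coe_product, Set.mem_prod, Finset.mem_coe]
    exact hθ.2
  · intro θ _ θ' _ h
    have h1 : diag θ i = diag θ' i := congrArg Prod.fst h
    have h2 : diag θ i' = diag θ' i' := congrArg Prod.snd h
    funext j
    have e1 := congrFun h1 j
    have e2 := congrFun h2 j
    simp only [diag] at e1 e2
    have hsub : i - i' ≠ 0 := sub_ne_zero.mpr hne
    have h3 : (θ j).1 = (θ' j).1 := by
      have : ((θ j).1 - (θ' j).1) * (i - i') = 0 := by linear_combination e1 - e2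
      rcases mul_eq_zero.mp this with h | h
      · exact sub_eq_zero.mp h
      · exact absurd h hsub
    have h4 : (θ j).2 = (θ' j).2 := by
      rw [h3] at e1
      exact add_left_cancel e1
    exact Prod.ext h3 h4

end ForkG1

open ForkG1 in
open Classical in
theorem fork_second_moment (k p : ℕ) [Fact p.Prime] (hp : 2 ^ 16 ≤ p) (hk : 64 * k ≤ p)
    (V : Finset (Fin k → ZMod p)) (I : Finset (ZMod p)) (hI : p ≤ 2 * I.card + 2)
    (hV : (p : ℝ) ^ k ≤ 16 * Real.sqrt p * V.card) :
    4 * (Finset.univ.filter (fun θ : Fin k → ZMod p × ZMod p =>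
        (∀ j, (θ j).1 ≠ 0) ∧ ∀ i ∈ I, diag θ i ∉ V)).card ≤
      (Finset.univ.filter (fun θ : Fin k → ZMod p × ZMod p => ∀ j, (θ j).1 ≠ 0)).card := by
  have hOm : (Finset.univ.filter (fun θ : Fin k → ZMod p × ZMod p => ∀ j, (θ j).1 ≠ 0))
      = Om k p := rfl
  have hZ : (Finset.univ.filter (fun θ : Fin k → ZMod p × ZMod p =>
        (∀ j, (θ j).1 ≠ 0) ∧ ∀ i ∈ I, diag θ i ∉ V)) =
      (Om k p).filter (fun θ => ∀ i ∈ I, diag θ i ∉ V) := by
    rw [Om, Finset.filter_filter]
  rw [hOm, hZ]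
  set J : (Fin k → ZMod p × ZMod p) → ZMod p → ℝ := fun θ i => if diag θ i ∈ V then 1 else 0
    with hJ
  set X : (Fin k → ZMod p × ZMod p) → ℝ := fun θ => ∑ i ∈ I, J θ i with hX
  set Z := (Om k p).filter (fun θ => ∀ i ∈ I, diag θ i ∉ V) with hZdef
  set W := (Om k p).filter (fun θ => ¬ ∀ i ∈ I, diag θ i ∉ V) with hWdef
  have hcardOm : (Om k p).card = (p - 1) ^ k * p ^ k := by
    have h := card_one (k := k) (p := p) Finset.univ 0
    have h2 : ((Om k p).filter (fun θ => diag θ 0 ∈ (Finset.univ : Finset (Fin k → ZMod p)))) =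
        Om k p := by simp
    rw [h2, Finset.card_univ, Fintype.card_fun, ZMod.card, Fintype.card_fin] at h
    exact h
  have hsplit : Z.card + W.card = (Om k p).card :=
    Finset.card_filter_add_card_filter_not (s := Om k p) (fun θ => ∀ i ∈ I, diag θ i ∉ V)
  -- sums
  have hA : ∑ θ ∈ Om k p, X θ = I.card * (((p - 1 : ℕ) : ℝ) ^ k * V.card) := by
    simp only [hX]
    rw [Finset.sum_comm]
    have : ∀ i ∈ I, ∑ θ ∈ Om k p, J θ i = ((p - 1 : ℕ) : ℝ) ^ k * V.card := by
      intro i _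
      simp only [hJ]
      rw [Finset.sum_boole, card_one]
      push_cast
      ring
    rw [Finset.sum_congr rfl this]
    simp
  have hB : ∑ θ ∈ Om k p, X θ ^ 2 ≤ I.card * (((p - 1 : ℕ) : ℝ) ^ k * V.card) +
      I.card * (I.card * ((V.card : ℝ) * V.card)) := by
    have e1 : ∑ θ ∈ Om k p, X θ ^ 2 = ∑ i ∈ I, ∑ i' ∈ I, ∑ θ ∈ Om k p, J θ i * J θ i' := by
      have : ∀ θ ∈ Om k p, X θ ^ 2 = ∑ i ∈ I, ∑ i' ∈ I, J θ i * J θ i' := by
        intro θ _
        simp only [hX]
        rw [sq, Finset.sum_mul_sum]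
      rw [Finset.sum_congr rfl this, Finset.sum_comm]
      refine Finset.sum_congr rfl fun i _ => ?_
      rw [Finset.sum_comm]
    rw [e1]
    have e2 : ∀ i ∈ I, ∑ i' ∈ I, ∑ θ ∈ Om k p, J θ i * J θ i' ≤
        ((p - 1 : ℕ) : ℝ) ^ k * V.card + I.card * ((V.card : ℝ) * V.card) := by
      intro i hi
      rw [← Finset.add_sum_erase I _ hi]
      have d1 : ∑ θ ∈ Om k p, J θ i * J θ i = ((p - 1 : ℕ) : ℝ) ^ k * V.card := by
        have : ∀ θ ∈ Om k p, J θ i * J θ i = if diag θ i ∈ V then (1 : ℝ) else 0 := by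
          intro θ _; simp only [hJ]; split_ifs <;> norm_num
        rw [Finset.sum_congr rfl this, Finset.sum_boole, card_one]
        push_cast
        ring
      rw [d1]
      have d2 : ∑ i' ∈ I.erase i, ∑ θ ∈ Om k p, J θ i * J θ i' ≤
          ∑ _i' ∈ I.erase i, ((V.card : ℝ) * V.card) := by
        refine Finset.sum_le_sum fun i' hi' => ?_
        have hne : i ≠ i' := (Finset.ne_of_mem_erase hi').symm
        have : ∀ θ ∈ Om k p, J θ i * J θ i' =
            if (diag θ i ∈ V ∧ diag θ i' ∈ V) then (1 : ℝ) else 0 := by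
          intro θ _; simp only [hJ]
          by_cases h1 : diag θ i ∈ V <;> by_cases h2 : diag θ i' ∈ V <;> simp [h1, h2]
        rw [Finset.sum_congr rfl this, Finset.sum_boole]
        exact_mod_cast card_two V hne
      have d3 : ∑ _i' ∈ I.erase i, ((V.card : ℝ) * V.card) ≤ I.card * ((V.card : ℝ) * V.card) := by
        rw [Finset.sum_const, nsmul_eq_mul]
        refine mul_le_mul_of_nonneg_right ?_ (by positivity)
        exact_mod_cast Finset.card_erase_le
      linarith
    refine (Finset.sum_le_sum e2).trans (le_of_eq ?_)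
    rw [Finset.sum_const, nsmul_eq_mul]
    ring
  -- Cauchy-Schwarz
  have hsumW : ∑ θ ∈ Om k p, X θ = ∑ θ ∈ W, X θ := by
    rw [← Finset.sum_filter_add_sum_filter_not (Om k p) (fun θ => ∀ i ∈ I, diag θ i ∉ V) X]
    have : ∑ θ ∈ (Om k p).filter (fun θ => ∀ i ∈ I, diag θ i ∉ V), X θ = 0 := by
      refine Finset.sum_eq_zero fun θ hθ => ?_
      have h := (Finset.mem_filter.mp hθ).2
      simp only [hX, hJ]
      refine Finset.sum_eq_zero fun i hi => ?_
      rw [if_neg (h i hi)]
    rw [this, zero_add]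
  have hCS : (∑ θ ∈ Om k p, X θ) ^ 2 ≤ W.card * ∑ θ ∈ Om k p, X θ ^ 2 := by
    rw [hsumW]
    refine sq_sum_le_card_mul_sum_sq.trans ?_
    refine mul_le_mul_of_nonneg_left ?_ (by positivity)
    exact Finset.sum_le_sum_of_subset_of_nonneg (Finset.filter_subset _ _)
      (fun θ _ _ => sq_nonneg _)
  rw [hA] at hCS
  -- numbers
  set P : ℝ := ((p - 1 : ℕ) : ℝ) ^ k with hP
  set Q : ℝ := (p : ℝ) ^ k with hQ
  set v : ℝ := (V.card : ℝ) with hv
  set s : ℝ := (I.card : ℝ) with hs
  set r : ℝ := Real.sqrt p with hr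
  have hp1 : 1 ≤ p := le_trans (by norm_num) hp
  have hpR : (65536 : ℝ) ≤ p := by exact_mod_cast hp
  have hr0 : (256 : ℝ) ≤ r := by
    rw [hr]
    refine Real.le_sqrt_of_sq_le ?_
    linarith
  have hrr : r * r = p := Real.mul_self_sqrt (by positivity)
  have hv0 : 0 ≤ v := by positivity
  have hs0 : (p : ℝ) ≤ 2 * s + 2 := by rw [hs]; exact_mod_cast hI
  have hQ0 : 0 < Q := by rw [hQ]; positivity
  have hPQ : P ≤ Q := by
    rw [hP, hQ]
    refine pow_le_pow_left₀ (by positivity) ?_ k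
    exact_mod_cast Nat.sub_le p 1
  have hPlow : 63 / 64 * Q ≤ P := by
    have hcast : ((p - 1 : ℕ) : ℝ) = p - 1 := by
      rw [Nat.cast_sub hp1]; push_cast; ring
    have hp0 : (0 : ℝ) < p := by linarith
    have hb : 1 + (k : ℝ) * (-(1 / (p : ℝ))) ≤ (1 + (-(1 / (p : ℝ)))) ^ k := by
      refine one_add_mul_le_pow ?_ k
      have : 1 / (p : ℝ) ≤ 1 := by
        rw [div_le_one hp0]; linarith
      linarith
    have hk' : (k : ℝ) * (1 / (p : ℝ)) ≤ 1 / 64 := by
      rw [mul_one_div, div_le_div_iff₀ hp0 (by norm_num)]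
      have : (64 * k : ℝ) ≤ p := by exact_mod_cast hk
      linarith
    have hPe : P = (1 + (-(1 / (p : ℝ)))) ^ k * Q := by
      rw [hP, hQ, hcast, ← mul_pow]
      congr 1
      field_simp
      ring
    rw [hPe]
    refine mul_le_mul_of_nonneg_right ?_ hQ0.le
    linarith
  have hsv : 79 / 10 * Q ≤ s * v := by
    have h1 : Q ≤ 16 * r * v := hV
    have h2 : 255 * r ≤ 2 * s := by nlinarith
    have h3 : 255 * r * v ≤ 2 * s * v := mul_le_mul_of_nonneg_right h2 hv0
    nlinarith
  have hsv0 : 0 < s * v := by nlinarith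
  have hW0 : (0 : ℝ) ≤ W.card := by positivity
  have hP0 : 0 ≤ P := by linarith [mul_pos (show (0:ℝ) < 63 / 64 by norm_num) hQ0]
  have hB' : ∑ θ ∈ Om k p, X θ ^ 2 ≤ (s * v) ^ 2 * (89 / 79) := by
    refine hB.trans ?_
    have h1 : P * (s * v) ≤ 10 / 79 * (s * v) * (s * v) := by
      refine mul_le_mul_of_nonneg_right ?_ hsv0.le
      linarith
    nlinarith
  have h1 : (s * (P * v)) ^ 2 ≤ W.card * ((s * v) ^ 2 * (89 / 79)) :=
    hCS.trans (mul_le_mul_of_nonneg_left hB' hW0)
  have h2 : P ^ 2 ≤ W.card * (89 / 79) := by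
    have h3 : (s * v) ^ 2 * P ^ 2 ≤ (s * v) ^ 2 * (W.card * (89 / 79)) := by nlinarith
    exact le_of_mul_le_mul_left h3 (by positivity)
  have h4 : 3 / 4 * (P * Q) ≤ W.card := by
    have : 63 / 64 * (P * Q) ≤ P ^ 2 := by nlinarith
    nlinarith [mul_nonneg hP0 hQ0.le]
  have h5 : ((Om k p).card : ℝ) = P * Q := by
    rw [hcardOm]; push_cast; rfl
  have h6 : (Z.card : ℝ) + W.card = P * Q := by
    rw [← h5]; exact_mod_cast hsplit
  have h7 : 4 * (Z.card : ℝ) ≤ (Om k p).card := by
    rw [h5]; linarith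
  exact_mod_cast h7

end Pool.Agent.BoolCirc
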