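import Pool.Agent.NegThr.G1

/-!
Amplification and recursion for the fork game (Grigni and Sipser, Kushilevitz and Nisan).
-/

namespace Pool.Agent.BoolCirc

section zero

/-- no protocol with zero bits on a set with more than `w ^ n` elements -/
theorem not_solves_zero {n w : ℕ} (A : Finset (Fin (n + 1) → Fin w)) (hA : w ^ n < A.card) :
    ¬ Solves 0 (A : Set (Fin (n + 1) → Fin w)) (A : Set (Fin (n + 1) → Fin w)) := by
  rintro ⟨i, hi⟩
  have hne : A.Nonempty := by
    rw [← Finset.card_pos]; omega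
  obtain ⟨u0, hu0⟩ := hne
  have h0 := hi u0 (by exact_mod_cast hu0) u0 (by exact_mod_cast hu0)
  have hil : i = n + 1 := by
    by_contra hne
    have hlt : i < n + 1 := lt_of_le_of_ne h0.1 hne
    exact h0.2.2 ⟨i, hlt⟩ rfl rfl
  subst hil
  have hlast : ∀ u ∈ A, u (Fin.last n) = u0 (Fin.last n) := by
    intro u hu
    exact (hi u (by exact_mod_cast hu) u0 (by exact_mod_cast hu0)).2.1 (Fin.last n) rfl
  have hinj : Set.InjOn (fun u : Fin (n + 1) → Fin w => (fun j : Fin n => u j.castSucc))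
      (A : Set (Fin (n + 1) → Fin w)) := by
    intro u hu v hv huv
    funext j
    refine Fin.lastCases ?_ (fun j => ?_) j
    · rw [hlast u (by exact_mod_cast hu), hlast v (by exact_mod_cast hv)]
    · exact congrFun huv j
  have hcard := Finset.card_le_card_of_injOn (s := A) (t := (Finset.univ : Finset (Fin n → Fin w)))
    (fun u : Fin (n + 1) → Fin w => (fun j : Fin n => u j.castSucc)) (by simp) hinj
  rw [Finset.card_univ, Fintype.card_fun, Fintype.card_fin, Fintype.card_fin] at hcard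
  omega

end zero

section halving

/-- one bit halves the set -/
theorem solves_halve {l w d : ℕ} (A : Finset (Fin l → Fin w))
    (hs : Solves (d + 1) (A : Set (Fin l → Fin w)) (A : Set (Fin l → Fin w))) :
    ∃ A' : Finset (Fin l → Fin w), A.card ≤ 2 * A'.card ∧
      Solves d (A' : Set (Fin l → Fin w)) (A' : Set (Fin l → Fin w)) := by
  classical
  have key : ∀ A₁ A₂ : Set (Fin l → Fin w), (A : Set (Fin l → Fin w)) ⊆ A₁ ∪ A₂ →
      (∀ S : Set (Fin l → Fin w), S ⊆ A → (S ⊆ A₁ → Solves d S S) ∧ (S ⊆ A₂ → Solves d S S)) →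
      ∃ A' : Finset (Fin l → Fin w), A.card ≤ 2 * A'.card ∧
      Solves d (A' : Set (Fin l → Fin w)) (A' : Set (Fin l → Fin w)) := by
    intro A₁ A₂ h hS
    have h1 : A = A.filter (fun x => x ∈ A₁) ∪ A.filter (fun x => x ∈ A₂) := by
      ext x
      simp only [Finset.mem_union, Finset.mem_filter]
      constructor
      · intro hx
        rcases h (by exact_mod_cast hx : x ∈ (A : Set _)) with h' | h'
        · exact Or.inl ⟨hx, h'⟩
        · exact Or.inr ⟨hx, h'⟩
      · rintro (h | h) <;> exact h.1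
    have h2 : A.card ≤ (A.filter (fun x => x ∈ A₁)).card + (A.filter (fun x => x ∈ A₂)).card := by
      conv_lhs => rw [h1]
      exact Finset.card_union_le _ _
    rcases le_total (A.filter (fun x => x ∈ A₁)).card (A.filter (fun x => x ∈ A₂)).card with h3 | h3
    · refine ⟨A.filter (fun x => x ∈ A₂), by omega, (hS _ ?_).2 ?_⟩
      · intro x hx
        simp only [Finset.coe_filter, Set.mem_ofPred_eq] at hx
        exact_mod_cast hx.1
      · intro x hx
        simp only [Finset.coe_filter, Set.mem_ofPred_eq] at hx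
        exact hx.2
    · refine ⟨A.filter (fun x => x ∈ A₁), by omega, (hS _ ?_).1 ?_⟩
      · intro x hx
        simp only [Finset.coe_filter, Set.mem_ofPred_eq] at hx
        exact_mod_cast hx.1
      · intro x hx
        simp only [Finset.coe_filter, Set.mem_ofPred_eq] at hx
        exact hx.2
  rcases hs with ⟨A₁, A₂, h, h1, h2⟩ | ⟨A₁, A₂, h, h1, h2⟩
  · exact key A₁ A₂ h (fun S hS => ⟨fun h' => h1.mono h' hS, fun h' => h2.mono h' hS⟩)
  · exact key A₁ A₂ h (fun S hS => ⟨fun h' => h1.mono hS h', fun h' => h2.mono hS h'⟩)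

/-- `s` bits -/
theorem solves_halve_iter {l w d : ℕ} (s : ℕ) : ∀ (A : Finset (Fin l → Fin w)),
    Solves (d + s) (A : Set (Fin l → Fin w)) (A : Set (Fin l → Fin w)) →
    ∃ A' : Finset (Fin l → Fin w), A.card ≤ 2 ^ s * A'.card ∧
      Solves d (A' : Set (Fin l → Fin w)) (A' : Set (Fin l → Fin w)) := by
  induction s with
  | zero =>
    intro A h
    exact ⟨A, by simp, h⟩
  | succ s ih =>
    intro A h
    obtain ⟨A₁, h1, h2⟩ := solves_halve (d := d + s) A h
    obtain ⟨A₂, h3, h4⟩ := ih A₁ h2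
    refine ⟨A₂, ?_, h4⟩
    calc A.card ≤ 2 * A₁.card := h1
      _ ≤ 2 * (2 ^ s * A₂.card) := Nat.mul_le_mul_left 2 h3
      _ = 2 ^ (s + 1) * A₂.card := by ring

end halving

section amplify

theorem forkAt_append_left {k w i : ℕ} (u v v' : Fin k → Fin w)
    (h : ForkAt i (Fin.append u v) (Fin.append u v')) : ForkAt (i - k) v v' := by
  have hik : k ≤ i := by
    by_contra hlt
    rw [not_le] at hlt
    refine h.2.2 (Fin.castAdd k ⟨i, hlt⟩) rfl ?_
    rw [Fin.append_left, Fin.append_left]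
  refine ⟨by have := h.1; omega, fun j hj => ?_, fun j hj => ?_⟩
  · have := h.2.1 (Fin.natAdd k j) (by simp; omega)
    rwa [Fin.append_right, Fin.append_right] at this
  · have := h.2.2 (Fin.natAdd k j) (by simp; omega)
    rwa [Fin.append_right, Fin.append_right] at this

theorem forkAt_append_right {k w i : ℕ} (u v : Fin k → Fin w) (x y : Fin k → Fin w)
    (hxy : ∀ j, x j ≠ y j)
    (h : ForkAt i (Fin.append u x) (Fin.append v y)) : ForkAt i u v := by
  have hik : i ≤ k := by
    by_contra hlt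
    rw [not_le] at hlt
    have h1 := h.1
    have := h.2.1 (Fin.natAdd k ⟨i - 1 - k, by omega⟩) (by simp; omega)
    rw [Fin.append_right, Fin.append_right] at this
    exact hxy _ this
  refine ⟨hik, fun j hj => ?_, fun j hj => ?_⟩
  · have := h.2.1 (Fin.castAdd k j) (by simpa using hj)
    rwa [Fin.append_left, Fin.append_left] at this
  · have := h.2.2 (Fin.castAdd k j) (by simpa using hj)
    rwa [Fin.append_left, Fin.append_left] at this

open Classical in
theorem fork_theta {k w : ℕ} (hw : w.Prime) (hw2 : 2 ^ 16 ≤ w) (hk : 64 * k ≤ w)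
    (G : Finset (Fin k → Fin w)) (V : (Fin k → Fin w) → Finset (Fin k → Fin w))
    (hV : ∀ u ∈ G, (w : ℝ) ^ k ≤ 16 * Real.sqrt w * (V u).card) :
    ∃ (G' : Finset (Fin k → Fin w)) (x y : (Fin k → Fin w) → (Fin k → Fin w)), G' ⊆ G ∧
      G.card ≤ 2 * G'.card ∧ (∀ u ∈ G', x u ∈ V u) ∧ (∀ u ∈ G', y u ∈ V u) ∧
      ∀ u ∈ G', ∀ v ∈ G', ∀ j, x u j ≠ y v j := by
  have : Fact w.Prime := ⟨hw⟩
  have : NeZero w := ⟨hw.ne_zero⟩
  let e : Fin w ≃ ZMod w := (ZMod.finEquiv w).toEquiv
  let W : (Fin k → Fin w) → Finset (Fin k → ZMod w) := fun u =>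
    (V u).map ⟨fun v j => e (v j), fun v v' h => by
      funext j
      exact e.injective (congrFun h j)⟩
  have hWc : ∀ u, (W u).card = (V u).card := fun u => Finset.card_map _
  have hWm : ∀ u z, z ∈ W u → (fun j => e.symm (z j)) ∈ V u := by
    intro u z hz
    simp only [W, Finset.mem_map] at hz
    obtain ⟨v, hv, rfl⟩ := hz
    have h2 : (fun j => e.symm (e (v j))) = v := by
      funext j
      exact e.symm_apply_apply (v j)
    change (fun j => e.symm (e (v j))) ∈ V u
    rw [h2]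
    exact hv
  obtain ⟨I, -, hI⟩ := Finset.exists_subset_card_eq (s := (Finset.univ : Finset (ZMod w)))
    (n := (w - 1) / 2) (by rw [Finset.card_univ, ZMod.card]; omega)
  have hI1 : w ≤ 2 * I.card + 2 := by omega
  have hI2 : w ≤ 2 * (Iᶜ).card + 2 := by
    rw [Finset.card_compl, ZMod.card]; omega
  set Θ : Finset (Fin k → ZMod w × ZMod w) :=
    Finset.univ.filter (fun θ : Fin k → ZMod w × ZMod w => ∀ j, (θ j).1 ≠ 0) with hΘ
  let bad : (Fin k → Fin w) → (Fin k → ZMod w × ZMod w) → Prop := fun u θ =>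
    (∀ i ∈ I, diag θ i ∉ W u) ∨ (∀ i ∈ Iᶜ, diag θ i ∉ W u)
  have hbad : ∀ u ∈ G, 2 * (Θ.filter (fun θ => bad u θ)).card ≤ Θ.card := by
    intro u hu
    have h1 := fork_second_moment k w hw2 hk (W u) I hI1 (by rw [hWc]; exact hV u hu)
    have h2 := fork_second_moment k w hw2 hk (W u) Iᶜ hI2 (by rw [hWc]; exact hV u hu)
    have h3 : Θ.filter (fun θ => bad u θ) ⊆
        (Finset.univ.filter (fun θ : Fin k → ZMod w × ZMod w =>
          (∀ j, (θ j).1 ≠ 0) ∧ ∀ i ∈ I, diag θ i ∉ W u)) ∪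
        (Finset.univ.filter (fun θ : Fin k → ZMod w × ZMod w =>
          (∀ j, (θ j).1 ≠ 0) ∧ ∀ i ∈ Iᶜ, diag θ i ∉ W u)) := by
      intro θ hθ
      simp only [Finset.mem_filter, Finset.mem_union, Finset.mem_univ, true_and, hΘ, bad] at hθ ⊢
      rcases hθ.2 with h | h
      · exact Or.inl ⟨hθ.1, h⟩
      · exact Or.inr ⟨hθ.1, h⟩
    have h4 := (Finset.card_le_card h3).trans (Finset.card_union_le _ _)
    rw [hΘ] at *
    omega
  have hsum : ∑ θ ∈ Θ, (G.filter (fun u => bad u θ)).card =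
      ∑ u ∈ G, (Θ.filter (fun θ => bad u θ)).card := by
    simp only [Finset.card_filter]
    exact Finset.sum_comm
  have hΘne : Θ.Nonempty := by
    refine ⟨fun _ => (1, 0), ?_⟩
    simp [hΘ]
  obtain ⟨θ, hθ, hθ2⟩ : ∃ θ ∈ Θ, 2 * (G.filter (fun u => bad u θ)).card ≤ G.card := by
    by_contra hcon
    push Not at hcon
    have h1 : ∑ θ ∈ Θ, G.card < ∑ θ ∈ Θ, 2 * (G.filter (fun u => bad u θ)).card :=
      Finset.sum_lt_sum_of_nonempty hΘne hcon
    rw [← Finset.mul_sum, hsum, Finset.mul_sum, Finset.sum_const, smul_eq_mul] at h1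
    have h2 : ∑ u ∈ G, 2 * (Θ.filter (fun θ => bad u θ)).card ≤ ∑ u ∈ G, Θ.card :=
      Finset.sum_le_sum hbad
    rw [Finset.sum_const, smul_eq_mul, mul_comm] at h2
    omega
  have hθ1 : ∀ j, (θ j).1 ≠ 0 := by
    simpa [hΘ] using hθ
  have hgood : ∀ u, ¬ bad u θ → ∃ i ∈ I, ∃ i' ∈ Iᶜ, diag θ i ∈ W u ∧ diag θ i' ∈ W u := by
    intro u hu
    simp only [bad, not_or] at hu
    push Not at hu
    obtain ⟨⟨i, hi, hi2⟩, ⟨i', hi', hi'2⟩⟩ := hu
    exact ⟨i, hi, i', hi', hi2, hi'2⟩
  choose! f hf g hg hfg using hgood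
  refine ⟨G.filter (fun u => ¬ bad u θ), fun u j => e.symm (diag θ (f u) j),
    fun u j => e.symm (diag θ (g u) j), Finset.filter_subset _ _, ?_, ?_, ?_, ?_⟩
  · have := Finset.card_filter_add_card_filter_not (s := G) (fun u => bad u θ)
    omega
  · intro u hu
    exact hWm u _ (hfg u (Finset.mem_filter.mp hu).2).1
  · intro u hu
    exact hWm u _ (hfg u (Finset.mem_filter.mp hu).2).2
  · intro u hu v hv j hj
    have h1 := e.symm.injective hj
    simp only [diag] at h1
    have h2 : f u = g v := by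
      have h3 : (θ j).1 * f u = (θ j).1 * g v := by linear_combination h1
      exact mul_left_cancel₀ (hθ1 j) h3
    have h4 := hf u (Finset.mem_filter.mp hu).2
    have h5 := hg v (Finset.mem_filter.mp hv).2
    rw [h2] at h4
    exact (Finset.mem_compl.mp h5) h4

end amplify

theorem fork_amplify {k w d : ℕ} (hw : w.Prime) (hw2 : 2 ^ 16 ≤ w) (hk1 : 1 ≤ k)
    (hk : 64 * k ≤ w) (A : Finset (Fin (k + k) → Fin w)) (α : ℝ) (hα : 1 ≤ 8 * Real.sqrt w * α)
    (hA : α * (w : ℝ) ^ (k + k) ≤ A.card)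
    (hs : Solves d (A : Set (Fin (k + k) → Fin w)) (A : Set (Fin (k + k) → Fin w))) :
    ∃ A' : Finset (Fin k → Fin w), Real.sqrt (α / 2) / 2 * (w : ℝ) ^ k ≤ A'.card ∧
      Solves d (A' : Set (Fin k → Fin w)) (A' : Set (Fin k → Fin w)) := by
  classical
  have hwpos : (0 : ℝ) < w := by exact_mod_cast hw.pos
  have hspos : 0 < Real.sqrt w := Real.sqrt_pos.mpr hwpos
  have hαpos : 0 < α := by
    by_contra h
    have : 8 * Real.sqrt w * α ≤ 0 := mul_nonpos_of_nonneg_of_nonpos (by positivity) (not_lt.mp h)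
    linarith
  have hwk : (0 : ℝ) < (w : ℝ) ^ k := by positivity
  let S : (Fin k → Fin w) → Finset (Fin k → Fin w) := fun u =>
    Finset.univ.filter (fun v => Fin.append u v ∈ A)
  have hSm : ∀ u v, v ∈ S u ↔ Fin.append u v ∈ A := by
    intro u v; simp [S]
  have hSsum : A.card = ∑ u, (S u).card := by
    have h1 : A.card = (Finset.univ.sigma S).card := by
      refine Finset.card_bij' (fun x _ => ⟨fun i => x (Fin.castAdd k i), fun i => x (Fin.natAdd k i)⟩)
        (fun y _ => Fin.append y.1 y.2) ?_ ?_ ?_ ?_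
      · intro x hx
        simp only [Finset.mem_sigma, Finset.mem_univ, true_and, hSm]
        rwa [Fin.append_castAdd_natAdd]
      · intro y hy
        simp only [Finset.mem_sigma, Finset.mem_univ, true_and, hSm] at hy
        exact hy
      · intro x hx
        exact Fin.append_castAdd_natAdd
      · rintro ⟨y1, y2⟩ hy
        have e1 : (fun i => Fin.append y1 y2 (Fin.castAdd k i)) = y1 := by
          funext i; exact Fin.append_left _ _ _
        have e2 : (fun i => Fin.append y1 y2 (Fin.natAdd k i)) = y2 := by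
          funext i; exact Fin.append_right _ _ _
        simp only [e1, e2]
    rw [h1, Finset.card_sigma]
  have hsq : 0 < Real.sqrt (α / 2) := Real.sqrt_pos.mpr (by positivity)
  have hsq2 : Real.sqrt (α / 2) * Real.sqrt (α / 2) = α / 2 := Real.mul_self_sqrt (by positivity)
  by_cases hcase : ∃ u, Real.sqrt (α / 2) * (w : ℝ) ^ k ≤ (S u).card
  · obtain ⟨u, hu⟩ := hcase
    refine ⟨S u, le_trans ?_ hu, ?_⟩
    · have : 0 < Real.sqrt (α / 2) * (w : ℝ) ^ k := by positivity
      nlinarith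
    · refine Solves.transfer (fun v => Fin.append u v) (fun v => Fin.append u v) (fun i => i - k)
        ?_ ?_ ?_ hs
      · intro v hv
        exact_mod_cast (hSm u v).mp (by exact_mod_cast hv)
      · intro v hv
        exact_mod_cast (hSm u v).mp (by exact_mod_cast hv)
      · intro i v _ v' _ h
        exact forkAt_append_left u v v' h
  · push Not at hcase
    set G : Finset (Fin k → Fin w) :=
      Finset.univ.filter (fun u => α / 2 * (w : ℝ) ^ k ≤ (S u).card) with hG
    have hGc : Real.sqrt (α / 2) * (w : ℝ) ^ k ≤ G.card := by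
      have h1 : (A.card : ℝ) = ∑ u ∈ G, ((S u).card : ℝ) +
          ∑ u ∈ Finset.univ.filter (fun u => ¬ (α / 2 * (w : ℝ) ^ k ≤ (S u).card)),
            ((S u).card : ℝ) := by
        rw [hG, Finset.sum_filter_add_sum_filter_not, hSsum]
        push_cast
        rfl
      have h2 : ∑ u ∈ G, ((S u).card : ℝ) ≤ G.card * (Real.sqrt (α / 2) * (w : ℝ) ^ k) := by
        rw [← nsmul_eq_mul]
        exact Finset.sum_le_card_nsmul _ _ _ (fun u _ => (hcase u).le)
      have h3 : ∑ u ∈ Finset.univ.filter (fun u => ¬ (α / 2 * (w : ℝ) ^ k ≤ (S u).card)),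
            ((S u).card : ℝ) ≤ (w : ℝ) ^ k * (α / 2 * (w : ℝ) ^ k) := by
        have h4 := Finset.sum_le_card_nsmul
          (Finset.univ.filter (fun u => ¬ (α / 2 * (w : ℝ) ^ k ≤ (S u).card)))
          (fun u => ((S u).card : ℝ)) (α / 2 * (w : ℝ) ^ k) (by
            intro u hu
            simp only [Finset.mem_filter, Finset.mem_univ, true_and, not_le] at hu
            exact hu.le)
        refine h4.trans ?_
        rw [nsmul_eq_mul]
        refine mul_le_mul_of_nonneg_right ?_ (by positivity)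
        have h5 := Finset.card_le_univ
          (Finset.univ.filter (fun u => ¬ (α / 2 * (w : ℝ) ^ k ≤ (S u).card)))
        rw [Fintype.card_fun, Fintype.card_fin, Fintype.card_fin] at h5
        exact_mod_cast h5
      have h6 : α / 2 * (w : ℝ) ^ k * (w : ℝ) ^ k ≤
          G.card * (Real.sqrt (α / 2) * (w : ℝ) ^ k) := by
        have h7 : (w : ℝ) ^ (k + k) = (w : ℝ) ^ k * (w : ℝ) ^ k := pow_add _ _ _
        rw [h7] at hA
        nlinarith
      have h8 : Real.sqrt (α / 2) * (w : ℝ) ^ k * (Real.sqrt (α / 2) * (w : ℝ) ^ k) ≤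
          G.card * (Real.sqrt (α / 2) * (w : ℝ) ^ k) := by
        calc Real.sqrt (α / 2) * (w : ℝ) ^ k * (Real.sqrt (α / 2) * (w : ℝ) ^ k)
            = (Real.sqrt (α / 2) * Real.sqrt (α / 2)) * (w : ℝ) ^ k * (w : ℝ) ^ k := by ring
          _ = α / 2 * (w : ℝ) ^ k * (w : ℝ) ^ k := by rw [hsq2]
          _ ≤ _ := h6
      exact le_of_mul_le_mul_right h8 (by positivity)
    obtain ⟨G', x, y, hG1, hG2, hx, hy, hxy⟩ := fork_theta hw hw2 hk G S (by
      intro u hu
      simp only [hG, Finset.mem_filter, Finset.mem_univ, true_and] at hu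
      calc (w : ℝ) ^ k = 1 * (w : ℝ) ^ k := (one_mul _).symm
        _ ≤ (8 * Real.sqrt w * α) * (w : ℝ) ^ k :=
            mul_le_mul_of_nonneg_right hα hwk.le
        _ = 16 * Real.sqrt w * (α / 2 * (w : ℝ) ^ k) := by ring
        _ ≤ 16 * Real.sqrt w * (S u).card := mul_le_mul_of_nonneg_left hu (by positivity))
    refine ⟨G', ?_, ?_⟩
    · have h1 : (G.card : ℝ) ≤ 2 * G'.card := by exact_mod_cast hG2
      linarith
    · refine Solves.transfer (fun u => Fin.append u (x u)) (fun u => Fin.append u (y u))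
        (fun i => i) ?_ ?_ ?_ hs
      · intro u hu
        exact_mod_cast (hSm u _).mp (hx u (by exact_mod_cast hu))
      · intro u hu
        exact_mod_cast (hSm u _).mp (hy u (by exact_mod_cast hu))
      · intro i u hu v hv h
        exact forkAt_append_right u v (x u) (y v)
          (hxy u (by exact_mod_cast hu) v (by exact_mod_cast hv)) h

theorem fork_round (a w : ℕ) (ha : 16 ≤ a) (hw : w.Prime) (h1 : 2 ^ a < w) (r : ℕ) :
    r ≤ a - 6 → ∀ d, d < r * (a / 4) → ∀ A : Finset (Fin (2 ^ r) → Fin w),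
      1 / (8 * Real.sqrt (Real.sqrt w)) * (w : ℝ) ^ (2 ^ r) ≤ A.card →
      ¬ Solves d (A : Set (Fin (2 ^ r) → Fin w)) (A : Set (Fin (2 ^ r) → Fin w)) := by
  have hwpos : (0 : ℝ) < w := by exact_mod_cast hw.pos
  have hspos : 0 < Real.sqrt w := Real.sqrt_pos.mpr hwpos
  have hqpos : 0 < Real.sqrt (Real.sqrt w) := Real.sqrt_pos.mpr hspos
  have hss : Real.sqrt w * Real.sqrt w = w := Real.mul_self_sqrt hwpos.le
  have hqq : Real.sqrt (Real.sqrt w) * Real.sqrt (Real.sqrt w) = Real.sqrt w :=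
    Real.mul_self_sqrt hspos.le
  have hw16 : 2 ^ 16 ≤ w := le_trans (Nat.pow_le_pow_right (by norm_num) ha) h1.le
  have hs256 : (256 : ℝ) ≤ Real.sqrt w := by
    rw [show (256 : ℝ) = Real.sqrt (256 ^ 2) by
      rw [Real.sqrt_sq (by norm_num)]]
    apply Real.sqrt_le_sqrt
    have : ((2 ^ 16 : ℕ) : ℝ) ≤ w := by exact_mod_cast hw16
    calc (256 : ℝ) ^ 2 = ((2 ^ 16 : ℕ) : ℝ) := by norm_num
      _ ≤ w := this
  -- `2 ^ s ≤ q` for `s ≤ a / 4`
  have hpow : ∀ s, s ≤ a / 4 → (2 : ℝ) ^ s ≤ Real.sqrt (Real.sqrt w) := by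
    intro s hs
    have h2 : (2 : ℝ) ^ s ≤ 2 ^ (a / 4) := pow_le_pow_right₀ (by norm_num) hs
    refine h2.trans ?_
    apply Real.le_sqrt_of_sq_le
    apply Real.le_sqrt_of_sq_le
    rw [← pow_mul, ← pow_mul]
    have h3 : (2 : ℝ) ^ (a / 4 * (2 * 2)) ≤ 2 ^ a := pow_le_pow_right₀ (by norm_num) (by omega)
    have h4 : (2 : ℝ) ^ a ≤ w := by exact_mod_cast h1.le
    exact h3.trans h4
  induction r with
  | zero => intro _ d hd; omega
  | succ r ih =>
    intro hr d hd A hA hs
    -- after `s ≤ a / 4` bits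
    have hbits : ∀ s d', s ≤ a / 4 → d = d' + s → ∃ A' : Finset (Fin (2 ^ (r + 1)) → Fin w),
        1 / (8 * Real.sqrt w) * (w : ℝ) ^ (2 ^ (r + 1)) ≤ A'.card ∧
        Solves d' (A' : Set (Fin (2 ^ (r + 1)) → Fin w)) (A' : Set _) := by
      intro s d' hs1 hs2
      subst hs2
      obtain ⟨A', h2, h3⟩ := solves_halve_iter s A hs
      refine ⟨A', ?_, h3⟩
      have h4 : (A.card : ℝ) ≤ 2 ^ s * A'.card := by exact_mod_cast h2
      have h5 : (A.card : ℝ) ≤ Real.sqrt (Real.sqrt w) * A'.card :=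
        h4.trans (mul_le_mul_of_nonneg_right (hpow s hs1) (by positivity))
      have h6 := hA.trans h5
      have h7 : 1 / (8 * Real.sqrt w) * (w : ℝ) ^ (2 ^ (r + 1)) * Real.sqrt (Real.sqrt w) =
          1 / (8 * Real.sqrt (Real.sqrt w)) * (w : ℝ) ^ (2 ^ (r + 1)) := by
        nth_rewrite 1 [← hqq]
        field_simp
      have h8 : 1 / (8 * Real.sqrt w) * (w : ℝ) ^ (2 ^ (r + 1)) * Real.sqrt (Real.sqrt w) ≤
          A'.card * Real.sqrt (Real.sqrt w) := by
        rw [h7, mul_comm (A'.card : ℝ)]; exact h6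
      exact le_of_mul_le_mul_right h8 hqpos
    rcases lt_or_ge d (a / 4) with hlt | hge
    · obtain ⟨A', h2, h3⟩ := hbits d 0 hlt.le (by omega)
      obtain ⟨n, hn⟩ : ∃ n, 2 ^ (r + 1) = n + 1 :=
        ⟨2 ^ (r + 1) - 1, by have := Nat.one_le_two_pow (n := r + 1); omega⟩
      revert A' h2 h3
      rw [hn]
      intro A' h2 h3
      refine not_solves_zero A' ?_ h3
      have h4 : (w : ℝ) ^ n < A'.card := by
        refine lt_of_lt_of_le ?_ h2
        rw [pow_succ]
        have h5 : (1 : ℝ) < 1 / (8 * Real.sqrt w) * w := by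
          rw [div_mul_eq_mul_div, one_mul, lt_div_iff₀ (by positivity), one_mul]
          nlinarith
        have h6 : (0 : ℝ) < (w : ℝ) ^ n := by positivity
        calc (w : ℝ) ^ n = (w : ℝ) ^ n * 1 := (mul_one _).symm
          _ < (w : ℝ) ^ n * (1 / (8 * Real.sqrt w) * w) := mul_lt_mul_of_pos_left h5 h6
          _ = 1 / (8 * Real.sqrt w) * ((w : ℝ) ^ n * w) := by ring
      exact_mod_cast h4
    · obtain ⟨A', h2, h3⟩ := hbits (a / 4) (d - a / 4) le_rfl (by omega)
      have hkk : 2 ^ (r + 1) = 2 ^ r + 2 ^ r := by rw [pow_succ]; ring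
      revert A' h2 h3
      rw [hkk]
      intro A' h2 h3
      have hk : 64 * 2 ^ r ≤ w := by
        have h4 : 64 * 2 ^ r = 2 ^ (r + 6) := by rw [pow_add]; ring
        rw [h4]
        exact (Nat.pow_le_pow_right (by norm_num) (by omega : r + 6 ≤ a)).trans h1.le
      obtain ⟨A'', h4, h5⟩ := fork_amplify hw hw16 (Nat.one_le_two_pow) hk A'
        (1 / (8 * Real.sqrt w)) (by
          rw [mul_one_div, div_self (by positivity)]) h2 h3
      refine ih (by omega) (d - a / 4) ?_ A'' ?_ h5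
      · have : (r + 1) * (a / 4) = r * (a / 4) + a / 4 := by ring
        omega
      · refine le_trans (le_of_eq ?_) h4
        congr 1
        have h6 : (1 / (8 * Real.sqrt w) / 2 : ℝ) = (1 / (4 * Real.sqrt (Real.sqrt w))) ^ 2 := by
          rw [div_pow, mul_pow, one_pow, Real.sq_sqrt hspos.le]
          field_simp
          norm_num
        rw [h6, Real.sqrt_sq (by positivity)]
        field_simp
        norm_num

theorem fork_not_solves (a w d : ℕ) (ha : 16 ≤ a) (hw : w.Prime) (h1 : 2 ^ a < w)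
    (hd : d < (a - 6) * (a / 4)) :
    ¬ Solves d (Set.univ : Set (Fin (2 ^ (a - 6)) → Fin w)) Set.univ := by
  have h2 := fork_round a w ha hw h1 (a - 6) le_rfl d hd Finset.univ (by
    rw [Finset.card_univ, Fintype.card_fun, Fintype.card_fin, Fintype.card_fin]
    push_cast
    have hwpos : (0 : ℝ) < w := by exact_mod_cast hw.pos
    have h3 : (1 : ℝ) ≤ Real.sqrt (Real.sqrt w) := by
      rw [Real.one_le_sqrt, Real.one_le_sqrt]
      exact_mod_cast hw.one_lt.le
    have h4 : 1 / (8 * Real.sqrt (Real.sqrt w)) ≤ 1 := by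
      rw [div_le_one (by positivity)]
      linarith
    exact mul_le_of_le_one_left (by positivity) h4)
  rwa [Finset.coe_univ] at h2

end Pool.Agent.BoolCirc
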