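import Pool.Agent.NegThr.Defs

/-!
Monotone formulas of logarithmic depth for the threshold functions (Valiant).
-/

namespace Pool.Agent.BoolCirc

namespace ThrT

open Classical

/-- majority of three -/
def maj {ι : Type} (a b c : MF ι) : MF ι := .or (.and a b) (.and c (.or a b))

theorem maj_depth {ι : Type} {a b c : MF ι} {h : ℕ} (ha : a.depth ≤ h) (hb : b.depth ≤ h)
    (hc : c.depth ≤ h) : (maj a b c).depth ≤ h + 3 := by
  simp only [maj, MF.depth]; omega

/-- number of ones -/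
def ones {N : ℕ} (x : Fin N → Bool) : ℕ := (Finset.univ.filter (fun i => x i = true)).card

/-- indicator of a right answer -/
noncomputable def ind {N : ℕ} {Ω : Type} (f : Ω → MF (Fin N)) (b : (Fin N → Bool) → Bool)
    (x : Fin N → Bool) (ω : Ω) : ℝ := if (f ω).eval x = b x then 1 else 0

/-- a random formula of depth at most `h` is right with probability at least `q` at every point -/
def Good (N : ℕ) (b : (Fin N → Bool) → Bool) (q : ℝ) (h : ℕ) : Prop :=
  ∃ (Ω : Type) (_ : Fintype Ω) (_ : Nonempty Ω) (f : Ω → MF (Fin N)),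
    (∀ ω, (f ω).depth ≤ h) ∧ ∀ x, q * (Fintype.card Ω : ℝ) ≤ ∑ ω, ind f b x ω

theorem good_step {N : ℕ} {b : (Fin N → Bool) → Bool} {q : ℝ} {h : ℕ} (hq : 0 ≤ q)
    (H : Good N b q h) : Good N b (3 * q ^ 2 - 2 * q ^ 3) (h + 3) := by
  obtain ⟨Ω, _, _, f, hd, hr⟩ := H
  refine ⟨Ω × Ω × Ω, inferInstance, inferInstance, fun t => maj (f t.1) (f t.2.1) (f t.2.2),
    fun t => maj_depth (hd _) (hd _) (hd _), fun x => ?_⟩
  set I : Ω → ℝ := ind f b x with hI
  have hind : ∀ t : Ω × Ω × Ω, ind (fun t : Ω × Ω × Ω => maj (f t.1) (f t.2.1) (f t.2.2)) b x t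
      = I t.1 * I t.2.1 + I t.1 * I t.2.2 + I t.2.1 * I t.2.2 - 2 * (I t.1 * I t.2.1 * I t.2.2) := by
    rintro ⟨u, v, w⟩
    simp only [hI, ind, maj, MF.eval]
    generalize (f u).eval x = a1
    generalize (f v).eval x = a2
    generalize (f w).eval x = a3
    generalize b x = a4
    cases a1 <;> cases a2 <;> cases a3 <;> cases a4 <;> norm_num
  have hsum : ∑ t, ind (fun t : Ω × Ω × Ω => maj (f t.1) (f t.2.1) (f t.2.2)) b x t
      = 3 * (∑ ω, I ω) ^ 2 * (Fintype.card Ω : ℝ) - 2 * (∑ ω, I ω) ^ 3 := by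
    rw [Finset.sum_congr rfl (fun t _ => hind t)]
    rw [Fintype.sum_prod_type]
    simp only [Fintype.sum_prod_type, Finset.sum_sub_distrib, Finset.sum_add_distrib]
    simp only [Finset.sum_const, Finset.card_univ, nsmul_eq_mul, ← Finset.mul_sum,
      ← Finset.sum_mul]
    ring
  have hc1 : (∑ ω, I ω) ≤ (Fintype.card Ω : ℝ) := by
    have : (∑ ω, I ω) ≤ ∑ ω : Ω, (1 : ℝ) := by
      refine Finset.sum_le_sum fun ω _ => ?_
      simp only [hI, ind]; split_ifs <;> norm_num
    simpa using this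
  have hc0 := hr x
  rw [hsum, Fintype.card_prod, Fintype.card_prod]
  push_cast
  set m : ℝ := (Fintype.card Ω : ℝ) with hm
  have hm0 : 0 ≤ m := by rw [hm]; positivity
  set c : ℝ := ∑ ω, I ω with hc
  have hc0' : q * m ≤ c := hc0
  have hqm : 0 ≤ q * m := mul_nonneg hq hm0
  set Q : ℝ := q * m with hQ
  have e : (3 * q ^ 2 - 2 * q ^ 3) * (m * (m * m)) = 3 * Q ^ 2 * m - 2 * Q ^ 3 := by
    rw [hQ]; ring
  rw [e]
  have hcpos : 0 ≤ c := hqm.trans hc0'
  have key : 0 ≤ (c - Q) * (3 * m * (c + Q) - 2 * (c ^ 2 + c * Q + Q ^ 2)) := by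
    refine mul_nonneg (by linarith) ?_
    nlinarith [mul_nonneg hcpos (sub_nonneg.mpr hc1), mul_nonneg hqm (sub_nonneg.mpr (hc0'.trans hc1)),
      mul_nonneg hcpos (sub_nonneg.mpr (hc0'.trans hc1)), mul_nonneg hqm (sub_nonneg.mpr hc1)]
  nlinarith [key]

theorem Good.mono {N : ℕ} {b : (Fin N → Bool) → Bool} {q q' : ℝ} {h h' : ℕ}
    (H : Good N b q h) (hq : q' ≤ q) (hh : h ≤ h') : Good N b q' h' := by
  obtain ⟨Ω, _, _, f, hd, hr⟩ := H
  exact ⟨Ω, inferInstance, inferInstance, f, fun ω => (hd ω).trans hh, fun x =>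
    (mul_le_mul_of_nonneg_right hq (by positivity)).trans (hr x)⟩

theorem g_mono {p q : ℝ} (hp : 0 ≤ p) (hpq : p ≤ q) (hq : q ≤ 1) :
    3 * p ^ 2 - 2 * p ^ 3 ≤ 3 * q ^ 2 - 2 * q ^ 3 := by
  have hq0 : 0 ≤ q := hp.trans hpq
  have hp1 : p ≤ 1 := hpq.trans hq
  have key : 0 ≤ (q - p) * (3 * (q + p) - 2 * (q ^ 2 + q * p + p ^ 2)) := by
    refine mul_nonneg (by linarith) ?_
    nlinarith [mul_nonneg hq0 (sub_nonneg.mpr hq), mul_nonneg hp (sub_nonneg.mpr hp1),
      mul_nonneg hq0 (sub_nonneg.mpr hp1), mul_nonneg hp (sub_nonneg.mpr hq)]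
  nlinarith [key]

/-- first phase -/
theorem phase1 {N : ℕ} {b : (Fin N → Bool) → Bool} {δ : ℝ} (hδ : 0 ≤ δ)
    (H : Good N b (1 / 2 + δ) 0) (i : ℕ) :
    Good N b (min (3 / 4) (1 / 2 + (11 / 8) ^ i * δ)) (3 * i) := by
  induction i with
  | zero => exact H.mono (by simp) le_rfl
  | succ i ih =>
    have hpos : 0 ≤ (11 / 8 : ℝ) ^ i * δ := by positivity
    rcases le_total (3 / 4) (1 / 2 + (11 / 8 : ℝ) ^ i * δ) with h | h
    · rw [min_eq_left h] at ih
      refine (good_step (by norm_num) ih).mono ?_ (by omega)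
      refine (min_le_left _ _).trans ?_
      norm_num
    · rw [min_eq_right h] at ih
      refine (good_step (by positivity) ih).mono ?_ (by omega)
      refine (min_le_right _ _).trans ?_
      set t : ℝ := (11 / 8 : ℝ) ^ i * δ with ht
      have : (11 / 8 : ℝ) ^ (i + 1) * δ = 11 / 8 * t := by rw [ht, pow_succ]; ring
      rw [this]
      have h4 : t ≤ 1 / 4 := by linarith
      nlinarith [mul_nonneg hpos (sub_nonneg.mpr h4), mul_nonneg (mul_nonneg hpos hpos)
        (sub_nonneg.mpr h4), mul_nonneg hpos hpos]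

/-- second phase -/
theorem phase2 {N : ℕ} {b : (Fin N → Bool) → Bool} {h : ℕ} (H : Good N b (3 / 4) h) (i : ℕ) :
    Good N b (1 - (3 / 4) ^ (2 ^ i) / 3) (h + 3 * i) := by
  induction i with
  | zero => exact H.mono (by norm_num) le_rfl
  | succ i ih =>
    set t : ℝ := (3 / 4 : ℝ) ^ (2 ^ i) with ht
    have h0 : 0 ≤ t := by positivity
    have h1 : t ≤ 1 := pow_le_one₀ (by norm_num) (by norm_num)
    have e : (3 / 4 : ℝ) ^ (2 ^ (i + 1)) = t ^ 2 := by rw [ht, pow_succ, pow_mul]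
    refine (good_step (by linarith) ih).mono ?_ (by omega)
    rw [e]
    nlinarith [pow_nonneg h0 3, pow_nonneg h0 2]

/-- union bound -/
theorem of_good {N : ℕ} {b : (Fin N → Bool) → Bool} {h : ℕ} {ε : ℝ} (hε : ε * 2 ^ N < 1)
    (H : Good N b (1 - ε) h) : ∃ F : MF (Fin N), F.depth ≤ h ∧ ∀ x, F.eval x = b x := by
  obtain ⟨Ω, _, _, f, hd, hr⟩ := H
  by_contra hcon
  push Not at hcon
  have hall : ∀ ω, ∃ x, (f ω).eval x ≠ b x := fun ω => by
    obtain ⟨x, hx⟩ := hcon (f ω) (hd ω)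
    exact ⟨x, hx⟩
  have hm0 : (0 : ℝ) < Fintype.card Ω := by exact_mod_cast Fintype.card_pos
  have h1 : (Fintype.card Ω : ℝ) ≤ ∑ ω : Ω, ∑ x : Fin N → Bool, (1 - ind f b x ω) := by
    have : (Fintype.card Ω : ℝ) = ∑ _ω : Ω, (1 : ℝ) := by simp
    rw [this]
    refine Finset.sum_le_sum fun ω _ => ?_
    obtain ⟨x, hx⟩ := hall ω
    have h0 : (1 : ℝ) ≤ 1 - ind f b x ω := by simp [ind, hx]
    refine h0.trans (Finset.single_le_sum (f := fun x => 1 - ind f b x ω) (fun y _ => ?_)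
      (Finset.mem_univ x))
    simp only [ind]; split_ifs <;> norm_num
  rw [Finset.sum_comm] at h1
  have h2 : ∑ x : Fin N → Bool, ∑ ω : Ω, (1 - ind f b x ω) ≤
      ∑ _x : Fin N → Bool, ε * (Fintype.card Ω : ℝ) := by
    refine Finset.sum_le_sum fun x _ => ?_
    rw [Finset.sum_sub_distrib]
    have := hr x
    simp only [Finset.sum_const, Finset.card_univ, nsmul_eq_mul, mul_one]
    linarith
  have h3 : ∑ _x : Fin N → Bool, ε * (Fintype.card Ω : ℝ) = (ε * 2 ^ N) * Fintype.card Ω := by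
    simp only [Finset.sum_const, Finset.card_univ, nsmul_eq_mul, Fintype.card_fun, Fintype.card_bool,
      Fintype.card_fin]
    push_cast
    ring
  have h4 : (Fintype.card Ω : ℝ) ≤ (ε * 2 ^ N) * Fintype.card Ω := by linarith
  have h5 : (ε * 2 ^ N) * (Fintype.card Ω : ℝ) < 1 * Fintype.card Ω :=
    mul_lt_mul_of_pos_right hε hm0
  linarith

theorem base (N k : ℕ) (hk : k ≤ N) :
    Good N (fun x => decide (k ≤ ones x)) (1 / 2 + 1 / (2 * (2 * N + 1))) 0 := by
  refine ⟨Fin N ⊕ (Fin (N + 1 - k) ⊕ Fin k), inferInstance, ?_,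
    Sum.elim (fun i => .inp i) (Sum.elim (fun _ => .cst true) (fun _ => .cst false)), ?_, ?_⟩
  · exact ⟨Sum.inr (Sum.inl ⟨0, by omega⟩)⟩
  · rintro (i | i | i) <;> simp [MF.depth]
  · intro x
    have hcard : (Fintype.card (Fin N ⊕ (Fin (N + 1 - k) ⊕ Fin k)) : ℝ) = 2 * N + 1 := by
      have : Fintype.card (Fin N ⊕ (Fin (N + 1 - k) ⊕ Fin k)) = 2 * N + 1 := by
        simp only [Fintype.card_sum, Fintype.card_fin]; omega
      rw [this]; push_cast; ring
    rw [hcard]
    have hl : (1 / 2 + 1 / (2 * (2 * (N : ℝ) + 1))) * (2 * N + 1) = N + 1 := by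
      have : (2 * (N : ℝ) + 1) ≠ 0 := by positivity
      field_simp
      ring
    rw [hl]
    rw [Fintype.sum_sum_type, Fintype.sum_sum_type]
    simp only [ind, Sum.elim_inl, Sum.elim_inr, MF.eval]
    have hones : ∑ i : Fin N, (if x i = true then (1 : ℝ) else 0) = ones x := by
      rw [Finset.sum_boole]; rfl
    have hzeros : ∑ i : Fin N, (if x i = false then (1 : ℝ) else 0) = N - ones x := by
      have : ∑ i : Fin N, (if x i = false then (1 : ℝ) else 0) =
          ∑ i : Fin N, (1 - (if x i = true then (1 : ℝ) else 0)) := by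
        refine Finset.sum_congr rfl fun i _ => ?_
        cases x i <;> norm_num
      rw [this, Finset.sum_sub_distrib, hones]
      simp
    by_cases hb : k ≤ ones x
    · simp only [hb, decide_true, if_true, Finset.sum_const, Finset.card_univ, Fintype.card_fin,
        nsmul_eq_mul, mul_one, Bool.false_eq_true, if_false, mul_zero, add_zero]
      rw [hones]
      have : ((N + 1 - k : ℕ) : ℝ) = N + 1 - k := by
        rw [Nat.cast_sub (by omega)]; push_cast; ring
      rw [this]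
      have : (k : ℝ) ≤ ones x := by exact_mod_cast hb
      linarith
    · simp only [hb, decide_false, Bool.true_eq_false, if_false, if_true, Finset.sum_const,
        Finset.card_univ, Fintype.card_fin, nsmul_eq_mul, mul_one, mul_zero, zero_add]
      rw [hzeros]
      have : (ones x : ℝ) + 1 ≤ k := by exact_mod_cast (not_le.mp hb)
      linarith

theorem ones_le {N : ℕ} (x : Fin N → Bool) : ones x ≤ N := by
  have := Finset.card_le_univ (Finset.univ.filter (fun i : Fin N => x i = true))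
  simpa [ones] using this

theorem thr_fin (N k : ℕ) : ∃ F : MF (Fin N), F.depth ≤ 18 * Nat.clog 2 (N + 2) ∧
    ∀ x, F.eval x = decide (k ≤ ones x) := by
  rcases Nat.lt_or_ge N k with hk | hk
  · refine ⟨.cst false, by simp [MF.depth], fun x => ?_⟩
    have := ones_le x
    simp only [MF.eval]
    rw [eq_comm, decide_eq_false_iff_not]
    omega
  · set L := Nat.clog 2 (N + 2) with hL
    have hL1 : 1 ≤ L := Nat.clog_pos (by norm_num) (by omega)
    have hL2 : N + 2 ≤ 2 ^ L := Nat.le_pow_clog (by norm_num) _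
    have hL3 : ((N : ℝ) + 2) ≤ 2 ^ L := by exact_mod_cast hL2
    have hb := base N k hk
    have h1 := phase1 (by positivity) hb (3 * L)
    have hmin : min (3 / 4 : ℝ) (1 / 2 + (11 / 8) ^ (3 * L) * (1 / (2 * (2 * N + 1)))) = 3 / 4 := by
      refine min_eq_left ?_
      have h2 : (2 : ℝ) ^ L ≤ (11 / 8) ^ (3 * L) := by
        rw [pow_mul]
        exact pow_le_pow_left₀ (by norm_num) (by norm_num) _
      have hNpos : (0 : ℝ) < 2 * (2 * N + 1) := by positivity
      have h3 : (1 / 4 : ℝ) ≤ (11 / 8) ^ (3 * L) * (1 / (2 * (2 * N + 1))) := by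
        rw [mul_one_div, le_div_iff₀ hNpos]
        linarith
      linarith
    rw [hmin] at h1
    have h2 := phase2 h1 (L + 2)
    have hε : (3 / 4 : ℝ) ^ (2 ^ (L + 2)) / 3 * 2 ^ N < 1 := by
      have h3 : 3 * N ≤ 2 ^ (L + 2) := by
        have : 2 ^ (L + 2) = 4 * 2 ^ L := by ring
        omega
      have h4 : (3 / 4 : ℝ) ^ (2 ^ (L + 2)) ≤ (3 / 4) ^ (3 * N) :=
        pow_le_pow_of_le_one (by norm_num) (by norm_num) h3
      have h5 : (3 / 4 : ℝ) ^ (3 * N) * 2 ^ N ≤ 1 := by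
        rw [pow_mul, ← mul_pow]
        exact pow_le_one₀ (by norm_num) (by norm_num)
      have h6 : (3 / 4 : ℝ) ^ (2 ^ (L + 2)) * 2 ^ N ≤ (3 / 4 : ℝ) ^ (3 * N) * 2 ^ N :=
        mul_le_mul_of_nonneg_right h4 (by positivity)
      have : (3 / 4 : ℝ) ^ (2 ^ (L + 2)) / 3 * 2 ^ N = (3 / 4 : ℝ) ^ (2 ^ (L + 2)) * 2 ^ N / 3 := by
        ring
      rw [this]
      linarith
    obtain ⟨F, hF, hF'⟩ := of_good hε h2
    exact ⟨F, hF.trans (by omega), hF'⟩

end ThrT

open ThrT in
theorem thr_mf : ∃ K : ℕ, ∀ (n : ℕ) (R : Finset (Fin n)) (k : ℕ), ∃ F : MF (Fin n),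
    F.depth ≤ K * Nat.clog 2 (R.card + 2) ∧ ∀ x, F.eval x = decide (k ≤ wt R x) := by
  refine ⟨18, fun n R k => ?_⟩
  obtain ⟨F, hF, hF'⟩ := thr_fin R.card k
  refine ⟨F.bind (fun i => .inp (R.equivFin.symm i).1), ?_, fun x => ?_⟩
  · refine (MF.depth_bind_le _ 0 (fun i => by simp [MF.depth]) F).trans ?_
    simpa using hF
  · rw [MF.eval_bind, hF']
    congr 1
    have : ones (fun i => (MF.inp (R.equivFin.symm i).1 : MF (Fin n)).eval x) = wt R x := by
      simp only [ones, wt, MF.eval]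
      refine Finset.card_bij (fun i _ => (R.equivFin.symm i).1) ?_ ?_ ?_
      · intro i hi
        simp only [Finset.mem_filter, Finset.mem_univ, true_and] at hi
        simp only [Finset.mem_filter]
        exact ⟨(R.equivFin.symm i).2, hi⟩
      · intro i _ j _ hij
        exact R.equivFin.symm.injective (Subtype.ext hij)
      · intro v hv
        simp only [Finset.mem_filter] at hv
        refine ⟨R.equivFin ⟨v, hv.1⟩, ?_, by simp⟩
        simp only [Finset.mem_filter, Finset.mem_univ, true_and, Equiv.symm_apply_apply]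
        exact hv.2
    rw [this]

end Pool.Agent.BoolCirc
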