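import Pool.Agent.NegThr.B2

/-!
Module V: inverter for chains (Fischer).
-/

namespace Pool.Agent.BoolCirc

theorem extN_inverter (q : ℕ) {m : ℕ} (C : Circuit m) (z : ℕ → (Fin m → Bool) → Bool) (d : ℕ)
    (hz : ∀ i, 1 ≤ i → i < 2 ^ q → Avail C (z i) d)
    (hc : ∀ i j x, 1 ≤ i → i ≤ j → j < 2 ^ q → z j x = true → z i x = true) :
    ∃ C' : Circuit m, ExtN (4 * 2 ^ q) q C C' ∧
      ∀ i, 1 ≤ i → i < 2 ^ q → Avail C' (fun x => ! z i x) (d + 4 * q) := by
  induction q generalizing C z d with
  | zero =>
    refine ⟨C, (ExtN.refl C).weaken (Nat.zero_le _) le_rfl, ?_⟩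
    intro i h1 h2
    rw [pow_zero] at h2
    omega
  | succ q ih =>
    obtain ⟨M, hM⟩ : ∃ M, M = 2 ^ q := ⟨_, rfl⟩
    have hM2 : 2 ^ (q + 1) = 2 * M := by rw [pow_succ, hM]; ring
    have hMpos : 0 < M := by rw [hM]; positivity
    rw [hM2] at hz hc ⊢
    rw [← hM] at ih
    -- the one NOT gate of this level
    obtain ⟨C1, h1, hw⟩ := extN_not (hz M (by omega) (by omega))
    -- the next chain
    obtain ⟨C2, h2, hu⟩ := extN_family (M - 1)
      (fun i x => (z (i + 1) x && ! z M x) || z (i + 1 + M) x) (d + 3) 2 0 C1 (by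
        intro i hi C' hC'
        obtain ⟨D1, e1, e2⟩ := extN_and (hC' _ _ (h1.1 _ _ (hz (i + 1) (by omega) (by omega))))
          (hC' _ _ hw)
        obtain ⟨D2, e3, e4⟩ := extN_or e2
          (e1.1 _ _ (hC' _ _ (h1.1 _ _ (hz (i + 1 + M) (by omega) (by omega)))))
        exact ⟨D2, e1.trans e3, e4.mono (by omega)⟩)
    obtain ⟨C3, h3, hv⟩ := ih C2 (fun i x => (z i x && ! z M x) || z (i + M) x) (d + 3)
      (by
        intro i hi1 hi2
        have := hu (i - 1) (by omega)
        rw [Nat.sub_add_cancel hi1] at this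
        exact this)
      (by
        intro i j x hi hij hj hx
        simp only [Bool.or_eq_true, Bool.and_eq_true] at hx ⊢
        rcases hx with ⟨hx1, hx2⟩ | hx
        · exact Or.inl ⟨hc i j x hi hij (by omega) hx1, hx2⟩
        · exact Or.inr (hc (i + M) (j + M) x (by omega) (by omega) (by omega) hx))
    -- the outputs
    have hlift : ∀ C' : Circuit m, Ext C3 C' → Avail C' (fun x => ! z M x) (d + 1) :=
      fun C' hC' => hC' _ _ (h3.1 _ _ (h2.1 _ _ hw))
    obtain ⟨C4, h4, ho⟩ := extN_family (2 * M - 1) (fun i x => ! z (i + 1) x)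
      (d + 4 * (q + 1)) 1 0 C3 (by
        intro i hi C' hC'
        rcases lt_trichotomy (i + 1) M with hlt | heq | hgt
        · obtain ⟨D1, e1, e2⟩ := extN_and (hlift C' hC') (hC' _ _ (hv (i + 1) (by omega) hlt))
          refine ⟨D1, e1, (e2.mono (by omega)).congr ?_⟩
          intro x
          have k1 := hc (i + 1) M x (by omega) (by omega) (by omega)
          have k2 := hc M (i + 1 + M) x (by omega) (by omega) (by omega)
          revert k1 k2
          cases z (i + 1) x <;> cases z M x <;> cases z (i + 1 + M) x <;> simp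
        · refine ⟨C', (ExtN.refl C').weaken (by omega) le_rfl, ?_⟩
          rw [heq]
          exact (hlift C' hC').mono (by omega)
        · obtain ⟨D1, e1, e2⟩ := extN_or (hlift C' hC')
            (hC' _ _ (hv (i + 1 - M) (by omega) (by omega)))
          refine ⟨D1, e1, (e2.mono (by omega)).congr ?_⟩
          intro x
          have k1 := hc M (i + 1) x (by omega) (by omega) (by omega)
          have k0 := hc (i + 1 - M) M x (by omega) (by omega) (by omega)
          have k2 : i + 1 - M + M = i + 1 := by omega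
          rw [k2]
          revert k1 k0
          cases z (i + 1) x <;> cases z M x <;> cases z (i + 1 - M) x <;> simp)
    refine ⟨C4, (((h1.trans h2).trans h3).trans h4).weaken (by omega) (by omega), ?_⟩
    intro i hi1 hi2
    have := ho (i - 1) (by omega)
    rw [Nat.sub_add_cancel hi1] at this
    exact this

end Pool.Agent.BoolCirc
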