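import Pool.Agent.NegThr.M
import Pool.Agent.NegThr.V
import Pool.Agent.NegThr.T

/-!
Definitions for circuits whose number of NOT gates is slightly too small: a potential with values in
`0, ..., 2 ^ t - 1` that increases strictly where the function decreases.
-/

namespace Pool.Agent.BoolCirc

/-- the potential of the universal construction: half of the weight, rounded up or down according
to the value of the circuit -/
def pot₁ {n : ℕ} (C : Circuit n) (x : Fin n → Bool) : ℕ :=
  wt C.reads x / 2 + (if wt C.reads x % 2 = 1 ∧ C.eval x = false then 1 else 0)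

/-- the binary number of the operand values of the NOT gates of `C`, brought into the interval from
`pot₁ - s` to `pot₁` -/
def pot {n : ℕ} (C : Circuit n) (s : ℕ) (x : Fin n → Bool) : ℕ :=
  max (pot₁ C x - s) (min (pot₁ C x) (C.nu x C.size))

/-- the potential is at least `i` -/
def potZ {n : ℕ} (C : Circuit n) (s i : ℕ) (x : Fin n → Bool) : Bool := decide (i ≤ pot C s x)

/-- the potential is more than `i`, or it is `i` and the circuit has value true -/
def potH {n : ℕ} (C : Circuit n) (s i : ℕ) (x : Fin n → Bool) : Bool :=
  decide (i + 1 ≤ pot C s x) || (decide (i ≤ pot C s x) && C.eval x)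

/-- monotone Boolean function -/
def MonoFn {n : ℕ} (g : (Fin n → Bool) → Bool) : Prop :=
  ∀ x y : Fin n → Bool, (∀ j, x j = true → y j = true) → g x = true → g y = true

/-- every node of `C` has a circuit of depth at most `d` and size at most `σ` -/
def NodesLE {n : ℕ} (C : Circuit n) (d σ : ℕ) : Prop :=
  ∀ o : Src n C.size, ∃ G : Circuit n, (∀ x, G.eval x = o.eval x (C.val x)) ∧
    G.depth ≤ d ∧ G.size ≤ σ

/-- `K` is a constant for the logarithmic depth of monotone threshold formulas -/
def ThrConst (K : ℕ) : Prop := ∀ (n : ℕ) (R : Finset (Fin n)) (k : ℕ), ∃ F : MF (Fin n),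
    F.depth ≤ K * Nat.clog 2 (R.card + 2) ∧ ∀ x, F.eval x = decide (k ≤ wt R x)

theorem exists_thrConst : ∃ K, ThrConst K := thr_mf

end Pool.Agent.BoolCirc
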