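import Pool.Agent.NegThr.Defs

/-!
The argument of Markov for circuits with few NOT gates: the values of the operands of the NOT gates,
read as a binary number, are monotone in the input.
-/

namespace Pool.Agent.BoolCirc

namespace Circuit

variable {n : ℕ}

/-- number of NOT gates among the first `s` gates -/
def notsBelow (D : Circuit n) (s : ℕ) : ℕ :=
  (Finset.univ.filter (fun i : Fin D.size => i.1 < s ∧ (D.gate i).isNot = true)).card

/-- the operand values of the NOT gates among the first `s` gates as a binary number -/
def nu (D : Circuit n) (x : Fin n → Bool) : ℕ → ℕ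
  | 0 => 0
  | s + 1 => if h : s < D.size then
      (if (D.gate ⟨s, h⟩).isNot = true then
        2 * nu D x s + (if D.val x ⟨s, h⟩ = false then 1 else 0) else nu D x s)
      else nu D x s

theorem notsBelow_zero (D : Circuit n) : D.notsBelow 0 = 0 := by
  simp [notsBelow]

theorem notsBelow_size (D : Circuit n) : D.notsBelow D.size = D.nots := by
  unfold notsBelow nots
  congr 1
  ext i
  simp

theorem notsBelow_succ_not (D : Circuit n) {s : ℕ} (h : s < D.size)
    (hg : (D.gate ⟨s, h⟩).isNot = true) : D.notsBelow (s + 1) = D.notsBelow s + 1 := by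
  unfold notsBelow
  have : (Finset.univ.filter (fun i : Fin D.size => i.1 < s + 1 ∧ (D.gate i).isNot = true)) =
      insert ⟨s, h⟩ (Finset.univ.filter
        (fun i : Fin D.size => i.1 < s ∧ (D.gate i).isNot = true)) := by
    ext i
    simp only [Finset.mem_filter, Finset.mem_univ, true_and, Finset.mem_insert]
    constructor
    · rintro ⟨h1, h2⟩
      rcases Nat.lt_succ_iff_lt_or_eq.mp h1 with h3 | h3
      · exact Or.inr ⟨h3, h2⟩
      · exact Or.inl (Fin.ext h3)
    · rintro (h1 | ⟨h1, h2⟩)
      · subst h1; exact ⟨Nat.lt_succ_self _, hg⟩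
      · exact ⟨Nat.lt_succ_of_lt h1, h2⟩
  rw [this, Finset.card_insert_of_notMem]
  simp

theorem notsBelow_succ_of_not_isNot (D : Circuit n) {s : ℕ} (h : s < D.size)
    (hg : (D.gate ⟨s, h⟩).isNot = false) : D.notsBelow (s + 1) = D.notsBelow s := by
  unfold notsBelow
  congr 1
  ext i
  simp only [Finset.mem_filter, Finset.mem_univ, true_and]
  constructor
  · rintro ⟨h1, h2⟩
    rcases Nat.lt_succ_iff_lt_or_eq.mp h1 with h3 | h3
    · exact ⟨h3, h2⟩
    · have : i = ⟨s, h⟩ := Fin.ext h3
      rw [this, hg] at h2
      exact absurd h2 (by simp)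
  · rintro ⟨h1, h2⟩
    exact ⟨Nat.lt_succ_of_lt h1, h2⟩

theorem nu_lt (D : Circuit n) (x : Fin n → Bool) : ∀ s, s ≤ D.size →
    D.nu x s + 1 ≤ 2 ^ D.notsBelow s := by
  intro s
  induction s with
  | zero => intro _; rw [D.notsBelow_zero]; simp [nu]
  | succ s ih =>
    intro hs
    have h : s < D.size := hs
    have h1 := ih h.le
    by_cases hg : (D.gate ⟨s, h⟩).isNot = true
    · rw [D.notsBelow_succ_not h hg, pow_succ]
      simp only [nu, h, dite_true, hg, if_true]
      split_ifs <;> omega
    · rw [D.notsBelow_succ_of_not_isNot h (by simpa using hg)]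
      simp only [nu, h, dite_true, hg]
      exact h1

/-- a gate that is not a NOT gate is monotone -/
theorem _root_.Pool.Agent.BoolCirc.Gate.eval_mono {n i : ℕ} (g : Gate n i)
    (hg : g.isNot = false) {x y : Fin n → Bool} {v w : Fin i → Bool}
    (hx : ∀ j, x j = true → y j = true) (hv : ∀ j, v j = true → w j = true) :
    g.eval x v = true → g.eval y w = true := by
  have hsrc : ∀ o : Src n i, o.eval x v = true → o.eval y w = true := by
    intro o
    cases o with
    | input j => exact hx j
    | const b => exact id
    | gate j => exact hv j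
  cases g with
  | and a b =>
    simp only [Gate.eval, Bool.and_eq_true]
    exact fun h => ⟨hsrc a h.1, hsrc b h.2⟩
  | or a b =>
    simp only [Gate.eval, Bool.or_eq_true]
    exact fun h => h.imp (hsrc a) (hsrc b)
  | not a => simp [Gate.isNot] at hg

/-- a NOT gate is antitone -/
theorem _root_.Pool.Agent.BoolCirc.Gate.eval_anti {n i : ℕ} (g : Gate n i)
    (hg : g.isNot = true) {x y : Fin n → Bool} {v w : Fin i → Bool}
    (hx : ∀ j, x j = true → y j = true) (hv : ∀ j, v j = true → w j = true) :
    g.eval x v = false → g.eval y w = false := by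
  have hsrc : ∀ o : Src n i, o.eval x v = true → o.eval y w = true := by
    intro o
    cases o with
    | input j => exact hx j
    | const b => exact id
    | gate j => exact hv j
  cases g with
  | and a b => simp [Gate.isNot] at hg
  | or a b => simp [Gate.isNot] at hg
  | not a =>
    simp only [Gate.eval, Bool.not_eq_false']
    exact hsrc a

theorem nu_mono (D : Circuit n) {x y : Fin n → Bool} (hxy : ∀ j, x j = true → y j = true) :
    ∀ s, s ≤ D.size → D.nu x s ≤ D.nu y s ∧ (D.nu x s = D.nu y s →
      ∀ j (hj : j < D.size), j < s → D.val x ⟨j, hj⟩ = true → D.val y ⟨j, hj⟩ = true) := by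
  intro s
  induction s with
  | zero => intro _; exact ⟨le_rfl, fun _ j _ hj => absurd hj (Nat.not_lt_zero _)⟩
  | succ s ih =>
    intro hs
    have h : s < D.size := hs
    obtain ⟨h1, h2⟩ := ih h.le
    by_cases hg : (D.gate ⟨s, h⟩).isNot = true
    · simp only [nu, h, dite_true, hg, if_true]
      rcases Nat.lt_or_ge (D.nu x s) (D.nu y s) with hlt | hge
      · refine ⟨by split_ifs <;> omega, fun heq => ?_⟩
        exfalso
        split_ifs at heq <;> omega
      · have heq : D.nu x s = D.nu y s := le_antisymm h1 hge
        have hmono := h2 heq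
        have hanti : D.val x ⟨s, h⟩ = false → D.val y ⟨s, h⟩ = false := by
          rw [Circuit.val, Circuit.val]
          exact Gate.eval_anti _ hg hxy (fun j => hmono j.1 _ j.2)
        refine ⟨?_, fun heq2 => ?_⟩
        · by_cases hx : D.val x ⟨s, h⟩ = false
          · rw [if_pos hx, if_pos (hanti hx)]; omega
          · rw [if_neg hx]
            split_ifs <;> omega
        · intro j hj hjs hval
          rcases Nat.lt_succ_iff_lt_or_eq.mp hjs with h3 | h3
          · exact hmono j hj h3 hval
          · subst h3
            by_contra hy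
            have hy' : D.val y ⟨j, hj⟩ = false := by simpa using hy
            simp only [hval, hy', if_true] at heq2
            simp only [Bool.true_eq_false, if_false] at heq2
            omega
    · simp only [nu, h, dite_true, hg]
      refine ⟨h1, fun heq j hj hjs hval => ?_⟩
      have hmono := h2 heq
      rcases Nat.lt_succ_iff_lt_or_eq.mp hjs with h3 | h3
      · exact hmono j hj h3 hval
      · subst h3
        rw [Circuit.val] at hval ⊢
        exact Gate.eval_mono _ (by simpa using hg) hxy (fun i => hmono i.1 _ i.2) hval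

theorem nu_max (D : Circuit n) (x : Fin n → Bool) : ∀ s, s ≤ D.size →
    D.nu x s + 1 = 2 ^ D.notsBelow s → ∀ j (hj : j < D.size), j < s →
      (D.gate ⟨j, hj⟩).isNot = true → D.val x ⟨j, hj⟩ = false := by
  intro s
  induction s with
  | zero => intro _ _ j _ hj; exact absurd hj (Nat.not_lt_zero _)
  | succ s ih =>
    intro hs heq j hj hjs hg'
    have h : s < D.size := hs
    by_cases hg : (D.gate ⟨s, h⟩).isNot = true
    · rw [D.notsBelow_succ_not h hg, pow_succ] at heq
      simp only [nu, h, dite_true, hg, if_true] at heq
      have h1 := D.nu_lt x s h.le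
      have h2 : D.val x ⟨s, h⟩ = false := by
        by_contra hc
        simp only [hc] at heq
        simp only [if_false] at heq
        omega
      simp only [h2, if_true] at heq
      rcases Nat.lt_succ_iff_lt_or_eq.mp hjs with h3 | h3
      · exact ih h.le (by omega) j hj h3 hg'
      · subst h3; exact h2
    · rw [D.notsBelow_succ_of_not_isNot h (by simpa using hg)] at heq
      simp only [nu, h, dite_true, hg] at heq
      rcases Nat.lt_succ_iff_lt_or_eq.mp hjs with h3 | h3
      · exact ih h.le heq j hj h3 hg'
      · subst h3; exact absurd hg' hg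

/-- if the operand values of all NOT gates agree, the circuit is monotone between `x` and `y` -/
theorem eval_le_of_nu_eq (D : Circuit n) {x y : Fin n → Bool}
    (hxy : ∀ j, x j = true → y j = true) (h : D.nu x D.size = D.nu y D.size) :
    D.eval x = true → D.eval y = true := by
  have h1 := (D.nu_mono hxy D.size le_rfl).2 h
  unfold Circuit.eval
  cases D.out with
  | input j => exact hxy j
  | const b => exact id
  | gate j => exact h1 j.1 j.2 j.2

end Circuit

theorem markov_mono {m k : ℕ} (t : ℕ) (D : Circuit (m + k)) (hn : D.nots ≤ t)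
    (hm : 2 ^ (t + 1) ≤ m + 2) (g : (Fin k → Bool) → Bool) (hg : g (fun _ => false) = false)
    (hD : ∀ j ≤ m, ∀ y : Fin k → Bool,
      D.eval (Fin.append (stair j) y) = (decide (Odd j) || g y)) :
    ∃ F : MF (Fin k), F.depth ≤ D.depth ∧ ∀ y, F.eval y = g y := by
  have hpt : 1 ≤ 2 ^ t := Nat.one_le_two_pow
  have hpt2 : 2 ^ (t + 1) = 2 * 2 ^ t := by rw [pow_succ]; ring
  -- comparison of the inputs
  have hle : ∀ (i j : ℕ) (y z : Fin k → Bool), i ≤ j → (∀ a, y a = true → z a = true) →
      ∀ a, (Fin.append (stair i) y : Fin (m + k) → Bool) a = true →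
        (Fin.append (stair j) z : Fin (m + k) → Bool) a = true := by
    intro i j y z hij hyz a
    induction a using Fin.addCases with
    | left a =>
      simp only [Fin.append_left, stair, decide_eq_true_iff]
      exact fun h => h.trans_le hij
    | right a =>
      simp only [Fin.append_right]
      exact hyz a
  -- the binary number grows along the staircase
  have hgrow : ∀ i, 2 * i ≤ m →
      i ≤ D.nu (Fin.append (stair (2 * i)) (fun _ => false)) D.size := by
    intro i
    induction i with
    | zero => intro _; exact Nat.zero_le _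
    | succ i ih =>
      intro hi
      have h1 := ih (by omega)
      have h2 := (D.nu_mono (hle (2 * i) (2 * i + 1) (fun _ => false) (fun _ => false)
        (by omega) (fun _ h => h)) D.size le_rfl).1
      have h3 := (D.nu_mono (hle (2 * i + 1) (2 * (i + 1)) (fun _ => false) (fun _ => false)
        (by omega) (fun _ h => h)) D.size le_rfl).1
      have h4 : D.nu (Fin.append (stair (2 * i + 1)) (fun _ => false)) D.size ≠
          D.nu (Fin.append (stair (2 * (i + 1))) (fun _ => false)) D.size := by
        intro heq
        have h5 := D.eval_le_of_nu_eq (hle (2 * i + 1) (2 * (i + 1)) (fun _ => false)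
          (fun _ => false) (by omega) (fun _ h => h)) heq
        rw [hD _ (by omega), hD _ hi, hg] at h5
        have h6 : decide (Odd (2 * i + 1)) = true := by
          rw [decide_eq_true_iff]; exact ⟨i, rfl⟩
        have h7 : decide (Odd (2 * (i + 1))) = false := by
          rw [decide_eq_false_iff_not, Nat.not_odd_iff_even]; exact ⟨i + 1, by ring⟩
        rw [h6, h7] at h5
        simp at h5
      omega
  set j₀ : ℕ := 2 * (2 ^ t - 1) with hj₀
  have hj₀m : j₀ ≤ m := by omega
  have hfull : ∀ y : Fin k → Bool,
      D.nu (Fin.append (stair j₀) y) D.size + 1 = 2 ^ D.notsBelow D.size := by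
    intro y
    have h1 := hgrow (2 ^ t - 1) (by omega)
    have h2 := (D.nu_mono (hle j₀ j₀ (fun _ => false) y le_rfl (fun _ h => by simp at h))
      D.size le_rfl).1
    have h3 := D.nu_lt (Fin.append (stair j₀) y) D.size le_rfl
    have h4 : 2 ^ D.notsBelow D.size ≤ 2 ^ t := by
      rw [D.notsBelow_size]; exact Nat.pow_le_pow_right (by norm_num) hn
    rw [← hj₀] at h1
    omega
  have hnot : ∀ (y : Fin k → Bool) j (hj : j < D.size), (D.gate ⟨j, hj⟩).isNot = true →
      D.val (Fin.append (stair j₀) y) ⟨j, hj⟩ = false :=
    fun y j hj hg' => D.nu_max _ D.size le_rfl (hfull y) j hj hj hg'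
  -- unfolding into a monotone formula
  let inpMF : Fin (m + k) → MF (Fin k) := fun v =>
    Fin.addCases (fun a => MF.cst (stair j₀ a)) (fun b => MF.inp b) v
  have hinp : ∀ (v : Fin (m + k)) (y : Fin k → Bool),
      (inpMF v).eval y = (Fin.append (stair j₀) y : Fin (m + k) → Bool) v := by
    intro v y
    induction v using Fin.addCases with
    | left a => simp only [inpMF, Fin.addCases_left, Fin.append_left, MF.eval]
    | right a => simp only [inpMF, Fin.addCases_right, Fin.append_right, MF.eval]
  have hinpd : ∀ v : Fin (m + k), (inpMF v).depth = 0 := by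
    intro v
    induction v using Fin.addCases with
    | left a => simp only [inpMF, Fin.addCases_left, MF.depth]
    | right a => simp only [inpMF, Fin.addCases_right, MF.depth]
  have hgate : ∀ (i : ℕ) (hi : i < D.size), ∃ F : MF (Fin k),
      (∀ y, F.eval y = D.val (Fin.append (stair j₀) y) ⟨i, hi⟩) ∧
      F.depth ≤ D.gateDepth ⟨i, hi⟩ := by
    intro i
    induction i using Nat.strong_induction_on with
    | _ i ih =>
      intro hi
      have aux : ∀ o : Src (m + k) i, ∃ F : MF (Fin k),
          (∀ y, F.eval y = o.eval (Fin.append (stair j₀) y)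
            (fun j => D.val (Fin.append (stair j₀) y) ⟨j.1, j.2.trans hi⟩)) ∧
          F.depth ≤ o.depth (fun j => D.gateDepth ⟨j.1, j.2.trans hi⟩) := by
        intro o
        cases o with
        | input v => exact ⟨inpMF v, fun y => hinp v y, (hinpd v).le⟩
        | const b => exact ⟨MF.cst b, fun _ => rfl, le_rfl⟩
        | gate j => exact ih j.1 j.2 (j.2.trans hi)
      cases hgi : D.gate ⟨i, hi⟩ with
      | and a b =>
        obtain ⟨A, hA, hA'⟩ := aux a
        obtain ⟨B, hB, hB'⟩ := aux b
        refine ⟨MF.and A B, fun y => ?_, ?_⟩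
        · rw [Circuit.val, hgi]; simp only [MF.eval, hA, hB, Gate.eval]
        · rw [Circuit.gateDepth, hgi]; simp only [MF.depth, Gate.depth]; omega
      | or a b =>
        obtain ⟨A, hA, hA'⟩ := aux a
        obtain ⟨B, hB, hB'⟩ := aux b
        refine ⟨MF.or A B, fun y => ?_, ?_⟩
        · rw [Circuit.val, hgi]; simp only [MF.eval, hA, hB, Gate.eval]
        · rw [Circuit.gateDepth, hgi]; simp only [MF.depth, Gate.depth]; omega
      | not a =>
        refine ⟨MF.cst false, fun y => ?_, Nat.zero_le _⟩
        have := hnot y i hi (by rw [hgi]; rfl)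
        rw [this]; rfl
  have hout : ∃ F : MF (Fin k), F.depth ≤ D.depth ∧
      ∀ y, F.eval y = D.eval (Fin.append (stair j₀) y) := by
    unfold Circuit.eval Circuit.depth
    cases D.out with
    | input v => exact ⟨inpMF v, (hinpd v).le, fun y => hinp v y⟩
    | const b => exact ⟨MF.cst b, le_rfl, fun _ => rfl⟩
    | gate j =>
      obtain ⟨F, h1, h2⟩ := hgate j.1 j.2
      exact ⟨F, h2, h1⟩
  obtain ⟨F, h1, h2⟩ := hout
  refine ⟨F, h1, fun y => ?_⟩
  rw [h2 y, hD j₀ hj₀m y]
  have : decide (Odd j₀) = false := by
    rw [decide_eq_false_iff_not, Nat.not_odd_iff_even]; exact ⟨2 ^ t - 1, by rw [hj₀]; ring⟩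
  rw [this, Bool.false_or]

end Pool.Agent.BoolCirc
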