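import Pool.Agent.NegThr.PL10
import Pool.Agent.NegThr.RM8a
import Pool.Agent.NegThr.M
import Pool.Agent.BoolCirc.Pad

/-!
Module PL11: the strong lower bound for the depth of circuits with few NOT gates.
-/

namespace Pool.Agent.BoolCirc

/-- the hard circuit, as in RM8a, for any function with small monotone circuits -/
theorem hard_circuit_gen (m k t s : ℕ) (hm : m + 2 = 2 ^ (t + 1)) (g : (Fin k → Bool) → Bool)
    (hg : ∀ (n : ℕ) (emb : Fin k → Fin n) (C : Circuit n), ∃ C' : Circuit n, ExtN s 0 C C' ∧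
        ∃ d, Avail C' (fun X => g (fun e => X (emb e))) d) :
    ∃ (C : Circuit (m + k)) (f : (Fin m → Bool) → Bool),
      (∀ j ≤ m, f (stair j) = decide (Odd j)) ∧
      (∀ x y, C.eval (Fin.append x y) = (f x || g y)) ∧
      C.nots ≤ t ∧ C.size ≤ 16 * (m + 1) + s + 4 := by
  have h2t : 2 ^ (t + 1) = 2 * 2 ^ t := by ring
  obtain ⟨C1, a1, a2'⟩ := build_z m k m le_rfl
  have a2 : ∀ i ≤ m, Avail C1 (zf m k i) m := fun i hi => (a2' i hi).mono hi
  obtain ⟨C2, b1, b2⟩ := extN_inverter t C1 (fun i => zf m k (2 * i)) m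
    (fun i hi1 hi2 => a2 _ (by omega)) (by
      intro i j X hi hij hj h
      unfold zf at h ⊢
      rw [decide_eq_true_eq] at h ⊢
      exact fun r hr => h r (by omega))
  obtain ⟨C3, c1, c2⟩ := extN_orand (2 ^ t - 1) (fun i => zf m k (2 * i + 1))
    (fun i X => ! zf m k (2 * i + 2) X) (m + 4 * t) C2
    (fun i hi => (b1.1 _ _ (a2 (2 * i + 1) (by omega))).mono (by omega))
    (fun i hi => by
      have := b2 (i + 1) (by omega) (by omega)
      exact this)
  obtain ⟨C4, d1, d, hfin⟩ := hg (m + k) (fun e => Fin.natAdd m e) C3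
  obtain ⟨C5, e1, e2⟩ := extN_or (d1.1 _ _ c2) hfin
  obtain ⟨C6, f1, f2, f3, f4⟩ := e2.exists_circuit_nots
  have hall := ((((a1.trans b1).trans c1).trans d1).trans e1)
  have hs0 : (Circuit.empty (m + k)).size = 0 := rfl
  have hn0 : (Circuit.empty (m + k)).nots = 0 := by
    unfold Circuit.nots
    rw [Finset.card_eq_zero]
    ext i
    exact i.elim0
  refine ⟨C6, pf m t, fun j hj => pf_stair m t hm j hj, ?_, ?_, ?_⟩
  · intro x y
    rw [f1]
    simp only [Fin.append_right]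
    congr 1
    rw [Bool.eq_iff_iff]
    unfold pf zf
    simp only [decide_eq_true_eq, Fin.append_left, Bool.not_eq_true', decide_eq_false_iff_not]
  · rw [f4]
    have := hall.2.2
    rw [hn0] at this
    omega
  · rw [f3]
    have h1 := hall.2.1
    rw [hs0] at h1
    have h5 : 4 * 2 ^ t = 2 * (m + 2) := by omega
    omega

theorem gap_lower_strong : ∃ K, ∀ n t i : ℕ, K * 2 ^ i * (i + 1) ^ 8 ≤ n + 2 - 2 ^ (t + 1) →
    ∃ C : Circuit n, 2 ≤ C.size ∧ C.size ≤ 100 * n ∧ C.nots ≤ t ∧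
      ∀ D : Circuit n, (∀ x, D.eval x = C.eval x) → D.nots ≤ t → 2 ^ i ≤ D.depth := by
  obtain ⟨K, hK⟩ := strong_mono
  refine ⟨(K + 1) * 512, ?_⟩
  intro n t i hn
  have hi1 : 1 ≤ 2 ^ i * (i + 1) ^ 8 := Nat.mul_pos (by positivity) (by positivity)
  have hmax : K * 2 ^ (max i 1) * (max i 1 + 1) ^ 8 ≤ (K + 1) * 512 * 2 ^ i * (i + 1) ^ 8 := by
    rcases Nat.eq_zero_or_pos i with h0 | h0
    · subst h0
      norm_num
      omega
    · rw [Nat.max_eq_left h0]
      rw [mul_assoc, mul_assoc ((K + 1) * 512)]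
      exact Nat.mul_le_mul_right _ (by omega)
  have hpos : 512 ≤ (K + 1) * 512 * 2 ^ i * (i + 1) ^ 8 := by
    rw [mul_assoc ((K + 1) * 512)]
    calc 512 = 1 * 512 * 1 := by norm_num
      _ ≤ (K + 1) * 512 * (2 ^ i * (i + 1) ^ 8) :=
        Nat.mul_le_mul (Nat.mul_le_mul_right _ (by omega)) hi1
  obtain ⟨m, hm⟩ : ∃ m, m + 2 = 2 ^ (t + 1) := ⟨2 ^ (t + 1) - 2, by
    have : 2 ^ 1 ≤ 2 ^ (t + 1) := Nat.pow_le_pow_right (by norm_num) (by omega)
    omega⟩
  rw [← hm] at hn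
  obtain ⟨k, rfl⟩ : ∃ k, n = m + k := ⟨n - m, by omega⟩
  have hgap : m + k + 2 - (m + 2) = k := by omega
  rw [hgap] at hn
  obtain ⟨g, hg0, hgF, hgC⟩ := hK (max i 1) k (hmax.trans hn)
  obtain ⟨C, p, hp, hC, hCn, hCs⟩ := hard_circuit_gen m k t (4 * k) hm g hgC
  have key : ∀ D : Circuit (m + k), (∀ x, D.eval x = C.eval x) → D.nots ≤ t →
      2 ^ (max i 1) ≤ D.depth := by
    intro D hD hDn
    obtain ⟨F, hF1, hF2⟩ := markov_mono t D hDn hm.ge g hg0
      (fun j hj y => by rw [hD, hC, hp j hj])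
    exact (hgF F hF2).trans hF1
  have h2 : 2 ≤ 2 ^ (max i 1) := by
    calc 2 = 2 ^ 1 := by norm_num
      _ ≤ 2 ^ (max i 1) := Nat.pow_le_pow_right (by norm_num) (le_max_right _ _)
  refine ⟨C, ?_, ?_, hCn, ?_⟩
  · have := key C (fun _ => rfl) hCn
    have h3 := C.depth_le_size
    omega
  · omega
  · intro D hD hDn
    exact (Nat.pow_le_pow_right (by norm_num) (le_max_left _ _)).trans (key D hD hDn)

end Pool.Agent.BoolCirc
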