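import Pool.Agent.NegThr.PLDefs

/-!
The matrix of a family of configurations has full row rank.
-/

namespace Pool.Agent.BoolCirc

open Finset

/-- the inputs of the right inverse -/
def pl3a_yy {V : Type} [DecidableEq V] {m : ℕ} (x₀ : V → Fin m) (U : Finset V) :
    V → Fin m → Bool :=
  fun v c => if v ∈ U then decide (c ≠ x₀ v) else true

theorem pl3a_term {V : Type} [Fintype V] [DecidableEq V] {m : ℕ} (P : Finset V)
    (x x₀ : V → Fin m) :
    ∑ U : Finset V, (-1 : ℚ) ^ U.card *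
      ∏ v ∈ Pᶜ, ((if pl3a_yy x₀ U v (x v) = true then (1 : ℚ) else 0) - 1) =
    if P = ∅ ∧ x = x₀ then 1 else 0 := by
  have h1 : ∀ U : Finset V, (-1 : ℚ) ^ U.card *
      ∏ v ∈ Pᶜ, ((if pl3a_yy x₀ U v (x v) = true then (1 : ℚ) else 0) - 1) =
      (∏ v ∈ U, (if v ∈ P then (-1 : ℚ) else if x v = x₀ v then 1 else 0)) *
        ∏ v ∈ Finset.univ \ U, (if v ∈ P then (1 : ℚ) else 0) := by
    intro U
    have e1 : (-1 : ℚ) ^ U.card = ∏ v, (if v ∈ U then (-1 : ℚ) else 1) := by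
      rw [Finset.prod_ite_mem, Finset.univ_inter, Finset.prod_const]
    have e2 : ∏ v ∈ Pᶜ, ((if pl3a_yy x₀ U v (x v) = true then (1 : ℚ) else 0) - 1) =
        ∏ v, (if v ∈ Pᶜ then ((if pl3a_yy x₀ U v (x v) = true then (1 : ℚ) else 0) - 1)
          else 1) := by
      rw [Finset.prod_ite_mem, Finset.univ_inter]
    have e3 : (∏ v ∈ U, (if v ∈ P then (-1 : ℚ) else if x v = x₀ v then 1 else 0)) =
        ∏ v, (if v ∈ U then (if v ∈ P then (-1 : ℚ) else if x v = x₀ v then 1 else 0)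
          else 1) := by
      rw [Finset.prod_ite_mem, Finset.univ_inter]
    have e4 : ∏ v ∈ Finset.univ \ U, (if v ∈ P then (1 : ℚ) else 0) =
        ∏ v, (if v ∈ Finset.univ \ U then (if v ∈ P then (1 : ℚ) else 0) else 1) := by
      rw [Finset.prod_ite_mem, Finset.univ_inter]
    rw [e1, e2, e3, e4, ← Finset.prod_mul_distrib, ← Finset.prod_mul_distrib]
    refine Finset.prod_congr rfl fun v _ => ?_
    unfold pl3a_yy
    by_cases hU : v ∈ U <;> by_cases hP : v ∈ P <;> by_cases hx : x v = x₀ v <;>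
      simp [hU, hP, hx]
  rw [Finset.sum_congr rfl fun U _ => h1 U]
  have h2 := Finset.prod_add (fun v => if v ∈ P then (-1 : ℚ) else if x v = x₀ v then 1 else 0)
    (fun v => if v ∈ P then (1 : ℚ) else 0) Finset.univ
  rw [Finset.powerset_univ] at h2
  rw [← h2]
  split_ifs with h
  · obtain ⟨rfl, rfl⟩ := h
    exact Finset.prod_eq_one fun v _ => by simp
  · rw [not_and_or] at h
    rcases h with h | h
    · obtain ⟨v, hv⟩ := Finset.nonempty_iff_ne_empty.2 h
      exact Finset.prod_eq_zero (Finset.mem_univ v) (by simp [hv])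
    · obtain ⟨v, hv⟩ := Function.ne_iff.1 h
      refine Finset.prod_eq_zero (Finset.mem_univ v) ?_
      by_cases hP : v ∈ P <;> simp [hP, hv]

theorem pmat_right_inv {V : Type} [Fintype V] [DecidableEq V] {m : ℕ} (R : Finset (Finset V))
    (h : ∅ ∈ R) : ∃ B : Matrix (V → Fin m → Bool) (V → Fin m) ℚ, pmat (m := m) R * B = 1 := by
  refine ⟨Matrix.of fun y x₀ => ∑ U : Finset V,
    if y = pl3a_yy x₀ U then (-1 : ℚ) ^ U.card else 0, ?_⟩
  ext x x₀
  rw [Matrix.mul_apply]
  simp only [Matrix.of_apply]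
  have h1 : ∑ y, pmat (m := m) R x y *
      (∑ U : Finset V, if y = pl3a_yy x₀ U then (-1 : ℚ) ^ U.card else 0) =
      ∑ U : Finset V, (-1 : ℚ) ^ U.card * pmat (m := m) R x (pl3a_yy x₀ U) := by
    simp_rw [Finset.mul_sum]
    rw [Finset.sum_comm]
    refine Finset.sum_congr rfl fun U _ => ?_
    simp only [mul_ite, mul_zero]
    rw [Finset.sum_ite_eq' Finset.univ (pl3a_yy x₀ U)]
    simp [mul_comm]
  rw [h1]
  unfold pmat
  simp_rw [Finset.mul_sum]
  rw [Finset.sum_comm]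
  rw [Finset.sum_congr rfl fun P _ => pl3a_term P x x₀]
  rw [Matrix.one_apply]
  by_cases hx : x = x₀
  · simp [hx, h]
  · simp [hx]

theorem fac_univ_card {X Y : Type} [Fintype X] [DecidableEq X] [Fintype Y] (M : Matrix X Y ℚ)
    (B : Matrix Y X ℚ) (h : M * B = 1) (r : ℕ) (hF : Fac M r Set.univ Set.univ) :
    Fintype.card X ≤ r := by
  obtain ⟨ι, hι, f, g, hr, hfg⟩ := hF
  have e1 : M = (Matrix.of f : Matrix X ι ℚ) * (Matrix.of g : Matrix ι Y ℚ) := by
    ext x y
    rw [Matrix.mul_apply]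
    exact hfg x trivial y trivial
  rw [e1, Matrix.mul_assoc] at h
  have h2 := Matrix.rank_mul_le_left (Matrix.of f : Matrix X ι ℚ)
    ((Matrix.of g : Matrix ι Y ℚ) * B)
  rw [h, Matrix.rank_one] at h2
  exact h2.trans ((Matrix.rank_le_card_width _).trans hr)

end Pool.Agent.BoolCirc
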