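import Pool.Agent.NegThr.PLDefs

/-!
Connection nets: the doubled net of a connection net is a connection net.
-/

namespace Pool.Agent.BoolCirc

theorem net0_conn : net0.Conn := by
  intro B X Y hX hY
  have hX1 : X.card ≤ 1 := by
    calc X.card ≤ Fintype.card Unit := Finset.card_le_univ X
      _ = 1 := rfl
  have hB : B = ∅ := by
    rw [← Finset.card_eq_zero]
    omega
  subst hB
  obtain ⟨x, hx⟩ := Finset.card_pos.1 (lt_of_le_of_lt (Nat.zero_le _) hX)
  obtain ⟨y, hy⟩ := Finset.card_pos.1 (lt_of_le_of_lt (Nat.zero_le _) hY)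
  refine ⟨x, hx, y, hy, ?_⟩
  exact CNet.Path.left (N := net0) (net0.out y)
    (CNet.Path.refl (by simp)) (by simp)

theorem pl6_start {I W : Type} {N : CNet I W} {B : Finset (I ⊕ W)} {u v : I ⊕ W}
    (h : N.Path B u v) : u ∉ B := by
  induction h with
  | refl h => exact h
  | left w _ _ ih => exact ih
  | right w _ _ ih => exact ih

theorem pl6_fin {I W : Type} {N : CNet I W} {B : Finset (I ⊕ W)} {u v : I ⊕ W}
    (h : N.Path B u v) : v ∉ B := by
  cases h with
  | refl h => exact h
  | left w _ h => exact h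
  | right w _ h => exact h

theorem pl6_trans {I W : Type} {N : CNet I W} {B : Finset (I ⊕ W)} {u v w : I ⊕ W}
    (h : N.Path B u v) (h' : N.Path B v w) : N.Path B u w := by
  induction h' with
  | refl _ => exact h
  | left w _ hw ih => exact CNet.Path.left w ih hw
  | right w _ hw ih => exact CNet.Path.right w ih hw

/-- copy `b` of the net in the doubled net -/
def pl6cp {I W : Type} (b : Bool) (v : I ⊕ W) : (I × Bool) ⊕ DblW I W := Sum.inr (Sum.inl (b, v))

theorem pl6cp_inj {I W : Type} (b : Bool) : Function.Injective (pl6cp (I := I) (W := W) b) := by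
  intro u v h
  simpa [pl6cp] using h

/-- blocked nodes of copy `b` -/
noncomputable def pl6B {I W : Type} (B : Finset ((I × Bool) ⊕ DblW I W)) (b : Bool) :
    Finset (I ⊕ W) :=
  B.preimage (pl6cp b) (pl6cp_inj b).injOn

theorem mem_pl6B {I W : Type} {B : Finset ((I × Bool) ⊕ DblW I W)} {b : Bool} {v : I ⊕ W} :
    v ∈ pl6B B b ↔ pl6cp b v ∈ B := by
  simp [pl6B]

/-- blocked inputs -/
noncomputable def pl6I {I W : Type} (B : Finset ((I × Bool) ⊕ DblW I W)) : Finset (I × Bool) :=
  B.preimage Sum.inl Sum.inl_injective.injOn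

theorem mem_pl6I {I W : Type} {B : Finset ((I × Bool) ⊕ DblW I W)} {p : I × Bool} :
    p ∈ pl6I B ↔ Sum.inl p ∈ B := by
  simp [pl6I]

/-- blocked outputs -/
noncomputable def pl6O {I W : Type} (B : Finset ((I × Bool) ⊕ DblW I W)) : Finset (I × Bool) :=
  B.preimage (fun p => Sum.inr (Sum.inr p)) (Sum.inr_injective.comp Sum.inr_injective).injOn

theorem mem_pl6O {I W : Type} {B : Finset ((I × Bool) ⊕ DblW I W)} {p : I × Bool} :
    p ∈ pl6O B ↔ Sum.inr (Sum.inr p) ∈ B := by
  simp [pl6O]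

theorem pl6_card {I W : Type} (B : Finset ((I × Bool) ⊕ DblW I W)) :
    (pl6B B false).card + (pl6B B true).card + ((pl6I B).card + (pl6O B).card) ≤ B.card := by
  rw [← Finset.card_disjSum, ← Finset.card_disjSum, ← Finset.card_disjSum]
  apply Finset.card_le_card_of_injOn
    (Sum.elim (Sum.elim (pl6cp false) (pl6cp true))
      (Sum.elim (fun p => Sum.inl p) (fun p => Sum.inr (Sum.inr p))))
  · rintro ((v | v) | (p | p)) h
    · simpa [mem_pl6B] using h
    · simpa [mem_pl6B] using h
    · simpa [mem_pl6I] using h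
    · simpa [mem_pl6O] using h
  · apply Function.Injective.injOn
    rintro ((v | v) | (p | p)) ((v' | v') | (p' | p')) h <;> simp [pl6cp] at h ⊢ <;> exact h

theorem pl6_fst {I : Type} [DecidableEq I] (X : Finset (I × Bool)) :
    X.card ≤ 2 * (X.image Prod.fst).card := by
  have h : X ⊆ (X.image Prod.fst) ×ˢ (Finset.univ : Finset Bool) := by
    intro p hp
    rw [Finset.mem_product]
    exact ⟨Finset.mem_image_of_mem _ hp, Finset.mem_univ _⟩
  calc X.card ≤ _ := Finset.card_le_card h
    _ = (X.image Prod.fst).card * 2 := by rw [Finset.card_product]; rfl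
    _ = _ := Nat.mul_comm _ _

theorem pl6_lift {I W : Type} (N : CNet I W) (B : Finset ((I × Bool) ⊕ DblW I W)) (b : Bool)
    {u v : I ⊕ W} (h : N.Path (pl6B B b) u v) : N.dbl.Path B (pl6cp b u) (pl6cp b v) := by
  induction h with
  | refl h => exact CNet.Path.refl (fun h' => h (mem_pl6B.2 h'))
  | left w _ hw ih =>
    exact CNet.Path.left (N := N.dbl) (Sum.inl (b, Sum.inr w)) ih (fun h' => hw (mem_pl6B.2 h'))
  | right w _ hw ih =>
    exact CNet.Path.right (N := N.dbl) (Sum.inl (b, Sum.inr w)) ih (fun h' => hw (mem_pl6B.2 h'))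

theorem dbl_conn {I W : Type} [DecidableEq I] [DecidableEq W] (N : CNet I W) (h : N.Conn) :
    N.dbl.Conn := by
  intro B X Y hX hY
  have hc := pl6_card B
  obtain ⟨b, hb⟩ : ∃ b : Bool, 2 * (pl6B B b).card ≤ (pl6B B false).card + (pl6B B true).card := by
    rcases Nat.le_total (pl6B B false).card (pl6B B true).card with h1 | h1
    · exact ⟨false, by omega⟩
    · exact ⟨true, by omega⟩
  have hX1 : (pl6B B b).card < ((X \ pl6I B).image Prod.fst).card := by
    have h1 := pl6_fst (X \ pl6I B)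
    have h2 := Finset.le_card_sdiff (pl6I B) X
    omega
  have hY1 : (pl6B B b).card < ((Y \ pl6O B).image Prod.fst).card := by
    have h1 := pl6_fst (Y \ pl6O B)
    have h2 := Finset.le_card_sdiff (pl6O B) Y
    omega
  obtain ⟨x, hx, y, hy, hp⟩ := h (pl6B B b) _ _ hX1 hY1
  obtain ⟨⟨x', b1⟩, hx', rfl⟩ := Finset.mem_image.1 hx
  obtain ⟨⟨y', b2⟩, hy', rfl⟩ := Finset.mem_image.1 hy
  rw [Finset.mem_sdiff, mem_pl6I] at hx'
  rw [Finset.mem_sdiff, mem_pl6O] at hy'
  refine ⟨(x', b1), hx'.1, (y', b2), hy'.1, ?_⟩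
  have h1 := pl6_lift N B b hp
  have h0 : N.dbl.Path B (Sum.inl (x', b1)) (pl6cp b (Sum.inl x')) := by
    have hs := pl6_start h1
    cases b1
    · exact CNet.Path.left (N := N.dbl) (Sum.inl (b, Sum.inl x')) (CNet.Path.refl hx'.2) hs
    · exact CNet.Path.right (N := N.dbl) (Sum.inl (b, Sum.inl x')) (CNet.Path.refl hx'.2) hs
  have h2 := pl6_trans h0 h1
  cases b
  · exact CNet.Path.left (N := N.dbl) (Sum.inr (y', b2)) h2 hy'.2
  · exact CNet.Path.right (N := N.dbl) (Sum.inr (y', b2)) h2 hy'.2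

theorem exists_conn (k : ℕ) : ∃ (W : Type) (_ : Fintype W) (_ : DecidableEq W)
    (N : CNet (Ix k) W), N.Conn ∧ Fintype.card W = 2 ^ k * (1 + 2 * k) := by
  induction k with
  | zero => exact ⟨Unit, inferInstance, inferInstance, net0, net0_conn, rfl⟩
  | succ k ih =>
    obtain ⟨W, i1, i2, N, hN, hc⟩ := ih
    refine ⟨DblW (Ix k) W, inferInstance, inferInstance, N.dbl, dbl_conn N hN, ?_⟩
    have h : Fintype.card (DblW (Ix k) W) = 2 * (2 ^ k + Fintype.card W) + 2 ^ k * 2 := by
      simp only [Fintype.card_sum, Fintype.card_prod, Fintype.card_bool, Ix.card]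
    rw [h, hc]
    ring

end Pool.Agent.BoolCirc
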