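import Pool.Agent.NegThr.PLDefs

/-!
PL7: appearing and receiving pebbles; pebbling a connection net.
-/

namespace Pool.Agent.BoolCirc

theorem App.mono {V : Type} {P : ℕ → Finset V} {a c a' c' : ℕ} {v : V} (h : App P a c v)
    (ha : a' ≤ a) (hc : c ≤ c') : App P a' c' v := by
  obtain ⟨τ, h1, h2, h3⟩ := h
  exact ⟨τ, ha.trans h1, h2.trans hc, h3⟩

theorem Plc.mono {V : Type} {P : ℕ → Finset V} {a c a' c' : ℕ} {v : V} (h : Plc P a c v)
    (ha : a' ≤ a) (hc : c ≤ c') : Plc P a' c' v := by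
  obtain ⟨τ, h1, h2, h3, h4⟩ := h
  exact ⟨τ, ha.trans h1, h2.trans_le hc, h3, h4⟩

theorem Plc.app {V : Type} {P : ℕ → Finset V} {a c : ℕ} {v : V} (h : Plc P a c v) :
    App P a c v := by
  obtain ⟨τ, h1, h2, _, h4⟩ := h
  exact ⟨τ + 1, by omega, by omega, h4⟩

theorem app_iff {V : Type} {P : ℕ → Finset V} {a c : ℕ} {v : V} (hac : a ≤ c) :
    App P a c v ↔ v ∈ P a ∨ Plc P a c v := by
  constructor
  · rintro ⟨τ, h1, h2, h3⟩
    have key : ∀ τ, a ≤ τ → τ ≤ c → v ∈ P τ → v ∈ P a ∨ Plc P a c v := by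
      intro τ hτ
      induction τ, hτ using Nat.le_induction with
      | base => intro _ h; exact Or.inl h
      | succ τ hτ ih =>
        intro hc h
        by_cases h' : v ∈ P τ
        · exact ih (by omega) h'
        · exact Or.inr ⟨τ, hτ, by omega, h', h⟩
    exact key τ h1 h2 h3
  · rintro (h | h)
    · exact ⟨a, le_refl a, hac, h⟩
    · exact h.app

/-- the predecessors of a node that receives a pebble -/
theorem CNet.Legal.plc {I W : Type} {N : CNet I W} {P : ℕ → Finset (I ⊕ W)} (hP : N.Legal P)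
    {a c : ℕ} {w : W} (h : Plc P a c (Sum.inr w)) :
    a < c ∧ App P a (c - 1) (N.pr w).1 ∧ App P a (c - 1) (N.pr w).2 := by
  obtain ⟨τ, h1, h2, h3, h4⟩ := h
  rcases hP τ w h4 with h5 | ⟨h5, h6⟩
  · exact absurd h5 h3
  · exact ⟨by omega, ⟨τ, h1, by omega, h5⟩, ⟨τ, h1, by omega, h6⟩⟩

theorem pl7_path {I W : Type} {N : CNet I W} {P : ℕ → Finset (I ⊕ W)} (hP : N.Legal P) (a c : ℕ)
    {u v : I ⊕ W} (h : N.Path (P a) u v) (hv : App P a c v) : App P a c u := by
  induction h with
  | refl _ => exact hv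
  | left w _ hw ih =>
    have hac : a ≤ c := by
      obtain ⟨τ, h1, h2, _⟩ := hv
      exact h1.trans h2
    rcases (app_iff hac).1 hv with h | h
    · exact absurd h hw
    · exact ih ((hP.plc h).2.1.mono (le_refl a) (by omega))
  | right w _ hw ih =>
    have hac : a ≤ c := by
      obtain ⟨τ, h1, h2, _⟩ := hv
      exact h1.trans h2
    rcases (app_iff hac).1 hv with h | h
    · exact absurd h hw
    · exact ih ((hP.plc h).2.2.mono (le_refl a) (by omega))

theorem CNet.Conn.app {I W : Type} [Fintype I] [DecidableEq I] [DecidableEq W] {N : CNet I W}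
    (hN : N.Conn) {P : ℕ → Finset (I ⊕ W)} (hP : N.Legal P) (a c : ℕ) (J : Finset I)
    (hJ : ∀ j ∈ J, App P a c (Sum.inr (N.out j))) (h : (P a).card < J.card) :
    ∃ X : Finset I, Fintype.card I ≤ X.card + (P a).card ∧
      ∀ x ∈ X, App P a c (Sum.inl x) := by
  classical
  refine ⟨Finset.univ.filter (fun x => App P a c (Sum.inl x)), ?_, ?_⟩
  · by_contra hlt
    push Not at hlt
    set X : Finset I := Finset.univ.filter (fun x => App P a c (Sum.inl x)) with hX
    have h1 : Xᶜ.card = Fintype.card I - X.card := Finset.card_compl X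
    obtain ⟨x, hx, y, hy, hp⟩ := hN (P a) Xᶜ J (by omega) h
    have h2 := pl7_path hP a c hp (hJ y hy)
    rw [Finset.mem_compl, hX, Finset.mem_filter] at hx
    exact hx ⟨Finset.mem_univ x, h2⟩
  · intro x hx
    exact (Finset.mem_filter.1 hx).2

end Pool.Agent.BoolCirc
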