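import Pool.Agent.NegThr.RMDefs

/-!
Definitions for the strong lower bound: pebbling of directed acyclic graphs, the lifted pebbling
function, families of pebble configurations, connection nets and recursive graphs.
-/

namespace Pool.Agent.BoolCirc

/-- a directed acyclic graph: each vertex is a source or has two predecessors of smaller rank -/
structure PDag (V : Type) where
  /-- predecessors -/
  pr : V → Option (V × V)
  /-- rank -/
  rk : V → ℕ
  rk_lt : ∀ v p, pr v = some p → rk p.1 < rk v ∧ rk p.2 < rk v

/-- the predecessors of `v` are in `P` -/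
def PDag.Ready {V : Type} (G : PDag V) (P : Finset V) (v : V) : Prop :=
  ∀ p, G.pr v = some p → p.1 ∈ P ∧ p.2 ∈ P

/-- in each step, any vertices whose predecessors carried pebbles receive pebbles, and any pebbles
are removed -/
def PDag.Legal {V : Type} (G : PDag V) (P : ℕ → Finset V) : Prop :=
  ∀ τ, ∀ v ∈ P (τ + 1), v ∈ P τ ∨ G.Ready (P τ) v

/-- clauses of a graph with the target `t`: `none` is violated if `t` is true; `some u` is violated
if `u` is false and its predecessors are true -/
def dcl {V : Type} [DecidableEq V] (G : PDag V) (t : V) : Option V → V → Option Bool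
  | none, v => if v = t then some true else none
  | some u, v => if v = u then some false
      else if ∃ p, p ∈ G.pr u ∧ (v = p.1 ∨ v = p.2) then some true else none

/-- variables of the lifted function -/
abbrev DVar (V : Type) (m : ℕ) : Type := (V × Fin m × Fin m × Fin m) ⊕ Fin m

/-- the fact `(v, a)` can be derived by the rules in `w` -/
inductive Derives {V : Type} {m : ℕ} (G : PDag V) (w : DVar V m → Bool) : V → Fin m → Prop
  | src (v : V) (a a₁ a₂ : Fin m) : G.pr v = none → w (Sum.inl (v, a, a₁, a₂)) = true →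
      Derives G w v a
  | node (v : V) (a a₁ a₂ : Fin m) (p : V × V) : G.pr v = some p →
      w (Sum.inl (v, a, a₁, a₂)) = true → Derives G w p.1 a₁ → Derives G w p.2 a₂ →
      Derives G w v a

open Classical in
/-- the lifted function: a goal at the target can be derived -/
noncomputable def dgad {V : Type} {m : ℕ} (G : PDag V) (t : V) (w : DVar V m → Bool) : Bool :=
  decide (∃ a, w (Sum.inr a) = true ∧ Derives G w t a)

/-- a family of configurations with at most `q` pebbles, closed under single moves, which contains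
the empty one and in which `t` never carries a pebble -/
def PebFam {V : Type} [DecidableEq V] (G : PDag V) (t : V) (q : ℕ) (R : Finset (Finset V)) :
    Prop :=
  ∅ ∈ R ∧ (∀ P ∈ R, t ∉ P ∧ P.card ≤ q) ∧
    ∀ P v, v ∉ P → G.Ready P v → P.card + 1 ≤ q → (P ∈ R ↔ insert v P ∈ R)

/-- the matrix of a family of configurations -/
def pmat {V : Type} [Fintype V] [DecidableEq V] {m : ℕ} (R : Finset (Finset V)) :
    Matrix (V → Fin m) (V → Fin m → Bool) ℚ :=
  fun x y => ∑ P ∈ R, ∏ v ∈ Pᶜ, ((if y v (x v) = true then (1 : ℚ) else 0) - 1)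

/-- on the rectangle `A × B`, the matrix is a sum of at most `r` products -/
def Fac {X Y : Type} (M : Matrix X Y ℚ) (r : ℕ) (A : Set X) (B : Set Y) : Prop :=
  ∃ (ι : Type) (_ : Fintype ι) (f : X → ι → ℚ) (g : ι → Y → ℚ), Fintype.card ι ≤ r ∧
    ∀ x ∈ A, ∀ y ∈ B, M x y = ∑ i, f x i * g i y

/-! ### Nets -/

/-- a graph with inputs `I` and inner nodes `W`; each inner node has two predecessors; the inner
node `out i` is output `i` -/
structure CNet (I W : Type) where
  /-- predecessors -/
  pr : W → (I ⊕ W) × (I ⊕ W)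
  /-- rank -/
  rk : W → ℕ
  /-- bound for the ranks -/
  bd : ℕ
  rk_lt_bd : ∀ w, rk w < bd
  rk_lt₁ : ∀ w w', (pr w).1 = Sum.inr w' → rk w' < rk w
  rk_lt₂ : ∀ w w', (pr w).2 = Sum.inr w' → rk w' < rk w
  /-- outputs -/
  out : I → W
  out_inj : Function.Injective out

section nets

variable {I W : Type}

/-- pebbling of a net; there is no condition on the inputs -/
def CNet.Legal (N : CNet I W) (P : ℕ → Finset (I ⊕ W)) : Prop :=
  ∀ τ w, Sum.inr w ∈ P (τ + 1) → Sum.inr w ∈ P τ ∨ ((N.pr w).1 ∈ P τ ∧ (N.pr w).2 ∈ P τ)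

/-- `v` carries a pebble at some time in the interval from `a` to `c` -/
def App {V : Type} (P : ℕ → Finset V) (a c : ℕ) (v : V) : Prop := ∃ τ, a ≤ τ ∧ τ ≤ c ∧ v ∈ P τ

/-- `v` receives a pebble at some time in the interval from `a + 1` to `c` -/
def Plc {V : Type} (P : ℕ → Finset V) (a c : ℕ) (v : V) : Prop :=
  ∃ τ, a ≤ τ ∧ τ < c ∧ v ∉ P τ ∧ v ∈ P (τ + 1)

/-- there is a path from `u` to `v` which avoids `B` -/
inductive CNet.Path (N : CNet I W) (B : Finset (I ⊕ W)) (u : I ⊕ W) : I ⊕ W → Prop
  | refl : u ∉ B → CNet.Path N B u u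
  | left (w : W) : CNet.Path N B u (N.pr w).1 → Sum.inr w ∉ B → CNet.Path N B u (Sum.inr w)
  | right (w : W) : CNet.Path N B u (N.pr w).2 → Sum.inr w ∉ B → CNet.Path N B u (Sum.inr w)

/-- fewer blocked nodes than inputs and outputs do not separate them -/
def CNet.Conn (N : CNet I W) : Prop :=
  ∀ (B : Finset (I ⊕ W)) (X Y : Finset I), B.card < X.card → B.card < Y.card →
    ∃ x ∈ X, ∃ y ∈ Y, N.Path B (Sum.inl x) (Sum.inr (N.out y))

/-- output `i` has the predecessor input `i` -/
def CNet.Direct (N : CNet I W) : Prop := ∀ i, (N.pr (N.out i)).1 = Sum.inl i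

/-- the pebbling property with parameter `e` -/
def CNet.Peb (N : CNet I W) (e : ℕ) : Prop :=
  ∀ P : ℕ → Finset (I ⊕ W), N.Legal P → ∀ (a c : ℕ) (J : Finset I), a ≤ c →
    (P a).card ≤ 2 * e → 12 * e ≤ J.card → (∀ j ∈ J, App P a c (Sum.inr (N.out j))) →
    ∃ (a' c' : ℕ) (J' : Finset I), a ≤ a' ∧ a' ≤ c' ∧ c' ≤ c ∧ 18 * e ≤ J'.card ∧
      (∀ j ∈ J', Plc P a' c' (Sum.inl j)) ∧ ∀ τ, a' < τ → τ ≤ c' → e ≤ (P τ).card

end nets

/-- index types -/
def Ix : ℕ → Type
  | 0 => Unit
  | k + 1 => Ix k × Bool

instance Ix.instFintype : (k : ℕ) → Fintype (Ix k)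
  | 0 => inferInstanceAs (Fintype Unit)
  | k + 1 => @instFintypeProd (Ix k) Bool (Ix.instFintype k) inferInstance

instance Ix.instDecidableEq : (k : ℕ) → DecidableEq (Ix k)
  | 0 => inferInstanceAs (DecidableEq Unit)
  | k + 1 => @instDecidableEqProd (Ix k) Bool (Ix.instDecidableEq k) inferInstance

theorem Ix.card (k : ℕ) : Fintype.card (Ix k) = 2 ^ k := by
  induction k with
  | zero => rfl
  | succ k ih =>
    have h : Fintype.card (Ix (k + 1)) = Fintype.card (Ix k × Bool) := rfl
    rw [h, Fintype.card_prod, ih, Fintype.card_bool, pow_succ]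

/-- the net with one input and one output -/
def net0 : CNet Unit Unit where
  pr _ := (Sum.inl (), Sum.inl ())
  rk _ := 0
  bd := 1
  rk_lt_bd _ := Nat.one_pos
  rk_lt₁ _ _ h := by simp at h
  rk_lt₂ _ _ h := by simp at h
  out := id
  out_inj := Function.injective_id

/-- nodes of the doubled net: two copies of the net, and the outputs -/
abbrev DblW (I W : Type) : Type := (Bool × (I ⊕ W)) ⊕ (I × Bool)

/-- two copies of the net between `I × Bool` inputs and outputs -/
def CNet.dbl {I W : Type} (N : CNet I W) : CNet (I × Bool) (DblW I W) where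
  pr
    | Sum.inl (_, Sum.inl j) => (Sum.inl (j, false), Sum.inl (j, true))
    | Sum.inl (b, Sum.inr w) =>
        (Sum.inr (Sum.inl (b, (N.pr w).1)), Sum.inr (Sum.inl (b, (N.pr w).2)))
    | Sum.inr (j, _) =>
        (Sum.inr (Sum.inl (false, Sum.inr (N.out j))), Sum.inr (Sum.inl (true, Sum.inr (N.out j))))
  rk
    | Sum.inl (_, Sum.inl _) => 0
    | Sum.inl (_, Sum.inr w) => N.rk w + 1
    | Sum.inr _ => N.bd + 1
  bd := N.bd + 2
  rk_lt_bd := by
    rintro (⟨b, j | w⟩ | ⟨j, b⟩)
    · simp
    · have := N.rk_lt_bd w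
      simp only
      omega
    · simp
  rk_lt₁ := by
    rintro (⟨b, j | w⟩ | ⟨j, b⟩) w' h
    · simp at h
    · simp only [Sum.inr.injEq] at h
      subst h
      rcases hp : (N.pr w).1 with j | w'
      · simp
      · have := N.rk_lt₁ w w' hp
        simp only
        omega
    · simp only [Sum.inr.injEq] at h
      subst h
      have := N.rk_lt_bd (N.out j)
      simp only
      omega
  rk_lt₂ := by
    rintro (⟨b, j | w⟩ | ⟨j, b⟩) w' h
    · simp at h
    · simp only [Sum.inr.injEq] at h
      subst h
      rcases hp : (N.pr w).2 with j | w'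
      · simp
      · have := N.rk_lt₂ w w' hp
        simp only
        omega
    · simp only [Sum.inr.injEq] at h
      subst h
      have := N.rk_lt_bd (N.out j)
      simp only
      omega
  out p := Sum.inr p
  out_inj := Sum.inr_injective

/-- nodes of the recursive net: four parts with inputs, and the outputs -/
inductive PtcW (I WC WG : Type) : Type
  | c1 (x : I ⊕ WC) : PtcW I WC WG
  | g1 (x : I ⊕ WG) : PtcW I WC WG
  | g2 (x : I ⊕ WG) : PtcW I WC WG
  | c2 (x : I ⊕ WC) : PtcW I WC WG
  | t (x : I × Bool) : PtcW I WC WG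

namespace PtcW

variable {I WC WG : Type}

/-- as a sum -/
def toSum : PtcW I WC WG →
    ((I ⊕ WC) ⊕ (I ⊕ WG)) ⊕ (((I ⊕ WG) ⊕ (I ⊕ WC)) ⊕ (I × Bool))
  | c1 x => Sum.inl (Sum.inl x)
  | g1 x => Sum.inl (Sum.inr x)
  | g2 x => Sum.inr (Sum.inl (Sum.inl x))
  | c2 x => Sum.inr (Sum.inl (Sum.inr x))
  | t x => Sum.inr (Sum.inr x)

/-- from a sum -/
def ofSum : ((I ⊕ WC) ⊕ (I ⊕ WG)) ⊕ (((I ⊕ WG) ⊕ (I ⊕ WC)) ⊕ (I × Bool)) → PtcW I WC WG
  | Sum.inl (Sum.inl x) => c1 x
  | Sum.inl (Sum.inr x) => g1 x
  | Sum.inr (Sum.inl (Sum.inl x)) => g2 x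
  | Sum.inr (Sum.inl (Sum.inr x)) => c2 x
  | Sum.inr (Sum.inr x) => t x

/-- the nodes as a sum -/
def equivSum : PtcW I WC WG ≃
    ((I ⊕ WC) ⊕ (I ⊕ WG)) ⊕ (((I ⊕ WG) ⊕ (I ⊕ WC)) ⊕ (I × Bool)) where
  toFun := toSum
  invFun := ofSum
  left_inv x := by cases x <;> rfl
  right_inv x := by rcases x with (x | x) | ((x | x) | x) <;> rfl

instance instFintype [Fintype I] [Fintype WC] [Fintype WG] : Fintype (PtcW I WC WG) :=
  Fintype.ofEquiv _ equivSum.symm

instance instDecidableEq [DecidableEq I] [DecidableEq WC] [DecidableEq WG] :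
    DecidableEq (PtcW I WC WG) := equivSum.decidableEq

theorem card_eq [Fintype I] [Fintype WC] [Fintype WG] : Fintype.card (PtcW I WC WG) =
    6 * Fintype.card I + 2 * Fintype.card WC + 2 * Fintype.card WG := by
  rw [Fintype.card_congr (equivSum (I := I) (WC := WC) (WG := WG))]
  simp only [Fintype.card_sum, Fintype.card_prod, Fintype.card_bool]
  ring

end PtcW

/-- the recursive construction: the inputs in pairs feed the net `C`, whose outputs feed `G`, whose
outputs feed a second copy of `G`, whose outputs feed a second copy of `C`; output `(j, b)` has the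
predecessors input `(j, b)` and output `j` of the second copy of `C` -/
def CNet.ptc {I WC WG : Type} (C : CNet I WC) (G : CNet I WG) : CNet (I × Bool) (PtcW I WC WG) where
  pr
    | PtcW.c1 (Sum.inl j) => (Sum.inl (j, false), Sum.inl (j, true))
    | PtcW.c1 (Sum.inr w) => (Sum.inr (PtcW.c1 (C.pr w).1), Sum.inr (PtcW.c1 (C.pr w).2))
    | PtcW.g1 (Sum.inl j) =>
        (Sum.inr (PtcW.c1 (Sum.inr (C.out j))), Sum.inr (PtcW.c1 (Sum.inr (C.out j))))
    | PtcW.g1 (Sum.inr w) => (Sum.inr (PtcW.g1 (G.pr w).1), Sum.inr (PtcW.g1 (G.pr w).2))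
    | PtcW.g2 (Sum.inl j) =>
        (Sum.inr (PtcW.g1 (Sum.inr (G.out j))), Sum.inr (PtcW.g1 (Sum.inr (G.out j))))
    | PtcW.g2 (Sum.inr w) => (Sum.inr (PtcW.g2 (G.pr w).1), Sum.inr (PtcW.g2 (G.pr w).2))
    | PtcW.c2 (Sum.inl j) =>
        (Sum.inr (PtcW.g2 (Sum.inr (G.out j))), Sum.inr (PtcW.g2 (Sum.inr (G.out j))))
    | PtcW.c2 (Sum.inr w) => (Sum.inr (PtcW.c2 (C.pr w).1), Sum.inr (PtcW.c2 (C.pr w).2))
    | PtcW.t (j, b) => (Sum.inl (j, b), Sum.inr (PtcW.c2 (Sum.inr (C.out j))))
  rk
    | PtcW.c1 (Sum.inl _) => 0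
    | PtcW.c1 (Sum.inr w) => C.rk w + 1
    | PtcW.g1 (Sum.inl _) => C.bd + 1
    | PtcW.g1 (Sum.inr w) => C.bd + 2 + G.rk w
    | PtcW.g2 (Sum.inl _) => C.bd + 2 + G.bd
    | PtcW.g2 (Sum.inr w) => C.bd + 3 + G.bd + G.rk w
    | PtcW.c2 (Sum.inl _) => C.bd + 3 + G.bd + G.bd
    | PtcW.c2 (Sum.inr w) => C.bd + 4 + G.bd + G.bd + C.rk w
    | PtcW.t _ => C.bd + 4 + G.bd + G.bd + C.bd
  bd := C.bd + 5 + G.bd + G.bd + C.bd
  rk_lt_bd := by
    rintro (x | x | x | x | x)
    · rcases x with j | w
      · simp only; omega
      · have := C.rk_lt_bd w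
        simp only; omega
    · rcases x with j | w
      · simp only; omega
      · have := G.rk_lt_bd w
        simp only; omega
    · rcases x with j | w
      · simp only; omega
      · have := G.rk_lt_bd w
        simp only; omega
    · rcases x with j | w
      · simp only; omega
      · have := C.rk_lt_bd w
        simp only; omega
    · simp only; omega
  rk_lt₁ := by
    rintro (x | x | x | x | x) w' h
    · rcases x with j | w
      · simp at h
      · simp only [Sum.inr.injEq] at h
        subst h
        rcases hp : (C.pr w).1 with j | w'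
        · simp
        · have := C.rk_lt₁ w w' hp
          simp only; omega
    · rcases x with j | w
      · simp only [Sum.inr.injEq] at h
        subst h
        have := C.rk_lt_bd (C.out j)
        simp only; omega
      · simp only [Sum.inr.injEq] at h
        subst h
        rcases hp : (G.pr w).1 with j | w'
        · simp only; omega
        · have := G.rk_lt₁ w w' hp
          simp only; omega
    · rcases x with j | w
      · simp only [Sum.inr.injEq] at h
        subst h
        have := G.rk_lt_bd (G.out j)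
        simp only; omega
      · simp only [Sum.inr.injEq] at h
        subst h
        rcases hp : (G.pr w).1 with j | w'
        · simp only; omega
        · have := G.rk_lt₁ w w' hp
          simp only; omega
    · rcases x with j | w
      · simp only [Sum.inr.injEq] at h
        subst h
        have := G.rk_lt_bd (G.out j)
        simp only; omega
      · simp only [Sum.inr.injEq] at h
        subst h
        rcases hp : (C.pr w).1 with j | w'
        · simp only; omega
        · have := C.rk_lt₁ w w' hp
          simp only; omega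
    · simp at h
  rk_lt₂ := by
    rintro (x | x | x | x | x) w' h
    · rcases x with j | w
      · simp at h
      · simp only [Sum.inr.injEq] at h
        subst h
        rcases hp : (C.pr w).2 with j | w'
        · simp
        · have := C.rk_lt₂ w w' hp
          simp only; omega
    · rcases x with j | w
      · simp only [Sum.inr.injEq] at h
        subst h
        have := C.rk_lt_bd (C.out j)
        simp only; omega
      · simp only [Sum.inr.injEq] at h
        subst h
        rcases hp : (G.pr w).2 with j | w'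
        · simp only; omega
        · have := G.rk_lt₂ w w' hp
          simp only; omega
    · rcases x with j | w
      · simp only [Sum.inr.injEq] at h
        subst h
        have := G.rk_lt_bd (G.out j)
        simp only; omega
      · simp only [Sum.inr.injEq] at h
        subst h
        rcases hp : (G.pr w).2 with j | w'
        · simp only; omega
        · have := G.rk_lt₂ w w' hp
          simp only; omega
    · rcases x with j | w
      · simp only [Sum.inr.injEq] at h
        subst h
        have := G.rk_lt_bd (G.out j)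
        simp only; omega
      · simp only [Sum.inr.injEq] at h
        subst h
        rcases hp : (C.pr w).2 with j | w'
        · simp only; omega
        · have := C.rk_lt₂ w w' hp
          simp only; omega
    · obtain ⟨j, b⟩ := x
      simp only [Sum.inr.injEq] at h
      subst h
      have := C.rk_lt_bd (C.out j)
      simp only; omega
  out p := PtcW.t p
  out_inj := by
    intro p p' h
    injection h

/-- the first net of the recursion: an extra node below each input of `C`, and outputs -/
abbrev Ptc0W (I WC : Type) : Type := (I ⊕ WC) ⊕ I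

/-- the first net of the recursion -/
def CNet.ptc0 {I WC : Type} (C : CNet I WC) : CNet I (Ptc0W I WC) where
  pr
    | Sum.inl (Sum.inl j) => (Sum.inl j, Sum.inl j)
    | Sum.inl (Sum.inr w) => (Sum.inr (Sum.inl (C.pr w).1), Sum.inr (Sum.inl (C.pr w).2))
    | Sum.inr j => (Sum.inl j, Sum.inr (Sum.inl (Sum.inr (C.out j))))
  rk
    | Sum.inl (Sum.inl _) => 0
    | Sum.inl (Sum.inr w) => C.rk w + 1
    | Sum.inr _ => C.bd + 1
  bd := C.bd + 2
  rk_lt_bd := by
    rintro ((j | w) | j)
    · simp
    · have := C.rk_lt_bd w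
      simp only; omega
    · simp
  rk_lt₁ := by
    rintro ((j | w) | j) w' h
    · simp at h
    · simp only [Sum.inr.injEq] at h
      subst h
      rcases hp : (C.pr w).1 with j | w'
      · simp
      · have := C.rk_lt₁ w w' hp
        simp only; omega
    · simp at h
  rk_lt₂ := by
    rintro ((j | w) | j) w' h
    · simp at h
    · simp only [Sum.inr.injEq] at h
      subst h
      rcases hp : (C.pr w).2 with j | w'
      · simp
      · have := C.rk_lt₂ w w' hp
        simp only; omega
    · simp only [Sum.inr.injEq] at h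
      subst h
      have := C.rk_lt_bd (C.out j)
      simp only; omega
  out j := Sum.inr j
  out_inj := Sum.inr_injective

/-- the net with a chain over the nodes `o 0`, ..., `o n`; the last node of the chain is the
target -/
def CNet.chain {I W : Type} (N : CNet I W) (n : ℕ) (o : ℕ → W) : PDag ((I ⊕ W) ⊕ Fin (n + 1)) where
  pr
    | Sum.inl (Sum.inl _) => none
    | Sum.inl (Sum.inr w) => some (Sum.inl (N.pr w).1, Sum.inl (N.pr w).2)
    | Sum.inr ⟨0, _⟩ => some (Sum.inl (Sum.inr (o 0)), Sum.inl (Sum.inr (o 0)))
    | Sum.inr ⟨k + 1, h⟩ => some (Sum.inr ⟨k, Nat.lt_of_succ_lt h⟩, Sum.inl (Sum.inr (o (k + 1))))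
  rk
    | Sum.inl (Sum.inl _) => 0
    | Sum.inl (Sum.inr w) => N.rk w + 1
    | Sum.inr k => N.bd + 1 + k.1
  rk_lt := by
    rintro ((i | w) | ⟨k, hk⟩) p hp
    · simp at hp
    · simp only [Option.some.injEq] at hp
      subst hp
      constructor
      · rcases hq : (N.pr w).1 with j | w'
        · simp
        · have := N.rk_lt₁ w w' hq
          simp only; omega
      · rcases hq : (N.pr w).2 with j | w'
        · simp
        · have := N.rk_lt₂ w w' hq
          simp only; omega
    · rcases k with _ | k
      · simp only [Option.some.injEq] at hp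
        subst hp
        have := N.rk_lt_bd (o 0)
        simp only
        omega
      · simp only [Option.some.injEq] at hp
        subst hp
        have := N.rk_lt_bd (o (k + 1))
        simp only
        omega

end Pool.Agent.BoolCirc
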