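import Pool.Agent.NegThr.B1

/-!
Double rail construction; the inputs read by a circuit.
-/

namespace Pool.Agent.BoolCirc

theorem card_isInput_le {n i : ℕ} (o : Src n i) :
    (Finset.univ.filter (fun v : Fin n => o.isInput v = true)).card ≤ 1 := by
  rw [Finset.card_le_one]
  intro a ha b hb
  cases o with
  | input j =>
    simp only [Src.isInput, decide_eq_true_eq, Finset.mem_filter, Finset.mem_univ, true_and]
      at ha hb
    rw [← ha, ← hb]
  | const b => simp [Src.isInput] at ha
  | gate j => simp [Src.isInput] at ha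

theorem card_operands_le {n i : ℕ} (g : Gate n i) :
    (Finset.univ.filter (fun v : Fin n => ∃ o ∈ g.operands, o.isInput v = true)).card ≤ 2 := by
  cases g with
  | and a b =>
    refine (Finset.card_le_card (t := Finset.univ.filter (fun v : Fin n => a.isInput v = true) ∪
      Finset.univ.filter (fun v : Fin n => b.isInput v = true)) ?_).trans ?_
    · intro v hv
      simpa [Gate.operands] using hv
    · refine (Finset.card_union_le _ _).trans ?_
      have h1 := card_isInput_le a
      have h2 := card_isInput_le b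
      omega
  | or a b =>
    refine (Finset.card_le_card (t := Finset.univ.filter (fun v : Fin n => a.isInput v = true) ∪
      Finset.univ.filter (fun v : Fin n => b.isInput v = true)) ?_).trans ?_
    · intro v hv
      simpa [Gate.operands] using hv
    · refine (Finset.card_union_le _ _).trans ?_
      have h1 := card_isInput_le a
      have h2 := card_isInput_le b
      omega
  | not a =>
    refine (Finset.card_le_card (t := Finset.univ.filter
      (fun v : Fin n => a.isInput v = true)) ?_).trans ?_
    · intro v hv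
      simpa [Gate.operands] using hv
    · have h1 := card_isInput_le a
      omega

/-- the number of inputs read is at most twice the number of gates (plus one for the output) -/
theorem card_reads_le {n : ℕ} (C : Circuit n) : C.reads.card ≤ 2 * C.size + 1 := by
  have hsub : C.reads ⊆ Finset.univ.filter (fun v => C.out.isInput v = true) ∪
      (Finset.univ : Finset (Fin C.size)).biUnion (fun i => Finset.univ.filter
        (fun v : Fin n => ∃ o ∈ (C.gate i).operands, o.isInput v = true)) := by
    intro v hv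
    simp only [Circuit.reads, Finset.mem_filter, Finset.mem_univ, true_and] at hv
    simp only [Finset.mem_union, Finset.mem_filter, Finset.mem_univ, true_and,
      Finset.mem_biUnion]
    exact hv
  refine (Finset.card_le_card hsub).trans ((Finset.card_union_le _ _).trans ?_)
  have h1 := card_isInput_le C.out
  have h2 := Finset.card_biUnion_le_card_mul (Finset.univ : Finset (Fin C.size))
    (fun i => Finset.univ.filter
        (fun v : Fin n => ∃ o ∈ (C.gate i).operands, o.isInput v = true)) 2
    (fun i _ => card_operands_le (C.gate i))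
  rw [Finset.card_univ, Fintype.card_fin] at h2
  omega

theorem mem_reads_out {n : ℕ} {C : Circuit n} {v : Fin n} (h : C.out.isInput v = true) :
    v ∈ C.reads := by
  simp only [Circuit.reads, Finset.mem_filter, Finset.mem_univ, true_and]
  exact Or.inl h

theorem mem_reads_gate {n : ℕ} {C : Circuit n} {v : Fin n} (i : Fin C.size)
    {o : Src n i} (ho : o ∈ (C.gate i).operands) (h : o.isInput v = true) :
    v ∈ C.reads := by
  simp only [Circuit.reads, Finset.mem_filter, Finset.mem_univ, true_and]
  exact Or.inr ⟨i, o, ho, h⟩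

theorem src_eval_congr {n i : ℕ} (o : Src n i) {x y : Fin n → Bool} {v w : Fin i → Bool}
    (h : ∀ j, o.isInput j = true → x j = y j) (h' : ∀ j, v j = w j) : o.eval x v = o.eval y w := by
  cases o with
  | input j => exact h j (by simp [Src.isInput])
  | const b => rfl
  | gate j => exact h' j

theorem val_congr_reads {n : ℕ} (C : Circuit n) {x y : Fin n → Bool}
    (h : ∀ i ∈ C.reads, x i = y i) : ∀ (i : ℕ) (hi : i < C.size),
      C.val x ⟨i, hi⟩ = C.val y ⟨i, hi⟩ := by
  intro i
  induction i using Nat.strong_induction_on with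
  | _ i ih =>
    intro hi
    rw [Circuit.val, Circuit.val]
    have key : ∀ o ∈ (C.gate ⟨i, hi⟩).operands,
        o.eval x (fun j => C.val x ⟨j.1, j.2.trans hi⟩) =
        o.eval y (fun j => C.val y ⟨j.1, j.2.trans hi⟩) := by
      intro o ho
      exact src_eval_congr o (fun j hj => h j (mem_reads_gate ⟨i, hi⟩ ho hj))
        (fun j => ih j.1 j.2 (j.2.trans hi))
    cases hg : C.gate ⟨i, hi⟩ with
    | and a b =>
      rw [hg] at key
      simp only [Gate.eval]
      rw [key a (by simp [Gate.operands]), key b (by simp [Gate.operands])]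
    | or a b =>
      rw [hg] at key
      simp only [Gate.eval]
      rw [key a (by simp [Gate.operands]), key b (by simp [Gate.operands])]
    | not a =>
      rw [hg] at key
      simp only [Gate.eval]
      rw [key a (by simp [Gate.operands])]

/-- the value depends only on the inputs that are read -/
theorem eval_congr_reads {n : ℕ} (C : Circuit n) {x y : Fin n → Bool}
    (h : ∀ i ∈ C.reads, x i = y i) : C.eval x = C.eval y := by
  unfold Circuit.eval
  exact src_eval_congr _ (fun j hj => h j (mem_reads_out hj))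
    (fun j => val_congr_reads C h j.1 j.2)

/-- the two rails of a node -/
theorem rail_src {n m : ℕ} (C : Circuit n) (E' : Circuit m) (P Q : Fin n → (Fin m → Bool) → Bool)
    (e : ℕ) (hP : ∀ i ∈ C.reads, Avail E' (P i) e) (hQ : ∀ i ∈ C.reads, Avail E' (Q i) e)
    (i : ℕ) (hi : i ≤ C.size) (F G : ℕ → (Fin m → Bool) → Bool)
    (hF : ∀ j (hj : j < C.size), j < i → Avail E' (F j) (e + C.gateDepth ⟨j, hj⟩) ∧
      Avail E' (G j) (e + C.gateDepth ⟨j, hj⟩) ∧
      ∀ x, (∀ v ∈ C.reads, Q v x = ! P v x) → F j x = C.val (fun v => P v x) ⟨j, hj⟩ ∧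
        G j x = ! C.val (fun v => P v x) ⟨j, hj⟩)
    (o : Src n i) (ho : ∀ v, o.isInput v = true → v ∈ C.reads) :
    ∃ A B : (Fin m → Bool) → Bool,
      Avail E' A (e + o.depth (fun j => C.gateDepth ⟨j.1, j.2.trans_le hi⟩)) ∧
      Avail E' B (e + o.depth (fun j => C.gateDepth ⟨j.1, j.2.trans_le hi⟩)) ∧
      ∀ x, (∀ v ∈ C.reads, Q v x = ! P v x) →
        A x = o.eval (fun v => P v x) (fun j => C.val (fun v => P v x) ⟨j.1, j.2.trans_le hi⟩) ∧
        B x = ! o.eval (fun v => P v x)
          (fun j => C.val (fun v => P v x) ⟨j.1, j.2.trans_le hi⟩) := by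
  cases o with
  | input j =>
    have hj : j ∈ C.reads := ho j (by simp [Src.isInput])
    exact ⟨P j, Q j, hP j hj, hQ j hj, fun x hx => ⟨rfl, hx j hj⟩⟩
  | const b =>
    exact ⟨fun _ => b, fun _ => !b, Avail.const _ _ _, Avail.const _ _ _, fun x hx => ⟨rfl, rfl⟩⟩
  | gate j =>
    obtain ⟨h1, h2, h3⟩ := hF j.1 (j.2.trans_le hi) j.2
    exact ⟨F j.1, G j.1, h1, h2, h3⟩

theorem rail_gates {n m : ℕ} (C : Circuit n) (E : Circuit m)
    (P Q : Fin n → (Fin m → Bool) → Bool)
    (e : ℕ) (hP : ∀ i ∈ C.reads, Avail E (P i) e) (hQ : ∀ i ∈ C.reads, Avail E (Q i) e) :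
    ∀ i ≤ C.size, ∃ (E' : Circuit m) (F G : ℕ → (Fin m → Bool) → Bool), ExtN (2 * i) 0 E E' ∧
      ∀ j (hj : j < C.size), j < i → Avail E' (F j) (e + C.gateDepth ⟨j, hj⟩) ∧
      Avail E' (G j) (e + C.gateDepth ⟨j, hj⟩) ∧
      ∀ x, (∀ v ∈ C.reads, Q v x = ! P v x) → F j x = C.val (fun v => P v x) ⟨j, hj⟩ ∧
        G j x = ! C.val (fun v => P v x) ⟨j, hj⟩ := by
  intro i
  induction i with
  | zero =>
    intro _
    exact ⟨E, fun _ _ => false, fun _ _ => false, ExtN.refl E, fun j _ h => absurd h (by omega)⟩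
  | succ i ih =>
    intro hi
    obtain ⟨E1, F, G, hE, hF⟩ := ih (by omega)
    have hi' : i < C.size := by omega
    -- enough: the two rails of gate number `i`
    have main : ∃ (E2 : Circuit m) (A B : (Fin m → Bool) → Bool), ExtN 2 0 E1 E2 ∧
        Avail E2 A (e + C.gateDepth ⟨i, hi'⟩) ∧ Avail E2 B (e + C.gateDepth ⟨i, hi'⟩) ∧
        ∀ x, (∀ v ∈ C.reads, Q v x = ! P v x) → A x = C.val (fun v => P v x) ⟨i, hi'⟩ ∧
          B x = ! C.val (fun v => P v x) ⟨i, hi'⟩ := by
      have src : ∀ o ∈ (C.gate ⟨i, hi'⟩).operands, ∃ A B : (Fin m → Bool) → Bool,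
          Avail E1 A (e + o.depth (fun j => C.gateDepth ⟨j.1, j.2.trans hi'⟩)) ∧
          Avail E1 B (e + o.depth (fun j => C.gateDepth ⟨j.1, j.2.trans hi'⟩)) ∧
          ∀ x, (∀ v ∈ C.reads, Q v x = ! P v x) →
            A x = o.eval (fun v => P v x) (fun j => C.val (fun v => P v x) ⟨j.1, j.2.trans hi'⟩) ∧
            B x = ! o.eval (fun v => P v x)
              (fun j => C.val (fun v => P v x) ⟨j.1, j.2.trans hi'⟩) := by
        intro o ho
        exact rail_src C E1 P Q e (fun v hv => hE.1 _ _ (hP v hv)) (fun v hv => hE.1 _ _ (hQ v hv))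
          i hi'.le F G hF o (fun v hv => mem_reads_gate ⟨i, hi'⟩ ho hv)
      cases hg : C.gate ⟨i, hi'⟩ with
      | and a b =>
        rw [hg] at src
        obtain ⟨A1, B1, h1, h2, h3⟩ := src a (by simp [Gate.operands])
        obtain ⟨A2, B2, h4, h5, h6⟩ := src b (by simp [Gate.operands])
        obtain ⟨E2, hE2, h7⟩ := extN_and h1 h4
        obtain ⟨E3, hE3, h8⟩ := extN_or (hE2.1 _ _ h2) (hE2.1 _ _ h5)
        refine ⟨E3, _, _, hE2.trans hE3, hE3.1 _ _ (h7.mono ?_), h8.mono ?_, ?_⟩
        · rw [Circuit.gateDepth, hg]; simp only [Gate.depth]; omega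
        · rw [Circuit.gateDepth, hg]; simp only [Gate.depth]; omega
        · intro x hx
          obtain ⟨e1, e2⟩ := h3 x hx
          obtain ⟨e3, e4⟩ := h6 x hx
          rw [Circuit.val, hg]
          simp only [Gate.eval]
          rw [e1, e2, e3, e4]
          simp only [Bool.not_and, and_self]
      | or a b =>
        rw [hg] at src
        obtain ⟨A1, B1, h1, h2, h3⟩ := src a (by simp [Gate.operands])
        obtain ⟨A2, B2, h4, h5, h6⟩ := src b (by simp [Gate.operands])
        obtain ⟨E2, hE2, h7⟩ := extN_or h1 h4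
        obtain ⟨E3, hE3, h8⟩ := extN_and (hE2.1 _ _ h2) (hE2.1 _ _ h5)
        refine ⟨E3, _, _, hE2.trans hE3, hE3.1 _ _ (h7.mono ?_), h8.mono ?_, ?_⟩
        · rw [Circuit.gateDepth, hg]; simp only [Gate.depth]; omega
        · rw [Circuit.gateDepth, hg]; simp only [Gate.depth]; omega
        · intro x hx
          obtain ⟨e1, e2⟩ := h3 x hx
          obtain ⟨e3, e4⟩ := h6 x hx
          rw [Circuit.val, hg]
          simp only [Gate.eval]
          rw [e1, e2, e3, e4]
          simp only [Bool.not_or, and_self]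
      | not a =>
        rw [hg] at src
        obtain ⟨A1, B1, h1, h2, h3⟩ := src a (by simp [Gate.operands])
        refine ⟨E1, B1, A1, (ExtN.refl E1).weaken (by omega) le_rfl, h2.mono ?_, h1.mono ?_, ?_⟩
        · rw [Circuit.gateDepth, hg]; simp only [Gate.depth]; omega
        · rw [Circuit.gateDepth, hg]; simp only [Gate.depth]; omega
        · intro x hx
          obtain ⟨e1, e2⟩ := h3 x hx
          rw [Circuit.val, hg]
          simp only [Gate.eval]
          rw [e1, e2]
          simp only [Bool.not_not, and_self]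
    obtain ⟨E2, A, B, hE2, hA, hB, hAB⟩ := main
    refine ⟨E2, Function.update F i A, Function.update G i B,
      (hE.trans hE2).weaken (by omega) (by omega), ?_⟩
    intro j hj hji
    rcases Nat.lt_succ_iff_lt_or_eq.1 hji with h | rfl
    · obtain ⟨h1, h2, h3⟩ := hF j hj h
      rw [Function.update_of_ne (by omega), Function.update_of_ne (by omega)]
      exact ⟨hE2.1 _ _ h1, hE2.1 _ _ h2, h3⟩
    · rw [Function.update_self, Function.update_self]
      exact ⟨hA, hB, hAB⟩

theorem extN_rail {n m : ℕ} (C : Circuit n) (E : Circuit m) (P Q : Fin n → (Fin m → Bool) → Bool)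
    (e : ℕ) (hP : ∀ i ∈ C.reads, Avail E (P i) e) (hQ : ∀ i ∈ C.reads, Avail E (Q i) e) :
    ∃ (E' : Circuit m) (F G : (Fin m → Bool) → Bool), ExtN (2 * C.size) 0 E E' ∧
      Avail E' F (e + C.depth) ∧ Avail E' G (e + C.depth) ∧
      ∀ x, (∀ i ∈ C.reads, Q i x = ! P i x) →
        F x = C.eval (fun i => P i x) ∧ G x = ! C.eval (fun i => P i x) := by
  obtain ⟨E1, F, G, hE, hF⟩ := rail_gates C E P Q e hP hQ C.size le_rfl
  obtain ⟨A, B, h1, h2, h3⟩ := rail_src C E1 P Q e (fun v hv => hE.1 _ _ (hP v hv))
    (fun v hv => hE.1 _ _ (hQ v hv)) C.size le_rfl F G hF C.out (fun v hv => mem_reads_out hv)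
  exact ⟨E1, A, B, hE, h1, h2, h3⟩

end Pool.Agent.BoolCirc
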