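import Pool.Agent.NegThr.RMDefs

/-!
The adversary for the pyramid: the search problem of the clauses `pcl` needs more than `H`
queries.
-/

namespace Pool.Agent.BoolCirc

/-- paths down the pyramid; `p j` is the number of the node in row `j` -/
def PPath (p : ℕ → ℕ) : Prop := p 0 = 0 ∧ ∀ j, p (j + 1) = p j ∨ p (j + 1) = p j + 1

theorem PPath.mono {p : ℕ → ℕ} (h : PPath p) {i j : ℕ} (hij : i ≤ j) : p i ≤ p j := by
  obtain ⟨k, rfl⟩ := Nat.exists_eq_add_of_le hij
  clear hij
  induction k with
  | zero => exact le_rfl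
  | succ k ih => rcases h.2 (i + k) with h1 | h1 <;> rw [← add_assoc] <;> omega

theorem PPath.lip {p : ℕ → ℕ} (h : PPath p) {i j : ℕ} (hij : i ≤ j) : p j + i ≤ p i + j := by
  obtain ⟨k, rfl⟩ := Nat.exists_eq_add_of_le hij
  clear hij
  induction k with
  | zero => exact le_rfl
  | succ k ih => rcases h.2 (i + k) with h1 | h1 <;> rw [← add_assoc] <;> omega

theorem PPath.le {p : ℕ → ℕ} (h : PPath p) (j : ℕ) : p j ≤ j := by
  have := h.lip (Nat.zero_le j)
  have := h.1
  omega

/-- the node `a` in row `j` -/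
def pnd (H j a : ℕ) : PNode H := (Fin.ofNat (H + 1) j, Fin.ofNat (H + 1) a)

theorem pnd_fst {H j a : ℕ} (hj : j ≤ H) : (pnd H j a).1.1 = j := by
  simp [pnd, Fin.ofNat, Nat.mod_eq_of_lt (Nat.lt_succ_of_le hj)]

theorem pnd_snd {H j a : ℕ} (ha : a ≤ H) : (pnd H j a).2.1 = a := by
  simp [pnd, Fin.ofNat, Nat.mod_eq_of_lt (Nat.lt_succ_of_le ha)]

theorem pnd_inj {H j a j' a' : ℕ} (hj : j ≤ H) (ha : a ≤ H) (hj' : j' ≤ H) (ha' : a' ≤ H)
    (h : pnd H j a = pnd H j' a') : j = j' ∧ a = a' := by
  constructor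
  · rw [← pnd_fst (a := a) hj, ← pnd_fst (a := a') hj', h]
  · rw [← pnd_snd (j := j) ha, ← pnd_snd (j := j') ha', h]

/-- a path avoiding the set `O` -/
def POpen (H : ℕ) (O : Finset (PNode H)) (p : ℕ → ℕ) : Prop :=
  PPath p ∧ ∀ j ≤ H, pnd H j (p j) ∉ O

/-- the path which follows `p` up to row `j`, takes the other step there and goes straight on -/
def pdev (p : ℕ → ℕ) (j k : ℕ) : ℕ :=
  if k ≤ j then p k else if p (j + 1) = p j then p j + (k - j) else p j

theorem pdev_le {p : ℕ → ℕ} {j k : ℕ} (hk : k ≤ j) : pdev p j k = p k := by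
  unfold pdev; rw [if_pos hk]

theorem pdev_diag {p : ℕ → ℕ} {j k : ℕ} (hk : j < k) (h1 : p (j + 1) = p j) :
    pdev p j k = p j + (k - j) := by
  unfold pdev; rw [if_neg (by omega), if_pos h1]

theorem pdev_col {p : ℕ → ℕ} {j k : ℕ} (hk : j < k) (h1 : p (j + 1) ≠ p j) :
    pdev p j k = p j := by
  unfold pdev; rw [if_neg (by omega), if_neg h1]

theorem pdev_path {p : ℕ → ℕ} (h : PPath p) (j : ℕ) : PPath (pdev p j) := by
  refine ⟨by simp [pdev, h.1], fun k => ?_⟩
  by_cases h1 : p (j + 1) = p j
  · rcases lt_trichotomy k j with hk | hk | hk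
    · rw [pdev_le (by omega), pdev_le (by omega)]
      exact h.2 k
    · subst hk
      rw [pdev_le le_rfl, pdev_diag (by omega) h1]
      right; omega
    · rw [pdev_diag (by omega) h1, pdev_diag (by omega) h1]
      right; omega
  · rcases lt_trichotomy k j with hk | hk | hk
    · rw [pdev_le (by omega), pdev_le (by omega)]
      exact h.2 k
    · subst hk
      rw [pdev_le le_rfl, pdev_col (by omega) h1]
      left; rfl
    · rw [pdev_col (by omega) h1, pdev_col (by omega) h1]
      left; rfl

theorem pdev_gt {p : ℕ → ℕ} (h : PPath p) {j k : ℕ} (hjk : j < k) (h1 : p (j + 1) = p j) :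
    p k < pdev p j k := by
  rw [pdev_diag hjk h1]
  have := h.lip (i := j + 1) (j := k) hjk
  omega

theorem pdev_lt {p : ℕ → ℕ} (h : PPath p) {j k : ℕ} (hjk : j < k) (h1 : p (j + 1) ≠ p j) :
    pdev p j k < p k := by
  rw [pdev_col hjk h1]
  have h2 := h.mono (i := j + 1) (j := k) hjk
  rcases h.2 j with h3 | h3
  · exact absurd h3 h1
  · omega

theorem pdev_ne {p : ℕ → ℕ} (h : PPath p) {j k : ℕ} (hjk : j < k) : pdev p j k ≠ p k := by
  by_cases h1 : p (j + 1) = p j
  · exact (pdev_gt h hjk h1).ne'
  · exact (pdev_lt h hjk h1).ne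

theorem pdev_inj {p : ℕ → ℕ} (h : PPath p) {j j' k : ℕ} (hjj : j < j') (hjk : j' < k) :
    pdev p j k ≠ pdev p j' k := by
  by_cases h1 : p (j + 1) = p j
  · by_cases h2 : p (j' + 1) = p j'
    · rw [pdev_diag (hjj.trans hjk) h1, pdev_diag hjk h2]
      have := h.lip (i := j + 1) (j := j') hjj
      omega
    · exact ((pdev_lt h hjk h2).trans (pdev_gt h (hjj.trans hjk) h1)).ne'
  · by_cases h2 : p (j' + 1) = p j'
    · exact ((pdev_lt h (hjj.trans hjk) h1).trans (pdev_gt h hjk h2)).ne
    · rw [pdev_col (hjj.trans hjk) h1, pdev_col hjk h2]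
      have h3 := h.mono (i := j + 1) (j := j') hjj
      rcases h.2 j with h4 | h4
      · exact absurd h4 h1
      · omega

/-- If all paths avoiding `O` end in the same node of row `H`, then `O` has at least `H`
elements. -/
theorem card_of_forced {H : ℕ} (O : Finset (PNode H)) (p : ℕ → ℕ) (hp : POpen H O p)
    (hall : ∀ p', POpen H O p' → p' H = p H) : H ≤ O.card := by
  have key : ∀ j, j < H → ∃ k, j < k ∧ k ≤ H ∧ pnd H k (pdev p j k) ∈ O := by
    intro j hj
    by_contra hcon
    push Not at hcon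
    have h1 : POpen H O (pdev p j) := by
      refine ⟨pdev_path hp.1 j, fun k hk => ?_⟩
      by_cases hkj : k ≤ j
      · have : pdev p j k = p k := by simp [pdev, hkj]
        rw [this]
        exact hp.2 k hk
      · exact hcon k (by omega) hk
    exact pdev_ne hp.1 hj (hall _ h1)
  choose! κ hκ1 hκ2 hκ3 using key
  have hinj : Set.InjOn (fun j => pnd H (κ j) (pdev p j (κ j))) (Finset.range H : Set ℕ) := by
    have haux : ∀ j j', j < H → j' < H → j < j' →
        pnd H (κ j) (pdev p j (κ j)) ≠ pnd H (κ j') (pdev p j' (κ j')) := by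
      intro j j' hj hj' hjj heq
      have h1 := pnd_inj (hκ2 j hj) (((pdev_path hp.1 j).le _).trans (hκ2 j hj)) (hκ2 j' hj')
        (((pdev_path hp.1 j').le _).trans (hκ2 j' hj')) heq
      have h2 := h1.2
      rw [h1.1] at h2
      exact pdev_inj hp.1 hjj (hκ1 j' hj') h2
    intro j hj j' hj' heq
    simp only [Finset.coe_range, Set.mem_Iio] at hj hj'
    rcases lt_trichotomy j j' with h | h | h
    · exact absurd heq (haux j j' hj hj' h)
    · exact h
    · exact absurd heq.symm (haux j' j hj' hj h)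
  have hmaps : ∀ j ∈ Finset.range H, (fun j => pnd H (κ j) (pdev p j (κ j))) j ∈ O := by
    intro j hj
    exact hκ3 j (Finset.mem_range.1 hj)
  have := Finset.card_le_card_of_injOn _ hmaps hinj
  simpa using this

/-- the nodes which are fixed to be true -/
def ones {H : ℕ} (I : Finset (PNode H)) (ρ : PNode H → Bool) : Finset (PNode H) :=
  Finset.univ.filter (fun v => v ∉ I ∧ ρ v = true)

theorem mem_ones {H : ℕ} {I : Finset (PNode H)} {ρ : PNode H → Bool} {v : PNode H} :
    v ∈ ones I ρ ↔ v ∉ I ∧ ρ v = true := by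
  simp [ones]

/-- the invariant of the adversary -/
def PInv {H : ℕ} (I : Finset (PNode H)) (ρ : PNode H → Bool) : Prop :=
  (∃ p, POpen H (ones I ρ) p) ∧
  ∀ v, v ∉ I → ρ v = false → ∀ p, POpen H (ones I ρ) p → ∃ j < H, v = pnd H j (p j)

theorem PInv.safe {H : ℕ} {I : Finset (PNode H)} {ρ : PNode H → Bool} (h : PInv I ρ) :
    Safe (pcl (H := H)) I ρ := by
  obtain ⟨⟨p, hp⟩, hb⟩ := h
  intro c
  cases c with
  | none =>
    refine ⟨(0, 0), true, by simp [pcl], ?_⟩
    have h0 := hp.2 0 (Nat.zero_le H)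
    rw [hp.1.1] at h0
    have h1 : pnd H 0 0 = (0, 0) := rfl
    rw [h1, mem_ones] at h0
    by_cases h2 : ((0, 0) : PNode H) ∈ I
    · exact Or.inl h2
    · exact Or.inr (fun h3 => h0 ⟨h2, h3⟩)
  | some u =>
    by_cases hu : u ∈ I
    · exact ⟨u, false, by simp [pcl], Or.inl hu⟩
    by_cases hu' : ρ u = true
    · exact ⟨u, false, by simp [pcl], Or.inr (by simp [hu'])⟩
    have hu2 : ρ u = false := by simpa using hu'
    obtain ⟨j, hj, huj⟩ := hb u hu hu2 p hp
    refine ⟨pnd H (j + 1) (p (j + 1)), true, ?_, ?_⟩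
    · have hne : pnd H (j + 1) (p (j + 1)) ≠ u := by
        intro h
        rw [huj] at h
        have h1 := pnd_inj (by omega) ((hp.1.le _).trans (by omega)) (by omega)
          ((hp.1.le _).trans (by omega)) h
        omega
      have hadd : ∀ a, a < H → (Fin.ofNat (H + 1) (a + 1)) = Fin.ofNat (H + 1) a + 1 := by
        intro a ha
        apply Fin.ext
        have h1 : (Fin.ofNat (H + 1) a) < Fin.last H := by
          rw [Fin.lt_def]
          simp [Fin.ofNat, Nat.mod_eq_of_lt (by omega : a < H + 1), ha]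
        rw [Fin.val_add_one_of_lt h1]
        simp [Fin.ofNat, Nat.mod_eq_of_lt (by omega : a < H + 1),
          Nat.mod_eq_of_lt (by omega : a + 1 < H + 1)]
      have hc : u.1.1 < H ∧ (pnd H (j + 1) (p (j + 1))).1 = u.1 + 1 ∧
          ((pnd H (j + 1) (p (j + 1))).2 = u.2 ∨
            (pnd H (j + 1) (p (j + 1))).2 = u.2 + 1) := by
        rw [huj]
        refine ⟨?_, ?_, ?_⟩
        · rw [pnd_fst (by omega)]
          exact hj
        · exact hadd j hj
        · rcases hp.1.2 j with h1 | h1
          · left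
            rw [h1]
            rfl
          · right
            rw [h1]
            exact hadd (p j) (lt_of_le_of_lt (hp.1.le j) hj)
      simp only [pcl]
      rw [if_neg hne, if_pos hc]
    · have h0 := hp.2 (j + 1) (by omega)
      rw [mem_ones] at h0
      by_cases h2 : pnd H (j + 1) (p (j + 1)) ∈ I
      · exact Or.inl h2
      · exact Or.inr (fun h3 => h0 ⟨h2, h3⟩)

theorem POpen.anti {H : ℕ} {O O' : Finset (PNode H)} (h : O ⊆ O') {p : ℕ → ℕ}
    (hp : POpen H O' p) : POpen H O p :=
  ⟨hp.1, fun j hj hm => hp.2 j hj (h hm)⟩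

theorem adv_of_inv {H : ℕ} (q : ℕ) : ∀ (I : Finset (PNode H)) (ρ : PNode H → Bool),
    PInv I ρ → q + Iᶜ.card ≤ H → Adv (pcl (H := H)) q I ρ := by
  induction q with
  | zero => intro I ρ h _; exact h.safe
  | succ q ih =>
    intro I ρ h hcard
    refine ⟨h.safe, fun v hv => ?_⟩
    have hc' : (I.erase v)ᶜ.card = Iᶜ.card + 1 := by
      rw [Finset.compl_erase, Finset.card_insert_of_notMem (by simpa using hv)]
    by_cases hex : ∃ p, POpen H (insert v (ones I ρ)) p
    · refine ⟨true, ih _ _ ?_ (by omega)⟩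
      have ho : ones (I.erase v) (Function.update ρ v true) = insert v (ones I ρ) := by
        ext w
        rw [Finset.mem_insert, mem_ones, mem_ones]
        by_cases hw : w = v
        · subst hw; simp
        · simp [hw]
      refine ⟨by rw [ho]; exact hex, ?_⟩
      intro w hw hw2 p hp
      rw [ho] at hp
      have hwv : w ≠ v := by
        rintro rfl
        simp at hw2
      rw [Function.update_of_ne hwv] at hw2
      have hwI : w ∉ I := by
        intro h1
        exact hw (Finset.mem_erase.2 ⟨hwv, h1⟩)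
      exact h.2 w hwI hw2 p (hp.anti (Finset.subset_insert _ _))
    · refine ⟨false, ih _ _ ?_ (by omega)⟩
      have ho : ones (I.erase v) (Function.update ρ v false) = ones I ρ := by
        ext w
        rw [mem_ones, mem_ones]
        by_cases hw : w = v
        · subst hw; simp [hv]
        · simp [hw]
      have hthru : ∀ p, POpen H (ones I ρ) p → ∃ j ≤ H, v = pnd H j (p j) := by
        intro p hp
        by_contra hcon
        push Not at hcon
        refine hex ⟨p, hp.1, fun j hj hm => ?_⟩
        rw [Finset.mem_insert] at hm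
        rcases hm with hm | hm
        · exact hcon j hj hm.symm
        · exact hp.2 j hj hm
      refine ⟨by rw [ho]; exact h.1, ?_⟩
      intro w hw hw2 p hp
      rw [ho] at hp
      by_cases hwv : w = v
      · subst hwv
        obtain ⟨j, hj, hjv⟩ := hthru p hp
        refine ⟨j, ?_, hjv⟩
        by_contra hlt
        have hjH : j = H := by omega
        subst hjH
        have h1 : j ≤ (ones I ρ).card := by
          refine card_of_forced (ones I ρ) p hp (fun p' hp' => ?_)
          obtain ⟨k, hk, hkv⟩ := hthru p' hp'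
          have h2 := pnd_inj hk ((hp'.1.le _).trans hk) le_rfl (hp.1.le _)
            (hkv.symm.trans hjv)
          have h3 := h2.2
          rw [h2.1] at h3
          exact h3
        have h2 : (ones I ρ).card ≤ Iᶜ.card := by
          apply Finset.card_le_card
          intro w hw
          rw [mem_ones] at hw
          simpa using hw.1
        omega
      · rw [Function.update_of_ne hwv] at hw2
        have hwI : w ∉ I := by
          intro h1
          exact hw (Finset.mem_erase.2 ⟨hwv, h1⟩)
        exact h.2 w hwI hw2 p hp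

theorem pyramid_adv (H : ℕ) : Adv (pcl (H := H)) H Finset.univ (fun _ => false) := by
  apply adv_of_inv
  · refine ⟨⟨fun _ => 0, ⟨⟨rfl, fun _ => Or.inl rfl⟩, ?_⟩⟩, ?_⟩
    · intro j _ hm
      rw [mem_ones] at hm
      exact hm.1 (Finset.mem_univ _)
    · intro v hv
      exact absurd (Finset.mem_univ v) hv
  · simp

end Pool.Agent.BoolCirc
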