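import Pool.Agent.BoolCirc.Pad
import Pool.Agent.NegThr.M
import Pool.Agent.NegThr.RM8a

/-!
Module RM8b: the polynomial lower bound for the depth of circuits with few NOT gates.
-/

namespace Pool.Agent.BoolCirc

/-- nothing can be derived without rules -/
theorem gad_const_false (H p : ℕ) : gad H p (fun _ => false) = false := by
  unfold gad
  rw [decide_eq_false_iff_not]
  rintro ⟨a, h, -⟩
  exact Bool.false_ne_true h

/-- the lower bound for one circuit -/
theorem depth_lower_rm_aux {m k t H : ℕ} (hH : 1 ≤ H) (hm : m + 2 = 2 ^ (t + 1))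
    (emb : RVar H ((H + 1) ^ 40) → Fin k) (hemb : Function.Injective emb)
    (p : (Fin m → Bool) → Bool) (hp : ∀ j ≤ m, p (stair j) = decide (Odd j))
    (D : Circuit (m + k))
    (hD : ∀ x y, D.eval (Fin.append x y) =
      (p x || gad H ((H + 1) ^ 40) (fun e => y (emb e)))) (hn : D.nots ≤ t) :
    H ≤ D.depth := by
  classical
  obtain ⟨F, hF1, hF2⟩ := markov_mono t D hn hm.ge
    (fun y => gad H ((H + 1) ^ 40) (fun e => y (emb e))) (gad_const_false _ _)
    (fun j hj y => by rw [hD, hp j hj])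
  set g : Fin k → MF (RVar H ((H + 1) ^ 40)) := fun i =>
    if h : ∃ e, emb e = i then MF.inp h.choose else MF.cst false with hgdef
  have hg0 : ∀ i, (g i).depth ≤ 0 := by
    intro i
    simp only [hgdef]
    split_ifs
    · exact le_rfl
    · exact le_rfl
  have hge : ∀ (E : RVar H ((H + 1) ^ 40) → Bool) e, (g (emb e)).eval E = E e := by
    intro E e
    have h : ∃ e', emb e' = emb e := ⟨e, rfl⟩
    simp only [hgdef]
    rw [dif_pos h]
    show E h.choose = E e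
    rw [hemb h.choose_spec]
  have h2 := gad_lower H hH (F.bind g) (fun E => by
    rw [MF.eval_bind, hF2]
    congr 1
    funext e
    exact hge E e)
  have h3 := MF.depth_bind_le g 0 hg0 F
  omega

theorem rm_numeric {H : ℕ} (hH : 1000 ≤ H) : 3 * (H + 2) ^ 123 ≤ H ^ 124 := by
  have h1 : (500 * (H + 2)) ^ 123 ≤ (501 * H) ^ 123 := Nat.pow_le_pow_left (by omega) 123
  rw [mul_pow, mul_pow] at h1
  have h2 : 3 * 501 ^ 123 ≤ 500 ^ 123 * 1000 := by norm_num
  have h3 : 500 ^ 123 * (3 * (H + 2) ^ 123) ≤ 500 ^ 123 * H ^ 124 := by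
    calc 500 ^ 123 * (3 * (H + 2) ^ 123) = 3 * (500 ^ 123 * (H + 2) ^ 123) := by ring
      _ ≤ 3 * (501 ^ 123 * H ^ 123) := Nat.mul_le_mul_left 3 h1
      _ = (3 * 501 ^ 123) * H ^ 123 := by ring
      _ ≤ (500 ^ 123 * 1000) * H ^ 123 := Nat.mul_le_mul_right _ h2
      _ ≤ (500 ^ 123 * H) * H ^ 123 :=
        Nat.mul_le_mul_right _ (Nat.mul_le_mul_left _ hH)
      _ = 500 ^ 123 * H ^ 124 := by ring
  exact Nat.le_of_mul_le_mul_left h3 (by positivity)

theorem threshold_lower_rm : ∃ n₀ : ℕ, ∀ n ≥ n₀, ∀ t : ℕ, 3 * 2 ^ t ≤ n →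
    ∃ C : Circuit n, 2 ≤ C.size ∧ C.size ≤ 100 * n ∧ C.nots ≤ t ∧
      ∀ D : Circuit n, (∀ x, D.eval x = C.eval x) → D.nots ≤ t → n ≤ D.depth ^ 124 := by
  refine ⟨3 * 1001 ^ 123, ?_⟩
  intro n hn t ht
  obtain ⟨m, hm⟩ : ∃ m, m + 2 = 2 ^ (t + 1) := ⟨2 ^ (t + 1) - 2, by
    have : 2 ^ 1 ≤ 2 ^ (t + 1) := Nat.pow_le_pow_right (by norm_num) (by omega)
    omega⟩
  have hm2 : m + 2 = 2 * 2 ^ t := by rw [hm, pow_succ]; ring
  obtain ⟨k, rfl⟩ : ∃ k, n = m + k := ⟨n - m, by omega⟩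
  have hk3 : m + k ≤ 3 * k := by omega
  have hk0 : 1001 ^ 123 ≤ k := Nat.le_of_mul_le_mul_left (hn.trans hk3) (by norm_num)
  obtain ⟨H, hH1, hH2, hH3⟩ : ∃ H, 1000 ≤ H ∧ (H + 1) ^ 123 ≤ k ∧ k < (H + 2) ^ 123 := by
    have hex : ∃ a, k < (a + 2) ^ 123 := ⟨k, by
      calc k < k + 2 := by omega
        _ = (k + 2) ^ 1 := (pow_one _).symm
        _ ≤ (k + 2) ^ 123 := Nat.pow_le_pow_right (by omega) (by norm_num)⟩
    classical
    refine ⟨Nat.find hex, ?_, ?_, Nat.find_spec hex⟩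
    · by_contra hlt
      push Not at hlt
      have h1 := Nat.find_spec hex
      have h2 : (Nat.find hex + 2) ^ 123 ≤ 1001 ^ 123 := Nat.pow_le_pow_left (by omega) 123
      exact absurd (h1.trans_le (h2.trans hk0)) (lt_irrefl _)
    · by_contra hlt
      push Not at hlt
      rcases Nat.eq_zero_or_pos (Nat.find hex) with h0 | h0
      · rw [h0] at hlt
        have h2 : (0 + 1) ^ 123 ≤ 1001 ^ 123 := Nat.pow_le_pow_left (by omega) 123
        exact absurd (hlt.trans_le (h2.trans hk0)) (lt_irrefl _)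
      · have h3 := Nat.find_min' hex (m := Nat.find hex - 1) (by
          rw [show Nat.find hex - 1 + 2 = Nat.find hex + 1 by omega]
          exact hlt)
        omega
  have hcard : (H + 1) ^ 2 * ((H + 1) ^ 40) ^ 3 + (H + 1) ^ 40 ≤ k := by
    refine le_trans ?_ hH2
    have e1 : (H + 1) ^ 40 ≤ (H + 1) ^ 122 := Nat.pow_le_pow_right (by omega) (by norm_num)
    have e2 : (H + 1) ^ 2 * ((H + 1) ^ 40) ^ 3 = (H + 1) ^ 122 := by
      rw [← pow_mul, ← pow_add]
    rw [e2]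
    calc (H + 1) ^ 122 + (H + 1) ^ 40 ≤ (H + 1) ^ 122 + (H + 1) ^ 122 := by omega
      _ = 2 * (H + 1) ^ 122 := by ring
      _ ≤ (H + 1) * (H + 1) ^ 122 := Nat.mul_le_mul_right _ (by omega)
      _ = (H + 1) ^ 123 := by rw [← pow_succ']
  obtain ⟨emb⟩ : Nonempty (RVar H ((H + 1) ^ 40) ↪ Fin k) := by
    apply Function.Embedding.nonempty_of_card_le
    have e1 : Fintype.card (RVar H ((H + 1) ^ 40)) =
        (H + 1) ^ 2 * ((H + 1) ^ 40) ^ 3 + (H + 1) ^ 40 := by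
      simp only [RVar, PNode, Fintype.card_sum, Fintype.card_prod, Fintype.card_fin]
      ring
    rw [e1, Fintype.card_fin]
    exact hcard
  obtain ⟨C, p, hp, hC, hCn, hCs⟩ := hard_circuit_rm m k t H ((H + 1) ^ 40) hm emb
  have key : ∀ D : Circuit (m + k), (∀ x, D.eval x = C.eval x) → D.nots ≤ t →
      H ≤ D.depth := fun D hD hDn =>
    depth_lower_rm_aux (by omega) hm emb emb.injective p hp D (fun x y => by rw [hD, hC]) hDn
  refine ⟨C, ?_, ?_, hCn, ?_⟩
  · have := key C (fun _ => rfl) hCn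
    have h3 := C.depth_le_size
    omega
  · have h4 : 4 * ((H + 1) ^ 2 * ((H + 1) ^ 40) ^ 3 + (H + 1) ^ 40) ≤ 4 * k :=
      Nat.mul_le_mul_left 4 hcard
    have h5 : 1 ≤ k := le_trans (by norm_num) hk0
    omega
  · intro D hD hDn
    have h5 := key D hD hDn
    calc m + k ≤ 3 * k := hk3
      _ ≤ 3 * (H + 2) ^ 123 := Nat.mul_le_mul_left 3 hH3.le
      _ ≤ H ^ 124 := rm_numeric hH1
      _ ≤ D.depth ^ 124 := Nat.pow_le_pow_left h5 124

end Pool.Agent.BoolCirc
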