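import Pool.Agent.NegThr.Defs

/-!
Definitions for the simulation theorem of Raz and McKenzie with the index gadget: clauses, the
adversary, the lifted search problem, the pyramid and its monotone function.
-/

namespace Pool.Agent.BoolCirc

section general

variable {V Cl : Type}

/-- the assignment `z` violates the clause `c`; a clause is given by the assignment to some of the
variables which it forbids -/
def Viol (c : V → Option Bool) (z : V → Bool) : Prop := ∀ v b, c v = some b → z v = b

/-- no clause is falsified; `I` is the set of free variables, `ρ` gives the values of the others -/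
def Safe (cl : Cl → V → Option Bool) (I : Finset V) (ρ : V → Bool) : Prop :=
  ∀ c, ∃ v b, cl c v = some b ∧ (v ∈ I ∨ ρ v ≠ b)

/-- the adversary survives `q` queries; `I` is the set of free variables, `ρ` gives the values of
the others -/
def Adv [DecidableEq V] (cl : Cl → V → Option Bool) : ℕ → Finset V → (V → Bool) → Prop
  | 0, I, ρ => Safe cl I ρ
  | q + 1, I, ρ => Safe cl I ρ ∧
      ∀ v ∈ I, ∃ b, Adv cl q (I.erase v) (Function.update ρ v b)

/-- there is a protocol with `d` bits that finds a clause violated by `v ↦ y v (x v)` for all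
`x ∈ A`, `y ∈ B` -/
def LSolves {m : ℕ} (cl : Cl → V → Option Bool) :
    ℕ → Set (V → Fin m) → Set (V → Fin m → Bool) → Prop
  | 0, A, B => ∃ c, ∀ x ∈ A, ∀ y ∈ B, Viol (cl c) (fun v => y v (x v))
  | d + 1, A, B =>
    (∃ A₁ A₂, A ⊆ A₁ ∪ A₂ ∧ LSolves cl d A₁ B ∧ LSolves cl d A₂ B) ∨
    (∃ B₁ B₂, B ⊆ B₁ ∪ B₂ ∧ LSolves cl d A B₁ ∧ LSolves cl d A B₂)

theorem LSolves.mono {m : ℕ} {cl : Cl → V → Option Bool} {d : ℕ} :
    ∀ {A A' : Set (V → Fin m)} {B B' : Set (V → Fin m → Bool)},
    LSolves cl d A B → A' ⊆ A → B' ⊆ B → LSolves cl d A' B' := by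
  induction d with
  | zero =>
    rintro A A' B B' ⟨i, hi⟩ hA hB
    exact ⟨i, fun u hu v hv => hi u (hA hu) v (hB hv)⟩
  | succ d ih =>
    rintro A A' B B' (⟨A₁, A₂, h, h1, h2⟩ | ⟨B₁, B₂, h, h1, h2⟩) hA hB
    · exact Or.inl ⟨A₁, A₂, hA.trans h, ih h1 subset_rfl hB, ih h2 subset_rfl hB⟩
    · exact Or.inr ⟨B₁, B₂, hB.trans h, ih h1 hA subset_rfl, ih h2 hA subset_rfl⟩

theorem lsolves_empty_left [Nonempty Cl] {m : ℕ} {cl : Cl → V → Option Bool} (d : ℕ)
    (B : Set (V → Fin m → Bool)) : LSolves cl d ∅ B := by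
  induction d with
  | zero => exact ⟨Classical.arbitrary Cl, fun u hu => absurd hu (Set.notMem_empty _)⟩
  | succ d ih => exact Or.inl ⟨∅, ∅, by simp, ih, ih⟩

theorem lsolves_empty_right [Nonempty Cl] {m : ℕ} {cl : Cl → V → Option Bool} (d : ℕ)
    (A : Set (V → Fin m)) : LSolves cl d A ∅ := by
  induction d with
  | zero => exact ⟨Classical.arbitrary Cl, fun u _ v hv => absurd hv (Set.notMem_empty _)⟩
  | succ d ih => exact Or.inr ⟨∅, ∅, by simp, ih, ih⟩

theorem LSolves.succ [Nonempty Cl] {m : ℕ} {cl : Cl → V → Option Bool} {d : ℕ}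
    {A : Set (V → Fin m)} {B : Set (V → Fin m → Bool)} (h : LSolves cl d A B) :
    LSolves cl (d + 1) A B := Or.inl ⟨A, ∅, by simp, h, lsolves_empty_left d B⟩

theorem LSolves.of_le [Nonempty Cl] {m : ℕ} {cl : Cl → V → Option Bool} {d d' : ℕ}
    {A : Set (V → Fin m)} {B : Set (V → Fin m → Bool)} (h : LSolves cl d A B)
    (hd : d ≤ d') : LSolves cl d' A B := by
  induction hd with
  | refl => exact h
  | step _ ih => exact ih.succ

/-- `a` and `a'` agree on `J` -/
def AgreeOn {β : Type} (J : Finset V) (a a' : V → β) : Prop := ∀ v ∈ J, a v = a' v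

instance {β : Type} [DecidableEq β] (J : Finset V) (a a' : V → β) : Decidable (AgreeOn J a a') :=
  inferInstanceAs (Decidable (∀ v ∈ J, a v = a' v))

/-- the restriction of `a` to `J` -/
def msk [DecidableEq V] {β : Type} (J : Finset V) (a : V → β) : V → Option β :=
  fun v => if v ∈ J then some (a v) else none

theorem msk_eq_iff [DecidableEq V] {β : Type} (J : Finset V) (a a' : V → β) :
    msk J a = msk J a' ↔ AgreeOn J a a' := by
  constructor
  · intro h v hv
    have := congrFun h v
    simpa [msk, hv] using this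
  · intro h
    funext v
    by_cases hv : v ∈ J
    · simp [msk, hv, h v hv]
    · simp [msk, hv]

/-- the bits of the second player at the coordinates in `I` -/
def bres {m : ℕ} (I : Finset V) (y : V → Fin m → Bool) : ↥I × Fin m → Bool :=
  fun p => y p.1 p.2

/-- all fibers over the coordinates `I` without `i`, `i ∈ I`, have at least `τ` elements -/
def Thick [DecidableEq V] {m : ℕ} (τ : ℕ) (I : Finset V) (A : Finset (V → Fin m)) : Prop :=
  ∀ i ∈ I, ∀ a ∈ A, τ ≤ (A.filter (fun a' => AgreeOn (I.erase i) a' a)).card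

/-- the coordinates in `I` determine the elements of `A` -/
def Det {m : ℕ} (I : Finset V) (A : Finset (V → Fin m)) : Prop :=
  ∀ a ∈ A, ∀ a' ∈ A, AgreeOn I a a' → a = a'

end general

/-- nodes of the pyramid: `(j, i)` is node `i` of row `j`; the top is `(0, 0)` -/
abbrev PNode (H : ℕ) : Type := Fin (H + 1) × Fin (H + 1)

/-- the clauses of the pyramid: `none` is violated if the top is true; `some u` is violated if `u`
is false and its children `(j + 1, i)`, `(j + 1, i + 1)` are true (no children in row `H`) -/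
def pcl {H : ℕ} : Option (PNode H) → PNode H → Option Bool
  | none, v => if v = (0, 0) then some true else none
  | some u, v => if v = u then some false
      else if u.1.1 < H ∧ v.1 = u.1 + 1 ∧ (v.2 = u.2 ∨ v.2 = u.2 + 1) then some true
      else none

/-- variables of the lifted pyramid function: a rule `(v, a, a₁, a₂)` for each node `v`, pointers
`a` at `v` and `a₁`, `a₂` at its children, and a goal for each pointer at the top -/
abbrev RVar (H m : ℕ) : Type := (PNode H × Fin m × Fin m × Fin m) ⊕ Fin m

/-- the fact `(node i of row H - k, pointer a)` can be derived by the rules in `w` -/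
def der {H m : ℕ} (w : RVar H m → Bool) : ℕ → Fin (H + 1) → Fin m → Bool
  | 0, i, a => decide (∃ a₁ a₂, w (Sum.inl ((Fin.last H, i), a, a₁, a₂)) = true)
  | k + 1, i, a => decide (∃ a₁ a₂,
      w (Sum.inl ((Fin.ofNat (H + 1) (H - (k + 1)), i), a, a₁, a₂)) = true ∧
        der w k i a₁ = true ∧ der w k (i + 1) a₂ = true)

/-- the lifted pyramid function: a goal can be derived -/
def gad (H m : ℕ) (w : RVar H m → Bool) : Bool :=
  decide (∃ a, w (Sum.inr a) = true ∧ der w H 0 a = true)

end Pool.Agent.BoolCirc
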