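import Pool.Agent.NegThr.V
import Pool.Agent.NegThr.R
import Pool.Agent.NegThr.T

/-!
Universality: every Boolean circuit has an equivalent one with at most `clog 2 ((n + 1) / 2 + 1)`
NOT gates, of polynomially larger size and with depth larger by the logarithm of the size only.
-/

namespace Pool.Agent.BoolCirc

/-- iteration over a finite set of functions -/
theorem extN_finset {m : ℕ} {ι : Type} (I : Finset ι) (f : ι → (Fin m → Bool) → Bool)
    (d s t : ℕ) (C : Circuit m)
    (h : ∀ i ∈ I, ∀ C' : Circuit m, Ext C C' →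
      ∃ C'' : Circuit m, ExtN s t C' C'' ∧ Avail C'' (f i) d) :
    ∃ C' : Circuit m, ExtN (I.card * s) (I.card * t) C C' ∧ ∀ i ∈ I, Avail C' (f i) d := by
  classical
  induction I using Finset.induction_on with
  | empty =>
    refine ⟨C, ?_, fun i hi => absurd hi (Finset.notMem_empty i)⟩
    simpa using ExtN.refl C
  | insert a I ha ih =>
    obtain ⟨C1, h1, h2⟩ := ih (fun i hi => h i (Finset.mem_insert_of_mem hi))
    obtain ⟨C2, h3, h4⟩ := h a (Finset.mem_insert_self a I) C1 h1.1
    refine ⟨C2, ?_, ?_⟩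
    · rw [Finset.card_insert_of_notMem ha]
      exact (h1.trans h3).weaken (by ring_nf; exact le_refl _) (by ring_nf; exact le_refl _)
    · intro i hi
      rcases Finset.mem_insert.mp hi with rfl | hi
      · exact h4
      · exact h3.1 _ _ (h2 i hi)

theorem wt_le_card {n : ℕ} (R : Finset (Fin n)) (x : Fin n → Bool) : wt R x ≤ R.card :=
  Finset.card_filter_le _ _

theorem wt_erase_true {n : ℕ} (R : Finset (Fin n)) (x : Fin n → Bool) (i : Fin n) (hi : i ∈ R)
    (hx : x i = true) : wt (R.erase i) x + 1 = wt R x := by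
  unfold wt
  rw [Finset.filter_erase]
  exact Finset.card_erase_add_one (Finset.mem_filter.mpr ⟨hi, hx⟩)

theorem wt_erase_false {n : ℕ} (R : Finset (Fin n)) (x : Fin n → Bool) (i : Fin n)
    (hx : x i = false) : wt (R.erase i) x = wt R x := by
  unfold wt
  rw [Finset.filter_erase, Finset.erase_eq_of_notMem]
  simp [hx]

/-- the slice function: `C` (or its negation) on weight `k`, false below and true above -/
def sliceFn {n : ℕ} (C : Circuit n) (b : Bool) (k : ℕ) (x : Fin n → Bool) : Bool :=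
  decide (k + 1 ≤ wt C.reads x) || (decide (k ≤ wt C.reads x) && (C.eval x ^^ b))

/-- the slice functions are available after adding a double rail -/
theorem extN_slice {n : ℕ} (C E : Circuit n) (e k : ℕ) (b : Bool)
    (h1 : ∀ j ≤ k + 1, Avail E (fun x => decide (j ≤ wt C.reads x)) e)
    (h2 : ∀ i ∈ C.reads, Avail E (fun x => decide (k ≤ wt (C.reads.erase i) x)) e) :
    ∃ E' : Circuit n, ExtN (2 * C.size + 2) 0 E E' ∧
      Avail E' (sliceFn C b k) (e + C.depth + 2) := by
  obtain ⟨E1, F, G, hE, hF, hG, hFG⟩ := extN_rail C E (fun i x => x i)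
    (fun i x => decide (k ≤ wt (C.reads.erase i) x)) e (fun i _ => Avail.input E i e) h2
  have key : ∀ x, wt C.reads x = k → F x = C.eval x ∧ G x = ! C.eval x := by
    intro x hx
    refine hFG x (fun i hi => ?_)
    rcases hxi : x i with _ | _
    · rw [wt_erase_false _ _ _ hxi, hx]; simp
    · have := wt_erase_true C.reads x i hi hxi
      simp only [Bool.not_true, decide_eq_false_iff_not, not_le]
      omega
  set H : (Fin n → Bool) → Bool := if b then G else F with hH
  have hHa : Avail E1 H (e + C.depth) := by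
    rcases b with _ | _
    · simpa [hH] using hF
    · simpa [hH] using hG
  have hHv : ∀ x, wt C.reads x = k → H x = (C.eval x ^^ b) := by
    intro x hx
    rcases b with _ | _
    · simp [hH, (key x hx).1]
    · simp [hH, (key x hx).2]
  obtain ⟨E2, hE2, hA2⟩ := extN_and (hE.1 _ _ (h1 k (Nat.le_succ k))) hHa
  obtain ⟨E3, hE3, hA3⟩ := extN_or (hE2.1 _ _ (hE.1 _ _ (h1 (k + 1) le_rfl))) hA2
  refine ⟨E3, ((hE.trans hE2).trans hE3).weaken (by omega) (by omega), ?_⟩
  refine (hA3.mono ?_).congr ?_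
  · omega
  · intro x
    unfold sliceFn
    rcases lt_trichotomy (wt C.reads x) k with hlt | heq | hgt
    · have h3 : ¬ (k + 1 ≤ wt C.reads x) := by omega
      have h4 : ¬ (k ≤ wt C.reads x) := by omega
      simp [h3, h4]
    · rw [hHv x heq]
    · have h3 : (k + 1 ≤ wt C.reads x) := by omega
      simp [h3]

/-- the chain to be inverted -/
def chainFn {n : ℕ} (C : Circuit n) (i : ℕ) (x : Fin n → Bool) : Bool :=
  decide (2 * i ≤ C.reads.card + 1) && sliceFn C true (2 * i - 1) x

theorem chainFn_chain {n : ℕ} (C : Circuit n) (i j : ℕ) (x : Fin n → Bool) (hi : 1 ≤ i)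
    (hij : i ≤ j) (h : chainFn C j x = true) : chainFn C i x = true := by
  rcases Nat.eq_or_lt_of_le hij with rfl | hlt
  · exact h
  · unfold chainFn sliceFn at h ⊢
    simp only [Bool.and_eq_true, Bool.or_eq_true, decide_eq_true_eq] at h ⊢
    obtain ⟨h1, h2⟩ := h
    have h3 : 2 * j - 1 ≤ wt C.reads x := by
      rcases h2 with h2 | h2
      · omega
      · exact h2.1
    exact ⟨by omega, Or.inl (by omega)⟩

/-- the value of the circuit from the slices -/
theorem eval_eq_or {n : ℕ} (C : Circuit n) (x : Fin n → Bool) :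
    C.eval x = decide (∃ j < C.reads.card / 2 + 1,
      (sliceFn C false (2 * j) x && ! chainFn C (j + 1) x) = true) := by
  have hw := wt_le_card C.reads x
  have key : ∀ j, (sliceFn C false (2 * j) x && ! chainFn C (j + 1) x) =
      (decide (j = wt C.reads x / 2) && C.eval x) := by
    intro j
    unfold chainFn sliceFn
    have e1 : 2 * (j + 1) - 1 = 2 * j + 1 := by omega
    rw [e1]
    rcases lt_trichotomy j (wt C.reads x / 2) with hlt | heq | hgt
    · have a1 : 2 * j + 1 + 1 ≤ wt C.reads x := by omega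
      have a2 : 2 * (j + 1) ≤ C.reads.card + 1 := by omega
      have a3 : j ≠ wt C.reads x / 2 := by omega
      simp [a1, a2, a3]
    · have a3 : decide (j = wt C.reads x / 2) = true := by simpa using heq
      rw [a3, Bool.true_and]
      rcases Nat.even_or_odd' (wt C.reads x) with ⟨u, hu | hu⟩
      · have a4 : j = u := by omega
        subst a4
        have a5 : ¬ (2 * j + 1 ≤ wt C.reads x) := by omega
        have a6 : ¬ (2 * j + 1 + 1 ≤ wt C.reads x) := by omega
        have a7 : 2 * j ≤ wt C.reads x := by omega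
        simp [a5, a6, a7]
      · have a4 : j = u := by omega
        subst a4
        have a5 : (2 * j + 1 ≤ wt C.reads x) := by omega
        have a6 : ¬ (2 * j + 1 + 1 ≤ wt C.reads x) := by omega
        have a7 : 2 * (j + 1) ≤ C.reads.card + 1 := by omega
        simp [a5, a6, a7]
    · have a1 : ¬ (2 * j + 1 ≤ wt C.reads x) := by omega
      have a2 : ¬ (2 * j ≤ wt C.reads x) := by omega
      have a3 : j ≠ wt C.reads x / 2 := by omega
      simp [a1, a2, a3]
  simp only [key]
  rcases hC : C.eval x with _ | _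
  · simp
  · symm
    rw [decide_eq_true_eq]
    exact ⟨wt C.reads x / 2, by omega, by simp⟩

theorem two_pow_clog_le (a : ℕ) (ha : 1 ≤ a) : 2 ^ Nat.clog 2 a ≤ 2 * a := by
  rcases Nat.eq_or_lt_of_le ha with rfl | h
  · simp
  · have h1 := Nat.pow_pred_clog_lt_self (b := 2) (by norm_num) h
    have h2 : 0 < Nat.clog 2 a := Nat.clog_pos (by norm_num) h
    have h3 : Nat.clog 2 a = (Nat.clog 2 a).pred + 1 := by
      rw [Nat.pred_eq_sub_one]; omega
    rw [h3, pow_succ]
    omega

theorem universal : ∃ c : ℕ, ∀ (n : ℕ) (C : Circuit n), 2 ≤ C.size →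
    ∃ C' : Circuit n, (∀ x, C'.eval x = C.eval x) ∧ C'.nots ≤ Nat.clog 2 ((n + 1) / 2 + 1) ∧
      C'.size ≤ C.size ^ c ∧ (C'.depth : ℝ) ≤ C.depth + c * Real.logb 2 C.size := by
  obtain ⟨K, hK⟩ := thr_mf
  refine ⟨4 * K + 18, fun n C hS => ?_⟩
  obtain ⟨S, hSdef⟩ : ∃ S, S = C.size := ⟨_, rfl⟩
  obtain ⟨M, hM⟩ : ∃ M, M = C.reads.card := ⟨_, rfl⟩
  obtain ⟨L, hL⟩ : ∃ L, L = Nat.clog 2 (M + 2) := ⟨_, rfl⟩
  have hMS : M ≤ 2 * S + 1 := by rw [hM, hSdef]; exact card_reads_le C
  have hMn : M ≤ n := by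
    rw [hM]
    exact (Finset.card_le_univ _).trans (by simp)
  rw [← hSdef] at hS ⊢
  -- threshold formulas
  have thr : ∀ (R : Finset (Fin n)) (k : ℕ), R.card ≤ M → ∀ E : Circuit n,
      ∃ E' : Circuit n, ExtN (2 ^ (K * L)) 0 E E' ∧
        Avail E' (fun x => decide (k ≤ wt R x)) (K * L) := by
    intro R k hR E
    obtain ⟨F, hF1, hF2⟩ := hK n R k
    have hF3 : F.depth ≤ K * L := hF1.trans
      (Nat.mul_le_mul_left _ (by rw [hL]; exact Nat.clog_mono_right 2 (by omega)))
    obtain ⟨E', hE1, hE2⟩ := extN_mf F (fun i x => x i) 0 E (fun i => Avail.input E i 0)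
    refine ⟨E', hE1.weaken (Nat.pow_le_pow_right (by norm_num) hF3) le_rfl, ?_⟩
    exact (hE2.mono (by omega)).congr (fun x => (hF2 x).symm)
  -- all thresholds on the set of inputs read
  obtain ⟨E1, hE1, hT1⟩ := extN_finset (Finset.range (M + 2))
    (fun k x => decide (k ≤ wt C.reads x)) (K * L) (2 ^ (K * L)) 0 (Circuit.empty n)
    (fun k _ C' _ => thr C.reads k (by omega) C')
  -- all thresholds with one input left out
  obtain ⟨E2, hE2, hT2⟩ := extN_finset (C.reads ×ˢ Finset.range (M + 1))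
    (fun p x => decide (p.2 ≤ wt (C.reads.erase p.1) x)) (K * L) (2 ^ (K * L)) 0 E1
    (fun p _ C' _ => thr (C.reads.erase p.1) p.2
      ((Finset.card_erase_le).trans (le_of_eq hM.symm)) C')
  -- the slices
  obtain ⟨E3, hE3, hT3⟩ := extN_finset
    ((Finset.univ : Finset Bool) ×ˢ Finset.range (M + 1))
    (fun p => sliceFn C p.1 p.2) (K * L + C.depth + 2) (2 * C.size + 2) 0 E2
    (fun p hp C' hC' => by
      have hp2 : p.2 < M + 1 := Finset.mem_range.mp (Finset.mem_product.mp hp).2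
      refine extN_slice C C' (K * L) p.2 p.1 (fun j hj => ?_) (fun i hi => ?_)
      · exact hC' _ _ (hE2.1 _ _ (hT1 j (Finset.mem_range.mpr (by omega))))
      · exact hC' _ _ (hT2 (i, p.2) (Finset.mem_product.mpr ⟨hi, Finset.mem_range.mpr hp2⟩)))
  -- the inverter
  obtain ⟨q, hq⟩ : ∃ q, q = Nat.clog 2 ((M + 1) / 2 + 1) := ⟨_, rfl⟩
  have hq2 : (M + 1) / 2 + 1 ≤ 2 ^ q := by rw [hq]; exact Nat.le_pow_clog (by norm_num) _
  obtain ⟨E4, hE4, hT4⟩ := extN_inverter q E3 (chainFn C) (K * L + C.depth + 2)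
    (fun i hi _ => by
      by_cases h : 2 * i ≤ C.reads.card + 1
      · refine (hT3 (true, 2 * i - 1) (Finset.mem_product.mpr ⟨Finset.mem_univ _,
          Finset.mem_range.mpr (by omega)⟩)).congr (fun x => ?_)
        simp [chainFn, h]
      · refine (Avail.const E3 false _).congr (fun x => ?_)
        simp [chainFn, h])
    (fun i j x hi hij _ h => chainFn_chain C i j x hi hij h)
  -- the conjunctions
  obtain ⟨E5, hE5, hT5⟩ := extN_finset (Finset.range (M / 2 + 1))
    (fun j x => sliceFn C false (2 * j) x && ! chainFn C (j + 1) x)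
    (K * L + C.depth + 2 + 4 * q + 1) 1 0 E4
    (fun j hj C' hC' => by
      have hj2 : j < M / 2 + 1 := Finset.mem_range.mp hj
      have ha : Avail C' (sliceFn C false (2 * j)) (K * L + C.depth + 2) :=
        hC' _ _ (hE4.1 _ _ (hT3 (false, 2 * j) (Finset.mem_product.mpr ⟨Finset.mem_univ _,
          Finset.mem_range.mpr (by omega)⟩)))
      have hb : Avail C' (fun x => ! chainFn C (j + 1) x) (K * L + C.depth + 2 + 4 * q) := by
        by_cases h : j + 1 < 2 ^ q
        · exact hC' _ _ (hT4 (j + 1) (by omega) h)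
        · refine (Avail.const C' true _).congr (fun x => ?_)
          have : ¬ (2 * (j + 1) ≤ C.reads.card + 1) := by omega
          simp [chainFn, this]
      obtain ⟨E', h1, h2⟩ := extN_and ha hb
      exact ⟨E', h1, h2.mono (by omega)⟩)
  -- the final disjunction
  obtain ⟨p, hp⟩ : ∃ p, p = Nat.clog 2 (M / 2 + 1) := ⟨_, rfl⟩
  have hp2 : M / 2 + 1 ≤ 2 ^ p := by rw [hp]; exact Nat.le_pow_clog (by norm_num) _
  obtain ⟨E6, hE6, hT6⟩ := extN_bigor p (M / 2 + 1) hp2
    (fun j x => sliceFn C false (2 * j) x && ! chainFn C (j + 1) x)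
    (K * L + C.depth + 2 + 4 * q + 1) E5 (fun j hj => hT5 j (Finset.mem_range.mpr hj))
  obtain ⟨C', hC1, hC2, hC3, hC4⟩ := hT6.exists_circuit_nots
  -- bounds
  have b1 : 2 ^ L ≤ S ^ 4 := by
    have h1 : 2 ^ L ≤ 2 * (M + 2) := by rw [hL]; exact two_pow_clog_le _ (by omega)
    have h2 : 8 * S ≤ S ^ 4 := by nlinarith [Nat.pow_le_pow_left hS 3]
    omega
  have b2 : 2 ^ q ≤ S ^ 3 := by
    have h1 : 2 ^ q ≤ 2 * ((M + 1) / 2 + 1) := by rw [hq]; exact two_pow_clog_le _ (by omega)
    have h2 : 4 * S ≤ S ^ 3 := by nlinarith [Nat.pow_le_pow_left hS 2]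
    omega
  have b3 : 2 ^ p ≤ S ^ 3 := by
    have h1 : 2 ^ p ≤ 2 * (M / 2 + 1) := by rw [hp]; exact two_pow_clog_le _ (by omega)
    have h2 : 4 * S ≤ S ^ 3 := by nlinarith [Nat.pow_le_pow_left hS 2]
    omega
  have b4 : 2 ^ (K * L) ≤ S ^ (4 * K) := by
    calc 2 ^ (K * L) = (2 ^ L) ^ K := by rw [← pow_mul, mul_comm]
      _ ≤ (S ^ 4) ^ K := Nat.pow_le_pow_left b1 K
      _ = S ^ (4 * K) := by rw [← pow_mul]
  have hS1 : 1 ≤ S := by omega
  have q4 : 4 * S ≤ S ^ 3 := by nlinarith [Nat.pow_le_pow_left hS 2]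
  refine ⟨C', fun x => ?_, ?_, ?_, ?_⟩
  · rw [hC1 x, eval_eq_or C x, ← hM]
  · have n1 := hE1.2.2
    have n2 := hE2.2.2
    have n3 := hE3.2.2
    have n4 := hE4.2.2
    have n5 := hE5.2.2
    have n6 := hE6.2.2
    have n0 : (Circuit.empty n).nots = 0 := by
      unfold Circuit.nots
      rw [Finset.card_eq_zero, Finset.filter_eq_empty_iff]
      intro i
      exact i.elim0
    have nq : q ≤ Nat.clog 2 ((n + 1) / 2 + 1) := by
      rw [hq]
      exact Nat.clog_mono_right 2 (by omega)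
    simp only [mul_zero, add_zero] at n1 n2 n3 n4 n5 n6
    omega
  · have s1 := hE1.2.1
    have s2 := hE2.2.1
    have s3 := hE3.2.1
    have s4 := hE4.2.1
    have s5 := hE5.2.1
    have s6 := hE6.2.1
    have s0 : (Circuit.empty n).size = 0 := rfl
    simp only [Finset.card_product, Finset.card_range, Finset.card_univ, Fintype.card_bool,
      ← hM, ← hSdef, mul_one] at s1 s2 s3 s4 s5 s6
    set W := S ^ (4 * K + 15) with hW
    have hpow : ∀ a, a ≤ 4 * K + 15 → S ^ a ≤ W := fun a ha => Nat.pow_le_pow_right hS1 ha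
    have t1 : (M + 2) * 2 ^ (K * L) ≤ W := by
      calc (M + 2) * 2 ^ (K * L) ≤ S ^ 3 * S ^ (4 * K) :=
            Nat.mul_le_mul (by omega) b4
        _ = S ^ (3 + 4 * K) := by rw [← pow_add]
        _ ≤ W := hpow _ (by omega)
    have t2 : M * (M + 1) * 2 ^ (K * L) ≤ W := by
      calc M * (M + 1) * 2 ^ (K * L) ≤ S ^ 3 * S ^ 3 * S ^ (4 * K) :=
            Nat.mul_le_mul (Nat.mul_le_mul (by omega) (by omega)) b4
        _ = S ^ (3 + 3 + 4 * K) := by rw [← pow_add, ← pow_add]
        _ ≤ W := hpow _ (by omega)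
    have t3 : 2 * (M + 1) * (2 * S + 2) ≤ W := by
      calc 2 * (M + 1) * (2 * S + 2) ≤ S * S ^ 3 * S ^ 3 :=
            Nat.mul_le_mul (Nat.mul_le_mul hS (by omega)) (by omega)
        _ = S ^ (1 + 3 + 3) := by rw [pow_add, pow_add, pow_one]
        _ ≤ W := hpow _ (by omega)
    have t4 : 4 * 2 ^ q ≤ W := by
      calc 4 * 2 ^ q ≤ S ^ 2 * S ^ 3 := Nat.mul_le_mul (by nlinarith) b2
        _ = S ^ (2 + 3) := by rw [← pow_add]
        _ ≤ W := hpow _ (by omega)
    have t5 : M / 2 + 1 ≤ W := (by omega : M / 2 + 1 ≤ S ^ 3).trans (hpow 3 (by omega))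
    have t6 : 2 ^ p ≤ W := b3.trans (hpow 3 (by omega))
    have t7 : 6 * W ≤ S ^ (4 * K + 18) := by
      have : S ^ (4 * K + 18) = S ^ 3 * W := by rw [hW, ← pow_add]; congr 1; ring
      rw [this]
      exact Nat.mul_le_mul_right _ (by omega)
    omega
  · have hSr : (2 : ℝ) ≤ (S : ℝ) := by exact_mod_cast hS
    have hS0 : (0 : ℝ) < (S : ℝ) := by linarith
    have lam1 : 1 ≤ Real.logb 2 S := by
      have := Real.logb_le_logb_of_le (b := 2) (by norm_num) (by norm_num) hSr
      rwa [Real.logb_self_eq_one (by norm_num)] at this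
    have lg : ∀ a b : ℕ, 2 ^ a ≤ S ^ b → (a : ℝ) ≤ b * Real.logb 2 S := by
      intro a b h
      have h1 : ((2 : ℝ) ^ a) ≤ (S : ℝ) ^ b := by exact_mod_cast h
      have h2 := Real.logb_le_logb_of_le (b := 2) (by norm_num) (by positivity) h1
      rwa [Real.logb_pow, Real.logb_pow, Real.logb_self_eq_one (by norm_num), mul_one] at h2
    have l1 := lg (K * L) (4 * K) b4
    have l2 := lg q 3 b2
    have l3 := lg p 3 b3
    have hd : (C'.depth : ℝ) ≤ (K * L : ℕ) + C.depth + 2 + 4 * q + 1 + p := by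
      exact_mod_cast hC2
    push_cast at l1 l2 l3 ⊢
    push_cast at hd
    nlinarith

end Pool.Agent.BoolCirc
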