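import Pool.Agent.NegThr.GapDefs

/-!
Module W0: a whole circuit can be added to another one.
-/

namespace Pool.Agent.BoolCirc

theorem ext_circuit {n : ℕ} (G E : Circuit n) : ∃ E' : Circuit n, Ext E E' ∧
    E'.size ≤ E.size + G.size ∧ Avail E' G.eval G.depth := by
  refine ⟨E.append G (Src.const false), ?_, le_rfl, ?_⟩
  · rintro f d ⟨o, h1, h2⟩
    refine ⟨o.map (fun j => (⟨j.1, Nat.lt_add_right _ j.2⟩ : Fin (E.size + G.size))),
      fun x => ?_, ?_⟩
    · rw [Src.eval_map, ← h1 x]
      congr 1
      funext j
      exact Circuit.append_val_left E G _ x j.1 j.2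
    · rw [Src.depth_map]
      refine le_trans (le_of_eq ?_) h2
      congr 1
      funext j
      exact Circuit.append_gateDepth_left E G _ j.1 j.2
  · exact ⟨_, fun x => Circuit.append_eval_right E G _ x,
      (Circuit.append_depth_right E G _).le⟩

end Pool.Agent.BoolCirc
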