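import Pool.Agent.NegThr.GapDefs
import Pool.Agent.NegThr.R

/-!
One-sided double rail: the two rails of the inputs need not be exact, it is enough that they
err on one side.
-/

namespace Pool.Agent.BoolCirc

/-- the pair `F`, `G` follows `v` and its negation, as long as `P`, `Q` follow the inputs -/
def Sided {n m : ℕ} (P Q : Fin n → (Fin m → Bool) → Bool) (v : (Fin n → Bool) → Bool)
    (F G : (Fin m → Bool) → Bool) : Prop :=
  (∀ x y, (∀ i, y i = true → P i x = true) → (∀ i, y i = false → Q i x = true) →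
    (v y = true → F x = true) ∧ (v y = false → G x = true)) ∧
  (∀ x y, (∀ i, P i x = true → y i = true) → (∀ i, Q i x = true → y i = false) →
    (F x = true → v y = true) ∧ (G x = true → v y = false))

theorem Sided.and {n m : ℕ} {P Q : Fin n → (Fin m → Bool) → Bool} {v w : (Fin n → Bool) → Bool}
    {F G F' G' : (Fin m → Bool) → Bool} (h : Sided P Q v F G) (h' : Sided P Q w F' G') :
    Sided P Q (fun y => v y && w y) (fun x => F x && F' x) (fun x => G x || G' x) := by
  constructor
  · intro x y hp hq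
    obtain ⟨a1, a2⟩ := h.1 x y hp hq
    obtain ⟨b1, b2⟩ := h'.1 x y hp hq
    constructor
    · intro hv
      rw [Bool.and_eq_true] at hv ⊢
      exact ⟨a1 hv.1, b1 hv.2⟩
    · intro hv
      rw [Bool.and_eq_false_iff] at hv
      rw [Bool.or_eq_true]
      exact hv.imp a2 b2
  · intro x y hp hq
    obtain ⟨a1, a2⟩ := h.2 x y hp hq
    obtain ⟨b1, b2⟩ := h'.2 x y hp hq
    constructor
    · intro hv
      rw [Bool.and_eq_true] at hv ⊢
      exact ⟨a1 hv.1, b1 hv.2⟩
    · intro hv
      rw [Bool.or_eq_true] at hv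
      rw [Bool.and_eq_false_iff]
      exact hv.imp a2 b2

theorem Sided.not {n m : ℕ} {P Q : Fin n → (Fin m → Bool) → Bool} {v : (Fin n → Bool) → Bool}
    {F G : (Fin m → Bool) → Bool} (h : Sided P Q v F G) :
    Sided P Q (fun y => ! v y) G F := by
  constructor
  · intro x y hp hq
    obtain ⟨a1, a2⟩ := h.1 x y hp hq
    constructor
    · intro hv
      exact a2 (by simpa using hv)
    · intro hv
      exact a1 (by simpa using hv)
  · intro x y hp hq
    obtain ⟨a1, a2⟩ := h.2 x y hp hq
    constructor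
    · intro hv
      simpa using a2 hv
    · intro hv
      simpa using a1 hv

theorem Sided.or {n m : ℕ} {P Q : Fin n → (Fin m → Bool) → Bool} {v w : (Fin n → Bool) → Bool}
    {F G F' G' : (Fin m → Bool) → Bool} (h : Sided P Q v F G) (h' : Sided P Q w F' G') :
    Sided P Q (fun y => v y || w y) (fun x => F x || F' x) (fun x => G x && G' x) := by
  have := (h.not.and h'.not).not
  simpa using this

/-- the two rails of a node -/
theorem sided_src {n m : ℕ} (C : Circuit n) (E' : Circuit m) (P Q : Fin n → (Fin m → Bool) → Bool)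
    (e : ℕ) (hP : ∀ i, Avail E' (P i) e) (hQ : ∀ i, Avail E' (Q i) e)
    (i : ℕ) (hi : i ≤ C.size) (F G : ℕ → (Fin m → Bool) → Bool)
    (hF : ∀ j (hj : j < C.size), j < i → Avail E' (F j) (e + C.gateDepth ⟨j, hj⟩) ∧
      Avail E' (G j) (e + C.gateDepth ⟨j, hj⟩) ∧
      Sided P Q (fun y => C.val y ⟨j, hj⟩) (F j) (G j))
    (o : Src n i) :
    ∃ A B : (Fin m → Bool) → Bool,
      Avail E' A (e + o.depth (fun j => C.gateDepth ⟨j.1, j.2.trans_le hi⟩)) ∧
      Avail E' B (e + o.depth (fun j => C.gateDepth ⟨j.1, j.2.trans_le hi⟩)) ∧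
      Sided P Q (fun y => o.eval y (fun j => C.val y ⟨j.1, j.2.trans_le hi⟩)) A B := by
  cases o with
  | input j =>
    exact ⟨P j, Q j, hP j, hQ j, fun x y hp hq => ⟨hp j, hq j⟩, fun x y hp hq => ⟨hp j, hq j⟩⟩
  | const b =>
    refine ⟨fun _ => b, fun _ => !b, Avail.const _ _ _, Avail.const _ _ _, ?_, ?_⟩
    · intro x y _ _
      cases b <;> simp [Src.eval]
    · intro x y _ _
      cases b <;> simp [Src.eval]
  | gate j =>
    obtain ⟨h1, h2, h3⟩ := hF j.1 (j.2.trans_le hi) j.2
    exact ⟨F j.1, G j.1, h1, h2, h3⟩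

theorem sided_gates {n m : ℕ} (C : Circuit n) (E : Circuit m)
    (P Q : Fin n → (Fin m → Bool) → Bool)
    (e : ℕ) (hP : ∀ i, Avail E (P i) e) (hQ : ∀ i, Avail E (Q i) e) :
    ∀ i ≤ C.size, ∃ (E' : Circuit m) (F G : ℕ → (Fin m → Bool) → Bool), ExtN (2 * i) 0 E E' ∧
      ∀ j (hj : j < C.size), j < i → Avail E' (F j) (e + C.gateDepth ⟨j, hj⟩) ∧
      Avail E' (G j) (e + C.gateDepth ⟨j, hj⟩) ∧
      Sided P Q (fun y => C.val y ⟨j, hj⟩) (F j) (G j) := by
  intro i
  induction i with
  | zero =>
    intro _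
    exact ⟨E, fun _ _ => false, fun _ _ => false, ExtN.refl E, fun j _ h => absurd h (by omega)⟩
  | succ i ih =>
    intro hi
    obtain ⟨E1, F, G, hE, hF⟩ := ih (by omega)
    have hi' : i < C.size := by omega
    -- enough: the two rails of gate number `i`
    have main : ∃ (E2 : Circuit m) (A B : (Fin m → Bool) → Bool), ExtN 2 0 E1 E2 ∧
        Avail E2 A (e + C.gateDepth ⟨i, hi'⟩) ∧ Avail E2 B (e + C.gateDepth ⟨i, hi'⟩) ∧
        Sided P Q (fun y => C.val y ⟨i, hi'⟩) A B := by
      have src : ∀ o : Src n i, ∃ A B : (Fin m → Bool) → Bool,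
          Avail E1 A (e + o.depth (fun j => C.gateDepth ⟨j.1, j.2.trans hi'⟩)) ∧
          Avail E1 B (e + o.depth (fun j => C.gateDepth ⟨j.1, j.2.trans hi'⟩)) ∧
          Sided P Q (fun y => o.eval y (fun j => C.val y ⟨j.1, j.2.trans hi'⟩)) A B := by
        intro o
        exact sided_src C E1 P Q e (fun v => hE.1 _ _ (hP v)) (fun v => hE.1 _ _ (hQ v))
          i hi'.le F G hF o
      cases hg : C.gate ⟨i, hi'⟩ with
      | and a b =>
        obtain ⟨A1, B1, h1, h2, h3⟩ := src a
        obtain ⟨A2, B2, h4, h5, h6⟩ := src b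
        obtain ⟨E2, hE2, h7⟩ := extN_and h1 h4
        obtain ⟨E3, hE3, h8⟩ := extN_or (hE2.1 _ _ h2) (hE2.1 _ _ h5)
        refine ⟨E3, _, _, hE2.trans hE3, hE3.1 _ _ (h7.mono ?_), h8.mono ?_, ?_⟩
        · rw [Circuit.gateDepth, hg]; simp only [Gate.depth]; omega
        · rw [Circuit.gateDepth, hg]; simp only [Gate.depth]; omega
        · have e1 : (fun y => C.val y ⟨i, hi'⟩) = fun y =>
              (a.eval y (fun j => C.val y ⟨j.1, j.2.trans hi'⟩) &&
                b.eval y (fun j => C.val y ⟨j.1, j.2.trans hi'⟩)) := by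
            funext y
            rw [Circuit.val, hg]
            rfl
          rw [e1]
          exact h3.and h6
      | or a b =>
        obtain ⟨A1, B1, h1, h2, h3⟩ := src a
        obtain ⟨A2, B2, h4, h5, h6⟩ := src b
        obtain ⟨E2, hE2, h7⟩ := extN_or h1 h4
        obtain ⟨E3, hE3, h8⟩ := extN_and (hE2.1 _ _ h2) (hE2.1 _ _ h5)
        refine ⟨E3, _, _, hE2.trans hE3, hE3.1 _ _ (h7.mono ?_), h8.mono ?_, ?_⟩
        · rw [Circuit.gateDepth, hg]; simp only [Gate.depth]; omega
        · rw [Circuit.gateDepth, hg]; simp only [Gate.depth]; omega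
        · have e1 : (fun y => C.val y ⟨i, hi'⟩) = fun y =>
              (a.eval y (fun j => C.val y ⟨j.1, j.2.trans hi'⟩) ||
                b.eval y (fun j => C.val y ⟨j.1, j.2.trans hi'⟩)) := by
            funext y
            rw [Circuit.val, hg]
            rfl
          rw [e1]
          exact h3.or h6
      | not a =>
        obtain ⟨A1, B1, h1, h2, h3⟩ := src a
        refine ⟨E1, B1, A1, (ExtN.refl E1).weaken (by omega) le_rfl, h2.mono ?_, h1.mono ?_, ?_⟩
        · rw [Circuit.gateDepth, hg]; simp only [Gate.depth]; omega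
        · rw [Circuit.gateDepth, hg]; simp only [Gate.depth]; omega
        · have e1 : (fun y => C.val y ⟨i, hi'⟩) = fun y =>
              (! a.eval y (fun j => C.val y ⟨j.1, j.2.trans hi'⟩)) := by
            funext y
            rw [Circuit.val, hg]
            rfl
          rw [e1]
          exact h3.not
    obtain ⟨E2, A, B, hE2, hA, hB, hAB⟩ := main
    refine ⟨E2, Function.update F i A, Function.update G i B,
      (hE.trans hE2).weaken (by omega) (by omega), ?_⟩
    intro j hj hji
    rcases Nat.lt_succ_iff_lt_or_eq.1 hji with h | rfl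
    · obtain ⟨h1, h2, h3⟩ := hF j hj h
      rw [Function.update_of_ne (by omega), Function.update_of_ne (by omega)]
      exact ⟨hE2.1 _ _ h1, hE2.1 _ _ h2, h3⟩
    · rw [Function.update_self, Function.update_self]
      exact ⟨hA, hB, hAB⟩

theorem extN_rail_sided {n m : ℕ} (C : Circuit n) (E : Circuit m)
    (P Q : Fin n → (Fin m → Bool) → Bool) (e : ℕ) (hP : ∀ i, Avail E (P i) e)
    (hQ : ∀ i, Avail E (Q i) e) :
    ∃ (E' : Circuit m) (F : (Fin m → Bool) → Bool), ExtN (2 * C.size) 0 E E' ∧
      Avail E' F (e + C.depth) ∧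
      (∀ x y, (∀ i, y i = true → P i x = true) → (∀ i, y i = false → Q i x = true) →
        C.eval y = true → F x = true) ∧
      (∀ x y, (∀ i, P i x = true → y i = true) → (∀ i, Q i x = true → y i = false) →
        C.eval y = false → F x = false) := by
  obtain ⟨E1, F, G, hE, hF⟩ := sided_gates C E P Q e hP hQ C.size le_rfl
  obtain ⟨A, B, h1, h2, h3⟩ := sided_src C E1 P Q e (fun v => hE.1 _ _ (hP v))
    (fun v => hE.1 _ _ (hQ v)) C.size le_rfl F G hF C.out
  refine ⟨E1, A, hE, h1, ?_, ?_⟩
  · intro x y hp hq hv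
    exact (h3.1 x y hp hq).1 hv
  · intro x y hp hq hv
    by_contra hA
    have hA' : A x = true := by simpa using hA
    have := (h3.2 x y hp hq).1 hA'
    have e1 : C.eval y = true := this
    rw [hv] at e1
    exact absurd e1 (by simp)

end Pool.Agent.BoolCirc
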