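import Pool.Agent.NegThr.GapDefs
import Pool.Agent.NegThr.U
import Pool.Agent.NegThr.W1

/-!
Monotone functions with few non-constant slices have circuits without NOT gates that are not much
larger than their circuits with NOT gates.
-/

namespace Pool.Agent.BoolCirc

/-- iteration over a finite set, the functions being found on the way -/
theorem extN_finset_choose {m : ℕ} {ι : Type} (I : Finset ι)
    (P : ι → ((Fin m → Bool) → Bool) → Prop) (d s t : ℕ) (C : Circuit m)
    (h : ∀ i ∈ I, ∀ C' : Circuit m, Ext C C' →
      ∃ (C'' : Circuit m) (f : (Fin m → Bool) → Bool), ExtN s t C' C'' ∧ Avail C'' f d ∧ P i f) :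
    ∃ (C' : Circuit m) (f : ι → (Fin m → Bool) → Bool), ExtN (I.card * s) (I.card * t) C C' ∧
      ∀ i ∈ I, Avail C' (f i) d ∧ P i (f i) := by
  classical
  induction I using Finset.induction_on with
  | empty =>
    refine ⟨C, fun _ _ => false, ?_, fun i hi => absurd hi (Finset.notMem_empty i)⟩
    simpa using ExtN.refl C
  | insert a I ha ih =>
    obtain ⟨C1, f, h1, h2⟩ := ih (fun i hi => h i (Finset.mem_insert_of_mem hi))
    obtain ⟨C2, g, h3, h4, h5⟩ := h a (Finset.mem_insert_self a I) C1 h1.1
    refine ⟨C2, Function.update f a g, ?_, ?_⟩
    · rw [Finset.card_insert_of_notMem ha]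
      exact (h1.trans h3).weaken (by ring_nf; exact le_refl _) (by ring_nf; exact le_refl _)
    · intro i hi
      rcases Finset.mem_insert.mp hi with rfl | hi2
      · rw [Function.update_self]
        exact ⟨h4, h5⟩
      · have hne : i ≠ a := by rintro rfl; exact ha hi2
        rw [Function.update_of_ne hne]
        exact ⟨h3.1 _ _ (h2 i hi2).1, (h2 i hi2).2⟩

/-- the coordinates in `I` are set to true -/
def setOn {n : ℕ} (I : Finset (Fin n)) (x : Fin n → Bool) : Fin n → Bool :=
  fun j => if j ∈ I then true else x j

theorem wt_setOn {n : ℕ} (R I : Finset (Fin n)) (hI : I ⊆ R) (x : Fin n → Bool) :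
    wt R (setOn I x) = I.card + wt (R \ I) x := by
  unfold wt setOn
  have h1 : R.filter (fun i => (if i ∈ I then true else x i) = true) =
      I ∪ (R \ I).filter (fun i => x i = true) := by
    ext j
    simp only [Finset.mem_filter, Finset.mem_union, Finset.mem_sdiff]
    by_cases hj : j ∈ I
    · simp [hj, hI hj]
    · simp [hj]
  have h2 : Disjoint I ((R \ I).filter (fun i => x i = true)) := by
    rw [Finset.disjoint_left]
    intro j hj hj'
    exact (Finset.mem_sdiff.1 (Finset.mem_filter.1 hj').1).2 hj
  rw [h1, Finset.card_union_of_disjoint h2]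

theorem wt_setOn_insert {n : ℕ} (R I : Finset (Fin n)) (x : Fin n → Bool) (i : Fin n)
    (hi : i ∈ R) (hiI : i ∉ I) (hx : x i = false) :
    wt R (setOn (insert i I) x) = wt R (setOn I x) + 1 := by
  unfold wt setOn
  have h1 : R.filter (fun j => (if j ∈ insert i I then true else x j) = true) =
      insert i (R.filter (fun j => (if j ∈ I then true else x j) = true)) := by
    ext j
    simp only [Finset.mem_filter, Finset.mem_insert]
    by_cases hj : j = i
    · subst hj
      simp [hi]
    · simp [hj]
  rw [h1, Finset.card_insert_of_notMem]
  simp [hiI, hx]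

theorem geom_le_pow (M : ℕ) : ∀ w : ℕ, ∑ j ∈ Finset.range w, M ^ j ≤ (M + 1) ^ w := by
  intro w
  induction w with
  | zero => simp
  | succ w ih =>
    have h1 : ∑ j ∈ Finset.range (w + 1), M ^ j = M * ∑ j ∈ Finset.range w, M ^ j + 1 := by
      rw [Finset.sum_range_succ', pow_zero, Finset.mul_sum]
      congr 1
      exact Finset.sum_congr rfl fun j _ => by rw [pow_succ, mul_comm]
    rw [h1, pow_succ]
    have h2 : 1 ≤ (M + 1) ^ w := Nat.one_le_pow _ _ (by omega)
    nlinarith

theorem extN_window {n K : ℕ} (hK : ThrConst K) (R : Finset (Fin n))
    (g : (Fin n → Bool) → Bool) (hmono : MonoFn g) (hR : ∀ x y, (∀ j ∈ R, x j = y j) → g x = g y)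
    (G : Circuit n) (hG : ∀ x, G.eval x = g x) (a w : ℕ) (h0 : ∀ x, wt R x < a → g x = false)
    (h1 : ∀ x, a + w ≤ wt R x → g x = true) (E : Circuit n) :
    ∃ E' : Circuit n,
      ExtN ((R.card + 1) ^ w * (2 * G.size + 2 ^ (K * Nat.clog 2 (R.card + 2)))) 0 E E' ∧
      Avail E' g (w * G.depth + K * Nat.clog 2 (R.card + 2)) := by
  obtain ⟨L, hL⟩ : ∃ L, L = Nat.clog 2 (R.card + 2) := ⟨_, rfl⟩
  obtain ⟨M, hM⟩ : ∃ M, M = R.card := ⟨_, rfl⟩
  rw [← hL, ← hM]
  have hcard : ∀ r, (R.powersetCard r).card ≤ M ^ r := by
    intro r
    rw [Finset.card_powersetCard, hM]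
    exact Nat.choose_le_pow _ _
  -- thresholds
  have thr : ∀ (R' : Finset (Fin n)) (k : ℕ), R' ⊆ R → ∀ E : Circuit n,
      ∃ E' : Circuit n, ExtN (2 ^ (K * L)) 0 E E' ∧
        Avail E' (fun x => decide (k ≤ wt R' x)) (K * L) := by
    intro R' k hR' E
    obtain ⟨F, hF1, hF2⟩ := hK n R' k
    have hF3 : F.depth ≤ K * L := hF1.trans
      (Nat.mul_le_mul_left _ (by
        rw [hL]
        have := Finset.card_le_card hR'
        exact Nat.clog_mono_right 2 (by omega)))
    obtain ⟨E', hE1, hE2⟩ := extN_mf F (fun i x => x i) 0 E (fun i => Avail.input E i 0)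
    refine ⟨E', hE1.weaken (Nat.pow_le_pow_right (by norm_num) hF3) le_rfl, ?_⟩
    exact (hE2.mono (by omega)).congr (fun x => (hF2 x).symm)
  -- the functions of all levels
  have main : ∀ k ≤ w, ∃ (E' : Circuit n) (Z : Finset (Fin n) → (Fin n → Bool) → Bool),
      ExtN (M ^ w * 2 ^ (K * L) + (∑ j ∈ Finset.range k, M ^ (w - 1 - j)) * (2 * G.size)) 0 E E' ∧
      ∀ I ∈ R.powersetCard (w - k), Avail E' (Z I) (k * G.depth + K * L) ∧
        (∀ x, g (setOn I x) = true → a + (w - k) ≤ wt R (setOn I x) → Z I x = true) ∧
        (∀ x, g (setOn I x) = false → Z I x = false) := by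
    intro k
    induction k with
    | zero =>
      intro _
      obtain ⟨E', hE', hA⟩ := extN_finset (R.powersetCard w)
        (fun I x => decide (a ≤ wt (R \ I) x)) (K * L) (2 ^ (K * L)) 0 E
        (fun I _ C' _ => thr (R \ I) a Finset.sdiff_subset C')
      refine ⟨E', fun I x => decide (a ≤ wt (R \ I) x), hE'.weaken ?_ (by simp), ?_⟩
      · simp only [Finset.range_zero, Finset.sum_empty, zero_mul, add_zero]
        exact Nat.mul_le_mul_right _ (hcard w)
      · intro I hI
        rw [Nat.sub_zero] at hI ⊢
        have hI' := Finset.mem_powersetCard.1 hI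
        refine ⟨(hA I hI).mono (by omega), ?_, ?_⟩
        · intro x _ hx
          rw [wt_setOn R I hI'.1, hI'.2] at hx
          simp only [decide_eq_true_eq]
          omega
        · intro x hx
          simp only [decide_eq_false_iff_not]
          intro hle
          have := h1 (setOn I x) (by rw [wt_setOn R I hI'.1, hI'.2]; omega)
          rw [this] at hx
          exact absurd hx (by simp)
    | succ k ih =>
      intro hk
      obtain ⟨E1, Z, hE1, hZ⟩ := ih (by omega)
      obtain ⟨r, hr⟩ : ∃ r, r = w - (k + 1) := ⟨_, rfl⟩
      have hr1 : w - k = r + 1 := by omega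
      rw [hr1] at hZ
      rw [← hr]
      obtain ⟨E2, Z', hE2, hZ'⟩ := extN_finset_choose (R.powersetCard r)
        (fun I f => (∀ x, g (setOn I x) = true → a + r ≤ wt R (setOn I x) → f x = true) ∧
          (∀ x, g (setOn I x) = false → f x = false))
        ((k + 1) * G.depth + K * L) (2 * G.size) 0 E1 (fun I hI C' hC' => by
          have hI' := Finset.mem_powersetCard.1 hI
          have hins : ∀ i ∈ R, i ∉ I → insert i I ∈ R.powersetCard (r + 1) := by
            intro i hi hiI
            rw [Finset.mem_powersetCard]
            exact ⟨Finset.insert_subset hi hI'.1, by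
              rw [Finset.card_insert_of_notMem hiI, hI'.2]⟩
          obtain ⟨E', F, h2, h3, h4, h5⟩ := extN_rail_sided G C'
            (fun i x => if i ∈ I then true else if i ∈ R then x i else false)
            (fun i x => if i ∈ I then false else if i ∈ R then Z (insert i I) x else true)
            (k * G.depth + K * L)
            (fun i => by
              by_cases hiI : i ∈ I
              · simp only [hiI, if_true]
                exact Avail.const C' true _
              · by_cases hi : i ∈ R
                · simp only [hiI, if_false, hi, if_true]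
                  exact Avail.input C' i _
                · simp only [hiI, if_false, hi]
                  exact Avail.const C' false _)
            (fun i => by
              by_cases hiI : i ∈ I
              · simp only [hiI, if_true]
                exact Avail.const C' false _
              · by_cases hi : i ∈ R
                · simp only [hiI, if_false, hi, if_true]
                  exact hC' _ _ (hZ _ (hins i hi hiI)).1
                · simp only [hiI, if_false, hi]
                  exact Avail.const C' true _)
          have hy : ∀ x, G.eval (fun i => if i ∈ I then true else if i ∈ R then x i else false) =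
              g (setOn I x) := by
            intro x
            rw [hG]
            apply hR
            intro j hj
            simp only [setOn, hj, if_true]
          refine ⟨E', F, h2, h3.mono (by ring_nf; exact le_rfl), ?_, ?_⟩
          · intro x hx hw
            refine h4 x (fun i => if i ∈ I then true else if i ∈ R then x i else false)
              (fun i hi => hi) (fun i hi => ?_) ((hy x).trans hx)
            by_cases hiI : i ∈ I
            · simp [hiI] at hi
            · by_cases hiR : i ∈ R
              · simp only [hiI, if_false, hiR, if_true] at hi ⊢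
                refine (hZ _ (hins i hiR hiI)).2.1 x ?_ ?_
                · refine hmono _ _ (fun j hj => ?_) hx
                  simp only [setOn, Finset.mem_insert] at hj ⊢
                  by_cases hjI : j ∈ I
                  · simp [hjI]
                  · simp only [hjI, if_false] at hj
                    simp [hj]
                · rw [wt_setOn_insert R I x i hiR hiI hi]
                  omega
              · simp only [hiI, if_false, hiR]
          · intro x hx
            refine h5 x (fun i => if i ∈ I then true else if i ∈ R then x i else false)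
              (fun i hi => hi) (fun i hi => ?_) ((hy x).trans hx)
            by_cases hiI : i ∈ I
            · simp [hiI] at hi
            · by_cases hiR : i ∈ R
              · simp only [hiI, if_false, hiR, if_true] at hi ⊢
                rcases hxi : x i with _ | _
                · rfl
                · exfalso
                  have h6 : setOn (insert i I) x = setOn I x := by
                    funext j
                    simp only [setOn, Finset.mem_insert]
                    by_cases hj : j = i
                    · subst hj
                      simp [hxi]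
                    · simp [hj]
                  have h7 := (hZ _ (hins i hiR hiI)).2.2 x (by rw [h6]; exact hx)
                  rw [h7] at hi
                  exact absurd hi (by simp)
              · simp only [hiI, if_false, hiR])
      refine ⟨E2, Z', (hE1.trans hE2).weaken ?_ (by simp), hZ'⟩
      rw [Finset.sum_range_succ, add_mul]
      have h6 : (R.powersetCard r).card * (2 * G.size) ≤ M ^ (w - 1 - k) * (2 * G.size) := by
        have : w - 1 - k = r := by omega
        rw [this]
        exact Nat.mul_le_mul_right _ (hcard r)
      omega
  obtain ⟨E', Z, hE', hZ⟩ := main w le_rfl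
  rw [Nat.sub_self] at hZ
  obtain ⟨hA, hover, hunder⟩ := hZ ∅ (by simp)
  have hset : ∀ x : Fin n → Bool, setOn ∅ x = x := by
    intro x
    funext j
    simp [setOn]
  refine ⟨E', hE'.weaken ?_ le_rfl, hA.congr fun x => ?_⟩
  · have h2 : ∑ j ∈ Finset.range w, M ^ (w - 1 - j) = ∑ j ∈ Finset.range w, M ^ j :=
      Finset.sum_range_reflect (fun j => M ^ j) w
    rw [h2]
    have h3 := geom_le_pow M w
    have h4 : M ^ w ≤ (M + 1) ^ w := Nat.pow_le_pow_left (by omega) w
    calc M ^ w * 2 ^ (K * L) + (∑ j ∈ Finset.range w, M ^ j) * (2 * G.size)
        ≤ (M + 1) ^ w * 2 ^ (K * L) + (M + 1) ^ w * (2 * G.size) :=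
          Nat.add_le_add (Nat.mul_le_mul_right _ h4) (Nat.mul_le_mul_right _ h3)
      _ = (M + 1) ^ w * (2 * G.size + 2 ^ (K * L)) := by ring
  · rcases hg : g x with _ | _
    · exact (hunder x (by rw [hset]; exact hg)).symm
    · refine (hover x (by rw [hset]; exact hg) ?_).symm
      rw [hset]
      by_contra hcon
      have := h0 x (by omega)
      rw [this] at hg
      exact absurd hg (by simp)

end Pool.Agent.BoolCirc
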