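import Pool.Agent.NegThr.GapDefs
import Pool.Agent.NegThr.R

/-!
The potential: monotonicity, bounds, and the value of the circuit in terms of the potential.
-/

namespace Pool.Agent.BoolCirc

theorem wt_mono_of_le {n : ℕ} (R : Finset (Fin n)) {x y : Fin n → Bool}
    (h : ∀ j, x j = true → y j = true) : wt R x ≤ wt R y := by
  unfold wt
  apply Finset.card_le_card
  intro j hj
  rw [Finset.mem_filter] at hj ⊢
  exact ⟨hj.1, h j hj.2⟩

theorem eq_on_of_wt_eq {n : ℕ} (R : Finset (Fin n)) {x y : Fin n → Bool}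
    (h : ∀ j, x j = true → y j = true) (hw : wt R y ≤ wt R x) : ∀ j ∈ R, x j = y j := by
  unfold wt at hw
  have hsub : R.filter (fun i => x i = true) ⊆ R.filter (fun i => y i = true) := by
    intro j hj
    rw [Finset.mem_filter] at hj ⊢
    exact ⟨hj.1, h j hj.2⟩
  have heq := Finset.eq_of_subset_of_card_le hsub hw
  intro j hj
  cases hx : x j with
  | true => rw [h j hx]
  | false =>
    cases hy : y j with
    | false => rfl
    | true =>
      have h1 : j ∈ R.filter (fun i => y i = true) := Finset.mem_filter.mpr ⟨hj, hy⟩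
      rw [← heq, Finset.mem_filter, hx] at h1
      exact absurd h1.2 (by simp)

theorem wt_congr_on {n : ℕ} (R : Finset (Fin n)) {x y : Fin n → Bool}
    (h : ∀ j ∈ R, x j = y j) : wt R x = wt R y := by
  unfold wt
  congr 1
  apply Finset.filter_congr
  intro j hj
  rw [h j hj]

theorem wt_le_card_reads {n : ℕ} (R : Finset (Fin n)) (x : Fin n → Bool) : wt R x ≤ R.card :=
  Finset.card_filter_le _ _

theorem pot₁_congr {n : ℕ} (C : Circuit n) {x y : Fin n → Bool}
    (h : ∀ j ∈ C.reads, x j = y j) : pot₁ C x = pot₁ C y := by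
  unfold pot₁
  rw [wt_congr_on _ h, eval_congr_reads C h]

theorem nu_congr {n : ℕ} (C : Circuit n) {x y : Fin n → Bool}
    (h : ∀ j ∈ C.reads, x j = y j) : ∀ s, C.nu x s = C.nu y s := by
  intro s
  induction s with
  | zero => rfl
  | succ s ih =>
    by_cases hs : s < C.size
    · simp only [Circuit.nu, hs, dite_true, ih, val_congr_reads C h s hs]
    · simp only [Circuit.nu, hs, dite_false, ih]

theorem pot_congr {n : ℕ} (C : Circuit n) (s : ℕ) {x y : Fin n → Bool}
    (h : ∀ j ∈ C.reads, x j = y j) : pot C s x = pot C s y := by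
  unfold pot
  rw [pot₁_congr C h, nu_congr C h]

theorem le_pot₁ {n : ℕ} (C : Circuit n) (x : Fin n → Bool) : wt C.reads x / 2 ≤ pot₁ C x := by
  unfold pot₁
  omega

theorem pot₁_le {n : ℕ} (C : Circuit n) (x : Fin n → Bool) :
    pot₁ C x ≤ (wt C.reads x + 1) / 2 := by
  unfold pot₁
  split_ifs with h
  · omega
  · omega

theorem pot₁_mono {n : ℕ} (C : Circuit n) {x y : Fin n → Bool}
    (h : ∀ j, x j = true → y j = true) : pot₁ C x ≤ pot₁ C y := by
  rcases Nat.lt_or_ge (wt C.reads x) (wt C.reads y) with hlt | hge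
  · have h1 := pot₁_le C x
    have h2 := le_pot₁ C y
    omega
  · rw [pot₁_congr C (eq_on_of_wt_eq C.reads h hge)]

theorem pot₁_strict {n : ℕ} (C : Circuit n) {x y : Fin n → Bool}
    (h : ∀ j, x j = true → y j = true) (hx : C.eval x = true) (hy : C.eval y = false) :
    pot₁ C x < pot₁ C y := by
  have hlt : wt C.reads x < wt C.reads y := by
    by_contra hc
    have h1 := eval_congr_reads C (eq_on_of_wt_eq C.reads h (not_lt.mp hc))
    rw [hx, hy] at h1
    exact absurd h1 (by simp)
  unfold pot₁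
  rw [hx, hy]
  simp only [Bool.true_eq_false, and_false, and_true, if_false]
  split_ifs <;> omega

theorem pot_mono_of_le {n : ℕ} (C : Circuit n) (s : ℕ) {x y : Fin n → Bool}
    (h : ∀ j, x j = true → y j = true) : pot C s x ≤ pot C s y := by
  have h1 := pot₁_mono C h
  have h2 := (C.nu_mono h C.size le_rfl).1
  unfold pot
  omega

theorem pot_strict {n : ℕ} (C : Circuit n) (s : ℕ) {x y : Fin n → Bool}
    (h : ∀ j, x j = true → y j = true) (hx : C.eval x = true) (hy : C.eval y = false) :
    pot C s x < pot C s y := by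
  have h1 := pot₁_strict C h hx hy
  have h2 := (C.nu_mono h C.size le_rfl).1
  have h3 : C.nu x C.size ≠ C.nu y C.size := by
    intro heq
    have h4 := C.eval_le_of_nu_eq h heq hx
    rw [hy] at h4
    exact absurd h4 (by simp)
  unfold pot
  omega

theorem pot_le_pot₁ {n : ℕ} (C : Circuit n) (s : ℕ) (x : Fin n → Bool) :
    pot C s x ≤ pot₁ C x := by
  unfold pot
  omega

theorem potZ_mono {n : ℕ} (C : Circuit n) (s i : ℕ) : MonoFn (potZ C s i) := by
  intro x y h hx
  unfold potZ at hx ⊢
  rw [decide_eq_true_iff] at hx ⊢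
  exact hx.trans (pot_mono_of_le C s h)

theorem potH_mono {n : ℕ} (C : Circuit n) (s i : ℕ) : MonoFn (potH C s i) := by
  intro x y h hx
  unfold potH at hx ⊢
  rw [Bool.or_eq_true, Bool.and_eq_true, decide_eq_true_iff, decide_eq_true_iff] at hx ⊢
  have h1 := pot_mono_of_le C s h
  rcases hx with hx | ⟨hx1, hx2⟩
  · exact Or.inl (hx.trans h1)
  · cases hy : C.eval y with
    | true => exact Or.inr ⟨hx1.trans h1, rfl⟩
    | false =>
      have h2 := pot_strict C s h hx2 hy
      exact Or.inl (by omega)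

theorem pot_le {n t : ℕ} (C : Circuit n) (s : ℕ) (hn : C.nots ≤ t)
    (hs : (C.reads.card + 1) / 2 + 1 ≤ 2 ^ t + s) (x : Fin n → Bool) :
    pot C s x ≤ min (2 ^ t - 1) ((C.reads.card + 1) / 2) := by
  have h1 := pot₁_le C x
  have h2 := wt_le_card_reads C.reads x
  have h3 := C.nu_lt x C.size le_rfl
  rw [C.notsBelow_size] at h3
  have h4 : 2 ^ C.nots ≤ 2 ^ t := Nat.pow_le_pow_right (by norm_num) hn
  have h5 : (wt C.reads x + 1) / 2 ≤ (C.reads.card + 1) / 2 := by omega
  unfold pot
  generalize (2 : ℕ) ^ t = T at *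
  generalize (2 : ℕ) ^ C.nots = U at *
  omega

theorem potZ_low {n : ℕ} (C : Circuit n) (s i : ℕ) (hi : 1 ≤ i) (x : Fin n → Bool)
    (h : wt C.reads x < 2 * i - 1) : potZ C s i x = false := by
  have h1 := pot₁_le C x
  have h2 := pot_le_pot₁ C s x
  unfold potZ
  rw [decide_eq_false_iff_not]
  omega

theorem potZ_high {n : ℕ} (C : Circuit n) (s i : ℕ) (x : Fin n → Bool)
    (h : 2 * (i + s) ≤ wt C.reads x) : potZ C s i x = true := by
  have h1 := le_pot₁ C x
  unfold potZ pot
  rw [decide_eq_true_iff]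
  omega

theorem potH_low {n : ℕ} (C : Circuit n) (s i : ℕ) (x : Fin n → Bool)
    (h : wt C.reads x < 2 * i - 1) : potH C s i x = false := by
  have h1 := pot₁_le C x
  have h2 := pot_le_pot₁ C s x
  have h3 : decide (i + 1 ≤ pot C s x) = false := by
    rw [decide_eq_false_iff_not]; omega
  have h4 : decide (i ≤ pot C s x) = false := by
    rw [decide_eq_false_iff_not]; omega
  unfold potH
  rw [h3, h4]
  rfl

theorem potH_high {n : ℕ} (C : Circuit n) (s i : ℕ) (x : Fin n → Bool)
    (h : 2 * (i + 1 + s) ≤ wt C.reads x) : potH C s i x = true := by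
  have h1 := le_pot₁ C x
  have h3 : decide (i + 1 ≤ pot C s x) = true := by
    rw [decide_eq_true_iff]
    unfold pot
    omega
  unfold potH
  rw [h3]
  rfl

theorem eval_eq_pot {n : ℕ} (C : Circuit n) (s r : ℕ) (x : Fin n → Bool) (hr : pot C s x ≤ r) :
    C.eval x = decide (∃ i < r + 1, (potH C s i x && ! potZ C s (i + 1) x) = true) := by
  cases he : C.eval x with
  | true =>
    symm
    rw [decide_eq_true_iff]
    refine ⟨pot C s x, by omega, ?_⟩
    unfold potH potZ
    simp [he]
  | false =>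
    symm
    rw [decide_eq_false_iff_not]
    rintro ⟨i, -, hi⟩
    unfold potH potZ at hi
    rw [he, Bool.and_false, Bool.or_false, Bool.and_not_self] at hi
    exact absurd hi (by simp)

end Pool.Agent.BoolCirc
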