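import Pool.Agent.NegThr.GapDefs
import Pool.Agent.NegThr.U
import Pool.Agent.NegThr.W0

/-!
Module W4: circuits (with NOT gates) for the potential.
-/

namespace Pool.Agent.BoolCirc

namespace W4

variable {n : ℕ}

/-- the function can be added to every circuit with at most `s` gates and depth at most `d` -/
def Cst (f : (Fin n → Bool) → Bool) (d s : ℕ) : Prop :=
  ∀ E : Circuit n, ∃ E' : Circuit n, Ext E E' ∧ E'.size ≤ E.size + s ∧ Avail E' f d

theorem Cst.mono {f : (Fin n → Bool) → Bool} {d d' s s' : ℕ} (h : Cst f d s) (hd : d ≤ d')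
    (hs : s ≤ s') : Cst f d' s' := by
  intro E
  obtain ⟨E', h1, h2, h3⟩ := h E
  exact ⟨E', h1, by omega, h3.mono hd⟩

theorem Cst.congr {f g : (Fin n → Bool) → Bool} {d s : ℕ} (h : Cst f d s)
    (e : ∀ x, g x = f x) : Cst g d s := by
  intro E
  obtain ⟨E', h1, h2, h3⟩ := h E
  exact ⟨E', h1, h2, h3.congr e⟩

theorem Cst.const (b : Bool) (d s : ℕ) : Cst (fun _ : Fin n → Bool => b) d s :=
  fun E => ⟨E, Ext.refl E, Nat.le_add_right _ _, Avail.const E b d⟩

theorem Cst.and {f g : (Fin n → Bool) → Bool} {d e s t : ℕ} (hf : Cst f d s) (hg : Cst g e t) :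
    Cst (fun x => f x && g x) (max d e + 1) (s + t + 1) := by
  intro E
  obtain ⟨E1, h1, h2, h3⟩ := hf E
  obtain ⟨E2, h4, h5, h6⟩ := hg E1
  obtain ⟨E3, h7, h8, h9⟩ := ext_and (h4 _ _ h3) h6
  exact ⟨E3, (h1.trans h4).trans h7, by omega, h9⟩

theorem Cst.or {f g : (Fin n → Bool) → Bool} {d e s t : ℕ} (hf : Cst f d s) (hg : Cst g e t) :
    Cst (fun x => f x || g x) (max d e + 1) (s + t + 1) := by
  intro E
  obtain ⟨E1, h1, h2, h3⟩ := hf E
  obtain ⟨E2, h4, h5, h6⟩ := hg E1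
  obtain ⟨E3, h7, h8, h9⟩ := ext_or (h4 _ _ h3) h6
  exact ⟨E3, (h1.trans h4).trans h7, by omega, h9⟩

theorem Cst.not {f : (Fin n → Bool) → Bool} {d s : ℕ} (hf : Cst f d s) :
    Cst (fun x => ! f x) (d + 1) (s + 1) := by
  intro E
  obtain ⟨E1, h1, h2, h3⟩ := hf E
  obtain ⟨E2, h4, h5, h6⟩ := ext_not h3
  exact ⟨E2, h1.trans h4, by omega, h6⟩

/-- all functions of a family -/
theorem Cst.family (N : ℕ) (f : ℕ → (Fin n → Bool) → Bool) (d s : ℕ)
    (h : ∀ i < N, Cst (f i) d s) (E : Circuit n) :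
    ∃ E' : Circuit n, Ext E E' ∧ E'.size ≤ E.size + N * s ∧ ∀ i < N, Avail E' (f i) d := by
  induction N with
  | zero => exact ⟨E, Ext.refl E, by omega, fun i hi => absurd hi (by omega)⟩
  | succ N ih =>
    obtain ⟨E1, h1, h2, h3⟩ := ih (fun i hi => h i (by omega))
    obtain ⟨E2, h4, h5, h6⟩ := h N (by omega) E1
    refine ⟨E2, h1.trans h4, ?_, ?_⟩
    · rw [Nat.succ_mul]; omega
    · intro i hi
      rcases Nat.lt_succ_iff_lt_or_eq.mp hi with h7 | h7
      · exact h4 _ _ (h3 i h7)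
      · rw [h7]; exact h6

theorem Cst.bigor (p N : ℕ) (hN : N ≤ 2 ^ p) (f : ℕ → (Fin n → Bool) → Bool) (d s : ℕ)
    (h : ∀ i < N, Cst (f i) d s) :
    Cst (fun x => decide (∃ i < N, f i x = true)) (d + p) (N * s + 2 ^ p) := by
  intro E
  obtain ⟨E1, h1, h2, h3⟩ := Cst.family N f d s h E
  obtain ⟨E2, h4, h5⟩ := extN_bigor p N hN f d E1 h3
  have h6 := h4.2.1
  exact ⟨E2, h1.trans h4.1, by omega, h5⟩

theorem Cst.circuit (G : Circuit n) {f : (Fin n → Bool) → Bool} {d s : ℕ}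
    (hG : ∀ x, G.eval x = f x) (hd : G.depth ≤ d) (hs : G.size ≤ s) : Cst f d s := by
  intro E
  obtain ⟨E', h1, h2, h3⟩ := ext_circuit G E
  exact ⟨E', h1, by omega, (h3.mono hd).congr (fun x => (hG x).symm)⟩

theorem Cst.exists_circuit {f : (Fin n → Bool) → Bool} {d s : ℕ} (h : Cst f d s) :
    ∃ G : Circuit n, (∀ x, G.eval x = f x) ∧ G.depth ≤ d ∧ G.size ≤ s := by
  obtain ⟨E', h1, h2, h3⟩ := h (Circuit.empty n)
  obtain ⟨G, h4, h5, h6⟩ := h3.exists_circuit
  refine ⟨G, h4, h5, ?_⟩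
  have : (Circuit.empty n).size = 0 := rfl
  omega

theorem Cst.thr {K : ℕ} (hK : ThrConst K) (R : Finset (Fin n)) (k : ℕ) :
    Cst (fun x => decide (k ≤ wt R x)) (K * Nat.clog 2 (R.card + 2))
      (2 ^ (K * Nat.clog 2 (R.card + 2))) := by
  intro E
  obtain ⟨F, hF1, hF2⟩ := hK n R k
  obtain ⟨E', hE1, hE2⟩ := extN_mf F (fun i x => x i) 0 E (fun i => Avail.input E i 0)
  have h1 := hE1.2.1
  have h2 : 2 ^ F.depth ≤ 2 ^ (K * Nat.clog 2 (R.card + 2)) :=
    Nat.pow_le_pow_right (by norm_num) hF1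
  exact ⟨E', hE1.1, by omega, (hE2.mono (by omega)).congr (fun x => (hF2 x).symm)⟩

/-! ### comparison of the binary number with a constant -/

/-- gate number `r` is a NOT gate -/
def isN (C : Circuit n) (r : ℕ) : Prop := ∃ h : r < C.size, (C.gate ⟨r, h⟩).isNot = true

/-- the value of gate `r` -/
def bv (C : Circuit n) (r : ℕ) (x : Fin n → Bool) : Bool :=
  if h : r < C.size then C.val x ⟨r, h⟩ else false

/-- the part of the number `i` that is compared with `nu x r` -/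
def pre (C : Circuit n) (i r : ℕ) : ℕ := i / 2 ^ (C.nots - C.notsBelow r)

theorem notsBelow_le (C : Circuit n) (r : ℕ) : C.notsBelow r ≤ C.nots := by
  unfold Circuit.notsBelow Circuit.nots
  refine Finset.card_le_card ?_
  intro i hi
  simp only [Finset.mem_filter, Finset.mem_univ, true_and] at hi ⊢
  exact hi.2

theorem pre_size (C : Circuit n) (i : ℕ) : pre C i C.size = i := by
  unfold pre
  rw [C.notsBelow_size]
  simp

theorem pre_succ_not (C : Circuit n) (i r : ℕ) (h : isN C r) :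
    pre C i r = pre C i (r + 1) / 2 := by
  obtain ⟨h1, h2⟩ := h
  have h3 := C.notsBelow_succ_not h1 h2
  have h4 := notsBelow_le C (r + 1)
  unfold pre
  have h5 : C.nots - C.notsBelow r = (C.nots - C.notsBelow (r + 1)) + 1 := by omega
  rw [h5, pow_succ, Nat.div_div_eq_div_mul]

theorem pre_succ_of_not (C : Circuit n) (i r : ℕ) (hr : r < C.size) (h : ¬ isN C r) :
    pre C i r = pre C i (r + 1) := by
  have h2 : (C.gate ⟨r, hr⟩).isNot = false := by
    rcases hb : (C.gate ⟨r, hr⟩).isNot with _ | _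
    · rfl
    · exact absurd ⟨hr, hb⟩ h
  unfold pre
  rw [C.notsBelow_succ_of_not_isNot hr h2]

theorem nu_succ_not (C : Circuit n) (x : Fin n → Bool) (r : ℕ) (h : isN C r) :
    C.nu x (r + 1) = 2 * C.nu x r + (if bv C r x = false then 1 else 0) := by
  obtain ⟨h1, h2⟩ := h
  simp only [Circuit.nu, h1, dite_true, h2, if_true, bv]

theorem nu_succ_of_not (C : Circuit n) (x : Fin n → Bool) (r : ℕ) (hr : r < C.size)
    (h : ¬ isN C r) : C.nu x (r + 1) = C.nu x r := by
  have h2 : (C.gate ⟨r, hr⟩).isNot = false := by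
    rcases hb : (C.gate ⟨r, hr⟩).isNot with _ | _
    · rfl
    · exact absurd ⟨hr, hb⟩ h
  simp [Circuit.nu, hr, h2]

open Classical in
/-- bit `r` of the number differs from that of the constant -/
noncomputable def mism (C : Circuit n) (i r : ℕ) (x : Fin n → Bool) : Bool :=
  if isN C r then (if pre C i (r + 1) % 2 = 1 then bv C r x else ! bv C r x) else false

/-- the numbers agree up to gate `r` -/
noncomputable def eqF (C : Circuit n) (i s : ℕ) (x : Fin n → Bool) : Bool :=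
  decide (pre C i 0 = 0) && ! decide (∃ r < s, mism C i r x = true)

open Classical in
/-- the first difference is at gate `r`, and the constant is smaller -/
noncomputable def lsF (C : Circuit n) (i r : ℕ) (x : Fin n → Bool) : Bool :=
  if isN C r ∧ pre C i (r + 1) % 2 = 0 then (! bv C r x) && eqF C i r x else false

theorem eqF_spec (C : Circuit n) (i : ℕ) (x : Fin n → Bool) : ∀ s, s ≤ C.size →
    (eqF C i s x = true ↔ C.nu x s = pre C i s) := by
  intro s
  induction s with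
  | zero =>
    intro _
    have h0 : ¬ ∃ r < 0, mism C i r x = true := by
      rintro ⟨r, hr, _⟩
      exact absurd hr (Nat.not_lt_zero r)
    have h1 : C.nu x 0 = 0 := rfl
    rw [h1]
    simp only [eqF, Bool.and_eq_true, decide_eq_true_eq, Bool.not_eq_true',
      decide_eq_false_iff_not]
    exact ⟨fun h => h.1.symm, fun h => ⟨h.symm, h0⟩⟩
  | succ s ih =>
    intro hs
    have h1 := ih (by omega)
    have h2 : eqF C i (s + 1) x = true ↔ (eqF C i s x = true ∧ mism C i s x = false) := by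
      simp only [eqF, Bool.and_eq_true, decide_eq_true_eq, Bool.not_eq_true', decide_eq_false_iff_not]
      constructor
      · rintro ⟨h3, h4⟩
        refine ⟨⟨h3, fun ⟨r, hr, hr'⟩ => h4 ⟨r, by omega, hr'⟩⟩, ?_⟩
        rcases hm : mism C i s x with _ | _
        · rfl
        · exact absurd ⟨s, by omega, hm⟩ h4
      · rintro ⟨⟨h3, h4⟩, h5⟩
        refine ⟨h3, ?_⟩
        rintro ⟨r, hr, hr'⟩
        rcases Nat.lt_succ_iff_lt_or_eq.mp hr with h6 | h6
        · exact h4 ⟨r, h6, hr'⟩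
        · rw [h6, h5] at hr'; exact absurd hr' (by simp)
    rw [h2, h1]
    by_cases hN : isN C s
    · rw [nu_succ_not C x s hN, pre_succ_not C i s hN]
      unfold mism
      rw [if_pos hN]
      rcases Nat.mod_two_eq_zero_or_one (pre C i (s + 1)) with h3 | h3
      · rw [h3]
        rcases bv C s x with _ | _
        · simp; omega
        · simp; omega
      · rw [h3]
        rcases bv C s x with _ | _
        · simp; omega
        · simp; omega
    · rw [nu_succ_of_not C x s (by omega) hN, pre_succ_of_not C i s (by omega) hN]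
      unfold mism
      rw [if_neg hN]
      simp

theorem lsF_spec (C : Circuit n) (i : ℕ) (x : Fin n → Bool) : ∀ s, s ≤ C.size →
    ((∃ r < s, lsF C i r x = true) ↔ pre C i s < C.nu x s) := by
  intro s
  induction s with
  | zero =>
    intro _
    simp [Circuit.nu]
  | succ s ih =>
    intro hs
    have h1 := ih (by omega)
    have h2 : (∃ r < s + 1, lsF C i r x = true) ↔
        ((∃ r < s, lsF C i r x = true) ∨ lsF C i s x = true) := by
      constructor
      · rintro ⟨r, hr, hr'⟩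
        rcases Nat.lt_succ_iff_lt_or_eq.mp hr with h6 | h6
        · exact Or.inl ⟨r, h6, hr'⟩
        · rw [h6] at hr'; exact Or.inr hr'
      · rintro (⟨r, hr, hr'⟩ | h)
        · exact ⟨r, by omega, hr'⟩
        · exact ⟨s, by omega, h⟩
    have h3 := eqF_spec C i x s (by omega)
    rw [h2, h1]
    unfold lsF
    by_cases hN : isN C s
    · rw [nu_succ_not C x s hN, pre_succ_not C i s hN]
      rw [pre_succ_not C i s hN] at h3
      rcases Nat.mod_two_eq_zero_or_one (pre C i (s + 1)) with h4 | h4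
      · rw [if_pos ⟨hN, h4⟩, Bool.and_eq_true, h3]
        rcases bv C s x with _ | _
        · simp; omega
        · simp; omega
      · rw [if_neg (by omega)]
        rcases bv C s x with _ | _
        · simp; omega
        · simp; omega
    · rw [nu_succ_of_not C x s (by omega) hN, pre_succ_of_not C i s (by omega) hN,
        if_neg (fun h => hN h.1)]
      simp

theorem cmp_spec (C : Circuit n) (i : ℕ) (x : Fin n → Bool) :
    decide (i ≤ C.nu x C.size) =
      (decide (∃ r < C.size, lsF C i r x = true) || eqF C i C.size x) := by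
  have h1 := eqF_spec C i x C.size le_rfl
  have h2 := lsF_spec C i x C.size le_rfl
  rw [pre_size] at h1 h2
  rw [Bool.eq_iff_iff, Bool.or_eq_true, decide_eq_true_eq, decide_eq_true_eq, h1, h2]
  omega

section
variable {C : Circuit n} {d σ : ℕ}

theorem cst_bv (h : NodesLE C d σ) (r : ℕ) : Cst (bv C r) d σ := by
  by_cases hr : r < C.size
  · obtain ⟨G, h1, h2, h3⟩ := h (Src.gate ⟨r, hr⟩)
    refine Cst.circuit G (fun x => ?_) h2 h3
    rw [h1 x]
    simp [bv, hr, Src.eval]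
  · exact (Cst.const false d σ).congr (fun x => by simp [bv, hr])

theorem cst_eval (h : NodesLE C d σ) : Cst C.eval d σ := by
  obtain ⟨G, h1, h2, h3⟩ := h C.out
  exact Cst.circuit G h1 h2 h3

theorem cst_mism (h : NodesLE C d σ) (i r : ℕ) : Cst (mism C i r) (d + 1) (σ + 1) := by
  classical
  by_cases hN : isN C r
  · by_cases h1 : pre C i (r + 1) % 2 = 1
    · exact ((cst_bv h r).mono (by omega) (by omega)).congr (fun x => by
        simp only [mism, hN, h1, if_true])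
    · exact (cst_bv h r).not.congr (fun x => by
        simp only [mism, hN, h1, if_true, if_false])
  · exact (Cst.const false _ _).congr (fun x => by simp only [mism, hN, if_false])

theorem cst_eqF (h : NodesLE C d σ) (i s p : ℕ) (hs : s ≤ 2 ^ p) :
    Cst (eqF C i s) (d + p + 3) (s * (σ + 1) + 2 ^ p + 2) := by
  have h1 := (Cst.bigor p s hs (mism C i) (d + 1) (σ + 1) (fun r _ => cst_mism h i r)).not
  have h2 := (Cst.const (n := n) (decide (pre C i 0 = 0)) 0 0).and h1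
  exact (h2.mono (by omega) (by omega)).congr (fun x => rfl)

theorem cst_lsF (h : NodesLE C d σ) (i s p : ℕ) (hs : s ≤ 2 ^ p) :
    Cst (lsF C i s) (d + p + 4) (s * (σ + 1) + 2 ^ p + σ + 4) := by
  classical
  by_cases hN : isN C s ∧ pre C i (s + 1) % 2 = 0
  · have h1 := (cst_bv h s).not.and (cst_eqF h i s p hs)
    exact (h1.mono (by omega) (by omega)).congr (fun x => by simp only [lsF, hN, if_true, and_self])
  · exact (Cst.const false _ _).congr (fun x => by simp only [lsF, hN, if_false])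

theorem cst_cmp (h : NodesLE C d σ) (i p : ℕ) (hs : C.size ≤ 2 ^ p) :
    Cst (fun x => decide (i ≤ C.nu x C.size)) (d + 2 * p + 5)
      (C.size * (C.size * (σ + 1) + 2 ^ p + σ + 4) + 2 ^ p +
        (C.size * (σ + 1) + 2 ^ p + 2) + 1) := by
  have h1 := Cst.bigor p C.size hs (lsF C i) (d + p + 4) (C.size * (σ + 1) + 2 ^ p + σ + 4)
    (fun r hr => (cst_lsF h i r p (by omega)).mono le_rfl (by
      have := Nat.mul_le_mul_right (σ + 1) hr.le
      omega))
  have h2 := h1.or (cst_eqF h i C.size p hs)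
  exact (h2.mono (by omega) (by omega)).congr (fun x => cmp_spec C i x)

end

/-! ### the potential -/

theorem le_pot₁_iff (C : Circuit n) (x : Fin n → Bool) (j : ℕ) :
    j ≤ pot₁ C x ↔ (2 * j ≤ wt C.reads x ∨ (2 * j - 1 ≤ wt C.reads x ∧ C.eval x = false)) := by
  unfold pot₁
  rcases C.eval x with _ | _
  · rcases Nat.mod_two_eq_zero_or_one (wt C.reads x) with h | h
    · simp [h]; omega
    · simp [h]; omega
  · simp; omega

theorem le_pot_iff (C : Circuit n) (s : ℕ) (x : Fin n → Bool) (i : ℕ) (hi : 1 ≤ i) :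
    i ≤ pot C s x ↔ (i + s ≤ pot₁ C x ∨ (i ≤ pot₁ C x ∧ i ≤ C.nu x C.size)) := by
  unfold pot
  omega

section
variable {C : Circuit n} {d σ : ℕ}

theorem cst_pot₁ {K : ℕ} (hK : ThrConst K) (h : NodesLE C d σ) (j : ℕ) (A : ℕ)
    (hA : K * Nat.clog 2 (C.reads.card + 2) ≤ A) :
    Cst (fun x => decide (j ≤ pot₁ C x)) (d + A + 3) (2 * 2 ^ A + σ + 3) := by
  have hA2 : 2 ^ (K * Nat.clog 2 (C.reads.card + 2)) ≤ 2 ^ A :=
    Nat.pow_le_pow_right (by norm_num) hA
  have h1 := (Cst.thr hK C.reads (2 * j)).or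
    ((Cst.thr hK C.reads (2 * j - 1)).and (cst_eval h).not)
  refine (h1.mono (by omega) (by omega)).congr (fun x => ?_)
  rw [Bool.eq_iff_iff]
  simp only [decide_eq_true_eq, Bool.or_eq_true, Bool.and_eq_true, Bool.not_eq_true']
  exact le_pot₁_iff C x j

/-- size bound for the comparison -/
def cs (S σ p : ℕ) : ℕ := S * (S * (σ + 1) + 2 ^ p + σ + 4) + 2 ^ p + (S * (σ + 1) + 2 ^ p + 2) + 1

theorem cst_potZ {K : ℕ} (hK : ThrConst K) (h : NodesLE C d σ) (s i p A : ℕ)
    (hs : C.size ≤ 2 ^ p) (hA : K * Nat.clog 2 (C.reads.card + 2) ≤ A) :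
    Cst (potZ C s i) (d + A + 2 * p + 7) (4 * 2 ^ A + 2 * σ + 8 + cs C.size σ p) := by
  rcases Nat.eq_zero_or_pos i with h0 | h0
  · subst h0
    exact (Cst.const true _ _).congr (fun x => by simp [potZ])
  · have h1 := (cst_pot₁ hK h (i + s) A hA).or
      ((cst_pot₁ hK h i A hA).and (cst_cmp h i p hs))
    refine (h1.mono (by omega) (by unfold cs; omega)).congr (fun x => ?_)
    rw [Bool.eq_iff_iff]
    simp only [potZ, decide_eq_true_eq, Bool.or_eq_true, Bool.and_eq_true]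
    exact le_pot_iff C s x i h0

theorem cst_potH {K : ℕ} (hK : ThrConst K) (h : NodesLE C d σ) (s i p A : ℕ)
    (hs : C.size ≤ 2 ^ p) (hA : K * Nat.clog 2 (C.reads.card + 2) ≤ A) :
    Cst (potH C s i) (d + A + 2 * p + 9) (8 * 2 ^ A + 5 * σ + 18 + 2 * cs C.size σ p) := by
  have h1 := (cst_potZ hK h s (i + 1) p A hs hA).or
    ((cst_potZ hK h s i p A hs hA).and (cst_eval h))
  exact (h1.mono (by omega) (by omega)).congr (fun x => rfl)

end

end W4

open W4 in
theorem pot_circuits : ∃ c : ℕ, ∀ (n : ℕ) (C : Circuit n) (s d σ : ℕ), 2 ≤ C.size → C.size ≤ σ →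
    NodesLE C d σ → ∀ i,
      (∃ G : Circuit n, (∀ x, G.eval x = potZ C s i x) ∧ G.depth ≤ d + c * Nat.clog 2 C.size ∧
        G.size ≤ σ ^ c) ∧
      (∃ G : Circuit n, (∀ x, G.eval x = potH C s i x) ∧ G.depth ≤ d + c * Nat.clog 2 C.size ∧
        G.size ≤ σ ^ c) := by
  obtain ⟨K, hK⟩ := exists_thrConst
  refine ⟨4 * K + 16, fun n C s d σ hS hσ h i => ?_⟩
  obtain ⟨S, hSdef⟩ : ∃ S, S = C.size := ⟨_, rfl⟩
  obtain ⟨M, hM⟩ : ∃ M, M = C.reads.card := ⟨_, rfl⟩
  obtain ⟨L, hL⟩ : ∃ L, L = Nat.clog 2 (M + 2) := ⟨_, rfl⟩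
  obtain ⟨p, hp⟩ : ∃ p, p = Nat.clog 2 S := ⟨_, rfl⟩
  have hMS : M ≤ 2 * S + 1 := by rw [hM, hSdef]; exact card_reads_le C
  rw [← hSdef] at hS hσ
  have hp1 : 1 ≤ p := by
    rw [hp]; exact Nat.clog_pos (by norm_num) hS
  have hp2 : S ≤ 2 ^ p := by rw [hp]; exact Nat.le_pow_clog (by norm_num) _
  have hp3 : 2 ^ p ≤ 2 * S := by rw [hp]; exact two_pow_clog_le _ (by omega)
  have hL1 : L ≤ 2 + p := by
    rw [hL]
    have h1 : M + 2 ≤ 2 ^ (2 + p) := by
      rw [pow_add]
      have : 2 * S + 3 ≤ 4 * 2 ^ p := by omega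
      omega
    exact (Nat.clog_le_iff_le_pow (by norm_num)).mpr h1
  have hA : K * L ≤ K * (2 + p) := Nat.mul_le_mul_left _ hL1
  have hZ := cst_potZ hK h s i p (K * (2 + p)) (by rw [← hSdef]; exact hp2)
    (by rw [← hM, ← hL]; exact hA)
  have hH := cst_potH hK h s i p (K * (2 + p)) (by rw [← hSdef]; exact hp2)
    (by rw [← hM, ← hL]; exact hA)
  -- depth
  have hdep : K * (2 + p) + 2 * p + 9 ≤ (4 * K + 16) * p := by
    nlinarith [Nat.mul_le_mul_left K hp1]
  -- size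
  have hσ2 : 2 ≤ σ := by omega
  have b1 : 2 ^ (K * (2 + p)) ≤ σ ^ (4 * K) := by
    have h1 : 2 ^ (2 + p) ≤ σ ^ 4 := by
      rw [pow_add]
      have h2 : 8 * σ ≤ σ ^ 4 := by nlinarith [Nat.pow_le_pow_left hσ2 3]
      omega
    calc 2 ^ (K * (2 + p)) = (2 ^ (2 + p)) ^ K := by rw [← pow_mul, mul_comm]
      _ ≤ (σ ^ 4) ^ K := Nat.pow_le_pow_left h1 K
      _ = σ ^ (4 * K) := by rw [← pow_mul]
  have b2 : cs S σ p ≤ σ ^ 8 := by
    have e1 : 2 ^ p ≤ σ ^ 2 := by nlinarith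
    have e3 : σ + 1 ≤ σ ^ 2 := by nlinarith
    have e4 : S * (σ + 1) ≤ σ ^ 3 := by
      calc S * (σ + 1) ≤ σ * σ ^ 2 := Nat.mul_le_mul hσ e3
        _ = σ ^ 3 := by ring
    have e5 : σ ^ 2 * 2 ≤ σ ^ 3 := by nlinarith [Nat.mul_le_mul_left (σ ^ 2) hσ2]
    have e6 : σ ^ 3 * 2 ≤ σ ^ 4 := by nlinarith [Nat.mul_le_mul_left (σ ^ 3) hσ2]
    have e7 : σ ^ 4 * 2 ≤ σ ^ 5 := by nlinarith [Nat.mul_le_mul_left (σ ^ 4) hσ2]
    have e8 : 4 ≤ σ ^ 2 := by nlinarith
    have e9 : S * (S * (σ + 1) + 2 ^ p + σ + 4) ≤ σ * σ ^ 5 := by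
      refine Nat.mul_le_mul hσ ?_
      omega
    have e10 : σ * σ ^ 5 = σ ^ 6 := by ring
    have e11 : σ ^ 5 * 2 ≤ σ ^ 6 := by nlinarith [Nat.mul_le_mul_left (σ ^ 5) hσ2]
    have e12 : σ ^ 6 * 2 ≤ σ ^ 7 := by nlinarith [Nat.mul_le_mul_left (σ ^ 6) hσ2]
    have e13 : σ ^ 7 * 2 ≤ σ ^ 8 := by nlinarith [Nat.mul_le_mul_left (σ ^ 7) hσ2]
    unfold cs
    omega
  have b3 : 8 * 2 ^ (K * (2 + p)) + 5 * σ + 18 + 2 * cs S σ p ≤ σ ^ (4 * K + 16) := by
    obtain ⟨W, hW⟩ : ∃ W, W = σ ^ (4 * K + 8) := ⟨_, rfl⟩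
    have hσ1 : 1 ≤ σ := by omega
    have f1 : 2 ^ (K * (2 + p)) ≤ W := by
      rw [hW]; exact b1.trans (Nat.pow_le_pow_right hσ1 (by omega))
    have f2 : σ ≤ W := by
      rw [hW]
      calc σ = σ ^ 1 := (pow_one σ).symm
        _ ≤ _ := Nat.pow_le_pow_right hσ1 (by omega)
    have f3 : cs S σ p ≤ W := by
      rw [hW]; exact b2.trans (Nat.pow_le_pow_right hσ1 (by omega))
    have f4 : 1 ≤ W := by rw [hW]; exact Nat.one_le_pow _ _ hσ1
    have f5 : σ ^ (4 * K + 16) = σ ^ 8 * W := by rw [hW, ← pow_add]; congr 1; ring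
    have f6 : 256 ≤ σ ^ 8 := by
      calc 256 = 2 ^ 8 := by norm_num
        _ ≤ σ ^ 8 := Nat.pow_le_pow_left hσ2 8
    rw [f5]
    nlinarith [Nat.mul_le_mul_right W f6]
  rw [← hSdef] at hZ hH
  rw [← hSdef, ← hp]
  refine ⟨?_, ?_⟩
  · exact (hZ.mono (d' := d + (4 * K + 16) * p) (s' := σ ^ (4 * K + 16)) (by omega)
      (by omega)).exists_circuit
  · exact (hH.mono (d' := d + (4 * K + 16) * p) (s' := σ ^ (4 * K + 16)) (by omega)
      (by omega)).exists_circuit

end Pool.Agent.BoolCirc
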