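import Pool.Agent.NegThr.GapDefs
import Pool.Agent.NegThr.U
import Pool.Agent.NegThr.W2
import Pool.Agent.NegThr.W3
import Pool.Agent.NegThr.W4

/-!
Module W5: assembly of the upper bound for circuits whose number of NOT gates is slightly too small.
-/

namespace Pool.Agent.BoolCirc

theorem gap_size_arith (c4 K w S σ M r s q p L total : ℕ) (hS : 2 ≤ S) (hσ : S ≤ σ)
    (hM : M ≤ 2 * S + 1) (hw : 1 ≤ w) (hs : 2 * s ≤ w) (hr : r ≤ (M + 1) / 2)
    (hL : 2 ^ L ≤ 2 * (M + 2)) (hq : 2 ^ q ≤ 2 * (r + 1)) (hp : 2 ^ p ≤ 2 * (r + 1))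
    (ht : total ≤ r * ((M + 1) ^ (2 * s + 3) * (2 * σ ^ c4 + 2 ^ (K * L))) +
      (r + 1) * ((M + 1) ^ (2 * s + 3) * (2 * σ ^ c4 + 2 ^ (K * L))) + 4 * 2 ^ q + (r + 1) + 2 ^ p) :
    total ≤ σ ^ ((c4 + 4 * K + 24) * w) := by
  have hσ2 : 2 ≤ σ := hS.trans hσ
  have hσ1 : 1 ≤ σ := by omega
  have p2 : 2 * σ ≤ σ ^ 2 := by nlinarith
  have p3 : 4 * σ ≤ σ ^ 3 := by nlinarith [Nat.pow_le_pow_left hσ2 2]
  have p4 : 8 * σ ≤ σ ^ 4 := by nlinarith [Nat.pow_le_pow_left hσ2 3]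
  have b1 : 2 ^ L ≤ σ ^ 4 := by omega
  have b2 : M + 1 ≤ σ ^ 3 := by omega
  have b3 : (M + 1) ^ (2 * s + 3) ≤ σ ^ (12 * w) := by
    calc (M + 1) ^ (2 * s + 3) ≤ (σ ^ 3) ^ (2 * s + 3) := Nat.pow_le_pow_left b2 _
      _ = σ ^ (3 * (2 * s + 3)) := by rw [← pow_mul]
      _ ≤ σ ^ (12 * w) := Nat.pow_le_pow_right hσ1 (by omega)
  have b4 : 2 ^ (K * L) ≤ σ ^ (4 * K) := by
    calc 2 ^ (K * L) = (2 ^ L) ^ K := by rw [← pow_mul, mul_comm]
      _ ≤ (σ ^ 4) ^ K := Nat.pow_le_pow_left b1 K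
      _ = σ ^ (4 * K) := by rw [← pow_mul]
  have b5 : 2 * σ ^ c4 + 2 ^ (K * L) ≤ σ ^ (c4 + 4 * K + 2) := by
    have h1 : σ ^ c4 ≤ σ ^ (c4 + 4 * K) := Nat.pow_le_pow_right hσ1 (by omega)
    have h2 : σ ^ (4 * K) ≤ σ ^ (c4 + 4 * K) := Nat.pow_le_pow_right hσ1 (by omega)
    have h3 : σ ^ (c4 + 4 * K + 2) = σ ^ (c4 + 4 * K) * σ ^ 2 := by rw [pow_add]
    have h4 : 4 ≤ σ ^ 2 := by nlinarith
    have h5 : σ ^ (c4 + 4 * K) * 4 ≤ σ ^ (c4 + 4 * K) * σ ^ 2 := Nat.mul_le_mul_left _ h4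
    omega
  have b6 : r + 1 ≤ σ ^ 3 := by omega
  have b7 : r ≤ σ ^ 3 := by omega
  obtain ⟨Z, hZ⟩ : ∃ Z, Z = (M + 1) ^ (2 * s + 3) * (2 * σ ^ c4 + 2 ^ (K * L)) := ⟨_, rfl⟩
  have hZle : Z ≤ σ ^ (12 * w + (c4 + 4 * K + 2)) := by
    have e : σ ^ (12 * w + (c4 + 4 * K + 2)) = σ ^ (12 * w) * σ ^ (c4 + 4 * K + 2) := pow_add _ _ _
    rw [hZ, e]
    exact Nat.mul_le_mul b3 b5
  rw [← hZ] at ht
  set E := 12 * w + (c4 + 4 * K + 2) + 3 with hE
  have hpow : ∀ a, a ≤ E → σ ^ a ≤ σ ^ E := fun a ha => Nat.pow_le_pow_right hσ1 ha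
  have t1 : r * Z ≤ σ ^ E := by
    calc r * Z ≤ σ ^ 3 * σ ^ (12 * w + (c4 + 4 * K + 2)) := Nat.mul_le_mul b7 hZle
      _ = σ ^ E := by rw [← pow_add, hE]; congr 1; omega
  have t2 : (r + 1) * Z ≤ σ ^ E := by
    calc (r + 1) * Z ≤ σ ^ 3 * σ ^ (12 * w + (c4 + 4 * K + 2)) := Nat.mul_le_mul b6 hZle
      _ = σ ^ E := by rw [← pow_add, hE]; congr 1; omega
  have q8 : 4 * 2 ^ q ≤ σ ^ 6 := by
    have h1 : 4 * 2 ^ q ≤ 8 * (r + 1) := by omega
    have h2 : 8 * (r + 1) ≤ σ ^ 3 * σ ^ 3 :=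
      Nat.mul_le_mul (by nlinarith [Nat.pow_le_pow_left hσ2 3]) b6
    have h3 : σ ^ 3 * σ ^ 3 = σ ^ 6 := by rw [← pow_add]
    omega
  have t4 : 4 * 2 ^ q ≤ σ ^ E := q8.trans (hpow 6 (by omega))
  have t5 : r + 1 ≤ σ ^ E := b6.trans (hpow 3 (by omega))
  have t6 : 2 ^ p ≤ σ ^ E := by
    have h1 : 2 ^ p ≤ σ ^ 4 := by
      have h2 : 2 ^ p ≤ 2 * (r + 1) := hp
      have h3 : 2 * (r + 1) ≤ σ * σ ^ 3 := Nat.mul_le_mul hσ2 b6
      have h4 : σ * σ ^ 3 = σ ^ 4 := by rw [← pow_succ']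
      omega
    exact h1.trans (hpow 4 (by omega))
  have t7 : 5 * σ ^ E ≤ σ ^ (E + 3) := by
    have e : σ ^ (E + 3) = σ ^ E * σ ^ 3 := pow_add _ _ _
    have h8 : 2 ^ 3 ≤ σ ^ 3 := Nat.pow_le_pow_left hσ2 3
    have h5 : 5 ≤ σ ^ 3 := by omega
    calc 5 * σ ^ E = σ ^ E * 5 := mul_comm _ _
      _ ≤ σ ^ E * σ ^ 3 := Nat.mul_le_mul_left _ h5
      _ = σ ^ (E + 3) := e.symm
  have hfin : σ ^ (E + 3) ≤ σ ^ ((c4 + 4 * K + 24) * w) := by
    apply Nat.pow_le_pow_right hσ1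
    have h1 : c4 + 4 * K ≤ (c4 + 4 * K) * w := Nat.le_mul_of_pos_right _ hw
    have h2 : (c4 + 4 * K + 24) * w = (c4 + 4 * K) * w + 24 * w := by ring
    omega
  omega

theorem gap_depth_arith (c4 K w S M r s d q p D : ℕ) (hS : 2 ≤ S)
    (hM : M ≤ 2 * S + 1) (hw : 1 ≤ w) (hs : 2 * s ≤ w) (hr : r ≤ (M + 1) / 2)
    (hq : q = Nat.clog 2 (r + 1)) (hp : p = Nat.clog 2 (r + 1))
    (hD : D ≤ (2 * s + 3) * (d + c4 * Nat.clog 2 S) + K * Nat.clog 2 (M + 2) + 4 * q + 1 + p) :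
    D ≤ (4 * c4 + 3 * K + 24) * w * (d + Nat.clog 2 S) := by
  obtain ⟨L, hL⟩ : ∃ L, L = Nat.clog 2 S := ⟨_, rfl⟩
  have hL1 : 1 ≤ L := by rw [hL]; exact Nat.clog_pos (by norm_num) hS
  have hSL : S ≤ 2 ^ L := by rw [hL]; exact Nat.le_pow_clog (by norm_num) _
  have h1 : Nat.clog 2 (M + 2) ≤ L + 2 := by
    apply Nat.clog_le_of_le_pow
    rw [pow_add]
    omega
  have h2 : Nat.clog 2 (r + 1) ≤ L + 1 := by
    apply Nat.clog_le_of_le_pow
    rw [pow_add]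
    omega
  rw [← hL] at hD ⊢
  rw [hq, hp] at hD
  have h3 : K * Nat.clog 2 (M + 2) ≤ K * (3 * L) := Nat.mul_le_mul_left _ (by omega)
  have h4 : (2 * s + 3) * (d + c4 * L) ≤ (4 * w) * ((c4 + 1) * (d + L)) := by
    apply Nat.mul_le_mul (by omega)
    nlinarith [Nat.zero_le (c4 * d)]
  have h5 : D ≤ (4 * w) * ((c4 + 1) * (d + L)) + K * (3 * L) + 5 * (L + 1) + 1 := by omega
  have h6 : K * (3 * L) ≤ 3 * K * w * (d + L) := by
    calc K * (3 * L) = 3 * K * 1 * L := by ring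
      _ ≤ 3 * K * w * (d + L) := by
        apply Nat.mul_le_mul _ (by omega)
        exact Nat.mul_le_mul_left _ hw
  have h7 : 5 * (L + 1) + 1 ≤ 20 * w * (d + L) := by
    calc 5 * (L + 1) + 1 ≤ 20 * 1 * (d + L) := by omega
      _ ≤ 20 * w * (d + L) := by
        apply Nat.mul_le_mul_right
        exact Nat.mul_le_mul_left _ hw
  calc D ≤ (4 * w) * ((c4 + 1) * (d + L)) + 3 * K * w * (d + L) + 20 * w * (d + L) := by omega
    _ = (4 * c4 + 3 * K + 24) * w * (d + L) := by ring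

theorem universal_gap : ∃ c : ℕ, ∀ (n t d σ : ℕ) (C : Circuit n), 2 ≤ C.size → C.size ≤ σ →
    C.nots ≤ t → 2 ^ (t + 1) ≤ n + 2 → NodesLE C d σ →
    ∃ C' : Circuit n, (∀ x, C'.eval x = C.eval x) ∧ C'.nots ≤ t ∧
      C'.depth ≤ c * (n + 3 - 2 ^ (t + 1)) * (d + Nat.clog 2 C.size) ∧
      C'.size ≤ σ ^ (c * (n + 3 - 2 ^ (t + 1))) := by
  obtain ⟨K, hK⟩ := exists_thrConst
  obtain ⟨c4, hc4⟩ := pot_circuits
  refine ⟨4 * c4 + 4 * K + 24, fun n t d σ C hS hSσ hnots htn hN => ?_⟩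
  obtain ⟨M, hM⟩ : ∃ M, M = C.reads.card := ⟨_, rfl⟩
  have hMS : M ≤ 2 * C.size + 1 := by rw [hM]; exact card_reads_le C
  have hMn : M ≤ n := by
    rw [hM]
    exact (Finset.card_le_univ _).trans (by simp)
  obtain ⟨T, hT⟩ : ∃ T, T = 2 ^ t := ⟨_, rfl⟩
  have hT2 : 2 ^ (t + 1) = 2 * T := by rw [pow_succ, hT]; ring
  have hTpos : 1 ≤ T := by rw [hT]; exact Nat.one_le_two_pow
  rw [hT2] at htn ⊢
  obtain ⟨s, hs⟩ : ∃ s, s = (n + 1) / 2 + 1 - T := ⟨_, rfl⟩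
  obtain ⟨w, hw⟩ : ∃ w, w = n + 3 - 2 * T := ⟨_, rfl⟩
  have hw1 : 1 ≤ w := by omega
  have hsw : 2 * s ≤ w := by omega
  rw [← hw]
  obtain ⟨r, hr⟩ : ∃ r, r = min (2 ^ t - 1) ((M + 1) / 2) := ⟨_, rfl⟩
  have hrM : r ≤ (M + 1) / 2 := by rw [hr]; exact min_le_right _ _
  have hrt : r + 1 ≤ 2 ^ t := by
    have h1 : r ≤ 2 ^ t - 1 := by rw [hr]; exact min_le_left _ _
    rw [← hT] at h1 ⊢
    omega
  have hpot : ∀ x, pot C s x ≤ r := by
    intro x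
    have h := pot_le C s hnots (by rw [← hM, ← hT]; omega) x
    rwa [← hM, ← hr] at h
  -- circuits for the potential
  have hcirc := hc4 n C s d σ hS hSσ hN
  -- one window
  obtain ⟨A, hA⟩ : ∃ A, A = (M + 1) ^ (2 * s + 3) * (2 * σ ^ c4 + 2 ^ (K * Nat.clog 2 (M + 2))) :=
    ⟨_, rfl⟩
  obtain ⟨D, hD⟩ : ∃ D, D = (2 * s + 3) * (d + c4 * Nat.clog 2 C.size) +
      K * Nat.clog 2 (M + 2) := ⟨_, rfl⟩
  have win : ∀ (g : (Fin n → Bool) → Bool) (a : ℕ), MonoFn g →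
      (∀ x y, (∀ j ∈ C.reads, x j = y j) → g x = g y) →
      (∃ G : Circuit n, (∀ x, G.eval x = g x) ∧ G.depth ≤ d + c4 * Nat.clog 2 C.size ∧
        G.size ≤ σ ^ c4) →
      (∀ x, wt C.reads x < a → g x = false) → (∀ x, a + (2 * s + 3) ≤ wt C.reads x → g x = true) →
      ∀ E : Circuit n, ∃ E' : Circuit n, ExtN A 0 E E' ∧ Avail E' g D := by
    intro g a hg hR hG h0 h1 E
    obtain ⟨G, hG1, hG2, hG3⟩ := hG
    obtain ⟨E', hE1, hE2⟩ := extN_window hK C.reads g hg hR G hG1 a (2 * s + 3) h0 h1 E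
    rw [← hM] at hE1 hE2
    refine ⟨E', hE1.weaken ?_ le_rfl, hE2.mono ?_⟩
    · rw [hA]
      apply Nat.mul_le_mul_left
      omega
    · rw [hD]
      have := Nat.mul_le_mul_left (2 * s + 3) hG2
      omega
  obtain ⟨E1, hE1, hT1⟩ := extN_finset (Finset.Icc 1 r) (fun i => potZ C s i) D A 0
    (Circuit.empty n)
    (fun i hi C' _ => by
      have hi1 := (Finset.mem_Icc.mp hi).1
      refine win (potZ C s i) (2 * i - 1) (potZ_mono C s i) (fun x y h => ?_) (hcirc i).1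
        (fun x hx => potZ_low C s i hi1 x hx) (fun x hx => potZ_high C s i x (by omega)) C'
      unfold potZ
      rw [pot_congr C s h])
  obtain ⟨E2, hE2, hT3⟩ := extN_finset (Finset.range (r + 1)) (fun i => potH C s i) D A 0 E1
    (fun i hi C' _ => by
      refine win (potH C s i) (2 * i - 1) (potH_mono C s i) (fun x y h => ?_) (hcirc i).2
        (fun x hx => potH_low C s i x hx) (fun x hx => potH_high C s i x (by omega)) C'
      unfold potH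
      rw [pot_congr C s h, eval_congr_reads C h])
  -- the inverter
  obtain ⟨q, hq⟩ : ∃ q, q = Nat.clog 2 (r + 1) := ⟨_, rfl⟩
  have hq2 : r + 1 ≤ 2 ^ q := by rw [hq]; exact Nat.le_pow_clog (by norm_num) _
  have hfalse : ∀ i, r < i → ∀ x, potZ C s i x = false := by
    intro i hi x
    have := hpot x
    unfold potZ
    simp only [decide_eq_false_iff_not, not_le]
    omega
  obtain ⟨E4, hE4, hT4⟩ := extN_inverter q E2 (potZ C s) D
    (fun i hi _ => by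
      by_cases h : i ≤ r
      · exact hE2.1 _ _ (hT1 i (Finset.mem_Icc.mpr ⟨hi, h⟩))
      · exact (Avail.const E2 false _).congr (fun x => hfalse i (by omega) x))
    (fun i j x hi hij _ h => by
      unfold potZ at h ⊢
      simp only [decide_eq_true_eq] at h ⊢
      omega)
  -- the conjunctions
  obtain ⟨E5, hE5, hT5⟩ := extN_finset (Finset.range (r + 1))
    (fun i x => potH C s i x && ! potZ C s (i + 1) x) (D + 4 * q + 1) 1 0 E4
    (fun j hj C' hC' => by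
      have hj2 : j < r + 1 := Finset.mem_range.mp hj
      have ha : Avail C' (potH C s j) D := hC' _ _ (hE4.1 _ _ (hT3 j hj))
      have hb : Avail C' (fun x => ! potZ C s (j + 1) x) (D + 4 * q) := by
        by_cases h : j + 1 < 2 ^ q
        · exact hC' _ _ (hT4 (j + 1) (by omega) h)
        · refine (Avail.const C' true _).congr (fun x => ?_)
          rw [hfalse (j + 1) (by omega) x]
          rfl
      obtain ⟨E', h1, h2⟩ := extN_and ha hb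
      exact ⟨E', h1, h2.mono (by omega)⟩)
  -- the final disjunction
  obtain ⟨p, hp⟩ : ∃ p, p = Nat.clog 2 (r + 1) := ⟨_, rfl⟩
  have hp2 : r + 1 ≤ 2 ^ p := by rw [hp]; exact Nat.le_pow_clog (by norm_num) _
  obtain ⟨E6, hE6, hT6⟩ := extN_bigor p (r + 1) hp2
    (fun i x => potH C s i x && ! potZ C s (i + 1) x)
    (D + 4 * q + 1) E5 (fun j hj => hT5 j (Finset.mem_range.mpr hj))
  obtain ⟨C', hC1, hC2, hC3, hC4⟩ := hT6.exists_circuit_nots
  refine ⟨C', fun x => ?_, ?_, ?_, ?_⟩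
  · rw [hC1 x, eval_eq_pot C s r x (hpot x)]
  · have n1 := hE1.2.2
    have n2 := hE2.2.2
    have n4 := hE4.2.2
    have n5 := hE5.2.2
    have n6 := hE6.2.2
    have n0 : (Circuit.empty n).nots = 0 := by
      unfold Circuit.nots
      rw [Finset.card_eq_zero, Finset.filter_eq_empty_iff]
      intro i
      exact i.elim0
    have nq : q ≤ t := by
      rw [hq]
      exact Nat.clog_le_of_le_pow hrt
    simp only [mul_zero, add_zero] at n1 n2 n4 n5 n6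
    omega
  · have h := gap_depth_arith c4 K w C.size M r s d q p C'.depth hS hMS hw1 hsw hrM hq hp
      (by rw [hD] at hC2; exact hC2)
    refine h.trans ?_
    apply Nat.mul_le_mul_right
    apply Nat.mul_le_mul_right
    omega
  · have s1 := hE1.2.1
    have s2 := hE2.2.1
    have s4 := hE4.2.1
    have s5 := hE5.2.1
    have s6 := hE6.2.1
    have s0 : (Circuit.empty n).size = 0 := rfl
    simp only [Nat.card_Icc, Finset.card_range, Nat.add_sub_cancel, mul_one] at s1 s2 s5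
    have h := gap_size_arith c4 K w C.size σ M r s q p (Nat.clog 2 (M + 2)) C'.size hS hSσ hMS hw1
      hsw hrM (two_pow_clog_le _ (by omega))
      (by rw [hq]; exact two_pow_clog_le _ (by omega))
      (by rw [hp]; exact two_pow_clog_le _ (by omega))
      (by rw [← hA]; omega)
    refine h.trans ?_
    apply Nat.pow_le_pow_right (by omega)
    apply Nat.mul_le_mul_right
    omega

end Pool.Agent.BoolCirc
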