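import Pool.Agent.NegThr.RM8a

/-!
Module W6: the simulation with a smaller gadget.
-/

namespace Pool.Agent.BoolCirc

private theorem w6_bern (a b : ℕ) : ∀ s : ℕ, (a + s * b) * a ^ s ≤ a * (a + b) ^ s
  | 0 => by simp
  | s + 1 => by
    have ih := w6_bern a b s
    calc (a + (s + 1) * b) * a ^ (s + 1) ≤ (a + b) * ((a + s * b) * a ^ s) := by
          have : (a + b) * ((a + s * b) * a ^ s)
              = (a + (s + 1) * b) * a ^ (s + 1) + s * b * b * a ^ s := by ring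
          omega
      _ ≤ (a + b) * (a * (a + b) ^ s) := Nat.mul_le_mul_left _ ih
      _ = a * (a + b) ^ (s + 1) := by ring

private theorem w6_two (a b s : ℕ) (h : a ≤ s * b) (ha : 0 < a) :
    2 * a ^ s ≤ (a + b) ^ s := by
  have h1 := w6_bern a b s
  have h2 : a * (2 * a ^ s) ≤ a * (a + b) ^ s := by
    refine le_trans ?_ h1
    calc a * (2 * a ^ s) = (a + a) * a ^ s := by ring
      _ ≤ (a + s * b) * a ^ s := Nat.mul_le_mul_right _ (by omega)
  exact Nat.le_of_mul_le_mul_left h2 ha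

private theorem w6_L (L : ℕ) (hL : 23 ≤ L) : 140000 * L ≤ 2 ^ (L - 1) := by
  obtain ⟨k, rfl⟩ := Nat.exists_eq_add_of_le hL
  have : ∀ k : ℕ, 140000 * (23 + k) ≤ 2 ^ (22 + k) := by
    intro k
    induction k with
    | zero => norm_num
    | succ k ih =>
      have h1 : 2 ^ (22 + (k + 1)) = 2 * 2 ^ (22 + k) := by ring
      omega
  have h2 : 23 + k - 1 = 22 + k := by omega
  rw [h2]
  exact this k

private theorem w6_log (h : ℕ) (hh : 2 ^ 22 ≤ h) :
    1 ≤ Nat.log 2 h + 1 ∧ h < 2 ^ (Nat.log 2 h + 1) ∧ 140000 * (Nat.log 2 h + 1) ≤ h := by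
  have hpos : h ≠ 0 := by
    intro h0
    rw [h0] at hh
    norm_num at hh
  have h22 : 22 ≤ Nat.log 2 h := by
    have := Nat.log_mono_right (b := 2) hh
    rwa [Nat.log_pow (by norm_num)] at this
  refine ⟨by omega, Nat.lt_pow_succ_log_self (by norm_num) h, ?_⟩
  have h1 := w6_L (Nat.log 2 h + 1) (by omega)
  have h2 : 2 ^ Nat.log 2 h ≤ h := Nat.pow_log_le_self 2 hpos
  rw [Nat.add_sub_cancel] at h1
  omega

private theorem w6_htau (h L : ℕ) (hL : 1 ≤ L) (hh : 140000 * L ≤ h) :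
    12 * ((h + h ^ 2 * (2 * (33 * h ^ 2 * (9 * L * h ^ 2)))) +
      3 * (33 * h ^ 2 * (9 * L * h ^ 2)) + 1) ≤ h ^ 7 / 16 := by
  rw [Nat.le_div_iff_mul_le (by norm_num)]
  have h7 : 140000 * L * h ^ 6 ≤ h ^ 7 := by
    calc 140000 * L * h ^ 6 ≤ h * h ^ 6 := Nat.mul_le_mul_right _ hh
      _ = h ^ 7 := by ring
  have hge : 140000 ≤ h := by omega
  have e1 : 140000 * (L * h ^ 4) ≤ L * h ^ 6 := by
    calc 140000 * (L * h ^ 4) ≤ h ^ 2 * (L * h ^ 4) := by
          refine Nat.mul_le_mul_right _ ?_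
          nlinarith
      _ = L * h ^ 6 := by ring
  have e2 : h ≤ L * h ^ 6 := by
    calc h ≤ h ^ 6 := Nat.le_self_pow (by norm_num) h
      _ ≤ L * h ^ 6 := Nat.le_mul_of_pos_left _ hL
  have e3 : 1 ≤ L * h ^ 6 := by omega
  have e4 : 12 * ((h + h ^ 2 * (2 * (33 * h ^ 2 * (9 * L * h ^ 2)))) +
      3 * (33 * h ^ 2 * (9 * L * h ^ 2)) + 1) * 16
      = 192 * h + 114048 * (L * h ^ 6) + 171072 * (L * h ^ 4) + 192 := by ring
  have e5 : 140000 * L * h ^ 6 = 140000 * (L * h ^ 6) := by ring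
  rw [e4]
  omega

private theorem w6_htau2 (h : ℕ) : 4 * h ^ 2 * (h ^ 7 / 16) ≤ h ^ 9 / 4 := by
  rw [Nat.le_div_iff_mul_le (by norm_num)]
  have h1 : h ^ 7 / 16 * 16 ≤ h ^ 7 := Nat.div_mul_le_self _ _
  calc 4 * h ^ 2 * (h ^ 7 / 16) * 4 = h ^ 2 * (h ^ 7 / 16 * 16) := by ring
    _ ≤ h ^ 2 * h ^ 7 := Nat.mul_le_mul_left _ h1
    _ = h ^ 9 := by ring

private theorem w6_hu (h L N : ℕ) (hL : 1 ≤ L) (hlt : h < 2 ^ L) (hh : 140000 * L ≤ h)
    (hN : N < h ^ 2) :
    (h ^ 9) ^ N * (2 * h ^ 9 - h ^ 7 / 16) ^ (33 * h ^ 2 * (9 * L * h ^ 2)) <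
      (2 * h ^ 9) ^ (33 * h ^ 2 * (9 * L * h ^ 2)) := by
  have hge : 140000 ≤ h := by omega
  have hpos : 0 < h := by omega
  set τ := h ^ 7 / 16 with hτ
  have t1 : 16 * τ ≤ h ^ 7 := by omega
  have t2 : h ^ 7 ≤ 16 * τ + 15 := by omega
  have h79 : h ^ 7 ≤ h ^ 9 := Nat.pow_le_pow_right hpos (by norm_num)
  have h9 : 0 < h ^ 9 := by positivity
  set a := 2 * h ^ 9 - τ with ha
  have hab : a + τ = 2 * h ^ 9 := by omega
  have hapos : 0 < a := by omega
  have hs : a ≤ 33 * h ^ 2 * τ := by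
    have h3 : h ^ 2 * h ^ 7 ≤ h ^ 2 * (16 * τ + 15) := Nat.mul_le_mul_left _ t2
    have h4 : 495 * h ^ 2 ≤ h ^ 9 := by
      calc 495 * h ^ 2 ≤ h ^ 7 * h ^ 2 := by
            refine Nat.mul_le_mul_right _ ?_
            calc 495 ≤ h := by omega
              _ ≤ h ^ 7 := Nat.le_self_pow (by norm_num) h
        _ = h ^ 9 := by ring
    have h5 : h ^ 2 * h ^ 7 = h ^ 9 := by ring
    have h6 : h ^ 2 * (16 * τ + 15) = 16 * (h ^ 2 * τ) + 15 * h ^ 2 := by ring
    have h7 : 33 * h ^ 2 * τ = 33 * (h ^ 2 * τ) := by ring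
    omega
  have htwo := w6_two a τ (33 * h ^ 2) hs hapos
  rw [hab] at htwo
  have hmN : (h ^ 9) ^ N < 2 ^ (9 * L * h ^ 2) := by
    have h1 : (h ^ 9) ^ N ≤ 2 ^ (9 * L * N) := by
      calc (h ^ 9) ^ N = h ^ (9 * N) := by rw [← pow_mul]
        _ ≤ (2 ^ L) ^ (9 * N) := Nat.pow_le_pow_left hlt.le _
        _ = 2 ^ (9 * L * N) := by rw [← pow_mul]; congr 1; ring
    refine lt_of_le_of_lt h1 (Nat.pow_lt_pow_right (by norm_num) ?_)
    exact Nat.mul_lt_mul_of_pos_left hN (by omega)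
  have hpp : 0 < a ^ (33 * h ^ 2 * (9 * L * h ^ 2)) := by positivity
  calc (h ^ 9) ^ N * a ^ (33 * h ^ 2 * (9 * L * h ^ 2))
      < 2 ^ (9 * L * h ^ 2) * a ^ (33 * h ^ 2 * (9 * L * h ^ 2)) :=
        Nat.mul_lt_mul_of_pos_right hmN hpp
    _ = (2 * a ^ (33 * h ^ 2)) ^ (9 * L * h ^ 2) := by
        rw [pow_mul a, mul_pow]
    _ ≤ ((2 * h ^ 9) ^ (33 * h ^ 2)) ^ (9 * L * h ^ 2) := Nat.pow_le_pow_left htwo _
    _ = (2 * h ^ 9) ^ (33 * h ^ 2 * (9 * L * h ^ 2)) := by rw [← pow_mul]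

/-- monotone formulas for the lifted pyramid function are deep, smaller gadget -/
theorem gad_lower_nine (H : ℕ) (hH : 2 ^ 22 ≤ H + 1) (F : MF (RVar H ((H + 1) ^ 9)))
    (hF : ∀ w, F.eval w = gad H ((H + 1) ^ 9) w) : H ≤ F.depth := by
  classical
  by_contra hcon
  push Not at hcon
  obtain ⟨hL1, hL2, hL3⟩ := w6_log (H + 1) hH
  have hV : Fintype.card (PNode H) = (H + 1) ^ 2 := by
    simp only [PNode, Fintype.card_prod, Fintype.card_fin]
    rw [sq]
  have hH1 : 2 ≤ H + 1 := le_trans (by norm_num) hH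
  have hpow9 : 0 < (H + 1) ^ 9 := by positivity
  have hsim := simulation (pcl (H := H)) (m := (H + 1) ^ 9) 4
    (33 * (H + 1) ^ 2 * (9 * (Nat.log 2 (H + 1) + 1) * (H + 1) ^ 2))
    ((H + 1) ^ 7 / 16) ((H + 1) ^ 9 / 4)
    ((H + 1) + (H + 1) ^ 2 *
      (2 * (33 * (H + 1) ^ 2 * (9 * (Nat.log 2 (H + 1) + 1) * (H + 1) ^ 2)))) (by norm_num)
    (by omega)
    (fun N hN => w6_hu (H + 1) _ N hL1 hL2 hL3 (by rwa [hV] at hN))
    (w6_htau (H + 1) _ hL1 hL3)
    (by rw [hV]; exact w6_htau2 (H + 1))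
    F.depth H Finset.univ (fun _ => false) Finset.univ Finset.univ 0
    (by rw [Finset.coe_univ, Finset.coe_univ]; exact lsolves_of_mf F hF) (pyramid_adv H)
    (by
      intro a _ a' _ haa
      funext v
      exact haa v (Finset.mem_univ v))
    (by
      intro i _ a _
      have h1 : (H + 1) ^ 7 / 16 ≤ (Finset.univ : Finset (Fin ((H + 1) ^ 9))).card := by
        rw [Finset.card_univ, Fintype.card_fin]
        refine (Nat.div_le_self _ _).trans ?_
        exact Nat.pow_le_pow_right (by omega) (by norm_num)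
      refine h1.trans (Finset.card_le_card_of_injOn (fun e => Function.update a i e) ?_ ?_)
      · intro e _
        refine Finset.mem_coe.2 (Finset.mem_filter.2 ⟨Finset.mem_univ _, ?_⟩)
        intro w hw
        exact Function.update_of_ne (Finset.ne_of_mem_erase hw) _ _
      · intro e _ e' _ hee
        have := congrFun hee i
        simpa using this)
    (by
      rw [pow_zero, one_mul, Finset.card_image_of_injective _ bres_univ_injective,
        Finset.card_univ, Finset.card_univ, Fintype.card_fun, Fintype.card_fun,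
        Fintype.card_bool, Fintype.card_fin, ← pow_mul])
    (by
      intro a _ y _ v hv
      exact absurd (Finset.mem_univ v) hv)
    (by
      rw [Finset.card_univ, hV]
      omega)
  have h2 : 4 ^ H ≤ 4 ^ F.depth := by
    rw [Finset.card_univ, Finset.card_univ, Fintype.card_fun, Fintype.card_fin] at hsim
    exact Nat.le_of_mul_le_mul_right hsim (by positivity)
  have h3 := (Nat.pow_le_pow_iff_right (by norm_num : 1 < 4)).1 h2
  omega

end Pool.Agent.BoolCirc
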