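import Pool.Agent.NegThr.GapDefs
import Pool.Agent.NegThr.RM8b
import Pool.Agent.NegThr.W6

/-!
Module W7: the lower bound for the depth of circuits with few NOT gates in terms of the gap.
-/

namespace Pool.Agent.BoolCirc

/-- the lower bound for one circuit, for any lower bound for monotone formulas -/
theorem depth_lower_gap_aux {m k t H q h₀ : ℕ}
    (hgad : ∀ F : MF (RVar H q), (∀ w, F.eval w = gad H q w) → h₀ ≤ F.depth)
    (hm : m + 2 = 2 ^ (t + 1))
    (emb : RVar H q → Fin k) (hemb : Function.Injective emb)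
    (p : (Fin m → Bool) → Bool) (hp : ∀ j ≤ m, p (stair j) = decide (Odd j))
    (D : Circuit (m + k))
    (hD : ∀ x y, D.eval (Fin.append x y) =
      (p x || gad H q (fun e => y (emb e)))) (hn : D.nots ≤ t) :
    h₀ ≤ D.depth := by
  classical
  obtain ⟨F, hF1, hF2⟩ := markov_mono t D hn hm.ge
    (fun y => gad H q (fun e => y (emb e))) (gad_const_false _ _)
    (fun j hj y => by rw [hD, hp j hj])
  set g : Fin k → MF (RVar H q) := fun i =>
    if h : ∃ e, emb e = i then MF.inp h.choose else MF.cst false with hgdef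
  have hg0 : ∀ i, (g i).depth ≤ 0 := by
    intro i
    simp only [hgdef]
    split_ifs
    · exact le_rfl
    · exact le_rfl
  have hge : ∀ (E : RVar H q → Bool) e, (g (emb e)).eval E = E e := by
    intro E e
    have h : ∃ e', emb e' = emb e := ⟨e, rfl⟩
    simp only [hgdef]
    rw [dif_pos h]
    show E h.choose = E e
    rw [hemb h.choose_spec]
  have h2 := hgad (F.bind g) (fun E => by
    rw [MF.eval_bind, hF2]
    congr 1
    funext e
    exact hge E e)
  have h3 := MF.depth_bind_le g 0 hg0 F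
  omega

theorem gap_numeric {H : ℕ} (hH : 1000 ≤ H) : 2 * (H + 2) ^ 29 ≤ H ^ 30 := by
  have h1 : (500 * (H + 2)) ^ 29 ≤ (501 * H) ^ 29 := Nat.pow_le_pow_left (by omega) 29
  rw [mul_pow, mul_pow] at h1
  have h2 : 2 * 501 ^ 29 ≤ 500 ^ 29 * 1000 := by norm_num
  have h3 : 500 ^ 29 * (2 * (H + 2) ^ 29) ≤ 500 ^ 29 * H ^ 30 := by
    calc 500 ^ 29 * (2 * (H + 2) ^ 29) = 2 * (500 ^ 29 * (H + 2) ^ 29) := by ring
      _ ≤ 2 * (501 ^ 29 * H ^ 29) := Nat.mul_le_mul_left 2 h1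
      _ = (2 * 501 ^ 29) * H ^ 29 := by ring
      _ ≤ (500 ^ 29 * 1000) * H ^ 29 := Nat.mul_le_mul_right _ h2
      _ ≤ (500 ^ 29 * H) * H ^ 29 :=
        Nat.mul_le_mul_right _ (Nat.mul_le_mul_left _ hH)
      _ = 500 ^ 29 * H ^ 30 := by ring
  exact Nat.le_of_mul_le_mul_left h3 (by positivity)

theorem gap_lower : ∃ g₀ : ℕ, ∀ n t : ℕ, g₀ ≤ n + 2 - 2 ^ (t + 1) →
    ∃ C : Circuit n, 2 ≤ C.size ∧ C.size ≤ 100 * n ∧ C.nots ≤ t ∧
      ∀ D : Circuit n, (∀ x, D.eval x = C.eval x) → D.nots ≤ t →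
        n + 2 - 2 ^ (t + 1) ≤ D.depth ^ 30 := by
  obtain ⟨b, hb⟩ : ∃ b : ℕ, b = 2 ^ 22 := ⟨_, rfl⟩
  have hb1 : 1001 ≤ b := by rw [hb]; norm_num
  refine ⟨2 * b ^ 29, ?_⟩
  intro n t hn
  obtain ⟨m, hm⟩ : ∃ m, m + 2 = 2 ^ (t + 1) := ⟨2 ^ (t + 1) - 2, by
    have : 2 ^ 1 ≤ 2 ^ (t + 1) := Nat.pow_le_pow_right (by norm_num) (by omega)
    omega⟩
  rw [← hm] at hn ⊢
  have hb0 : 1 ≤ b ^ 29 := Nat.one_le_pow _ _ (by omega)
  obtain ⟨k, rfl⟩ : ∃ k, n = m + k := ⟨n - m, by omega⟩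
  have hgap : m + k + 2 - (m + 2) = k := by omega
  rw [hgap] at hn ⊢
  obtain ⟨H, hH1, hH2, hH3⟩ : ∃ H, b ≤ H + 1 ∧ 2 * (H + 1) ^ 29 ≤ k ∧ k < 2 * (H + 2) ^ 29 := by
    have hex : ∃ a, k < 2 * (a + 2) ^ 29 := ⟨k, by
      have : (k + 2) ^ 1 ≤ (k + 2) ^ 29 := Nat.pow_le_pow_right (by omega) (by norm_num)
      rw [pow_one] at this
      omega⟩
    classical
    refine ⟨Nat.find hex, ?_, ?_, Nat.find_spec hex⟩
    · by_contra hlt
      push Not at hlt
      have h1 := Nat.find_spec hex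
      have h2 : (Nat.find hex + 2) ^ 29 ≤ b ^ 29 := Nat.pow_le_pow_left (by omega) 29
      omega
    · by_contra hlt
      push Not at hlt
      rcases Nat.eq_zero_or_pos (Nat.find hex) with h0 | h0
      · rw [h0] at hlt
        have h2 : (0 + 1) ^ 29 ≤ b ^ 29 := Nat.pow_le_pow_left (by omega) 29
        omega
      · have h3 := Nat.find_min' hex (m := Nat.find hex - 1) (by
          rw [show Nat.find hex - 1 + 2 = Nat.find hex + 1 by omega]
          exact hlt)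
        omega
  have hcard : (H + 1) ^ 2 * ((H + 1) ^ 9) ^ 3 + (H + 1) ^ 9 ≤ k := by
    refine le_trans ?_ hH2
    have e1 : (H + 1) ^ 9 ≤ (H + 1) ^ 29 := Nat.pow_le_pow_right (by omega) (by norm_num)
    have e2 : (H + 1) ^ 2 * ((H + 1) ^ 9) ^ 3 = (H + 1) ^ 29 := by
      rw [← pow_mul, ← pow_add]
    rw [e2]
    omega
  have hgad := gad_lower_nine H (by rw [← hb]; exact hH1)
  generalize (H + 1) ^ 9 = q at hcard hgad
  have ecard : Fintype.card (RVar H q) = (H + 1) ^ 2 * q ^ 3 + q := by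
    simp only [RVar, PNode, Fintype.card_sum, Fintype.card_prod, Fintype.card_fin]
    ring
  obtain ⟨emb⟩ : Nonempty (RVar H q ↪ Fin k) := by
    apply Function.Embedding.nonempty_of_card_le
    rw [ecard, Fintype.card_fin]
    exact hcard
  obtain ⟨C, p, hp, hC, hCn, hCs⟩ := hard_circuit_rm m k t H q hm emb
  have key : ∀ D : Circuit (m + k), (∀ x, D.eval x = C.eval x) → D.nots ≤ t →
      H ≤ D.depth := fun D hD hDn =>
    depth_lower_gap_aux hgad hm emb emb.injective p hp D (fun x y => by rw [hD, hC]) hDn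
  refine ⟨C, ?_, ?_, hCn, ?_⟩
  · have := key C (fun _ => rfl) hCn
    have h3 := C.depth_le_size
    omega
  · have h4 : 4 * ((H + 1) ^ 2 * q ^ 3 + q) ≤ 4 * k := Nat.mul_le_mul_left 4 hcard
    omega
  · intro D hD hDn
    have h5 := key D hD hDn
    calc k ≤ 2 * (H + 2) ^ 29 := hH3.le
      _ ≤ H ^ 30 := gap_numeric (by omega)
      _ ≤ D.depth ^ 30 := Nat.pow_le_pow_left h5 30

end Pool.Agent.BoolCirc
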