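import Pool.Agent.BoolCirc.Pad
import Pool.Agent.NegThr.M
import Pool.Agent.NegThr.G2
import Pool.Agent.NegThr.G3
import Pool.Agent.NegThr.H

/-!
Module Z: the quantitative lower bound for circuits with few NOT gates.
-/

namespace Pool.Agent.BoolCirc

/-- monotone formulas for layered reachability are deep -/
theorem fork_lower (a w : ℕ) (ha : 16 ≤ a) (hw : w.Prime) (h1 : 2 ^ a < w)
    (F : MF (EdgeVar (2 ^ (a - 6)) w))
    (hF : ∀ E, F.eval E = reach (2 ^ (a - 6)) w E) : (a - 6) * (a / 4) ≤ F.depth := by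
  by_contra hd
  exact fork_not_solves a w F.depth ha hw h1 (not_le.mp hd) (solves_of_mf hw.two_le F hF)

/-- no path without edges -/
theorem reach_const_false (l w : ℕ) : reach l w (fun _ => false) = false := by
  classical
  unfold reach
  rw [decide_eq_false_iff_not]
  rintro ⟨p, -, -, h⟩
  exact Bool.false_ne_true (h ⟨0, Nat.succ_pos l⟩)

/-- the lower bound for one circuit -/
theorem depth_lower_aux {m k t a w : ℕ} (ha : 16 ≤ a) (hw : w.Prime) (h1 : 2 ^ a < w)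
    (hm : m + 2 = 2 ^ (t + 1)) (emb : EdgeVar (2 ^ (a - 6)) w → Fin k)
    (hemb : Function.Injective emb) (p : (Fin m → Bool) → Bool)
    (hp : ∀ j ≤ m, p (stair j) = decide (Odd j)) (D : Circuit (m + k))
    (hD : ∀ x y, D.eval (Fin.append x y) =
      (p x || reach (2 ^ (a - 6)) w (fun e => y (emb e)))) (hn : D.nots ≤ t) :
    (a - 6) * (a / 4) ≤ D.depth := by
  classical
  obtain ⟨F, hF1, hF2⟩ := markov_mono t D hn hm.ge
    (fun y => reach (2 ^ (a - 6)) w (fun e => y (emb e))) (reach_const_false _ _)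
    (fun j hj y => by rw [hD, hp j hj])
  set g : Fin k → MF (EdgeVar (2 ^ (a - 6)) w) := fun i =>
    if h : ∃ e, emb e = i then MF.inp h.choose else MF.cst false with hgdef
  have hg0 : ∀ i, (g i).depth ≤ 0 := by
    intro i
    simp only [hgdef]
    split_ifs
    · exact le_rfl
    · exact le_rfl
  have hge : ∀ (E : EdgeVar (2 ^ (a - 6)) w → Bool) e, (g (emb e)).eval E = E e := by
    intro E e
    have h : ∃ e', emb e' = emb e := ⟨e, rfl⟩
    simp only [hgdef]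
    rw [dif_pos h]
    show E h.choose = E e
    rw [hemb h.choose_spec]
  have h2 := fork_lower a w ha hw h1 (F.bind g) (fun E => by
    rw [MF.eval_bind, hF2]
    congr 1
    funext e
    exact hge E e)
  have h3 := MF.depth_bind_le g 0 hg0 F
  omega

theorem threshold_lower : ∃ (δ : ℝ) (n₀ : ℕ), 0 < δ ∧ ∀ n ≥ n₀, ∀ t : ℕ, 3 * 2 ^ t ≤ n →
    ∃ C : Circuit n, 2 ≤ C.size ∧ C.size ≤ 100 * n ∧ C.nots ≤ t ∧
      ∀ D : Circuit n, (∀ x, D.eval x = C.eval x) → D.nots ≤ t →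
        δ * (Real.logb 2 n) ^ 2 ≤ D.depth := by
  refine ⟨1 / 100, 2 ^ 50, by norm_num, ?_⟩
  intro n hn t ht
  obtain ⟨m, hm⟩ : ∃ m, m + 2 = 2 ^ (t + 1) := ⟨2 ^ (t + 1) - 2, by
    have : 2 ^ 1 ≤ 2 ^ (t + 1) := Nat.pow_le_pow_right (by norm_num) (by omega)
    omega⟩
  have hm2 : m + 2 = 2 * 2 ^ t := by rw [hm, pow_succ]; ring
  obtain ⟨k, rfl⟩ : ∃ k, n = m + k := ⟨n - m, by omega⟩
  have hk3 : m + k ≤ 3 * k := by omega
  set b := Nat.log 2 k with hb
  set a := b / 3 with ha'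
  have hk0 : k ≠ 0 := by omega
  have hkb : 2 ^ b ≤ k := Nat.pow_log_le_self 2 hk0
  have hkb' : k < 2 ^ (b + 1) := Nat.lt_pow_succ_log_self (by norm_num) k
  have hb48 : 48 ≤ b := by
    have h1 : (2 : ℕ) ^ 48 ≤ k := by
      have : (2 : ℕ) ^ 50 ≤ 3 * k := le_trans hn hk3
      omega
    have h2 : (2 : ℕ) ^ 48 < 2 ^ (b + 1) := lt_of_le_of_lt h1 hkb'
    have := (Nat.pow_lt_pow_iff_right (by norm_num : 1 < 2)).mp h2
    omega
  have ha16 : 16 ≤ a := by omega
  obtain ⟨w, hw, h1, h2⟩ := Nat.exists_prime_lt_and_le_two_mul (2 ^ a) (by positivity)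
  have hl : 2 ^ (a - 6) + 2 ≤ 2 ^ (a - 5) := by
    have e1 : 2 ^ (a - 5) = 2 * 2 ^ (a - 6) := by
      rw [← pow_succ']; congr 1; omega
    have e2 : 2 ^ 1 ≤ 2 ^ (a - 6) := Nat.pow_le_pow_right (by norm_num) (by omega)
    omega
  have hlw : (2 ^ (a - 6) + 2) * w ^ 2 ≤ k := by
    calc (2 ^ (a - 6) + 2) * w ^ 2 ≤ 2 ^ (a - 5) * (2 * 2 ^ a) ^ 2 := by gcongr
      _ = 2 ^ ((a - 5) + (2 * a + 2)) := by
        rw [pow_add, ← pow_succ', ← pow_mul]; congr 2; ring
      _ ≤ 2 ^ b := Nat.pow_le_pow_right (by norm_num) (by omega)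
      _ ≤ k := hkb
  obtain ⟨emb⟩ : Nonempty (EdgeVar (2 ^ (a - 6)) w ↪ Fin k) := by
    apply Function.Embedding.nonempty_of_card_le
    simp only [EdgeVar, Fintype.card_prod, Fintype.card_fin]
    nlinarith [hlw, Nat.zero_le (w * w)]
  obtain ⟨C, p, hp, hC, hCn, hCs⟩ := hard_circuit m k t (2 ^ (a - 6)) w hm emb
  have key : ∀ D : Circuit (m + k), (∀ x, D.eval x = C.eval x) → D.nots ≤ t →
      (a - 6) * (a / 4) ≤ D.depth := fun D hD hDn =>
    depth_lower_aux ha16 hw h1 hm emb emb.injective p hp D (fun x y => by rw [hD, hC]) hDn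
  have h40 : 40 ≤ (a - 6) * (a / 4) := by
    have e1 : 10 ≤ a - 6 := by omega
    have e2 : 4 ≤ a / 4 := by omega
    calc 40 = 10 * 4 := by norm_num
      _ ≤ _ := Nat.mul_le_mul e1 e2
  refine ⟨C, ?_, ?_, hCn, ?_⟩
  · have := key C (fun _ => rfl) hCn
    have h3 := C.depth_le_size
    omega
  · have h4 : 4 * (2 ^ (a - 6) + 2) * w ^ 2 ≤ 4 * k := by
      rw [mul_assoc]; exact Nat.mul_le_mul_left 4 hlw
    omega
  · intro D hD hDn
    have h5 := key D hD hDn
    have h6 : ((a - 6) * (a / 4) : ℕ) ≤ (D.depth : ℝ) := by exact_mod_cast h5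
    refine le_trans ?_ h6
    -- numeric estimate
    have hlog : Real.logb 2 ((m + k : ℕ) : ℝ) ≤ 3 * a + 5 := by
      have hpos : (0 : ℝ) < ((m + k : ℕ) : ℝ) := by
        have : 0 < m + k := by omega
        exact_mod_cast this
      have h7 : ((m + k : ℕ) : ℝ) ≤ (2 : ℝ) ^ ((3 * a + 5 : ℕ) : ℝ) := by
        rw [Real.rpow_natCast]
        have : m + k ≤ 2 ^ (3 * a + 5) := by
          calc m + k ≤ 3 * k := hk3
            _ ≤ 4 * 2 ^ (b + 1) := by omega
            _ = 2 ^ (b + 3) := by rw [show b + 3 = (b + 1) + 2 by ring, pow_add _ (b + 1)]; ring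
            _ ≤ 2 ^ (3 * a + 5) := Nat.pow_le_pow_right (by norm_num) (by omega)
        exact_mod_cast this
      calc Real.logb 2 ((m + k : ℕ) : ℝ) ≤ Real.logb 2 ((2 : ℝ) ^ ((3 * a + 5 : ℕ) : ℝ)) :=
            Real.logb_le_logb_of_le (by norm_num) hpos h7
        _ = ((3 * a + 5 : ℕ) : ℝ) := Real.logb_rpow (by norm_num) (by norm_num)
        _ = 3 * a + 5 := by push_cast; ring
    have hlog0 : 0 ≤ Real.logb 2 ((m + k : ℕ) : ℝ) := by
      apply Real.logb_nonneg (by norm_num)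
      have : 1 ≤ m + k := by omega
      exact_mod_cast this
    have hsq : (Real.logb 2 ((m + k : ℕ) : ℝ)) ^ 2 ≤ (3 * a + 5) ^ 2 :=
      pow_le_pow_left₀ hlog0 hlog 2
    have hnat : (3 * a + 5) ^ 2 ≤ 100 * ((a - 6) * (a / 4)) := by
      obtain ⟨c, hc⟩ : ∃ c, a = c + 16 := ⟨a - 16, by omega⟩
      have e1 : c + 13 ≤ 4 * (a / 4) := by omega
      have e2 : a - 6 = c + 10 := by omega
      rw [e2, hc] at *
      nlinarith [Nat.mul_le_mul_left (c + 10) e1]
    have hreal : (3 * (a : ℝ) + 5) ^ 2 ≤ 100 * (((a - 6) * (a / 4) : ℕ) : ℝ) := by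
      exact_mod_cast hnat
    linarith

end Pool.Agent.BoolCirc
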